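import Pool.Agent.Lib.MP_a7fa83_ag.Cs.Defs

section

/-!
# MP_a7fa83_ag, compact surfaces: abstract setting for the induction

`τ_k` (`k ∈ ℕ`) are the source variables of `MvPowerSeries ℕ _`, and `y` is the variable of the
inner power series in `MvPowerSeries ℕ R⟦X⟧`.
-/

set_option autoImplicit false

namespace MPa7fa83.Cs

open Finset PowerSeries MPa7fa83.Ok

section

variable {R : Type*} [CommRing R] [Algebra ℚ R]

/-- a filtered algebra -/
structure Fil (ok : ℕ → ℕ → Prop) (A : ℕ → AddSubgroup R) : Prop where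
  one : (1 : R) ∈ A 0
  rat : ∀ (q : ℚ) {m : ℕ} {a : R}, a ∈ A m → algebraMap ℚ R q * a ∈ A m
  mul : ∀ {m n : ℕ} {a b : R}, a ∈ A m → b ∈ A n → a * b ∈ A (m + n)
  mono : ∀ {m n : ℕ}, ok m n → A m ≤ A n

/-- the substitution `τ_k ↦ τ_k y^k` -/
noncomputable def tw (f : MvPowerSeries ℕ R) : MvPowerSeries ℕ R⟦X⟧ :=
  fun I => C (MvPowerSeries.coeff I f) * X ^ deg I

end

/-- left part of an exponent -/
noncomputable def dl (d : ℕ ⊕ ℕ →₀ ℕ) : ℕ →₀ ℕ :=
  d.comapDomain Sum.inl (Set.injOn_of_injective Sum.inl_injective)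

/-- right part of an exponent -/
noncomputable def dr (d : ℕ ⊕ ℕ →₀ ℕ) : ℕ →₀ ℕ :=
  d.comapDomain Sum.inr (Set.injOn_of_injective Sum.inr_injective)

/-- the `j`-th term: `∑_d p_d N_{d_l}(τ y) M_{d_r}`, `p = ∑_d p_d x^d` -/
noncomputable def jt {R : Type*} [CommRing R] (N : (ℕ →₀ ℕ) → MvPowerSeries ℕ R)
    (M : (ℕ →₀ ℕ) → MvPowerSeries ℕ R⟦X⟧) (p : MvPolynomial (ℕ ⊕ ℕ) R) :
    MvPowerSeries ℕ R⟦X⟧ :=
  ∑ d ∈ p.support, MvPowerSeries.C (C (p.coeff d)) * (tw (N (dl d)) * M (dr d))

/-- the relation: for `n ≥ deg I + 2` the coefficient of `τ^I y^n` of `∑_j y^j V_j` is zero -/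
def Rel {R : Type*} [CommRing R] (V : ℕ → MvPowerSeries ℕ R⟦X⟧) : Prop :=
  ∀ (I : ℕ →₀ ℕ) (n : ℕ), deg I + 2 ≤ n →
    ∑ j ∈ range (n + 1), coeff (n - j) (MvPowerSeries.coeff I (V j)) = 0

end MPa7fa83.Cs
end

section

/-!
# MP_a7fa83_ag, compact surfaces: the group ring

`GR` is the group ring of `ℤ³`; the four weights are `u1, u2, u3, u4` with
`u1 + u2 + u3 + u4 = 0`.
-/

set_option autoImplicit false

namespace MPa7fa83.Cs

open Finset

/-- the lattice -/
abbrev Gm := ℤ × ℤ × ℤ

/-- its group ring -/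
abbrev GR := AddMonoidAlgebra ℤ Gm

/-- the element `e^γ` -/
noncomputable def xx (γ : Gm) : GR := AddMonoidAlgebra.single γ 1

/-- first weight -/
def u1 : Gm := (1, 0, 0)
/-- second weight -/
def u2 : Gm := (0, 1, 0)
/-- third weight -/
def u3 : Gm := (0, 0, 1)
/-- fourth weight -/
def u4 : Gm := (-1, -1, -1)

/-- position of a box in the plane `u, v` -/
def pt (u v : Gm) (e : ℕ × ℕ) : Gm := (e.1 : ℤ) • u + (e.2 : ℤ) • v

/-- character of a diagram -/
noncomputable def KK (u v : Gm) (s : Finset (ℕ × ℕ)) : GR := ∑ e ∈ s, xx (pt u v e)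

/-- corner character -/
noncomputable def HH (u v : Gm) (s : Finset (ℕ × ℕ)) : GR := 1 - (1 - xx u) * (1 - xx v) * KK u v s

/-- tangent character -/
noncomputable def TT (u v : Gm) (s : Finset (ℕ × ℕ)) : GR :=
  ∑ e ∈ s, (xx (((arm s e : ℤ) + 1) • u - (leg s e : ℤ) • v) +
    xx (((leg s e : ℤ) + 1) • v - (arm s e : ℤ) • u))

/-- the interaction character of a pair of diagrams -/
noncomputable def NN (s r : Finset (ℕ × ℕ)) : GR := HH u3 u4 r * HH (-u1) (-u2) s

/-- the involution `e^γ ↦ e^{-γ}` -/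
noncomputable def st : GR →+* GR :=
  AddMonoidAlgebra.mapDomainRingHom ℤ (-(AddMonoidHom.id Gm))

/-- the pole attached to the boxes `c` (plane 12) and `d` (plane 34) -/
def pole (c d : ℕ × ℕ) : Gm := pt u3 u4 d - pt u1 u2 c - u1 - u2

section

variable {F : Type*} [Field F]

/-- the evaluation with the weights `t1, t2, t3` -/
def ev (t1 t2 t3 : F) : Gm →+ F where
  toFun γ := γ.1 * t1 + γ.2.1 * t2 + γ.2.2 * t3
  map_zero' := by simp
  map_add' := by
    intro a b
    simp only [Prod.fst_add, Prod.snd_add, Int.cast_add]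
    ring

/-- generic weights -/
def Gen (t1 t2 t3 : F) : Prop := ∀ γ : Gm, ev t1 t2 t3 γ = 0 → γ = 0

/-- product of the nonzero weights -/
noncomputable def eh (φ : Gm →+ F) (V : GR) : F :=
  V.coeff.prod (fun γ n => if γ = 0 then 1 else (φ γ) ^ n)

end

end MPa7fa83.Cs
end

section

/-!
# A1: elementary facts on diagrams

A lower set with `n` elements is contained in the square `range n × range n`
(if `(i, j) ∈ s` then `(0, j), ..., (i, j) ∈ s`, so `i + 1 ≤ card s`).
-/

set_option autoImplicit false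

namespace MPa7fa83.Cs

open Finset

/-- a box of a diagram has small coordinates -/
lemma lt_of_mem {s : Finset (ℕ × ℕ)} (hs : Lo s) {e : ℕ × ℕ} (he : e ∈ s) :
    e.1 < s.card ∧ e.2 < s.card := by
  obtain ⟨i, j⟩ := e
  constructor
  · have h : ((range (i + 1)).image (fun a => (a, j))) ⊆ s := by
      intro x hx
      obtain ⟨a, ha, rfl⟩ := Finset.mem_image.mp hx
      exact hs i j a j he (Nat.lt_succ_iff.mp (Finset.mem_range.mp ha)) le_rfl
    have h2 := Finset.card_le_card h
    rw [Finset.card_image_of_injective _ (fun a b hab => (Prod.mk.inj hab).1),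
      Finset.card_range] at h2
    exact h2
  · have h : ((range (j + 1)).image (fun a => (i, a))) ⊆ s := by
      intro x hx
      obtain ⟨a, ha, rfl⟩ := Finset.mem_image.mp hx
      exact hs i j i a he le_rfl (Nat.lt_succ_iff.mp (Finset.mem_range.mp ha))
    have h2 := Finset.card_le_card h
    rw [Finset.card_image_of_injective _ (fun a b hab => (Prod.mk.inj hab).2),
      Finset.card_range] at h2
    exact h2

lemma mem_dg {n : ℕ} {s : Finset (ℕ × ℕ)} : s ∈ dg n ↔ Lo s ∧ s.card = n := by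
  unfold dg
  simp only [Finset.mem_filter, Finset.mem_powerset]
  constructor
  · exact fun h => h.2
  · rintro ⟨h1, h2⟩
    refine ⟨?_, h1, h2⟩
    intro e he
    have := lt_of_mem h1 he
    rw [Finset.mem_product, Finset.mem_range, Finset.mem_range, ← h2]
    exact this

lemma Lo_empty : Lo ∅ := by
  intro i j i' j' h
  exact absurd h (Finset.notMem_empty _)

lemma dg_zero : dg 0 = {∅} := by
  ext s
  rw [mem_dg, Finset.mem_singleton, Finset.card_eq_zero]
  constructor
  · exact fun h => h.2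
  · rintro rfl
    exact ⟨Lo_empty, rfl⟩

lemma mem_adb {s : Finset (ℕ × ℕ)} (hs : Lo s) {c : ℕ × ℕ} :
    c ∈ adb s ↔ c ∉ s ∧ Lo (insert c s) := by
  unfold adb
  simp only [Finset.mem_filter]
  constructor
  · exact fun h => h.2
  · rintro ⟨h1, h2⟩
    refine ⟨?_, h1, h2⟩
    have := lt_of_mem h2 (Finset.mem_insert_self c s)
    rw [Finset.card_insert_of_notMem h1] at this
    rw [Finset.mem_product, Finset.mem_range, Finset.mem_range]
    exact this

lemma mem_rmb {s : Finset (ℕ × ℕ)} {c : ℕ × ℕ} : c ∈ rmb s ↔ c ∈ s ∧ Lo (s.erase c) := by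
  unfold rmb
  simp only [Finset.mem_filter]

lemma adb_iff {s : Finset (ℕ × ℕ)} (hs : Lo s) {i j : ℕ} :
    (i, j) ∈ adb s ↔ (i, j) ∉ s ∧ (i = 0 ∨ (i - 1, j) ∈ s) ∧ (j = 0 ∨ (i, j - 1) ∈ s) := by
  rw [mem_adb hs]
  refine and_congr_right fun h0 => ?_
  constructor
  · intro h
    constructor
    · rcases Nat.eq_zero_or_pos i with hi | hi
      · exact Or.inl hi
      · right
        have := h i j (i - 1) j (Finset.mem_insert_self _ _) (Nat.sub_le _ _) le_rfl
        rcases Finset.mem_insert.mp this with h' | h'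
        · have := (Prod.mk.inj h').1
          omega
        · exact h'
    · rcases Nat.eq_zero_or_pos j with hj | hj
      · exact Or.inl hj
      · right
        have := h i j i (j - 1) (Finset.mem_insert_self _ _) le_rfl (Nat.sub_le _ _)
        rcases Finset.mem_insert.mp this with h' | h'
        · have := (Prod.mk.inj h').2
          omega
        · exact h'
  · rintro ⟨h1, h2⟩ a b a' b' hab ha hb
    rcases Finset.mem_insert.mp hab with h' | h'
    · obtain ⟨rfl, rfl⟩ := Prod.mk.inj h'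
      by_cases hc : a' = a ∧ b' = b
      · rw [hc.1, hc.2]
        exact Finset.mem_insert_self _ _
      · apply Finset.mem_insert_of_mem
        by_cases ha' : a' = a
        · have hb' : b' < b := by omega
          rcases h2 with h2 | h2
          · omega
          · exact hs _ _ _ _ h2 ha (by omega)
        · rcases h1 with h1 | h1
          · omega
          · exact hs _ _ _ _ h1 (by omega) hb
    · exact Finset.mem_insert_of_mem (hs _ _ _ _ h' ha hb)

lemma rmb_iff {s : Finset (ℕ × ℕ)} (hs : Lo s) {i j : ℕ} :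
    (i, j) ∈ rmb s ↔ (i, j) ∈ s ∧ (i + 1, j) ∉ s ∧ (i, j + 1) ∉ s := by
  rw [mem_rmb]
  refine and_congr_right fun h0 => ?_
  constructor
  · intro h
    constructor
    · intro h1
      have h2 : (i + 1, j) ∈ s.erase (i, j) := Finset.mem_erase.mpr
        ⟨fun h' => by have := (Prod.mk.inj h').1; omega, h1⟩
      exact (Finset.mem_erase.mp (h _ _ i j h2 (Nat.le_succ _) le_rfl)).1 rfl
    · intro h1
      have h2 : (i, j + 1) ∈ s.erase (i, j) := Finset.mem_erase.mpr
        ⟨fun h' => by have := (Prod.mk.inj h').2; omega, h1⟩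
      exact (Finset.mem_erase.mp (h _ _ i j h2 le_rfl (Nat.le_succ _))).1 rfl
  · rintro ⟨h1, h2⟩ a b a' b' hab ha hb
    obtain ⟨h3, h4⟩ := Finset.mem_erase.mp hab
    refine Finset.mem_erase.mpr ⟨?_, hs _ _ _ _ h4 ha hb⟩
    intro h'
    obtain ⟨rfl, rfl⟩ := Prod.mk.inj h'
    by_cases hc : a' = a
    · have hb' : b' + 1 ≤ b := by
        rcases Nat.lt_or_eq_of_le hb with h5 | h5
        · exact h5
        · exact absurd (by rw [hc, h5]) h3
      exact h2 (hs _ _ _ _ h4 ha hb')
    · exact h1 (hs _ _ _ _ h4 (by omega) hb)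

end MPa7fa83.Cs
end
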