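import Pool.Agent.Lib.MP_a7fa83_ag.Cs.B0
import Pool.Agent.Lib.MP_a7fa83_ag.Cs.A1

section

/-!
# C2: Newton's formulas

If `E = ∏_P (1 + f(v) X) / ∏_S (1 + f(v) X)` then `X E' = E ∑_{i ≥ 1} (-1)^{i-1} p_i X^i`,
`p_i = ∑_P f(v)^i - ∑_S f(v)^i`; so the coefficients of `E` satisfy the recursion of `ee`.
-/

set_option autoImplicit false

namespace MPa7fa83.Cs

open Finset PowerSeries

/-- unfolding of `ee` -/
lemma ee_succ {Λ : Type*} [CommRing Λ] [Algebra ℚ Λ] (p : ℕ → Λ) (j : ℕ) :
    ee p (j + 1) = algebraMap ℚ Λ (1 / ((j : ℚ) + 1)) *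
      ∑ i ∈ range (j + 1), (-1) ^ i * p (i + 1) * ee p (j - i) := by
  rw [ee, Finset.sum_range]

lemma ee_map {Λ Λ' : Type*} [CommRing Λ] [Algebra ℚ Λ] [CommRing Λ'] [Algebra ℚ Λ']
    (φ : Λ →+* Λ') (p : ℕ → Λ) (j : ℕ) : φ (ee p j) = ee (fun i => φ (p i)) j := by
  induction j using Nat.strong_induction_on with
  | _ j ih =>
    rcases j with _ | j
    · rw [ee, ee, map_one]
    · rw [ee_succ, ee_succ, map_mul, RingHom.map_rat_algebraMap, map_sum]
      congr 1
      refine sum_congr rfl fun i _ => ?_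
      rw [map_mul, map_mul, map_pow, map_neg, map_one, ih (j - i) (by omega)]

private theorem c2_inv {F : Type*} [Field F] (a : F) :
    (1 + C a * X : F⟦X⟧) * PowerSeries.mk (fun n => (-a) ^ n) = 1 := by
  ext n
  rcases n with _ | n
  · simp
  · rw [add_mul, one_mul, map_add, mul_assoc, coeff_C_mul, coeff_succ_X_mul, coeff_mk, coeff_mk,
      pow_succ]
    simp
    ring

private theorem c2_der {F κ : Type*} [Field F] (T : Finset κ) (f : κ → F) :
    derivative F (∏ v ∈ T, (1 + C (f v) * X) : F⟦X⟧) =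
      (∏ v ∈ T, (1 + C (f v) * X)) * ∑ v ∈ T, C (f v) * PowerSeries.mk (fun n => (-(f v)) ^ n) := by
  classical
  induction T using Finset.induction_on with
  | empty => simp
  | insert a T ha ih =>
    rw [prod_insert ha, sum_insert ha, Derivation.leibniz, ih]
    have h1 : derivative F (1 + C (f a) * X : F⟦X⟧) = C (f a) := by
      ext n
      rw [coeff_derivative]
      rcases n with _ | n
      · simp
      · simp [coeff_one]
    rw [h1]
    have h2 := c2_inv (f a)
    simp only [smul_eq_mul]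
    linear_combination (-(∏ v ∈ T, (1 + C (f v) * X)) * C (f a)) * h2

theorem newton {F κ : Type*} [Field F] [Algebra ℚ F] (P S : Finset κ) (f : κ → F) (E : F⟦X⟧)
    (hE : E * ∏ v ∈ S, (1 + C (f v) * X) = ∏ v ∈ P, (1 + C (f v) * X)) (j : ℕ) :
    coeff j E = ee (fun i => ∑ v ∈ P, f v ^ i - ∑ v ∈ S, f v ^ i) j := by
  have hne : (∏ v ∈ S, (1 + C (f v) * X) : F⟦X⟧) ≠ 0 := by
    rw [prod_ne_zero_iff]
    intro v _ h0
    have := c2_inv (f v)
    rw [h0, zero_mul] at this
    exact zero_ne_one this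
  have hlog : derivative F E = E * (∑ v ∈ P, C (f v) * PowerSeries.mk (fun n => (-(f v)) ^ n) -
      ∑ v ∈ S, C (f v) * PowerSeries.mk (fun n => (-(f v)) ^ n)) := by
    apply mul_right_cancel₀ hne
    have h1 := congrArg (derivative F) hE
    rw [Derivation.leibniz, c2_der, c2_der, ← hE] at h1
    simp only [smul_eq_mul] at h1
    linear_combination h1
  have hcst : coeff 0 E = 1 := by
    have h1 := congrArg (constantCoeff (R := F)) hE
    simp only [map_mul, map_prod, map_add, map_one, constantCoeff_X, mul_zero, add_zero,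
      prod_const_one, mul_one] at h1
    rw [coeff_zero_eq_constantCoeff_apply]
    exact h1
  have hcharz : CharZero F := algebraRat.charZero F
  induction j using Nat.strong_induction_on with
  | _ j ih =>
    rcases j with _ | j
    · rw [hcst, ee]
    · rw [ee_succ]
      have h1 := congrArg (coeff j) hlog
      rw [coeff_derivative, mul_comm E, coeff_mul,
        Finset.Nat.sum_antidiagonal_eq_sum_range_succ_mk] at h1
      have h2 : ∀ i ∈ range (j + 1), (coeff i) (∑ v ∈ P, C (f v) * PowerSeries.mk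
          (fun n => (-(f v)) ^ n) - ∑ v ∈ S, C (f v) * PowerSeries.mk (fun n => (-(f v)) ^ n)) *
          coeff (j - i) E = (-1) ^ i * (∑ v ∈ P, f v ^ (i + 1) - ∑ v ∈ S, f v ^ (i + 1)) *
          ee (fun i => ∑ v ∈ P, f v ^ i - ∑ v ∈ S, f v ^ i) (j - i) := by
        intro i _
        rw [← ih (j - i) (by omega)]
        congr 1
        rw [map_sub, map_sum, map_sum, mul_sub, mul_sum, mul_sum]
        congr 1
        · refine sum_congr rfl fun v _ => ?_
          rw [coeff_C_mul, coeff_mk, neg_pow, pow_succ]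
          ring
        · refine sum_congr rfl fun v _ => ?_
          rw [coeff_C_mul, coeff_mk, neg_pow, pow_succ]
          ring
      rw [sum_congr rfl h2] at h1
      rw [← h1]
      have h3 : (algebraMap ℚ F) (1 / ((j : ℚ) + 1)) * ((j : F) + 1) = 1 := by
        have h4 : ((j : F) + 1) = algebraMap ℚ F ((j : ℚ) + 1) := by simp
        rw [h4, ← map_mul, one_div, inv_mul_cancel₀ (by positivity), map_one]
      linear_combination (-(coeff (j + 1) E)) * h3

end MPa7fa83.Cs
end

section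

section

/-!
# A5: corners

The corners of `s` are the boxes `c ∈ adb s` (inner corners) and the points `c + (1,1)`,
`c ∈ rmb s` (outer corners).  Two corners on the same diagonal are equal (and of the same type).
Sketch: let `z` and `z' = z + (t, t)`, `t ≥ 1`, be corners.
inner/inner: `z' - (1,0) ∈ s` is `≥ z`, so `z ∈ s`, contradiction.
inner `z`, outer `z' = c' + (1,1)`: `c' ≥ z`, `c' ∈ s`, contradiction.
outer `z = c + (1,1)`, inner `z'`: `z' - (1,0) ∈ s` is `≥ c + (0,1)`, which is not in `s`.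
outer/outer: `c' = c + (t,t) ∈ s` is `≥ c + (0,1)`.  For `t = 0` and different types: `c ∈ s` with
`c + (1,1) ∈ adb s` gives `c + (0,1) ∈ s`, contradiction.
-/

set_option autoImplicit false

namespace MPa7fa83.Cs

open Finset

/-- the corners, with their types (`true` for inner) -/
noncomputable def crn (s : Finset (ℕ × ℕ)) : Finset ((ℕ × ℕ) × Bool) :=
  (adb s).image (fun c => (c, true)) ∪ (rmb s).image (fun c => ((c.1 + 1, c.2 + 1), false))

private lemma mem_crn {s : Finset (ℕ × ℕ)} {z : (ℕ × ℕ) × Bool} :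
    z ∈ crn s ↔ (∃ i j : ℕ, (i, j) ∈ adb s ∧ z = ((i, j), true)) ∨
      ∃ i j : ℕ, (i, j) ∈ rmb s ∧ z = ((i + 1, j + 1), false) := by
  unfold crn
  rw [Finset.mem_union, Finset.mem_image, Finset.mem_image]
  constructor
  · rintro (⟨c, hc, rfl⟩ | ⟨c, hc, rfl⟩)
    · exact Or.inl ⟨c.1, c.2, hc, rfl⟩
    · exact Or.inr ⟨c.1, c.2, hc, rfl⟩
  · rintro (⟨i, j, hc, rfl⟩ | ⟨i, j, hc, rfl⟩)
    · exact Or.inl ⟨(i, j), hc, rfl⟩
    · exact Or.inr ⟨(i, j), hc, rfl⟩

private lemma crn_diag_le {s : Finset (ℕ × ℕ)} (hs : Lo s) {z z' : (ℕ × ℕ) × Bool}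
    (hz : z ∈ crn s) (hz' : z' ∈ crn s) (h : z.1.1 + z'.1.2 = z'.1.1 + z.1.2)
    (hle : z.1.1 ≤ z'.1.1) : z = z' := by
  rw [mem_crn] at hz hz'
  rcases hz with ⟨i, j, hc, rfl⟩ | ⟨i, j, hc, rfl⟩ <;>
  rcases hz' with ⟨i', j', hc', rfl⟩ | ⟨i', j', hc', rfl⟩
  · simp only at h hle
    rw [adb_iff hs] at hc hc'
    rcases Nat.eq_or_lt_of_le hle with e | e
    · subst e
      have : j = j' := by omega
      subst this
      rfl
    · exfalso
      rcases hc'.2.1 with h0 | h0
      · omega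
      · exact hc.1 (hs _ _ _ _ h0 (by omega) (by omega))
  · simp only at h hle
    rw [adb_iff hs] at hc
    rw [rmb_iff hs] at hc'
    exfalso
    rcases Nat.eq_or_lt_of_le hle with e | e
    · have e2 : j = j' + 1 := by omega
      rcases hc.2.1 with h0 | h0
      · omega
      · apply hc'.2.2
        have e3 : i - 1 = i' := by omega
        rw [e3, e2] at h0
        exact h0
    · exact hc.1 (hs _ _ _ _ hc'.1 (by omega) (by omega))
  · simp only at h hle
    rw [rmb_iff hs] at hc
    rw [adb_iff hs] at hc'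
    exfalso
    rcases hc'.2.1 with h0 | h0
    · omega
    · exact hc.2.2 (hs _ _ _ _ h0 (by omega) (by omega))
  · simp only at h hle
    rw [rmb_iff hs] at hc hc'
    rcases Nat.eq_or_lt_of_le hle with e | e
    · have e1 : i = i' := by omega
      subst e1
      have : j = j' := by omega
      subst this
      rfl
    · exfalso
      exact hc.2.2 (hs _ _ _ _ hc'.1 (by omega) (by omega))

theorem crn_diag {s : Finset (ℕ × ℕ)} (hs : Lo s) {z z' : (ℕ × ℕ) × Bool} (hz : z ∈ crn s)
    (hz' : z' ∈ crn s) (h : z.1.1 + z'.1.2 = z'.1.1 + z.1.2) : z = z' := by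
  rcases le_total z.1.1 z'.1.1 with hle | hle
  · exact crn_diag_le hs hz hz' h hle
  · exact (crn_diag_le hs hz' hz h.symm hle).symm

/-- no corner at `c + (1,1)` for an inner corner `c` -/
theorem crn_shift {s : Finset (ℕ × ℕ)} (hs : Lo s) {c : ℕ × ℕ} (hc : c ∈ adb s) (t : Bool) :
    ((c.1 + 1, c.2 + 1), t) ∉ crn s := by
  intro h
  have hz : ((c, true) : (ℕ × ℕ) × Bool) ∈ crn s := mem_crn.2 (Or.inl ⟨c.1, c.2, hc, rfl⟩)
  have := crn_diag hs hz h (by simp only; omega)
  have h1 := congrArg (fun z : (ℕ × ℕ) × Bool => z.1.1) this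
  simp only at h1
  omega

end MPa7fa83.Cs
end

section

/-!
# A6: the number of corners

`card (adb s) = card (rmb s) + 1`: the columns `i` with `(i, h_i)` addable are `i = 0` and the `i`
with `h_{i-1} > h_i`; the removable boxes are `(i - 1, h_{i-1} - 1)` for the same `i ≥ 1`.
Alternatively by induction on `s`, or from `B2` (`HH_eq`) and the augmentation of the group ring.
-/

set_option autoImplicit false

namespace MPa7fa83.Cs

open Finset

theorem card_adb {s : Finset (ℕ × ℕ)} (hs : Lo s) : (adb s).card = (rmb s).card + 1 := by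
  classical
  have hex : ∀ i, ∃ j, (i, j) ∉ s := fun i => ⟨s.card, fun h =>
    absurd (lt_of_mem hs h).2 (lt_irrefl _)⟩
  obtain ⟨g, hg⟩ : ∃ g : ℕ → ℕ, ∀ i j, (i, j) ∈ s ↔ j < g i := by
    refine ⟨fun i => Nat.find (hex i), fun i j => ⟨fun h => ?_, fun h => ?_⟩⟩
    · by_contra hc
      exact Nat.find_spec (hex i) (hs i j i _ h le_rfl (not_lt.mp hc))
    · by_contra hc
      exact absurd (Nat.find_min' (hex i) hc) (not_le.mpr h)
  have ga : ∀ i, g (i + 1) ≤ g i := by
    intro i
    by_contra hc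
    have h1 := (hg (i + 1) (g i)).2 (not_le.mp hc)
    have h2 := hs _ _ i (g i) h1 (Nat.le_succ i) le_rfl
    exact absurd ((hg i (g i)).1 h2) (lt_irrefl _)
  have hadd : ∀ i j, (i, j) ∈ adb s ↔ j = g i ∧ (i = 0 ∨ g i < g (i - 1)) := by
    intro i j
    rw [adb_iff hs, hg, hg, hg]
    constructor
    · rintro ⟨h1, h2, h3⟩
      have h4 : j = g i := by
        rcases h3 with h3 | h3 <;> omega
      subst h4
      exact ⟨rfl, h2⟩
    · rintro ⟨h1, h2⟩
      subst h1
      exact ⟨lt_irrefl _, h2, by omega⟩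
  have hrm : ∀ i j, (i, j) ∈ rmb s ↔ g i = j + 1 ∧ g (i + 1) ≤ j := by
    intro i j
    rw [rmb_iff hs, hg, hg, hg]
    constructor
    · rintro ⟨h1, h2, h3⟩
      exact ⟨by omega, by omega⟩
    · rintro ⟨h1, h2⟩
      exact ⟨by omega, by omega, by omega⟩
  have h0 : (0, g 0) ∈ adb s := (hadd 0 (g 0)).2 ⟨rfl, Or.inl rfl⟩
  rw [← Finset.card_erase_add_one h0]
  congr 1
  refine Finset.card_nbij' (fun c => (c.1 - 1, g (c.1 - 1) - 1)) (fun c => (c.1 + 1, g (c.1 + 1)))
    ?_ ?_ ?_ ?_
  · rintro ⟨i, j⟩ hc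
    rw [Finset.mem_coe, Finset.mem_erase, hadd] at hc
    obtain ⟨h1, h2, h3⟩ := hc
    have hi : i ≠ 0 := by
      rintro rfl
      exact h1 (by rw [h2])
    have h4 : g i < g (i - 1) := by
      rcases h3 with h3 | h3
      · exact absurd h3 hi
      · exact h3
    rw [Finset.mem_coe]
    have h5 : i - 1 + 1 = i := by omega
    show (i - 1, g (i - 1) - 1) ∈ rmb s
    rw [hrm, h5]
    exact ⟨by omega, by omega⟩
  · rintro ⟨i, j⟩ hc
    rw [Finset.mem_coe, hrm] at hc
    obtain ⟨h1, h2⟩ := hc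
    rw [Finset.mem_coe, Finset.mem_erase, hadd]
    refine ⟨by simp, rfl, Or.inr ?_⟩
    simp only [Nat.add_sub_cancel]
    omega
  · rintro ⟨i, j⟩ hc
    rw [Finset.mem_coe, Finset.mem_erase, hadd] at hc
    obtain ⟨h1, h2, h3⟩ := hc
    have hi : i ≠ 0 := by
      rintro rfl
      exact h1 (by rw [h2])
    have : i - 1 + 1 = i := by omega
    simp only [this, h2]
  · rintro ⟨i, j⟩ hc
    rw [Finset.mem_coe, hrm] at hc
    obtain ⟨h1, h2⟩ := hc
    simp only [Nat.add_sub_cancel, h1]

end MPa7fa83.Cs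
end

section

/-!
# B1: the arm-leg formula

For a diagram `s` and any `u, v`:
`T = K* + e^{u+v} K - (1 - e^u)(1 - e^v) K K*`,
where `K = ∑ e^{i u + j v}`, `K*` is its dual and `T` the sum over the boxes of
`e^{(a+1) u - l v} + e^{(l+1) v - a u}`.

Proof by induction on the number of columns (or of boxes): let `s' = {(i, j) | (i + 1, j) ∈ s}` be
`s` without its column `0`, of height `h`.  With `q1 = e^u`, `q2 = e^v`,
`S = ∑_{j<h} q2^j`: `K = S + q1 K'`, and the boxes `(i + 1, j)` of `s` have the arms and legs of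
`(i, j)` in `s'`.  The column `0` contributes
`∑_{j<h} (q1^{a_j+1} q2^{-(h-1-j)} + q1^{-a_j} q2^{h-j})`, `a_j` the length of the row `j` of `s'`.
From `∑_{j<h} q2^j q1^{a_j} = S - (1 - q1) K'` (and the dual relation) it is
`q1 q2^{1-h} (S - (1-q1) K') + q2^h (S* - (1 - q1⁻¹) K'*)`, and the difference of the two right
hand sides of the formula is the same: use `(1-q2) S = 1 - q2^h`, `(1-q2) S* = - q2 + q2^{1-h}`.
-/

set_option autoImplicit false

namespace MPa7fa83.Cs

open Finset

private lemma b1x_range (T : Finset ℕ) (h : ∀ i ∈ T, ∀ i', i' ≤ i → i' ∈ T) :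
    T = range T.card := by
  rcases T.eq_empty_or_nonempty with h0 | h0
  · subst h0; simp
  · have h1 : T = range (T.max' h0 + 1) := by
      ext i
      rw [mem_range]
      constructor
      · intro hi
        have := T.le_max' i hi
        omega
      · intro hi
        exact h _ (T.max'_mem h0) i (by omega)
    have h2 : T.card = T.max' h0 + 1 := by
      conv_lhs => rw [h1]
      exact card_range _
    rw [h2]
    exact h1

private lemma b1x_row {s : Finset (ℕ × ℕ)} (hs : Lo s) (i j : ℕ) :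
    (i, j) ∈ s ↔ i < (s.filter (fun f => f.2 = j)).card := by
  have h1 : ((s.filter (fun f => f.2 = j)).image Prod.fst).card =
      (s.filter (fun f => f.2 = j)).card := by
    apply card_image_of_injOn
    intro a ha b hb hab
    have ha2 := (mem_filter.1 (mem_coe.1 ha)).2
    have hb2 := (mem_filter.1 (mem_coe.1 hb)).2
    exact Prod.ext hab (ha2.trans hb2.symm)
  have h2 : ∀ i, i ∈ (s.filter (fun f => f.2 = j)).image Prod.fst ↔ (i, j) ∈ s := by
    intro i
    rw [mem_image]
    constructor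
    · rintro ⟨⟨a, b⟩, hab, rfl⟩
      obtain ⟨h3, h4⟩ := mem_filter.1 hab
      dsimp only at h4 ⊢
      rw [← h4]
      exact h3
    · intro h
      exact ⟨(i, j), mem_filter.2 ⟨h, rfl⟩, rfl⟩
  have h3 := b1x_range ((s.filter (fun f => f.2 = j)).image Prod.fst) (by
    intro i hi i' hi'
    rw [h2] at hi ⊢
    exact hs i j i' j hi hi' le_rfl)
  rw [h1] at h3
  rw [← h2, h3, mem_range]

private lemma b1x_col {s : Finset (ℕ × ℕ)} (hs : Lo s) (i j : ℕ) :
    (i, j) ∈ s ↔ j < (s.filter (fun f => f.1 = i)).card := by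
  have h1 : ((s.filter (fun f => f.1 = i)).image Prod.snd).card =
      (s.filter (fun f => f.1 = i)).card := by
    apply card_image_of_injOn
    intro a ha b hb hab
    have ha2 := (mem_filter.1 (mem_coe.1 ha)).2
    have hb2 := (mem_filter.1 (mem_coe.1 hb)).2
    exact Prod.ext (ha2.trans hb2.symm) hab
  have h2 : ∀ j, j ∈ (s.filter (fun f => f.1 = i)).image Prod.snd ↔ (i, j) ∈ s := by
    intro j
    rw [mem_image]
    constructor
    · rintro ⟨⟨a, b⟩, hab, rfl⟩
      obtain ⟨h3, h4⟩ := mem_filter.1 hab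
      dsimp only at h4 ⊢
      rw [← h4]
      exact h3
    · intro h
      exact ⟨(i, j), mem_filter.2 ⟨h, rfl⟩, rfl⟩
  have h3 := b1x_range ((s.filter (fun f => f.1 = i)).image Prod.snd) (by
    intro j hj j' hj'
    rw [h2] at hj ⊢
    exact hs i j i j' hj le_rfl hj')
  rw [h1] at h3
  rw [← h2, h3, mem_range]

private def b1xsh (e : ℕ × ℕ) : ℕ × ℕ := (e.1 + 1, e.2)

private lemma b1xsh_inj : Function.Injective b1xsh := by
  intro a b h
  have h1 := congrArg Prod.fst h
  have h2 := congrArg Prod.snd h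
  dsimp only [b1xsh] at h1 h2
  exact Prod.ext (by omega) h2

/-- the diagram without its first column -/
private noncomputable def b1xs (s : Finset (ℕ × ℕ)) : Finset (ℕ × ℕ) :=
  s.preimage b1xsh b1xsh_inj.injOn

private lemma b1xs_mem {s : Finset (ℕ × ℕ)} (i j : ℕ) : (i, j) ∈ b1xs s ↔ (i + 1, j) ∈ s := by
  unfold b1xs
  rw [mem_preimage]
  rfl

private lemma b1xs_Lo {s : Finset (ℕ × ℕ)} (hs : Lo s) : Lo (b1xs s) := by
  intro i j i' j' h hi hj
  rw [b1xs_mem] at h ⊢
  exact hs _ _ _ _ h (by omega) hj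

private lemma b1x_split {s : Finset (ℕ × ℕ)} (hs : Lo s) {h : ℕ}
    (hh : h = (s.filter (fun f => f.1 = 0)).card) {M : Type*} [AddCommMonoid M]
    (Φ : ℕ × ℕ → M) :
    ∑ e ∈ s, Φ e = ∑ j ∈ range h, Φ (0, j) + ∑ e ∈ b1xs s, Φ (e.1 + 1, e.2) := by
  have h1 : s = ((range h).image (fun j => (0, j))) ∪ ((b1xs s).image b1xsh) := by
    ext ⟨i, j⟩
    rw [mem_union, mem_image, mem_image]
    rcases Nat.eq_zero_or_pos i with hi | hi
    · subst hi
      rw [b1x_col hs, ← hh]
      constructor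
      · intro h2
        exact Or.inl ⟨j, mem_range.2 h2, rfl⟩
      · rintro (⟨j', h2, h3⟩ | ⟨e, _, h3⟩)
        · rw [← (Prod.mk.inj h3).2]
          exact mem_range.1 h2
        · have := (Prod.mk.inj h3).1
          omega
    · constructor
      · intro h2
        refine Or.inr ⟨(i - 1, j), ?_, ?_⟩
        · rw [b1xs_mem, Nat.sub_add_cancel hi]
          exact h2
        · unfold b1xsh
          dsimp only
          rw [Nat.sub_add_cancel hi]
      · rintro (⟨j', _, h3⟩ | ⟨⟨a, b⟩, h2, h3⟩)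
        · have := (Prod.mk.inj h3).1
          omega
        · rw [b1xs_mem] at h2
          unfold b1xsh at h3
          rw [← h3]
          exact h2
  have h2 : Disjoint ((range h).image (fun j => ((0 : ℕ), j))) ((b1xs s).image b1xsh) := by
    rw [Finset.disjoint_left]
    intro e he he2
    obtain ⟨j, _, rfl⟩ := mem_image.1 he
    obtain ⟨f, _, h3⟩ := mem_image.1 he2
    have := (Prod.mk.inj h3).1
    omega
  conv_lhs => rw [h1]
  rw [sum_union h2, sum_image, sum_image]
  · rfl
  · exact b1xsh_inj.injOn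
  · intro a _ b _ hab
    exact (Prod.mk.inj hab).2

private lemma b1x_arm {s : Finset (ℕ × ℕ)} (hs : Lo s) (i j : ℕ) :
    arm s (i + 1, j) = arm (b1xs s) (i, j) := by
  unfold arm
  rw [card_filter, card_filter, b1x_split hs rfl]
  dsimp only
  rw [sum_eq_zero, zero_add]
  · apply sum_congr rfl
    intro e _
    congr 1
    rw [Nat.add_lt_add_iff_right]
  · intro k _
    rw [if_neg]
    omega

private lemma b1x_arm0 {s : Finset (ℕ × ℕ)} (hs : Lo s) (j : ℕ) :
    arm s (0, j) = ((b1xs s).filter (fun f => f.2 = j)).card := by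
  unfold arm
  rw [card_filter, card_filter, b1x_split hs rfl]
  dsimp only
  rw [sum_eq_zero, zero_add]
  · apply sum_congr rfl
    intro e _
    congr 1
    simp
  · intro k _
    rw [if_neg]
    omega

private lemma b1x_leg {s : Finset (ℕ × ℕ)} (hs : Lo s) (i j : ℕ) :
    leg s (i + 1, j) = leg (b1xs s) (i, j) := by
  unfold leg
  rw [card_filter, card_filter, b1x_split hs rfl]
  dsimp only
  rw [sum_eq_zero, zero_add]
  · apply sum_congr rfl
    intro e _
    congr 1
    rw [Nat.add_right_cancel_iff]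
  · intro k _
    rw [if_neg]
    omega

private lemma b1x_leg0 {s : Finset (ℕ × ℕ)} (hs : Lo s) {h : ℕ}
    (hh : h = (s.filter (fun f => f.1 = 0)).card) (j : ℕ) (hj : j < h) :
    leg s (0, j) + (j + 1) = h := by
  unfold leg
  rw [card_filter, b1x_split hs hh]
  dsimp only
  have h2 : ∑ e ∈ b1xs s, (if e.1 + 1 = 0 ∧ j < e.2 then 1 else 0) = 0 := by
    apply sum_eq_zero
    intro k _
    rw [if_neg]
    omega
  rw [h2, add_zero, ← card_filter]
  have h3 : (range h).filter (fun k => 0 = 0 ∧ j < k) = (range h) \ (range (j + 1)) := by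
    ext k
    rw [mem_filter, mem_sdiff, mem_range, mem_range]
    omega
  rw [h3, card_sdiff_of_subset (range_subset_range.2 (by omega)), card_range, card_range]
  omega

private lemma b1x_rows {s : Finset (ℕ × ℕ)} (hs : Lo s) {h : ℕ} (hb : ∀ e ∈ s, e.2 < h)
    (u v : Gm) : ∑ j ∈ range h, xx v ^ j * xx u ^ (s.filter (fun f => f.2 = j)).card =
      ∑ j ∈ range h, xx v ^ j - (1 - xx u) * KK u v s := by
  have hp : ∀ (w : Gm) (n : ℕ), xx ((n : ℤ) • w) = xx w ^ n := by
    intro w n
    induction n with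
    | zero => simp [xx_zero]
    | succ n ih =>
      rw [pow_succ, ← ih, xx_mul]
      congr 1
      push_cast
      rw [add_smul, one_smul]
  have h1 : KK u v s = ∑ j ∈ range h, ∑ i ∈ range (s.filter (fun f => f.2 = j)).card,
      xx u ^ i * xx v ^ j := by
    unfold KK
    rw [← sum_fiberwise_of_maps_to (g := Prod.snd) (t := range h)
      (fun e he => mem_range.2 (hb e he))]
    apply sum_congr rfl
    intro j _
    have h2 : s.filter (fun f => f.2 = j) =
        (range (s.filter (fun f => f.2 = j)).card).image (fun i => (i, j)) := by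
      ext ⟨a, b⟩
      rw [mem_image, mem_filter]
      constructor
      · rintro ⟨h3, h4⟩
        dsimp only at h4
        subst h4
        exact ⟨a, mem_range.2 ((b1x_row hs a b).1 h3), rfl⟩
      · rintro ⟨i, h3, h4⟩
        obtain ⟨rfl, rfl⟩ := Prod.mk.inj h4
        exact ⟨(b1x_row hs _ _).2 (mem_range.1 h3), rfl⟩
    have h5 : ∑ e ∈ s.filter (fun f => f.2 = j), xx (pt u v e) =
        ∑ e ∈ (range (s.filter (fun f => f.2 = j)).card).image (fun i => (i, j)),
          xx (pt u v e) := by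
      rw [← h2]
    refine Eq.trans ?_ (h5.trans ?_)
    · rfl
    · rw [sum_image (fun a _ b _ hab => (Prod.mk.inj hab).1)]
      apply sum_congr rfl
      intro i _
      unfold pt
      rw [← xx_mul, hp, hp]
  rw [h1, mul_sum, ← sum_sub_distrib]
  apply sum_congr rfl
  intro j _
  rw [← sum_mul, ← mul_assoc, mul_neg_geom_sum]
  ring

private lemma b1x_alg {R : Type*} [CommRing R] (q1 q2 p1 S S' K K' P Q : R) (h1 : q1 * p1 = 1)
    (e1 : (1 - q2) * S = 1 - Q) (e2 : (1 - q2) * S' = - q2 + q2 * P) :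
    (S' + p1 * K') + q1 * q2 * (S + q1 * K) - (1 - q1) * (1 - q2) * ((S + q1 * K) * (S' + p1 * K'))
    = (K' + q1 * q2 * K - (1 - q1) * (1 - q2) * (K * K')) +
      (q1 * q2 * P * (S - (1 - q1) * K) + Q * (S' - (1 - p1) * K')) := by
  linear_combination (-(1 - q1) * (S' + p1 * K') - q1 * S') * e1 +
    (-(1 - q1) * q1 * K + q1 * S) * e2 +
    (-(1 - q1) * (1 - q2) * K * K' + (1 - Q) * K') * h1

private lemma b1x_pow (w : Gm) (n : ℕ) : xx ((n : ℤ) • w) = xx w ^ n := by
  induction n with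
  | zero => simp [xx_zero]
  | succ n ih =>
    rw [pow_succ, ← ih, xx_mul]
    congr 1
    push_cast
    rw [add_smul, one_smul]

private lemma b1x_KK {s : Finset (ℕ × ℕ)} (hs : Lo s) {h : ℕ}
    (hh : h = (s.filter (fun f => f.1 = 0)).card) (u v : Gm) :
    KK u v s = ∑ j ∈ range h, xx v ^ j + xx u * KK u v (b1xs s) := by
  unfold KK
  rw [b1x_split hs hh, mul_sum]
  congr 1
  · apply sum_congr rfl
    intro j _
    rw [← b1x_pow]
    unfold pt
    simp
  · apply sum_congr rfl
    intro e _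
    rw [xx_mul]
    congr 1
    unfold pt
    dsimp only
    push_cast
    rw [add_smul, one_smul]
    abel

private lemma b1x_neg (w : Gm) : xx w * xx (-w) = 1 := by
  rw [xx_mul, add_neg_cancel, xx_zero]

private lemma b1x_TT {s : Finset (ℕ × ℕ)} (hs : Lo s) {h : ℕ}
    (hh : h = (s.filter (fun f => f.1 = 0)).card) (u v : Gm) :
    TT u v s = TT u v (b1xs s) +
      (xx u * xx v * xx (-v) ^ h *
        (∑ j ∈ range h, xx v ^ j * xx u ^ ((b1xs s).filter (fun f => f.2 = j)).card) +
      xx v ^ h *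
        (∑ j ∈ range h, xx (-v) ^ j * xx (-u) ^ ((b1xs s).filter (fun f => f.2 = j)).card)) := by
  unfold TT
  rw [b1x_split hs hh, add_comm, mul_sum, mul_sum, ← sum_add_distrib]
  congr 1
  · apply sum_congr rfl
    rintro ⟨i, j⟩ _
    dsimp only
    rw [b1x_arm hs, b1x_leg hs]
  · apply sum_congr rfl
    intro j hj
    rw [mem_range] at hj
    rw [b1x_arm0 hs]
    have h1 := b1x_leg0 hs hh j hj
    generalize leg s (0, j) = l at h1 ⊢
    generalize ((b1xs s).filter (fun f => f.2 = j)).card = a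
    congr 1
    · rw [← b1x_pow, ← b1x_pow, ← b1x_pow, xx_mul, xx_mul, xx_mul, xx_mul, ← h1]
      congr 1
      push_cast
      module
    · rw [← b1x_pow, ← b1x_pow, ← b1x_pow, xx_mul, xx_mul, ← h1]
      congr 1
      push_cast
      module

theorem TT_eq {s : Finset (ℕ × ℕ)} (hs : Lo s) (u v : Gm) :
    TT u v s = KK (-u) (-v) s + xx (u + v) * KK u v s
      - (1 - xx u) * (1 - xx v) * (KK u v s * KK (-u) (-v) s) := by
  suffices H : ∀ (n : ℕ) (s : Finset (ℕ × ℕ)), Lo s → s.card ≤ n →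
      TT u v s = KK (-u) (-v) s + xx (u + v) * KK u v s
      - (1 - xx u) * (1 - xx v) * (KK u v s * KK (-u) (-v) s) from H s.card s hs le_rfl
  intro n
  induction n with
  | zero =>
    intro s _ h0
    have h1 : s = ∅ := card_eq_zero.1 (Nat.le_zero.1 h0)
    subst h1
    simp [TT, KK]
  | succ n ih =>
    intro s hs h0
    rcases s.eq_empty_or_nonempty with h1 | h1
    · subst h1
      simp [TT, KK]
    · obtain ⟨h, hh⟩ : ∃ h, h = (s.filter (fun f => f.1 = 0)).card := ⟨_, rfl⟩
      have hs' := b1xs_Lo hs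
      have h00 : (0, 0) ∈ s := by
        obtain ⟨⟨i, j⟩, he⟩ := h1
        exact hs i j 0 0 he (Nat.zero_le _) (Nat.zero_le _)
      have hpos : 0 < h := by
        rw [hh, ← b1x_col hs]
        exact h00
      have hcard : s.card = h + (b1xs s).card := by
        have := b1x_split hs hh (fun _ => 1)
        simpa using this
      have h3 := ih (b1xs s) hs' (by omega)
      have hb : ∀ e ∈ b1xs s, e.2 < h := by
        rintro ⟨i, j⟩ he
        rw [b1xs_mem] at he
        rw [hh, ← b1x_col hs]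
        exact hs _ _ _ _ he (Nat.zero_le _) le_rfl
      have g1 : (1 - xx v) * ∑ j ∈ range h, xx v ^ j = 1 - xx v ^ h := mul_neg_geom_sum _ _
      have g2 : (1 - xx (-v)) * ∑ j ∈ range h, xx (-v) ^ j = 1 - xx (-v) ^ h :=
        mul_neg_geom_sum _ _
      have hv := b1x_neg v
      have hu := b1x_neg u
      have g3 : (1 - xx v) * ∑ j ∈ range h, xx (-v) ^ j = - xx v + xx v * xx (-v) ^ h := by
        linear_combination (-xx v) * g2 - (∑ j ∈ range h, xx (-v) ^ j) * hv
      rw [b1x_TT hs hh, h3, b1x_rows hs' hb, b1x_rows hs' hb, b1x_KK hs hh, b1x_KK hs hh,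
        ← xx_mul u v]
      exact (b1x_alg _ _ _ _ _ _ _ _ _ hu g1 g3).symm

end MPa7fa83.Cs
end

section

/-!
# A3: adding and removing a box

The map `(s, c) ↦ (s.erase c, c)` is a bijection from the pairs with `s ∈ dg (n + 1)`,
`c ∈ rmb s` to the pairs with `s ∈ dg n`, `c ∈ adb s`.  Inverse: `(s, c) ↦ (insert c s, c)`.
(Use `Finset.sum_sigma'` and `Finset.sum_bij'`.)
-/

set_option autoImplicit false

namespace MPa7fa83.Cs

open Finset

theorem sum_rmb {M : Type*} [AddCommMonoid M] (n : ℕ) (Φ : Finset (ℕ × ℕ) → (ℕ × ℕ) → M) :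
    ∑ s ∈ dg (n + 1), ∑ c ∈ rmb s, Φ (s.erase c) c = ∑ s ∈ dg n, ∑ c ∈ adb s, Φ s c := by
  rw [Finset.sum_sigma', Finset.sum_sigma']
  refine Finset.sum_bij' (fun x _ => ⟨x.1.erase x.2, x.2⟩) (fun x _ => ⟨insert x.2 x.1, x.2⟩)
    ?_ ?_ ?_ ?_ ?_
  · rintro ⟨s, c⟩ h
    rw [Finset.mem_sigma] at h ⊢
    obtain ⟨h1, h2⟩ := h
    dsimp only at h1 h2 ⊢
    rw [mem_dg] at h1
    rw [mem_rmb] at h2
    refine ⟨mem_dg.2 ⟨h2.2, ?_⟩, (mem_adb h2.2).2 ⟨Finset.notMem_erase _ _, ?_⟩⟩
    · rw [Finset.card_erase_of_mem h2.1, h1.2]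
      rfl
    · rw [Finset.insert_erase h2.1]
      exact h1.1
  · rintro ⟨s, c⟩ h
    rw [Finset.mem_sigma] at h ⊢
    obtain ⟨h1, h2⟩ := h
    dsimp only at h1 h2 ⊢
    rw [mem_dg] at h1
    rw [mem_adb h1.1] at h2
    refine ⟨mem_dg.2 ⟨h2.2, ?_⟩, mem_rmb.2 ⟨Finset.mem_insert_self _ _, ?_⟩⟩
    · rw [Finset.card_insert_of_notMem h2.1, h1.2]
    · rw [Finset.erase_insert h2.1]
      exact h1.1
  · rintro ⟨s, c⟩ h
    rw [Finset.mem_sigma] at h
    obtain ⟨_, h2⟩ := h
    dsimp only at h2 ⊢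
    rw [mem_rmb] at h2
    rw [Finset.insert_erase h2.1]
  · rintro ⟨s, c⟩ h
    rw [Finset.mem_sigma] at h
    obtain ⟨h1, h2⟩ := h
    dsimp only at h1 h2 ⊢
    rw [mem_dg] at h1
    rw [mem_adb h1.1] at h2
    rw [Finset.erase_insert h2.1]
  · rintro ⟨s, c⟩ _
    rfl

end MPa7fa83.Cs
end
end
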