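import Pool.Agent.Lib.MP_a7fa83_ag.Cs.A1

/-!
# A4: partitions and diagrams

`cel p` is the diagram of the partition `p`: the column `i` has height `pcol p i`, the number of
parts `> i`.  `p ↦ cel p` is a bijection from the partitions of `n` onto `dg n` (e.g. the number
of parts `> i` of `p` is the number of `j` with `(i, j) ∈ cel p`; this determines the number of
parts equal to each `i ≥ 1`).
-/

set_option autoImplicit false

namespace MPa7fa83.Cs

open Finset

/-- the height of the column `i`: the number of parts `> i` -/
def pcol {n : ℕ} (p : n.Partition) (i : ℕ) : ℕ := (p.parts.filter (i < ·)).card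

/-- the length of the row `j` -/
def prow {n : ℕ} (p : n.Partition) (j : ℕ) : ℕ := ((range n).filter (j < pcol p ·)).card

/-- the diagram of a partition -/
def cel {n : ℕ} (p : n.Partition) : Finset (ℕ × ℕ) :=
  (range n ×ˢ range n).filter (fun e => e.2 < pcol p e.1)

/-- a finite lower set of naturals is an initial segment -/
private lemma mem_iff_lt_card {T : Finset ℕ} (hT : ∀ a ∈ T, ∀ b ≤ a, b ∈ T) (a : ℕ) :
    a ∈ T ↔ a < T.card := by
  have hsub : T ⊆ range T.card := by
    intro x hx
    have h1 : range (x + 1) ⊆ T := by
      intro y hy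
      exact hT x hx y (by have := mem_range.1 hy; omega)
    have h2 := card_le_card h1
    rw [card_range] at h2
    exact mem_range.2 (by omega)
  have heq : T = range T.card := eq_of_subset_of_card_le hsub (by rw [card_range])
  constructor
  · intro h
    exact mem_range.1 (hsub h)
  · intro h
    rw [heq]
    exact mem_range.2 h

private lemma pcol_le {n : ℕ} (p : n.Partition) (i : ℕ) : pcol p i ≤ n := by
  unfold pcol
  refine (Multiset.card_le_card (Multiset.filter_le _ _)).trans ?_
  have h := Multiset.card_nsmul_le_sum (s := p.parts) (a := 1) (fun x hx => p.parts_pos hx)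
  rw [p.parts_sum] at h
  simpa using h

private lemma pcol_anti {n : ℕ} (p : n.Partition) {i i' : ℕ} (h : i' ≤ i) :
    pcol p i ≤ pcol p i' := by
  unfold pcol
  refine Multiset.card_le_card (Multiset.monotone_filter_right _ ?_)
  intro a ha
  exact lt_of_le_of_lt h ha

private lemma lt_of_pcol_pos {n : ℕ} (p : n.Partition) {i : ℕ} (h : 0 < pcol p i) : i < n := by
  unfold pcol at h
  obtain ⟨x, hx⟩ := Multiset.card_pos_iff_exists_mem.1 h
  rw [Multiset.mem_filter] at hx
  have h1 : x ≤ p.parts.sum := Multiset.single_le_sum (fun _ _ => Nat.zero_le _) x hx.1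
  rw [p.parts_sum] at h1
  omega

lemma mem_cel {n : ℕ} (p : n.Partition) {e : ℕ × ℕ} : e ∈ cel p ↔ e.2 < pcol p e.1 := by
  unfold cel
  rw [mem_filter, mem_product, mem_range, mem_range]
  constructor
  · exact fun h => h.2
  · intro h
    have h1 := lt_of_pcol_pos p (i := e.1) (by omega)
    have h2 := pcol_le p e.1
    exact ⟨⟨h1, by omega⟩, h⟩

private lemma Lo_cel {n : ℕ} (p : n.Partition) : Lo (cel p) := by
  intro i j i' j' h hi hj
  rw [mem_cel] at h ⊢
  have := pcol_anti p hi
  simp only at h ⊢
  omega

/-- the sum of the numbers of elements `> i` is the sum -/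
private lemma sum_card_filter (n : ℕ) (m : Multiset ℕ) (hm : ∀ x ∈ m, x ≤ n) :
    ∑ i ∈ range n, (m.filter (i < ·)).card = m.sum := by
  induction m using Multiset.induction_on with
  | empty => simp
  | cons a m ih =>
    have h1 : ∀ x ∈ m, x ≤ n := fun x hx => hm x (Multiset.mem_cons_of_mem hx)
    have ha : a ≤ n := hm a (Multiset.mem_cons_self a m)
    rw [Multiset.sum_cons, ← ih h1]
    have h2 : ∀ i, ((a ::ₘ m).filter (i < ·)).card =
        (if i < a then 1 else 0) + (m.filter (i < ·)).card := by
      intro i
      by_cases h : i < a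
      · rw [Multiset.filter_cons_of_pos _ h, Multiset.card_cons, if_pos h, add_comm]
      · rw [Multiset.filter_cons_of_neg _ h, if_neg h, zero_add]
    simp_rw [h2]
    rw [sum_add_distrib, ← card_filter]
    congr 1
    have : (range n).filter (fun i => i < a) = range a := by
      ext x
      rw [mem_filter, mem_range, mem_range]
      omega
    rw [this, card_range]

private lemma card_cel {n : ℕ} (p : n.Partition) : (cel p).card = n := by
  have h1 : (cel p).card = ∑ i ∈ range n, pcol p i := by
    unfold cel
    rw [card_filter, sum_product]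
    refine sum_congr rfl (fun i _ => ?_)
    rw [← card_filter]
    have : (range n).filter (fun j => j < pcol p i) = range (pcol p i) := by
      ext x
      rw [mem_filter, mem_range, mem_range]
      have := pcol_le p i
      omega
    simp only
    rw [this, card_range]
  rw [h1]
  unfold pcol
  rw [sum_card_filter n p.parts ?_, p.parts_sum]
  intro x hx
  have h1 : x ≤ p.parts.sum := Multiset.single_le_sum (fun _ _ => Nat.zero_le _) x hx
  rwa [p.parts_sum] at h1

/-- the multiplicities are differences of column heights -/
private lemma count_eq (m : Multiset ℕ) (a : ℕ) :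
    (m.filter (a < ·)).card = m.count (a + 1) + (m.filter (a + 1 < ·)).card := by
  induction m using Multiset.induction_on with
  | empty => simp
  | cons b m ih =>
    rw [Multiset.count_cons]
    rcases lt_trichotomy b (a + 1) with h | h | h
    · rw [Multiset.filter_cons_of_neg _ (by omega), Multiset.filter_cons_of_neg _ (by omega),
        if_neg (by omega), ih]
      omega
    · rw [Multiset.filter_cons_of_pos _ (by omega), Multiset.filter_cons_of_neg _ (by omega),
        if_pos (by omega), Multiset.card_cons, ih]
      omega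
    · rw [Multiset.filter_cons_of_pos _ (by omega), Multiset.filter_cons_of_pos _ (by omega),
        if_neg (by omega), Multiset.card_cons, Multiset.card_cons, ih]
      omega

private lemma cel_inj {n : ℕ} {p q : n.Partition} (h : cel p = cel q) : p = q := by
  have hcol : ∀ i, pcol p i = pcol q i := by
    intro i
    apply le_antisymm
    · by_contra hc
      have h1 : (i, pcol q i) ∈ cel p := (mem_cel p).2 (by simp only; omega)
      rw [h, mem_cel] at h1
      simp only at h1
      omega
    · by_contra hc
      have h1 : (i, pcol p i) ∈ cel q := (mem_cel q).2 (by simp only; omega)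
      rw [← h, mem_cel] at h1
      simp only at h1
      omega
  apply Nat.Partition.ext
  ext a
  rcases Nat.eq_zero_or_pos a with rfl | ha
  · rw [Multiset.count_eq_zero_of_notMem, Multiset.count_eq_zero_of_notMem]
    · exact fun h0 => absurd (q.parts_pos h0) (by omega)
    · exact fun h0 => absurd (p.parts_pos h0) (by omega)
  · obtain ⟨b, rfl⟩ : ∃ b, a = b + 1 := ⟨a - 1, by omega⟩
    have h1 := count_eq p.parts b
    have h2 := count_eq q.parts b
    have h3 := hcol b
    have h4 := hcol (b + 1)
    unfold pcol at h3 h4
    omega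

private lemma filter_map_card (r : ℕ → ℕ) (n i : ℕ) :
    ((((range n).val.map r).filter (· ≠ 0)).filter (i < ·)).card =
      ((range n).filter (fun j => i < r j)).card := by
  rw [Multiset.filter_filter]
  have h1 : ((range n).val.map r).filter (fun a => i < a ∧ a ≠ 0) =
      ((range n).val.map r).filter (fun a => i < a) := by
    apply Multiset.filter_congr
    intro x _
    constructor
    · exact fun h => h.1
    · exact fun h => ⟨h, by omega⟩
  rw [h1, Multiset.filter_map, Multiset.card_map]
  rfl

private lemma cel_surj {n : ℕ} {s : Finset (ℕ × ℕ)} (hs : s ∈ dg n) :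
    ∃ p : n.Partition, cel p = s := by
  obtain ⟨hlo, hcard⟩ := mem_dg.1 hs
  -- row lengths
  set R : ℕ → Finset ℕ := fun j => (range n).filter (fun i => (i, j) ∈ s) with hR
  have hRlow : ∀ j, ∀ a ∈ R j, ∀ b ≤ a, b ∈ R j := by
    intro j a ha b hb
    rw [hR, mem_filter, mem_range] at ha ⊢
    exact ⟨by omega, hlo a j b j ha.2 hb le_rfl⟩
  have hmem : ∀ i j, (i, j) ∈ s ↔ i < (R j).card := by
    intro i j
    rw [← mem_iff_lt_card (hRlow j) i]
    simp only [hR, mem_filter, mem_range]
    constructor
    · intro h
      have := (lt_of_mem hlo h).1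
      exact ⟨by simp only at this; omega, h⟩
    · exact fun h => h.2
  have hsum : ((range n).val.map (fun j => (R j).card)).sum = n := by
    show ∑ j ∈ range n, (R j).card = n
    have h2 : s = ((range n).biUnion (fun j => (R j).image (fun i => (i, j)))) := by
      ext ⟨i, j⟩
      simp only [mem_biUnion, mem_image, Prod.mk.injEq, mem_range, hR, mem_filter]
      constructor
      · intro h
        have h3 := lt_of_mem hlo h
        rw [hcard] at h3
        exact ⟨j, h3.2, i, ⟨h3.1, h⟩, rfl, rfl⟩
      · rintro ⟨j', _, i', ⟨_, h⟩, rfl, rfl⟩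
        exact h
    have h4 : s.card = ∑ j ∈ range n, (R j).card := by
      conv_lhs => rw [h2]
      rw [card_biUnion]
      · refine sum_congr rfl (fun j _ => ?_)
        rw [card_image_of_injective]
        intro a b hab
        exact (Prod.mk.inj hab).1
      · intro x _ y _ hxy
        simp only [Function.onFun]
        rw [disjoint_left]
        intro z hz1 hz2
        rw [mem_image] at hz1 hz2
        obtain ⟨_, _, rfl⟩ := hz1
        obtain ⟨_, _, h5⟩ := hz2
        exact hxy (Prod.mk.inj h5).2.symm
    rw [← h4, hcard]
  refine ⟨Nat.Partition.ofSums n ((range n).val.map (fun j => (R j).card)) hsum, ?_⟩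
  ext ⟨i, j⟩
  rw [mem_cel]
  unfold pcol
  have h5 : (Nat.Partition.ofSums n ((range n).val.map (fun j => (R j).card)) hsum).parts =
      ((range n).val.map (fun j => (R j).card)).filter (· ≠ 0) := rfl
  simp only
  rw [h5, filter_map_card]
  have h6 : (range n).filter (fun j => i < (R j).card) =
      (range n).filter (fun j => (i, j) ∈ s) := by
    apply filter_congr
    intro j _
    rw [hmem]
  rw [h6]
  rw [← mem_iff_lt_card (T := (range n).filter (fun j => (i, j) ∈ s)), mem_filter, mem_range]
  · constructor
    · exact fun h => h.2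
    · intro h
      have := (lt_of_mem hlo h).2
      rw [hcard] at this
      exact ⟨this, h⟩
  · intro a ha b hb
    rw [mem_filter, mem_range] at ha ⊢
    exact ⟨by omega, hlo i a i b ha.2 le_rfl hb⟩

theorem sum_cel {M : Type*} [AddCommMonoid M] (n : ℕ) (Φ : Finset (ℕ × ℕ) → M) :
    ∑ p : n.Partition, Φ (cel p) = ∑ s ∈ dg n, Φ s := by
  refine sum_bij (fun p _ => cel p) ?_ ?_ ?_ ?_
  · intro p _
    exact mem_dg.2 ⟨Lo_cel p, card_cel p⟩
  · intro p _ q _ h
    exact cel_inj h
  · intro s hs
    obtain ⟨p, hp⟩ := cel_surj hs
    exact ⟨p, mem_univ _, hp⟩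
  · intro p _
    rfl

private lemma lt_pcol_iff {n : ℕ} (p : n.Partition) (i j : ℕ) :
    j < pcol p i ↔ i < prow p j := by
  unfold prow
  rw [← mem_iff_lt_card (T := (range n).filter (j < pcol p ·)), mem_filter, mem_range]
  · constructor
    · intro h
      exact ⟨lt_of_pcol_pos p (by omega), h⟩
    · exact fun h => h.2
  · intro a ha b hb
    rw [mem_filter, mem_range] at ha ⊢
    have := pcol_anti p hb
    exact ⟨by omega, by omega⟩

/-- arms and legs of `cel p` -/
theorem arm_cel {n : ℕ} (p : n.Partition) {i j : ℕ} (h : (i, j) ∈ cel p) :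
    prow p j - i = arm (cel p) (i, j) + 1 ∧ pcol p i - j = leg (cel p) (i, j) + 1 := by
  have h0 : j < pcol p i := (mem_cel p).1 h
  have h0' : i < prow p j := (lt_pcol_iff p i j).1 h0
  constructor
  · have h1 : (cel p).filter (fun f => f.2 = (i, j).2 ∧ (i, j).1 < f.1) =
        (Ioo i (prow p j)).image (fun a => (a, j)) := by
      ext ⟨a, b⟩
      simp only [mem_filter, mem_cel, mem_image, mem_Ioo, Prod.mk.injEq]
      constructor
      · rintro ⟨h2, h3, h4⟩
        subst h3
        exact ⟨a, ⟨h4, (lt_pcol_iff p a b).1 h2⟩, rfl, rfl⟩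
      · rintro ⟨a', ⟨h2, h3⟩, rfl, rfl⟩
        exact ⟨(lt_pcol_iff p a' j).2 h3, rfl, h2⟩
    unfold arm
    rw [h1, card_image_of_injective _ (fun a b hab => (Prod.mk.inj hab).1), Nat.card_Ioo]
    omega
  · have h1 : (cel p).filter (fun f => f.1 = (i, j).1 ∧ (i, j).2 < f.2) =
        (Ioo j (pcol p i)).image (fun b => (i, b)) := by
      ext ⟨a, b⟩
      simp only [mem_filter, mem_cel, mem_image, mem_Ioo, Prod.mk.injEq]
      constructor
      · rintro ⟨h2, h3, h4⟩
        subst h3
        exact ⟨b, ⟨h4, h2⟩, rfl, rfl⟩
      · rintro ⟨b', ⟨h2, h3⟩, rfl, rfl⟩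
        exact ⟨h3, rfl, h2⟩
    unfold leg
    rw [h1, card_image_of_injective _ (fun a b hab => (Prod.mk.inj hab).2), Nat.card_Ioo]
    omega

end MPa7fa83.Cs
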