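import Pool.Agent.Lib.MP_a7fa83_ag.Cs.A1

section

/-!
# E0: elementary facts on degrees and on `tw`

`deg`, `num`, `wt` are additive, `wt d = deg d + 2 num d`; `tw` is multiplicative.
-/

set_option autoImplicit false

namespace MPa7fa83.Cs

open Finset PowerSeries

lemma deg_add (d e : ℕ →₀ ℕ) : deg (d + e) = deg d + deg e := by
  unfold deg
  exact Finsupp.sum_add_index' (fun _ => Nat.zero_mul _) (fun _ _ _ => Nat.add_mul _ _ _)

lemma num_add (d e : ℕ →₀ ℕ) : num (d + e) = num d + num e := by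
  unfold num
  exact Finsupp.sum_add_index' (fun _ => rfl) (fun _ _ _ => rfl)

lemma wt_add (d e : ℕ →₀ ℕ) : wt (d + e) = wt d + wt e := by
  unfold wt
  exact Finsupp.sum_add_index' (fun _ => Nat.zero_mul _) (fun _ _ _ => Nat.add_mul _ _ _)

lemma deg_zero' : deg 0 = 0 := by
  unfold deg
  exact Finsupp.sum_zero_index

lemma num_zero' : num 0 = 0 := by
  unfold num
  exact Finsupp.sum_zero_index

lemma wt_zero' : wt 0 = 0 := by
  unfold wt
  exact Finsupp.sum_zero_index

lemma deg_single (k n : ℕ) : deg (Finsupp.single k n) = n * k := by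
  unfold deg
  exact Finsupp.sum_single_index (Nat.zero_mul _)

lemma num_single (k n : ℕ) : num (Finsupp.single k n) = n := by
  unfold num
  exact Finsupp.sum_single_index rfl

lemma wt_single (k n : ℕ) : wt (Finsupp.single k n) = n * (k + 2) := by
  unfold wt
  exact Finsupp.sum_single_index (Nat.zero_mul _)

lemma wt_eq (d : ℕ →₀ ℕ) : wt d = deg d + 2 * num d := by
  unfold wt deg num
  simp only [Finsupp.sum]
  rw [Finset.mul_sum, ← Finset.sum_add_distrib]
  refine Finset.sum_congr rfl fun k _ => ?_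
  ring

lemma dl_add (d e : ℕ ⊕ ℕ →₀ ℕ) : dl (d + e) = dl d + dl e := by
  ext k
  simp [dl, Finsupp.comapDomain_apply]

lemma dr_add (d e : ℕ ⊕ ℕ →₀ ℕ) : dr (d + e) = dr d + dr e := by
  ext k
  simp [dr, Finsupp.comapDomain_apply]

section

variable {R : Type*} [CommRing R]

private lemma e0_coeff (f : MvPowerSeries ℕ R) (I : ℕ →₀ ℕ) :
    MvPowerSeries.coeff I (tw f) = C (MvPowerSeries.coeff I f) * X ^ deg I := rfl

lemma coeff_tw (f : MvPowerSeries ℕ R) (I : ℕ →₀ ℕ) (n : ℕ) :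
    coeff n (MvPowerSeries.coeff I (tw f)) = if n = deg I then MvPowerSeries.coeff I f else 0 := by
  rw [e0_coeff, coeff_C_mul, coeff_X_pow]
  split_ifs
  · rw [mul_one]
  · rw [mul_zero]

lemma tw_mul (f g : MvPowerSeries ℕ R) : tw (f * g) = tw f * tw g := by
  ext1 I
  rw [e0_coeff, MvPowerSeries.coeff_mul, MvPowerSeries.coeff_mul, map_sum, Finset.sum_mul]
  refine Finset.sum_congr rfl fun p hp => ?_
  rw [e0_coeff, e0_coeff, ← Finset.HasAntidiagonal.mem_antidiagonal.1 hp, deg_add, map_mul, pow_add]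
  ring

lemma tw_one : tw (1 : MvPowerSeries ℕ R) = 1 := by
  classical
  ext1 I
  rw [e0_coeff, MvPowerSeries.coeff_one, MvPowerSeries.coeff_one]
  split_ifs with h
  · rw [h, deg_zero', pow_zero, mul_one, map_one]
  · rw [map_zero, zero_mul]

end

end MPa7fa83.Cs
end

section

/-!
# MP_a7fa83_ag, compact surfaces: series attached to diagrams
-/

set_option autoImplicit false

namespace MPa7fa83.Cs

open Finset PowerSeries

section

variable {Λ : Type*} [CommRing Λ] [Algebra ℚ Λ]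

/-- Newton: `e_0 = 1`, `(j+1) e_{j+1} = ∑_{i ≤ j} (-1)^i p_{i+1} e_{j-i}` -/
noncomputable def ee (p : ℕ → Λ) : ℕ → Λ
  | 0 => 1
  | j + 1 => algebraMap ℚ Λ (1 / ((j : ℚ) + 1)) *
      ∑ i : Fin (j + 1), (-1) ^ (i : ℕ) * p (i + 1) * ee p (j - i)
  termination_by j => j
  decreasing_by omega

/-- the exponential series `exp (a X)` -/
noncomputable def ex (a : Λ) : Λ⟦X⟧ := rescale a (PowerSeries.exp Λ)

/-- the corner series of a diagram -/
noncomputable def Hse (a b : Λ) (s : Finset (ℕ × ℕ)) : Λ⟦X⟧ :=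
  1 - (1 - ex a) * (1 - ex b) * ∑ e ∈ s, ex (cn a b e)

/-- the power sums of a pair of diagrams; `t4 = - t1 - t2 - t3` -/
noncomputable def pwr (t1 t2 t3 : Λ) (s r : Finset (ℕ × ℕ)) (i : ℕ) : Λ :=
  (i.factorial : Λ) * coeff i (Hse t3 (-t1 - t2 - t3) r * Hse (-t1) (-t2) s)

end

/-- the poles of a pair of diagrams -/
noncomputable def Pol (s r : Finset (ℕ × ℕ)) : Finset Gm :=
  (rmb s ×ˢ adb r).image (fun x => pole x.1 x.2) ∪ (adb s ×ˢ rmb r).image (fun x => pole x.1 x.2)

/-- the zeros of a pair of diagrams -/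
noncomputable def Zer (s r : Finset (ℕ × ℕ)) : Finset Gm :=
  (adb s ×ˢ adb r).image (fun x => pt u3 u4 x.2 - pt u1 u2 x.1) ∪
  (rmb s ×ˢ rmb r).image
    (fun x => pt u3 u4 (x.2.1 + 1, x.2.2 + 1) - pt u1 u2 (x.1.1 + 1, x.1.2 + 1))

end MPa7fa83.Cs
end

section

/-!
# B0: basic facts on the group ring

`xx_mul`: `e^γ e^δ = e^{γ+δ}`.  `st` is the involution.  `eh φ` is multiplicative on sums if
`φ γ ≠ 0` for `γ ≠ 0` (`Finsupp.prod_add_index`).  `eh_st`: `φ (-γ) = - φ γ`, so
`eh φ (st V) = (-1)^k eh φ V` with `k = ∑_{γ ≠ 0} V(γ)`.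
-/

set_option autoImplicit false

namespace MPa7fa83.Cs

open Finset

lemma xx_zero : xx 0 = 1 := rfl

lemma xx_mul (γ δ : Gm) : xx γ * xx δ = xx (γ + δ) := by
  simp [xx, AddMonoidAlgebra.single_mul_single]

lemma xx_coeff (γ δ : Gm) : (xx γ).coeff δ = if δ = γ then 1 else 0 := by
  classical
  unfold xx
  rw [AddMonoidAlgebra.coeff_single, Finsupp.single_apply]
  by_cases h : γ = δ
  · rw [if_pos h, if_pos h.symm]
  · rw [if_neg h, if_neg (fun h2 => h h2.symm)]

/-- the coefficients of `e^γ V` -/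
lemma coeff_xx_mul (γ δ : Gm) (V : GR) : (xx γ * V).coeff δ = V.coeff (δ - γ) := by
  unfold xx
  rw [AddMonoidAlgebra.coeff_single_mul_apply, one_mul, neg_add_eq_sub]

lemma st_xx (γ : Gm) : st (xx γ) = xx (-γ) := by
  unfold st xx
  simp

lemma st_HH (u v : Gm) (s : Finset (ℕ × ℕ)) : st (HH u v s) = HH (-u) (-v) s := by
  unfold HH KK
  rw [map_sub, map_mul, map_mul, map_sub, map_sub, map_one, map_sum, st_xx, st_xx]
  congr 2
  apply Finset.sum_congr rfl
  intro e _
  rw [st_xx]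
  congr 1
  unfold pt
  rw [smul_neg, smul_neg, neg_add]

/-- the sum of the coefficients, as a ring homomorphism -/
noncomputable def aug : GR →+* ℤ :=
  ((AddMonoidAlgebra.lift ℤ ℤ Gm) 1).toRingHom

lemma aug_xx (γ : Gm) : aug (xx γ) = 1 := by
  unfold aug xx
  simp

private lemma b0x_aug_single (γ : Gm) (n : ℤ) : aug (AddMonoidAlgebra.single γ n) = n := by
  unfold aug
  simp

private lemma b0x_st_single (γ : Gm) (n : ℤ) :
    st (AddMonoidAlgebra.single γ n) = AddMonoidAlgebra.single (-γ) n := by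
  unfold st
  simp

section

variable {F : Type*} [Field F] {φ : Gm →+ F}

lemma eh_zero : eh φ 0 = 1 := by
  simp [eh]

private lemma b0x_single (γ : Gm) (n : ℤ) :
    eh φ (AddMonoidAlgebra.single γ n) = if γ = 0 then 1 else (φ γ) ^ n := by
  unfold eh
  rw [AddMonoidAlgebra.coeff_single, Finsupp.prod_single_index]
  simp

lemma eh_xx (γ : Gm) : eh φ (xx γ) = if γ = 0 then 1 else φ γ := by
  unfold xx
  rw [b0x_single, zpow_one]

lemma eh_add (h : ∀ γ, φ γ = 0 → γ = 0) (V W : GR) : eh φ (V + W) = eh φ V * eh φ W := by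
  classical
  unfold eh
  rw [AddMonoidAlgebra.coeff_add]
  apply Finsupp.prod_add_index
  · intro γ _
    simp
  · intro γ _ b c
    by_cases h2 : γ = 0
    · simp [h2]
    · rw [if_neg h2, if_neg h2, if_neg h2]
      exact zpow_add₀ (fun h3 => h2 (h γ h3)) b c

lemma eh_ne (h : ∀ γ, φ γ = 0 → γ = 0) (V : GR) : eh φ V ≠ 0 := by
  unfold eh Finsupp.prod
  rw [Finset.prod_ne_zero_iff]
  intro γ _
  by_cases h2 : γ = 0
  · simp [h2]
  · show (if γ = 0 then (1 : F) else (φ γ) ^ (V.coeff γ)) ≠ 0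
    rw [if_neg h2]
    exact zpow_ne_zero _ (fun h3 => h2 (h γ h3))

lemma eh_neg (h : ∀ γ, φ γ = 0 → γ = 0) (V : GR) : eh φ (-V) = (eh φ V)⁻¹ := by
  have h1 : eh φ (-V) * eh φ V = 1 := by
    rw [← eh_add h, neg_add_cancel, eh_zero]
  exact eq_inv_of_mul_eq_one_left h1

lemma eh_sub (h : ∀ γ, φ γ = 0 → γ = 0) (V W : GR) : eh φ (V - W) = eh φ V / eh φ W := by
  rw [sub_eq_add_neg, eh_add h, eh_neg h, div_eq_mul_inv]

lemma eh_sum (h : ∀ γ, φ γ = 0 → γ = 0) {κ : Type*} (T : Finset κ) (V : κ → GR) :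
    eh φ (∑ i ∈ T, V i) = ∏ i ∈ T, eh φ (V i) := by
  classical
  induction T using Finset.induction_on with
  | empty => simp [eh_zero]
  | insert a T ha ih => rw [Finset.sum_insert ha, Finset.prod_insert ha, eh_add h, ih]

/-- the sign of the involution -/
lemma eh_st (h : ∀ γ, φ γ = 0 → γ = 0) (V : GR) :
    eh φ (st V) = (-1 : F) ^ (aug V - V.coeff 0) * eh φ V := by
  classical
  have hm : (-1 : F) ≠ 0 := neg_ne_zero.2 one_ne_zero
  refine AddMonoidAlgebra.induction_linear V ?_ ?_ ?_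
  · simp [eh_zero]
  · intro x y hx hy
    rw [map_add, eh_add h, hx, hy, eh_add h, map_add, AddMonoidAlgebra.coeff_add,
      Finsupp.add_apply, add_sub_add_comm, zpow_add₀ hm]
    ring
  · intro γ n
    rw [b0x_st_single, b0x_single, b0x_single, b0x_aug_single, AddMonoidAlgebra.coeff_single,
      Finsupp.single_apply]
    by_cases h2 : γ = 0
    · rw [if_pos (neg_eq_zero.2 h2), if_pos h2, if_pos h2, sub_self, zpow_zero, mul_one]
    · rw [if_neg (fun h3 => h2 (neg_eq_zero.1 h3)), if_neg h2, if_neg h2, sub_zero, map_neg,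
        ← mul_zpow, neg_one_mul]

end

end MPa7fa83.Cs
end
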