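import Pool.Agent.Lib.MP_a7fa83_ag.Cs.B0
import Pool.Agent.Lib.MP_a7fa83_ag.Cs.A1
import Pool.Agent.Lib.MP_a7fa83_ag.Cs.A3

section

/-!
# C3: power sums

The ring homomorphism `GR → F⟦X⟧`, `e^γ ↦ exp (φ(γ) X)` maps `NN s r` to
`Hse t3 t4 r * Hse (-t1) (-t2) s`, and the `i`-th coefficient of the image of `∑ n_γ e^γ` is
`∑ n_γ φ(γ)^i / i!`.
-/

set_option autoImplicit false

namespace MPa7fa83.Cs

open Finset PowerSeries

lemma coeff_ex {Λ : Type*} [CommRing Λ] [Algebra ℚ Λ] (a : Λ) (i : ℕ) :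
    coeff i (ex a) = algebraMap ℚ Λ ((i.factorial : ℚ)⁻¹) * a ^ i := by
  rw [ex, coeff_rescale, coeff_exp, mul_comm, one_div]

lemma ex_add {Λ : Type*} [CommRing Λ] [Algebra ℚ Λ] (a b : Λ) : ex (a + b) = ex a * ex b := by
  rw [ex, ex, ex, exp_mul_exp_eq_exp_add]

lemma ex_zero {Λ : Type*} [CommRing Λ] [Algebra ℚ Λ] : ex (0 : Λ) = 1 := by
  rw [ex, rescale_zero_apply, constantCoeff_exp, map_one]

/-- the homomorphism `e^γ ↦ exp (φ(γ) X)` -/
private noncomputable def expHom {F : Type*} [Field F] [Algebra ℚ F] (φ : Gm →+ F) : GR →ₐ[ℤ] F⟦X⟧ :=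
  AddMonoidAlgebra.lift ℤ F⟦X⟧ Gm
    { toFun := fun γ => ex (φ (Multiplicative.toAdd γ))
      map_one' := by
        show ex (φ 0) = 1
        rw [map_zero, ex_zero]
      map_mul' := by
        intro a b
        show ex (φ (Multiplicative.toAdd a + Multiplicative.toAdd b)) = _
        rw [map_add, ex_add] }

private lemma expHom_xx {F : Type*} [Field F] [Algebra ℚ F] (φ : Gm →+ F) (γ : Gm) :
    expHom φ (xx γ) = ex (φ γ) := by
  unfold expHom xx
  rw [AddMonoidAlgebra.lift_single]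
  exact one_smul ℤ _

private lemma expHom_HH {F : Type*} [Field F] [Algebra ℚ F] (φ : Gm →+ F) (u v : Gm)
    (s : Finset (ℕ × ℕ)) : expHom φ (HH u v s) = Hse (φ u) (φ v) s := by
  unfold HH Hse KK
  rw [map_sub, map_mul, map_mul, map_sub, map_sub, map_one, map_sum, expHom_xx, expHom_xx]
  congr 2
  refine Finset.sum_congr rfl fun e _ => ?_
  rw [expHom_xx]
  congr 1
  rw [pt, cn, map_add, map_zsmul φ, map_zsmul φ, zsmul_eq_mul, zsmul_eq_mul, Int.cast_natCast,
    Int.cast_natCast]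

theorem pwr_eq {F : Type*} [Field F] [Algebra ℚ F] (t1 t2 t3 : F) (s r : Finset (ℕ × ℕ))
    (P S : Finset Gm) (h : NN s r = ∑ γ ∈ P, xx γ - ∑ γ ∈ S, xx γ) (i : ℕ) :
    pwr t1 t2 t3 s r i = ∑ γ ∈ P, ev t1 t2 t3 γ ^ i - ∑ γ ∈ S, ev t1 t2 t3 γ ^ i := by
  have h1 : Hse t3 (-t1 - t2 - t3) r * Hse (-t1) (-t2) s =
      ∑ γ ∈ P, ex (ev t1 t2 t3 γ) - ∑ γ ∈ S, ex (ev t1 t2 t3 γ) := by
    have h2 := congrArg (expHom (ev t1 t2 t3)) h
    unfold NN at h2
    rw [map_mul, expHom_HH, expHom_HH, map_sub, map_sum, map_sum] at h2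
    simp only [expHom_xx] at h2
    rw [← h2]
    have e3 : ev t1 t2 t3 u3 = t3 := by simp [ev, u3]
    have e4 : ev t1 t2 t3 u4 = -t1 - t2 - t3 := by
      simp only [ev, u4, AddMonoidHom.coe_mk, ZeroHom.coe_mk]
      push_cast
      ring
    have e1 : ev t1 t2 t3 (-u1) = -t1 := by simp [ev, u1]
    have e2 : ev t1 t2 t3 (-u2) = -t2 := by simp [ev, u2]
    rw [e1, e2, e3, e4]
  have h3 : ∀ a : F, (i.factorial : F) * coeff i (ex a) = a ^ i := by
    intro a
    rw [coeff_ex, ← mul_assoc]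
    have h4 : (i.factorial : F) * algebraMap ℚ F ((i.factorial : ℚ)⁻¹) = 1 := by
      rw [← map_natCast (algebraMap ℚ F), ← map_mul, mul_inv_cancel₀, map_one]
      exact_mod_cast Nat.factorial_ne_zero i
    rw [h4, one_mul]
  unfold pwr
  rw [h1, map_sub, map_sum, map_sum, mul_sub, Finset.mul_sum, Finset.mul_sum]
  simp only [h3]

end MPa7fa83.Cs
end

section

section

/-!
# C1: partial fractions at infinity

`E = ∏_P (1 + f(v) y) / ∏_S (1 + f(v) y)`, `card P = card S + 1`, so that `x E(1/x)` is the rational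
function `Ψ(x) = ∏_P (x + f(v)) / ∏_S (x + f(v))`.  For a polynomial `g` and `k ≥ 2` the
coefficient of `x^{1-k}` in `g Ψ` is on one side `∑ g_i E_{i+k}` and on the other side, by partial
fractions, `∑_{v ∈ S} Res_v g(-f(v)) (-f(v))^{k-2}`.
Proof: let `Dn = ∏_S (x + f(v))` and divide: `g ∏_P (x + f(v)) = Q Dn + R`, `deg R < card S`; by
Lagrange interpolation `R = ∑_{v ∈ S} Res_v g(-f(v)) ∏_{u ∈ S, u ≠ v} (x + f(u))`.  Then pass to
`y = 1/x` (reversed polynomials) and compare coefficients of high powers of `y`; the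
coefficients of `y^m` in `1 / (1 + f(v) y)` are `(-f(v))^m`.  Another way: both sides are linear in
`g`, so take `g = x^i`, i.e. prove for all `n ≥ 2`
`coeff n E = ∑_{v ∈ S} Res_v (-f(v))^{n-2}`, e.g. by induction on `card S` or from
`Lagrange.sum_basis`-type identities.
-/

set_option autoImplicit false

namespace MPa7fa83.Cs

open Finset PowerSeries

private theorem refl_prod {F κ : Type*} [Field F] [DecidableEq κ] (T : Finset κ) (f : κ → F) :
    Polynomial.reflect T.card (∏ v ∈ T, (Polynomial.X + Polynomial.C (f v))) =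
      ∏ v ∈ T, (1 + Polynomial.C (f v) * Polynomial.X) := by
  induction T using Finset.induction_on with
  | empty => simp
  | insert a T ha ih =>
    rw [prod_insert ha, prod_insert ha, card_insert_of_notMem ha, ← ih, Nat.add_comm T.card 1]
    have h1 : (∏ v ∈ T, (Polynomial.X + Polynomial.C (f v))).natDegree ≤ T.card := by
      refine le_trans (Polynomial.natDegree_prod_le _ _) ?_
      refine le_trans (sum_le_card_nsmul _ _ 1 fun v _ => ?_) (by simp)
      exact (Polynomial.natDegree_X_add_C _).le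
    rw [Polynomial.reflect_mul _ _ (Polynomial.natDegree_X_add_C _).le h1]
    congr 1
    ext n
    rw [Polynomial.coeff_reflect]
    rcases n with _ | _ | n
    · simp [Polynomial.coeff_one]
    · simp [Polynomial.coeff_X, Polynomial.coeff_C, Polynomial.coeff_one]
    · have h2 : Polynomial.revAt 1 (n + 2) = n + 2 := by
        rw [Polynomial.revAt_eq_self_of_lt (by omega)]
      rw [show n + 1 + 1 = n + 2 from rfl, h2]
      simp [Polynomial.coeff_X, Polynomial.coeff_C, Polynomial.coeff_one]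

private theorem prod_deg {F κ : Type*} [Field F] [DecidableEq κ] (T : Finset κ) (f : κ → F) :
    (∏ v ∈ T, (Polynomial.X + Polynomial.C (f v))).natDegree = T.card := by
  rw [Polynomial.natDegree_prod_of_monic _ _ (fun v _ => Polynomial.monic_X_add_C _)]
  simp

private theorem inv_ser {F : Type*} [Field F] (a : F) :
    (1 + C a * X : F⟦X⟧) * PowerSeries.mk (fun n => (-a) ^ n) = 1 := by
  ext n
  rcases n with _ | n
  · simp
  · rw [add_mul, one_mul, map_add, mul_assoc, coeff_C_mul, coeff_succ_X_mul, coeff_mk, coeff_mk, pow_succ]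
    simp
    ring

theorem pf {F κ : Type*} [Field F] [DecidableEq κ] (P S : Finset κ) (f : κ → F)
    (hS : Set.InjOn f S) (hPS : P.card = S.card + 1) (E : F⟦X⟧)
    (hE : E * ∏ v ∈ S, (1 + C (f v) * X) = ∏ v ∈ P, (1 + C (f v) * X))
    (g : Polynomial F) (D : ℕ) (hD : g.natDegree ≤ D) (k : ℕ) (hk : 2 ≤ k) :
    ∑ i ∈ range (D + 1), g.coeff i * coeff (i + k) E =
      ∑ v ∈ S, ((∏ u ∈ P, (f u - f v)) / ∏ u ∈ S.erase v, (f u - f v)) *
        (g.eval (-(f v)) * (-(f v)) ^ (k - 2)) := by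
  set Rs : κ → F := fun v => (∏ u ∈ P, (f u - f v)) / ∏ u ∈ S.erase v, (f u - f v) with hRs
  -- the polynomial identity in `x`
  set p : Polynomial F := ∏ v ∈ P, (Polynomial.X + Polynomial.C (f v)) -
    ∑ v ∈ S, Polynomial.C (Rs v) * ∏ u ∈ S.erase v, (Polynomial.X + Polynomial.C (f u)) with hp
  have hroot : ∀ w ∈ S, p.eval (-(f w)) = 0 := by
    intro w hw
    rw [hp, Polynomial.eval_sub, Polynomial.eval_prod, Polynomial.eval_finsetSum,
      sum_eq_single_of_mem w hw]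
    · rw [Polynomial.eval_mul, Polynomial.eval_C, Polynomial.eval_prod]
      have h1 : ∏ u ∈ S.erase w, (f u - f w) ≠ 0 := by
        rw [prod_ne_zero_iff]
        intro u hu h0
        exact (mem_erase.1 hu).1 (hS (mem_coe.2 (mem_erase.1 hu).2) (mem_coe.2 hw) (sub_eq_zero.1 h0))
      have h2 : ∀ T : Finset κ, ∏ u ∈ T, Polynomial.eval (-(f w)) (Polynomial.X + Polynomial.C (f u)) =
          ∏ u ∈ T, (f u - f w) := by
        intro T
        refine prod_congr rfl fun u _ => ?_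
        rw [Polynomial.eval_add, Polynomial.eval_X, Polynomial.eval_C]
        ring
      rw [h2, h2, hRs]
      simp only
      rw [div_mul_cancel₀ _ h1, sub_self]
    · intro v hv hvw
      rw [Polynomial.eval_mul, Polynomial.eval_prod, prod_eq_zero (mem_erase.2 ⟨hvw.symm, hw⟩), mul_zero]
      simp
  have hdvd : (∏ v ∈ S, (Polynomial.X + Polynomial.C (f v))) ∣ p := by
    apply Finset.prod_dvd_of_coprime
    · intro u hu v hv huv
      have h3 : IsUnit (-(f u) - -(f v)) := by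
        rw [isUnit_iff_ne_zero]
        intro h0
        apply huv
        apply hS hu hv
        have : f v - f u = 0 := by linear_combination h0
        exact (sub_eq_zero.1 this).symm
      have h4 := Polynomial.isCoprime_X_sub_C_of_isUnit_sub h3
      simpa using h4
    · intro v hv
      have h5 : (Polynomial.X - Polynomial.C (-(f v))) ∣ p := Polynomial.dvd_iff_isRoot.2 (hroot v hv)
      simpa using h5
  obtain ⟨Q, hQ⟩ := hdvd
  have hpdeg : p.natDegree ≤ S.card + 1 := by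
    rw [hp]
    refine le_trans (Polynomial.natDegree_sub_le _ _) (max_le ?_ ?_)
    · rw [prod_deg, hPS]
    · refine Polynomial.natDegree_sum_le_of_forall_le _ _ fun v hv => ?_
      refine le_trans (Polynomial.natDegree_C_mul_le _ _) ?_
      rw [prod_deg, card_erase_of_mem hv]
      omega
  have hQdeg : Q.natDegree ≤ 1 := by
    by_cases hQ0 : Q = 0
    · simp [hQ0]
    · have hm : (∏ v ∈ S, (Polynomial.X + Polynomial.C (f v))).Monic :=
        Polynomial.monic_prod_of_monic _ _ (fun v _ => Polynomial.monic_X_add_C _)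
      have h6 := hpdeg
      rw [hQ, Polynomial.natDegree_mul hm.ne_zero hQ0, prod_deg] at h6
      omega
  -- reflect
  have hrefl : ∏ v ∈ P, (1 + Polynomial.C (f v) * Polynomial.X) =
      (∏ v ∈ S, (1 + Polynomial.C (f v) * Polynomial.X)) * Polynomial.reflect 1 Q +
        ∑ v ∈ S, Polynomial.C (Rs v) * (Polynomial.X ^ 2 *
          ∏ u ∈ S.erase v, (1 + Polynomial.C (f u) * Polynomial.X)) := by
    have h7 : ∏ v ∈ P, (Polynomial.X + Polynomial.C (f v)) =
        (∏ v ∈ S, (Polynomial.X + Polynomial.C (f v))) * Q +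
        ∑ v ∈ S, Polynomial.C (Rs v) * ∏ u ∈ S.erase v, (Polynomial.X + Polynomial.C (f u)) := by
      rw [← hQ, hp]
      ring
    have h8 := congrArg (Polynomial.reflect (S.card + 1)) h7
    rw [← hPS, refl_prod, Polynomial.reflect_add, hPS,
      Polynomial.reflect_mul _ _ (prod_deg S f).le hQdeg, refl_prod] at h8
    rw [h8]
    congr 1
    have h9 : ∀ T : Finset κ, Polynomial.reflect (S.card + 1)
        (∑ v ∈ T, Polynomial.C (Rs v) * ∏ u ∈ S.erase v, (Polynomial.X + Polynomial.C (f u))) =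
        ∑ v ∈ T, Polynomial.reflect (S.card + 1)
          (Polynomial.C (Rs v) * ∏ u ∈ S.erase v, (Polynomial.X + Polynomial.C (f u))) := by
      intro T
      induction T using Finset.induction_on with
      | empty => simp
      | insert a T ha ih => rw [sum_insert ha, sum_insert ha, Polynomial.reflect_add, ih]
    rw [h9]
    refine sum_congr rfl fun v hv => ?_
    rw [Polynomial.reflect_C_mul]
    congr 1
    have h10 : S.card + 1 = 2 + (S.erase v).card := by
      rw [card_erase_of_mem hv]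
      have : 0 < S.card := card_pos.2 ⟨v, hv⟩
      omega
    have h11 : ∏ u ∈ S.erase v, (Polynomial.X + Polynomial.C (f u)) =
        1 * ∏ u ∈ S.erase v, (Polynomial.X + Polynomial.C (f u)) := (one_mul _).symm
    rw [h10, h11, Polynomial.reflect_mul _ _ (by simp) (prod_deg _ f).le, refl_prod]
    congr 1
    simp
  have hcoe : ∀ T : Finset κ, ((∏ v ∈ T, (1 + Polynomial.C (f v) * Polynomial.X) : Polynomial F) : F⟦X⟧) =
      ∏ v ∈ T, (1 + C (f v) * X) := by
    intro T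
    rw [← Polynomial.coeToPowerSeries.ringHom_apply, map_prod]
    refine prod_congr rfl fun v _ => ?_
    simp
  have hEe : E = ((Polynomial.reflect 1 Q : Polynomial F) : F⟦X⟧) +
      ∑ v ∈ S, C (Rs v) * (X ^ 2 * PowerSeries.mk (fun n => (-(f v)) ^ n)) := by
    have hne : (∏ v ∈ S, (1 + C (f v) * X) : F⟦X⟧) ≠ 0 := by
      rw [prod_ne_zero_iff]
      intro v _ h0
      have := inv_ser (f v)
      rw [h0, zero_mul] at this
      exact zero_ne_one this
    apply mul_right_cancel₀ hne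
    rw [hE, ← hcoe P, hrefl, Polynomial.coe_add, Polynomial.coe_mul, hcoe, add_mul, mul_comm]
    congr 1
    rw [← Polynomial.coeToPowerSeries.ringHom_apply, map_sum, sum_mul]
    refine sum_congr rfl fun v hv => ?_
    rw [Polynomial.coeToPowerSeries.ringHom_apply, Polynomial.coe_mul, Polynomial.coe_mul, hcoe,
      Polynomial.coe_C, Polynomial.coe_pow, Polynomial.coe_X, ← mul_prod_erase S _ hv]
    have h12 := inv_ser (f v)
    linear_combination (-(C (Rs v) * X ^ 2 * ∏ u ∈ S.erase v, (1 + C (f u) * X))) * h12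
  have hcoef : ∀ n, 2 ≤ n → coeff n E = ∑ v ∈ S, Rs v * (-(f v)) ^ (n - 2) := by
    intro n hn
    rw [hEe, map_add, Polynomial.coeff_coe, Polynomial.coeff_reflect,
      Polynomial.revAt_eq_self_of_lt (by omega), Polynomial.coeff_eq_zero_of_natDegree_lt (by omega), zero_add,
      map_sum]
    refine sum_congr rfl fun v _ => ?_
    obtain ⟨j, rfl⟩ : ∃ j, n = j + 2 := ⟨n - 2, by omega⟩
    rw [coeff_C_mul, coeff_X_pow_mul, coeff_mk]
    simp
  have hfin : ∀ i ∈ range (D + 1), g.coeff i * coeff (i + k) E =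
      ∑ v ∈ S, Rs v * ((g.coeff i * (-(f v)) ^ i) * (-(f v)) ^ (k - 2)) := by
    intro i _
    rw [hcoef (i + k) (by omega), mul_sum]
    refine sum_congr rfl fun v _ => ?_
    have h13 : i + k - 2 = i + (k - 2) := by omega
    rw [h13, pow_add]
    ring
  rw [sum_congr rfl hfin, sum_comm]
  refine sum_congr rfl fun v _ => ?_
  rw [← mul_sum, ← sum_mul, Polynomial.eval_eq_sum_range' (lt_of_le_of_lt hD (Nat.lt_succ_self D))]

end MPa7fa83.Cs
end

section

/-!
# B2: the corner formula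

`1 - (1 - e^u)(1 - e^v) K = ∑_{c addable} e^{c} - ∑_{c removable} e^{c + (1,1)}`.

Proof: it is enough to compare the numbers attached to each lattice point `(i, j)`, i.e. to prove
for the indicator function `χ` of `s` (`χ = 0` outside `ℕ × ℕ`):
`[(i,j) = 0] - χ(i,j) + χ(i-1,j) + χ(i,j-1) - χ(i-1,j-1)` is `1` if `(i,j)` is addable, `-1` if
`(i-1,j-1)` is removable and `0` otherwise.  Or by induction on the number of boxes:
let `c` be a removable box of `s`, and compare `adb`, `rmb` of `s` and `s.erase c`.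
Note that `u`, `v` are arbitrary, so first write both sides as images of sums in
`ℕ × ℕ` (e.g. sums over `(i, j)` in a big square of integers times `xx (pt u v (i, j))`).
-/

set_option autoImplicit false

namespace MPa7fa83.Cs

open Finset

private lemma b2x_sum {T R : Finset (ℕ × ℕ)} (h : T ⊆ R) (f : ℕ × ℕ → GR) :
    ∑ c ∈ T, f c = ∑ c ∈ R, (if c ∈ T then (1 : GR) else 0) * f c := by
  classical
  simp only [ite_mul, one_mul, zero_mul]
  rw [Finset.sum_ite_mem, Finset.inter_eq_right.mpr h]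

private lemma b2x_shift (T : Finset (ℕ × ℕ)) (a b : ℕ) (f : ℕ × ℕ → GR) :
    ∑ e ∈ T, f (e.1 + a, e.2 + b) = ∑ c ∈ T.image (fun e => (e.1 + a, e.2 + b)), f c := by
  rw [Finset.sum_image]
  rintro ⟨i, j⟩ _ ⟨i', j'⟩ _ h
  have h1 := (Prod.mk.inj h).1
  have h2 := (Prod.mk.inj h).2
  simp only at h1 h2
  have h3 : i = i' := by omega
  have h4 : j = j' := by omega
  rw [h3, h4]

private lemma b2x_mem (T : Finset (ℕ × ℕ)) (a b i j : ℕ) :
    (i, j) ∈ T.image (fun e => (e.1 + a, e.2 + b)) ↔ a ≤ i ∧ b ≤ j ∧ (i - a, j - b) ∈ T := by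
  rw [Finset.mem_image]
  constructor
  · rintro ⟨⟨i', j'⟩, h, h2⟩
    have h3 := (Prod.mk.inj h2).1
    have h4 := (Prod.mk.inj h2).2
    simp only at h3 h4
    refine ⟨by omega, by omega, ?_⟩
    have h5 : i - a = i' := by omega
    have h6 : j - b = j' := by omega
    rw [h5, h6]
    exact h
  · rintro ⟨h1, h2, h3⟩
    refine ⟨_, h3, ?_⟩
    show (i - a + a, j - b + b) = (i, j)
    rw [Nat.sub_add_cancel h1, Nat.sub_add_cancel h2]

private lemma b2x_sub {T : Finset (ℕ × ℕ)} {n : ℕ} (hT : ∀ e ∈ T, e.1 < n ∧ e.2 < n) (a b : ℕ)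
    (ha : a ≤ 1) (hb : b ≤ 1) :
    T.image (fun e => (e.1 + a, e.2 + b)) ⊆ range (n + 1) ×ˢ range (n + 1) := by
  rintro ⟨i, j⟩ h
  rw [Finset.mem_image] at h
  obtain ⟨e, he, h2⟩ := h
  have h3 := hT e he
  have h4 := (Prod.mk.inj h2).1
  have h5 := (Prod.mk.inj h2).2
  rw [Finset.mem_product, Finset.mem_range, Finset.mem_range]
  constructor
  · show i < n + 1
    omega
  · show j < n + 1
    omega

theorem HH_eq {s : Finset (ℕ × ℕ)} (hs : Lo s) (u v : Gm) :
    HH u v s = ∑ c ∈ adb s, xx (pt u v c) - ∑ c ∈ rmb s, xx (pt u v (c.1 + 1, c.2 + 1)) := by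
  classical
  have hlt : ∀ e ∈ s, e.1 < s.card ∧ e.2 < s.card := fun e he => lt_of_mem hs he
  have hlt2 : ∀ e ∈ rmb s, e.1 < s.card ∧ e.2 < s.card :=
    fun e he => lt_of_mem hs (mem_rmb.1 he).1
  -- the left hand side
  have hstep : ∀ (e : ℕ × ℕ) (a b : ℕ),
      xx ((a : ℤ) • u + (b : ℤ) • v) * xx (pt u v e) = xx (pt u v (e.1 + a, e.2 + b)) := by
    intro e a b
    rw [xx_mul]
    congr 1
    unfold pt
    push_cast
    module
  have h10 : ∀ e : ℕ × ℕ, xx u * xx (pt u v e) = xx (pt u v (e.1 + 1, e.2 + 0)) := by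
    intro e
    rw [← hstep e 1 0]
    congr 2
    simp
  have h01 : ∀ e : ℕ × ℕ, xx v * xx (pt u v e) = xx (pt u v (e.1 + 0, e.2 + 1)) := by
    intro e
    rw [← hstep e 0 1]
    congr 2
    simp
  have h11 : ∀ e : ℕ × ℕ, xx u * xx v * xx (pt u v e) = xx (pt u v (e.1 + 1, e.2 + 1)) := by
    intro e
    rw [← hstep e 1 1, xx_mul]
    congr 2
    simp
  have hL : HH u v s = xx (pt u v (0, 0)) - ∑ e ∈ s, xx (pt u v e)
      + ∑ e ∈ s, xx (pt u v (e.1 + 1, e.2 + 0)) + ∑ e ∈ s, xx (pt u v (e.1 + 0, e.2 + 1))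
      - ∑ e ∈ s, xx (pt u v (e.1 + 1, e.2 + 1)) := by
    have h0 : xx (pt u v (0, 0)) = 1 := by
      rw [← xx_zero]
      congr 1
      unfold pt
      simp
    rw [h0]
    simp only [← h10, ← h01, ← h11, ← Finset.mul_sum]
    unfold HH KK
    ring
  have hR0 : ({(0, 0)} : Finset (ℕ × ℕ)) ⊆ range (s.card + 1) ×ˢ range (s.card + 1) := by
    intro c hc
    rw [Finset.mem_singleton] at hc
    subst hc
    simp
  have hRs : s ⊆ range (s.card + 1) ×ˢ range (s.card + 1) := by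
    intro c hc
    rw [Finset.mem_product, Finset.mem_range, Finset.mem_range]
    have := hlt c hc
    omega
  have hRa : adb s ⊆ range (s.card + 1) ×ˢ range (s.card + 1) := by
    unfold adb
    exact Finset.filter_subset _ _
  have e0 : xx (pt u v (0, 0)) = ∑ c ∈ ({(0, 0)} : Finset (ℕ × ℕ)), xx (pt u v c) := by
    rw [Finset.sum_singleton]
  rw [hL, e0, b2x_shift s 1 0 (fun c => xx (pt u v c)), b2x_shift s 0 1 (fun c => xx (pt u v c)),
    b2x_shift s 1 1 (fun c => xx (pt u v c)), b2x_shift (rmb s) 1 1 (fun c => xx (pt u v c)),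
    b2x_sum hR0, b2x_sum hRs, b2x_sum hRa, b2x_sum (b2x_sub hlt 1 0 le_rfl (Nat.zero_le _)),
    b2x_sum (b2x_sub hlt 0 1 (Nat.zero_le _) le_rfl), b2x_sum (b2x_sub hlt 1 1 le_rfl le_rfl),
    b2x_sum (b2x_sub hlt2 1 1 le_rfl le_rfl), ← Finset.sum_sub_distrib, ← Finset.sum_add_distrib,
    ← Finset.sum_add_distrib, ← Finset.sum_sub_distrib, ← Finset.sum_sub_distrib]
  apply Finset.sum_congr rfl
  rintro ⟨i, j⟩ _
  rw [← sub_mul, ← add_mul, ← add_mul, ← sub_mul, ← sub_mul]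
  congr 1
  simp only [b2x_mem, Finset.mem_singleton, Prod.mk.injEq, adb_iff hs]
  rcases i with _ | i <;> rcases j with _ | j
  · by_cases h : (0, 0) ∈ s <;> simp [h]
  · have m1 : (0, j + 1) ∈ s → (0, j) ∈ s := fun h => hs _ _ _ _ h le_rfl (Nat.le_succ _)
    by_cases h : (0, j + 1) ∈ s <;> by_cases h' : (0, j) ∈ s <;>
      first | exact absurd (m1 h) h' | simp [h, h']
  · have m1 : (i + 1, 0) ∈ s → (i, 0) ∈ s := fun h => hs _ _ _ _ h (Nat.le_succ _) le_rfl
    by_cases h : (i + 1, 0) ∈ s <;> by_cases h' : (i, 0) ∈ s <;>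
      first | exact absurd (m1 h) h' | simp [h, h']
  · have m1 : (i + 1, j + 1) ∈ s → (i, j + 1) ∈ s := fun h => hs _ _ _ _ h (Nat.le_succ _) le_rfl
    have m2 : (i + 1, j + 1) ∈ s → (i + 1, j) ∈ s := fun h => hs _ _ _ _ h le_rfl (Nat.le_succ _)
    have m3 : (i + 1, j) ∈ s → (i, j) ∈ s := fun h => hs _ _ _ _ h (Nat.le_succ _) le_rfl
    have m4 : (i, j + 1) ∈ s → (i, j) ∈ s := fun h => hs _ _ _ _ h le_rfl (Nat.le_succ _)
    have m5 : (i, j) ∈ rmb s ↔ (i, j) ∈ s ∧ (i + 1, j) ∉ s ∧ (i, j + 1) ∉ s := rmb_iff hs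
    by_cases a1 : (i + 1, j + 1) ∈ s <;> by_cases a2 : (i + 1, j) ∈ s <;>
      by_cases a3 : (i, j + 1) ∈ s <;> by_cases a4 : (i, j) ∈ s <;>
      first
        | exact absurd (m1 a1) a3
        | exact absurd (m2 a1) a2
        | exact absurd (m3 a2) a4
        | exact absurd (m4 a3) a4
        | simp [a1, a2, a3, a4, m5]

end MPa7fa83.Cs
end

section

/-!
# B4: the weight of a diagram as a value of `eh`

For independent `u, v, w` no term of `(e^w - 1) T` is `e^0`, so `eh` gives the product.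
-/

set_option autoImplicit false

namespace MPa7fa83.Cs

open Finset

theorem wg_eq {F : Type*} [Field F] {φ : Gm →+ F} (h : ∀ γ, φ γ = 0 → γ = 0) {u v w : Gm}
    (hi : ∀ i j k : ℤ, i • u + j • v + k • w = 0 → i = 0 ∧ j = 0 ∧ k = 0)
    (s : Finset (ℕ × ℕ)) :
    wg (φ u) (φ v) (φ w) s = eh φ ((xx w - 1) * TT u v s) := by
  have hA : ∀ e : ℕ × ℕ, ((arm s e : ℤ) + 1) • u - (leg s e : ℤ) • v ≠ 0 := by
    intro e he
    have h1 := hi ((arm s e : ℤ) + 1) (-(leg s e : ℤ)) 0 (by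
      rw [neg_smul, zero_smul, add_zero, ← sub_eq_add_neg]; exact he)
    have h2 := h1.1
    omega
  have hB : ∀ e : ℕ × ℕ, ((leg s e : ℤ) + 1) • v - (arm s e : ℤ) • u ≠ 0 := by
    intro e he
    have h1 := hi (-(arm s e : ℤ)) ((leg s e : ℤ) + 1) 0 (by
      rw [neg_smul, zero_smul, add_zero, neg_add_eq_sub]; exact he)
    have h2 := h1.2.1
    omega
  have hwA : ∀ e : ℕ × ℕ, w + (((arm s e : ℤ) + 1) • u - (leg s e : ℤ) • v) ≠ 0 := by
    intro e he
    have h1 := hi ((arm s e : ℤ) + 1) (-(leg s e : ℤ)) 1 (by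
      rw [neg_smul, one_smul, ← sub_eq_add_neg, add_comm]; exact he)
    have h2 := h1.2.2
    omega
  have hwB : ∀ e : ℕ × ℕ, w + (((leg s e : ℤ) + 1) • v - (arm s e : ℤ) • u) ≠ 0 := by
    intro e he
    have h1 := hi (-(arm s e : ℤ)) ((leg s e : ℤ) + 1) 1 (by
      rw [neg_smul, one_smul, neg_add_eq_sub, add_comm]; exact he)
    have h2 := h1.2.2
    omega
  have e1 : (xx w - 1) * TT u v s = ∑ e ∈ s,
      ((xx (w + (((arm s e : ℤ) + 1) • u - (leg s e : ℤ) • v)) -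
        xx (((arm s e : ℤ) + 1) • u - (leg s e : ℤ) • v)) +
      (xx (w + (((leg s e : ℤ) + 1) • v - (arm s e : ℤ) • u)) -
        xx (((leg s e : ℤ) + 1) • v - (arm s e : ℤ) • u))) := by
    unfold TT
    rw [Finset.mul_sum]
    refine Finset.sum_congr rfl fun e _ => ?_
    rw [← xx_mul, ← xx_mul]
    ring
  rw [e1, eh_sum h]
  unfold wg
  refine Finset.prod_congr rfl fun e _ => ?_
  rw [eh_add h, eh_sub h, eh_sub h, eh_xx, eh_xx, eh_xx, eh_xx, if_neg (hA e), if_neg (hB e),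
    if_neg (hwA e), if_neg (hwB e)]
  have hA' : φ (((arm s e : ℤ) + 1) • u - (leg s e : ℤ) • v) ≠ 0 := fun h' => hA e (h _ h')
  have hB' : φ (((leg s e : ℤ) + 1) • v - (arm s e : ℤ) • u) ≠ 0 := fun h' => hB e (h _ h')
  have w1 : W1 (φ u) (φ v) s e = φ (((arm s e : ℤ) + 1) • u - (leg s e : ℤ) • v) := by
    unfold W1
    rw [map_sub, map_zsmul, map_zsmul, zsmul_eq_mul, zsmul_eq_mul]
    push_cast
    ring
  have w2 : W2 (φ u) (φ v) s e = φ (((leg s e : ℤ) + 1) • v - (arm s e : ℤ) • u) := by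
    unfold W2
    rw [map_sub, map_zsmul, map_zsmul, zsmul_eq_mul, zsmul_eq_mul]
    push_cast
    ring
  rw [w1, w2, map_add, map_add, div_mul_div_comm]

end MPa7fa83.Cs
end

section

/-!
# B5: the residues of two linked configurations cancel

`c` is addable to `s`, `d` is addable to `r`, `v₀ = pole c d = d - c - (1,1)_{12}`.
Put `q_i = e^{u_i}` (so `q1 q2 q3 q4 = 1`), `H = HH u1 u2 s`, `H' = HH u3 u4 r`, `c`, `d` also for
the positions in the lattice.  By `TT_eq`,
`TT (s + c) - TT s = e^{-c} H + q1 q2 e^c H* - (1-q1)(1-q2)` and similarly for `r`, `d`.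
All four factors are values of `eh` (see `wg_eq`); the quotient of the two products is `eh Θ`,
`Θ = (q3-1)(e^{-c} H + q1 q2 e^c H* - (1-q1)(1-q2))
     - (q1-1)(e^{-d} H' + q3 q4 e^d H'* - (1-q3)(1-q4))
     - H' e^{-d} (1-q1)(1-q2) + (1-q3⁻¹)(1-q4⁻¹) e^c H*`,
and `Θ = V - V*` with
`V = (q3-1) e^{-c} H + q2 (1-q1) e^{-d} H' + q4 - q2 + q1 q2 + q2 q3`.
Here `aug V = 2` and the coefficient of `e^0` in `V` is `-1` (use `HH_eq`: `H` has the coefficient
`1` at `c`; `H'` has the coefficient `0` at `d + (1,1)` by `crn_shift`; all the other points which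
occur are not in the plane).  So `eh Θ = (-1)^3 = -1` by `eh_st`.
-/

set_option autoImplicit false

namespace MPa7fa83.Cs

open Finset

section b5aux

private lemma b5_hi12 (i j k : ℤ) (h : i • u1 + j • u2 + k • u3 = 0) : i = 0 ∧ j = 0 ∧ k = 0 := by
  have h1 := congrArg (fun x : Gm => x.1) h
  have h2 := congrArg (fun x : Gm => x.2.1) h
  have h3 := congrArg (fun x : Gm => x.2.2) h
  simp [u1, u2, u3] at h1 h2 h3
  omega

private lemma b5_hi34 (i j k : ℤ) (h : i • u3 + j • u4 + k • u1 = 0) : i = 0 ∧ j = 0 ∧ k = 0 := by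
  have h1 := congrArg (fun x : Gm => x.1) h
  have h2 := congrArg (fun x : Gm => x.2.1) h
  have h3 := congrArg (fun x : Gm => x.2.2) h
  simp [u1, u3, u4] at h1 h2 h3
  omega

private lemma b5_pt_neg (u v : Gm) (c : ℕ × ℕ) : pt (-u) (-v) c = -pt u v c := by
  unfold pt
  rw [smul_neg, smul_neg, neg_add]

private lemma b5_KK (u v : Gm) {s : Finset (ℕ × ℕ)} {c : ℕ × ℕ} (hc : c ∉ s) :
    KK u v (insert c s) = KK u v s + xx (pt u v c) := by
  unfold KK
  rw [sum_insert hc, add_comm]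

private lemma b5_HH (u v : Gm) {s : Finset (ℕ × ℕ)} {c : ℕ × ℕ} (hc : c ∉ s) :
    HH u v (insert c s) = HH u v s - (1 - xx u) * (1 - xx v) * xx (pt u v c) := by
  unfold HH
  rw [b5_KK u v hc]
  ring

private lemma b5_inv (γ : Gm) : xx γ * xx (-γ) = 1 := by
  rw [xx_mul, add_neg_cancel, xx_zero]

private lemma b5_TT {s : Finset (ℕ × ℕ)} {c : ℕ × ℕ} (hs : Lo s) (hs' : Lo (insert c s))
    (hc : c ∉ s) (u v : Gm) :
    TT u v (insert c s) = TT u v s + (xx (-(pt u v c)) * HH u v s +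
      xx u * xx v * xx (pt u v c) * HH (-u) (-v) s - (1 - xx u) * (1 - xx v)) := by
  rw [TT_eq hs', TT_eq hs, b5_KK u v hc, b5_KK (-u) (-v) hc, b5_pt_neg, ← xx_mul u v]
  unfold HH
  have hC := b5_inv (pt u v c)
  have hp := b5_inv u
  have hq := b5_inv v
  linear_combination (-(1 - xx u) * (1 - xx v)) * hC +
    (xx (pt u v c) * KK (-u) (-v) s * (-(xx v - 1) + (xx v * xx (-v) - 1))) * hp +
    (-(xx (pt u v c) * KK (-u) (-v) s * (xx u - 1))) * hq

private lemma b5_pt12 (e : ℕ × ℕ) : pt u1 u2 e = ((e.1 : ℤ), (e.2 : ℤ), (0 : ℤ)) := by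
  simp [pt, u1, u2]

private lemma b5_pt34 (e : ℕ × ℕ) :
    pt u3 u4 e = (-(e.2 : ℤ), -(e.2 : ℤ), (e.1 : ℤ) - (e.2 : ℤ)) := by
  simp [pt, u3, u4, sub_eq_add_neg]

private lemma b5_coeff {s : Finset (ℕ × ℕ)} (hs : Lo s) (u v : Gm) (δ : Gm) :
    (HH u v s).coeff δ = ∑ c ∈ adb s, (if δ = pt u v c then (1 : ℤ) else 0) -
      ∑ c ∈ rmb s, (if δ = pt u v (c.1 + 1, c.2 + 1) then (1 : ℤ) else 0) := by
  rw [HH_eq hs, AddMonoidAlgebra.coeff_sub, AddMonoidAlgebra.coeff_sum,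
    AddMonoidAlgebra.coeff_sum, Finsupp.sub_apply, Finsupp.finsetSum_apply,
    Finsupp.finsetSum_apply]
  congr 1
  · exact sum_congr rfl fun c _ => xx_coeff _ _
  · exact sum_congr rfl fun c _ => xx_coeff _ _

private lemma b5_coeff_zero {s : Finset (ℕ × ℕ)} (hs : Lo s) (u v : Gm) (δ : Gm)
    (h : ∀ e : ℕ × ℕ, δ ≠ pt u v e) : (HH u v s).coeff δ = 0 := by
  rw [b5_coeff hs, sum_eq_zero (fun c _ => if_neg (h c)), sum_eq_zero (fun c _ => if_neg (h _)),
    sub_zero]

private lemma b5_c1 {s : Finset (ℕ × ℕ)} (hs : Lo s) {c : ℕ × ℕ} (hc : c ∈ adb s) :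
    (HH u1 u2 s).coeff (pt u1 u2 c) = 1 := by
  rw [b5_coeff hs]
  have h1 : ∑ c' ∈ adb s, (if pt u1 u2 c = pt u1 u2 c' then (1 : ℤ) else 0) = 1 := by
    rw [sum_eq_single c]
    · rw [if_pos rfl]
    · intro b _ hb
      rw [if_neg]
      intro h
      rw [b5_pt12, b5_pt12] at h
      apply hb
      have e1 := congrArg (fun x : Gm => x.1) h
      have e2 := congrArg (fun x : Gm => x.2.1) h
      simp only [Nat.cast_inj] at e1 e2
      exact Prod.ext e1.symm e2.symm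
    · intro h
      exact absurd hc h
  have h2 : ∑ c' ∈ rmb s, (if pt u1 u2 c = pt u1 u2 (c'.1 + 1, c'.2 + 1) then (1 : ℤ) else 0) =
      0 := by
    refine sum_eq_zero fun b hb => ?_
    rw [if_neg]
    intro h
    rw [b5_pt12, b5_pt12] at h
    have e1 := congrArg (fun x : Gm => x.1) h
    have e2 := congrArg (fun x : Gm => x.2.1) h
    simp only [Nat.cast_inj] at e1 e2
    have hz : (c, true) ∈ crn s := by
      unfold crn
      exact mem_union_left _ (mem_image.2 ⟨c, hc, rfl⟩)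
    have hz' : ((b.1 + 1, b.2 + 1), false) ∈ crn s := by
      unfold crn
      exact mem_union_right _ (mem_image.2 ⟨b, hb, rfl⟩)
    have h3 := crn_diag hs hz hz' (by
      show c.1 + (b.2 + 1) = (b.1 + 1) + c.2
      rw [e1, e2])
    exact absurd (congrArg Prod.snd h3) (by simp)
  rw [h1, h2]
  norm_num

private lemma b5_c2 {r : Finset (ℕ × ℕ)} (hr : Lo r) {d : ℕ × ℕ} (hd : d ∈ adb r) :
    (HH u3 u4 r).coeff (pt u3 u4 (d.1 + 1, d.2 + 1)) = 0 := by
  have hinj : ∀ e f : ℕ × ℕ, pt u3 u4 e = pt u3 u4 f → e = f := by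
    intro e f h
    rw [b5_pt34, b5_pt34] at h
    have e1 := congrArg (fun x : Gm => x.1) h
    have e2 := congrArg (fun x : Gm => x.2.2) h
    simp only at e1 e2
    refine Prod.ext ?_ ?_ <;> omega
  rw [b5_coeff hr, sum_eq_zero, sum_eq_zero, sub_zero]
  · intro b hb
    rw [if_neg]
    intro h
    have h1 := hinj _ _ h
    apply crn_shift hr hd false
    unfold crn
    refine mem_union_right _ (mem_image.2 ⟨b, hb, ?_⟩)
    rw [h1]
  · intro b hb
    rw [if_neg]
    intro h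
    have h1 := hinj _ _ h
    apply crn_shift hr hd true
    unfold crn
    refine mem_union_left _ (mem_image.2 ⟨b, hb, ?_⟩)
    rw [h1]

end b5aux

theorem link {F : Type*} [Field F] {t1 t2 t3 : F} (hg : Gen t1 t2 t3)
    {s r : Finset (ℕ × ℕ)} (hs : Lo s) (hr : Lo r) {c d : ℕ × ℕ} (hc : c ∈ adb s)
    (hd : d ∈ adb r) :
    wg t1 t2 t3 (insert c s) * wg t3 (-t1 - t2 - t3) t1 r *
      eh (ev t1 t2 t3) (xx (-(pole c d)) * NN (insert c s) r) +
    wg t1 t2 t3 s * wg t3 (-t1 - t2 - t3) t1 (insert d r) *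
      eh (ev t1 t2 t3) (xx (-(pole c d)) * NN s (insert d r)) = 0 := by
  have hc' := (mem_adb hs).1 hc
  have hd' := (mem_adb hr).1 hd
  set φ := ev t1 t2 t3 with hφ
  have hφ1 : φ u1 = t1 := by simp [hφ, ev, u1]
  have hφ2 : φ u2 = t2 := by simp [hφ, ev, u2]
  have hφ3 : φ u3 = t3 := by simp [hφ, ev, u3]
  have hφ4 : φ u4 = -t1 - t2 - t3 := by
    simp [hφ, ev, u4]
    ring
  have w12 : ∀ x : Finset (ℕ × ℕ), wg t1 t2 t3 x = eh φ ((xx u3 - 1) * TT u1 u2 x) := by
    intro x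
    have := wg_eq (φ := φ) hg b5_hi12 x
    rwa [hφ1, hφ2, hφ3] at this
  have w34 : ∀ x : Finset (ℕ × ℕ),
      wg t3 (-t1 - t2 - t3) t1 x = eh φ ((xx u1 - 1) * TT u3 u4 x) := by
    intro x
    have := wg_eq (φ := φ) hg b5_hi34 x
    rwa [hφ1, hφ3, hφ4] at this
  rw [w12, w12, w34, w34, ← eh_add hg, ← eh_add hg, ← eh_add hg, ← eh_add hg]
  -- the element V
  set V : GR := (xx u3 - 1) * xx (-(pt u1 u2 c)) * HH u1 u2 s +
    xx u2 * (1 - xx u1) * xx (-(pt u3 u4 d)) * HH u3 u4 r + xx u4 - xx u2 + xx u1 * xx u2 +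
    xx u2 * xx u3 with hV
  have hstV : st V = (xx (-u3) - 1) * xx (pt u1 u2 c) * HH (-u1) (-u2) s +
      xx (-u2) * (1 - xx (-u1)) * xx (pt u3 u4 d) * HH (-u3) (-u4) r + xx (-u4) - xx (-u2) +
      xx (-u1) * xx (-u2) + xx (-u2) * xx (-u3) := by
    rw [hV]
    simp only [map_add, map_sub, map_mul, map_one, st_xx, st_HH, neg_neg]
  have key : (xx u3 - 1) * TT u1 u2 (insert c s) + (xx u1 - 1) * TT u3 u4 r +
      xx (-(pole c d)) * NN (insert c s) r =
      ((xx u3 - 1) * TT u1 u2 s + (xx u1 - 1) * TT u3 u4 (insert d r) +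
        xx (-(pole c d)) * NN s (insert d r)) + (V - st V) := by
    have hX0 : xx (-(pole c d)) =
        xx (-(pt u3 u4 d)) * xx (pt u1 u2 c) * (xx u1 * xx u2) := by
      rw [xx_mul, xx_mul, xx_mul]
      congr 1
      unfold pole
      abel
    have h1 := b5_inv u1
    have h2 := b5_inv u2
    have h3 := b5_inv u3
    have h4 := b5_inv u4
    have hC := b5_inv (pt u1 u2 c)
    have hD := b5_inv (pt u3 u4 d)
    have Ra : xx u1 * xx u2 * xx u3 = xx (-u4) := by
      rw [xx_mul, xx_mul]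
      rfl
    have Rb : xx u1 * xx u2 = xx (-u3) * xx (-u4) := by
      rw [xx_mul, xx_mul]
      rfl
    have Rc : xx u1 * xx u3 * xx u4 = xx (-u2) := by
      rw [xx_mul, xx_mul]
      rfl
    have Rd : xx u3 * xx u4 = xx (-u1) * xx (-u2) := by
      rw [xx_mul, xx_mul]
      rfl
    have Re : xx u1 * xx u4 = xx (-u2) * xx (-u3) := by
      rw [xx_mul, xx_mul]
      rfl
    unfold NN
    rw [hstV, hV, b5_TT hs hc'.2 hc'.1 u1 u2, b5_TT hr hd'.2 hd'.1 u3 u4,
      b5_HH (-u1) (-u2) hc'.1, b5_HH u3 u4 hd'.1, b5_pt_neg, hX0]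
    generalize xx u1 = q1 at *
    generalize xx u2 = q2 at *
    generalize xx u3 = q3 at *
    generalize xx u4 = q4 at *
    generalize xx (-u1) = p1 at *
    generalize xx (-u2) = p2 at *
    generalize xx (-u3) = p3 at *
    generalize xx (-u4) = p4 at *
    generalize xx (pt u1 u2 c) = C at *
    generalize xx (-(pt u1 u2 c)) = C' at *
    generalize xx (pt u3 u4 d) = D at *
    generalize xx (-(pt u3 u4 d)) = D' at *
    generalize HH u1 u2 s = H at *
    generalize HH (-u1) (-u2) s = Hs at *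
    generalize HH u3 u4 r = K at *
    generalize HH (-u3) (-u4) r = Ks at *
    have E12 : q1 * q2 * ((1 - p1) * (1 - p2)) = (1 - q1) * (1 - q2) := by
      linear_combination (-(q2 - 1) + (q2 * p2 - 1)) * h1 - (q1 - 1) * h2
    have E34 : q1 * q2 * ((1 - q3) * (1 - q4)) = (1 - p3) * (1 - p4) := by
      linear_combination ((1 - q3) * (1 - q4)) * Rb + (-(p4 - 1) + (q4 * p4 - 1)) * h3 -
        (p3 - 1) * h4
    have e1 : D' * C * (q1 * q2) * (K * ((1 - p1) * (1 - p2) * C')) =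
        K * D' * ((1 - q1) * (1 - q2)) := by
      linear_combination (K * D' * (C * C')) * E12 + (K * D' * ((1 - q1) * (1 - q2))) * hC
    have e2 : D' * C * (q1 * q2) * ((1 - q3) * (1 - q4) * D * Hs) =
        C * Hs * ((1 - p3) * (1 - p4)) := by
      linear_combination (C * Hs * (D * D')) * E34 + (C * Hs * ((1 - p3) * (1 - p4))) * hD
    linear_combination (-1 : GR) * e1 + e2 + (C * Hs) * (Ra - Rb) + (D * Ks) * (Rd - Rc) -
      Re - Rd + Rc - Ra
  have haug : aug V = 2 := by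
    rw [hV]
    simp only [map_add, map_sub, map_mul, map_one, aug_xx]
    ring
  have hcoeff : V.coeff 0 = -1 := by
    have hV2 : V = xx (u3 - pt u1 u2 c) * HH u1 u2 s - xx (-(pt u1 u2 c)) * HH u1 u2 s +
        xx (u2 - pt u3 u4 d) * HH u3 u4 r - xx (u1 + u2 - pt u3 u4 d) * HH u3 u4 r + xx u4 -
        xx u2 + xx (u1 + u2) + xx (u2 + u3) := by
      rw [hV, sub_eq_add_neg u3, sub_eq_add_neg u2, sub_eq_add_neg (u1 + u2), ← xx_mul u3,
        ← xx_mul u2 (-(pt u3 u4 d)), ← xx_mul (u1 + u2), ← xx_mul u1 u2, ← xx_mul u2 u3]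
      ring
    have c1 : (HH u1 u2 s).coeff (0 - (u3 - pt u1 u2 c)) = 0 := by
      refine b5_coeff_zero hs _ _ _ fun e h => ?_
      rw [b5_pt12, b5_pt12] at h
      have e2 := congrArg (fun x : Gm => x.2.2) h
      simp [u3] at e2
    have c2 : (HH u1 u2 s).coeff (0 - -(pt u1 u2 c)) = 1 := by
      rw [zero_sub, neg_neg]
      exact b5_c1 hs hc
    have c3 : (HH u3 u4 r).coeff (0 - (u2 - pt u3 u4 d)) = 0 := by
      refine b5_coeff_zero hr _ _ _ fun e h => ?_
      rw [b5_pt34, b5_pt34] at h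
      have e1 := congrArg (fun x : Gm => x.1) h
      have e2 := congrArg (fun x : Gm => x.2.1) h
      simp [u2] at e1 e2
      omega
    have c4 : (HH u3 u4 r).coeff (0 - (u1 + u2 - pt u3 u4 d)) = 0 := by
      have : (0 : Gm) - (u1 + u2 - pt u3 u4 d) = pt u3 u4 (d.1 + 1, d.2 + 1) := by
        rw [b5_pt34, b5_pt34]
        refine Prod.ext ?_ (Prod.ext ?_ ?_)
        · simp [u1, u2]
          ring
        · simp [u1, u2]
          ring
        · simp [u1, u2]
      rw [this]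
      exact b5_c2 hr hd
    have n1 : (0 : Gm) ≠ u4 := by decide
    have n2 : (0 : Gm) ≠ u2 := by decide
    have n3 : (0 : Gm) ≠ u1 + u2 := by decide
    have n4 : (0 : Gm) ≠ u2 + u3 := by decide
    rw [hV2]
    simp only [AddMonoidAlgebra.coeff_add, AddMonoidAlgebra.coeff_sub, Finsupp.add_apply,
      Finsupp.sub_apply, coeff_xx_mul, xx_coeff, c1, c2, c3, c4, if_neg n1, if_neg n2, if_neg n3,
      if_neg n4]
    norm_num
  rw [key, eh_add hg, eh_sub hg, eh_st hg, haug, hcoeff]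
  have hne := eh_ne (φ := φ) hg V
  have hs3 : ((-1 : F) ^ ((2 : ℤ) - (-1))) = -1 := by
    norm_num
  rw [hs3]
  have h5 : eh φ V / (-1 * eh φ V) = -1 := by
    field_simp
  rw [h5]
  ring

end MPa7fa83.Cs
end

section

/-!
# D1: zeros and poles of a pair of diagrams

By `HH_eq`, `NN s r = H'(r) H(s)*` is the sum over the pairs (corner `y` of `r`, corner `z` of `s`)
of the sign times `e^{y - z}`, where the outer corner `d + (1,1)` of the plane 34 is the lattice
point `pt d - u1 - u2` (as `u3 + u4 = - u1 - u2`).  The map `(y, z) ↦ y - z` is injective: in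
coordinates `z = (i, j, 0)`, `y = k u3 + l u4 = (-l, -l, k - l)`, so `y - z` determines `i - j` and
`k - l`, i.e. the diagonals of `z` and `y`, and then `z` and `y` by `crn_diag`.
The number of zeros minus the number of poles is `(1)(1) = 1` by `card_adb`.
-/

set_option autoImplicit false

namespace MPa7fa83.Cs

open Finset

/-- the lattice point of a pair of corners -/
private def d1G (x : ((ℕ × ℕ) × Bool) × ((ℕ × ℕ) × Bool)) : Gm :=
  pt u3 u4 x.2.1 - pt u1 u2 x.1.1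

private lemma d1_sum_crn {M : Type*} [AddCommMonoid M] (s : Finset (ℕ × ℕ))
    (f : (ℕ × ℕ) × Bool → M) :
    ∑ z ∈ crn s, f z = ∑ c ∈ adb s, f (c, true) + ∑ c ∈ rmb s, f ((c.1 + 1, c.2 + 1), false) := by
  unfold crn
  rw [sum_union, sum_image, sum_image]
  · rintro ⟨a, b⟩ _ ⟨c, d⟩ _ h
    simp only [Prod.mk.injEq, Nat.add_right_cancel_iff, and_true] at h
    rw [h.1, h.2]
  · intro a _ b _ h
    exact (Prod.mk.inj h).1
  · rw [disjoint_left]
    intro z h1 h2
    obtain ⟨c, _, rfl⟩ := mem_image.1 h1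
    obtain ⟨d, _, h⟩ := mem_image.1 h2
    exact Bool.noConfusion (Prod.mk.inj h).2

private lemma d1_pt12 (c : ℕ × ℕ) : pt u1 u2 c = ((c.1 : ℤ), (c.2 : ℤ), (0 : ℤ)) := by
  simp [pt, u1, u2]

private lemma d1_pt34 (c : ℕ × ℕ) :
    pt u3 u4 c = (-(c.2 : ℤ), -(c.2 : ℤ), (c.1 : ℤ) - (c.2 : ℤ)) := by
  simp [pt, u3, u4, sub_eq_add_neg]

private lemma d1_inj {s r : Finset (ℕ × ℕ)} (hs : Lo s) (hr : Lo r)
    {x x' : ((ℕ × ℕ) × Bool) × ((ℕ × ℕ) × Bool)} (hx : x ∈ crn s ×ˢ crn r)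
    (hx' : x' ∈ crn s ×ˢ crn r) (h : d1G x = d1G x') : x = x' := by
  rw [mem_product] at hx hx'
  unfold d1G at h
  rw [d1_pt12, d1_pt12, d1_pt34, d1_pt34] at h
  simp only [Prod.mk_sub_mk, Prod.mk.injEq] at h
  obtain ⟨h1, h2, h3⟩ := h
  have e1 : x.1 = x'.1 := crn_diag hs hx.1 hx'.1 (by omega)
  have e2 : x.2 = x'.2 := crn_diag hr hx.2 hx'.2 (by omega)
  exact Prod.ext e1 e2

private lemma d1_pole_rm (c d : ℕ × ℕ) :
    d1G (((c.1 + 1, c.2 + 1), false), (d, true)) = pole c d := by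
  unfold d1G pole
  rw [d1_pt12, d1_pt12, d1_pt34]
  simp [u1, u2]
  omega

private lemma d1_pole_ad (c d : ℕ × ℕ) :
    d1G ((c, true), ((d.1 + 1, d.2 + 1), false)) = pole c d := by
  unfold d1G pole
  rw [d1_pt12, d1_pt34, d1_pt34]
  simp [u1, u2]
  omega

private lemma d1_Zer (s r : Finset (ℕ × ℕ)) :
    Zer s r = ((crn s ×ˢ crn r).filter (fun x => x.1.2 = x.2.2)).image d1G := by
  ext γ
  constructor
  · intro h
    unfold Zer at h
    rcases mem_union.1 h with h | h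
    · obtain ⟨⟨c, d⟩, hcd, rfl⟩ := mem_image.1 h
      rw [mem_product] at hcd
      refine mem_image.2 ⟨((c, true), (d, true)), mem_filter.2 ⟨mem_product.2 ⟨?_, ?_⟩, rfl⟩, rfl⟩
      · exact mem_union_left _ (mem_image_of_mem _ hcd.1)
      · exact mem_union_left _ (mem_image_of_mem _ hcd.2)
    · obtain ⟨⟨c, d⟩, hcd, rfl⟩ := mem_image.1 h
      rw [mem_product] at hcd
      refine mem_image.2 ⟨(((c.1 + 1, c.2 + 1), false), ((d.1 + 1, d.2 + 1), false)),
        mem_filter.2 ⟨mem_product.2 ⟨?_, ?_⟩, rfl⟩, rfl⟩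
      · exact mem_union_right _ (mem_image_of_mem (fun c : ℕ × ℕ => ((c.1 + 1, c.2 + 1), false)) hcd.1)
      · exact mem_union_right _ (mem_image_of_mem (fun c : ℕ × ℕ => ((c.1 + 1, c.2 + 1), false)) hcd.2)
  · intro h
    obtain ⟨⟨z, y⟩, hzy, rfl⟩ := mem_image.1 h
    rw [mem_filter, mem_product] at hzy
    obtain ⟨⟨hz, hy⟩, ht⟩ := hzy
    unfold crn at hz hy
    unfold Zer
    rcases mem_union.1 hz with hz | hz
    · obtain ⟨c, hc, rfl⟩ := mem_image.1 hz
      rcases mem_union.1 hy with hy | hy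
      · obtain ⟨d, hd, rfl⟩ := mem_image.1 hy
        exact mem_union_left _ (mem_image.2 ⟨(c, d), mem_product.2 ⟨hc, hd⟩, rfl⟩)
      · obtain ⟨d, hd, rfl⟩ := mem_image.1 hy
        exact Bool.noConfusion ht
    · obtain ⟨c, hc, rfl⟩ := mem_image.1 hz
      rcases mem_union.1 hy with hy | hy
      · obtain ⟨d, hd, rfl⟩ := mem_image.1 hy
        exact Bool.noConfusion ht
      · obtain ⟨d, hd, rfl⟩ := mem_image.1 hy
        exact mem_union_right _ (mem_image.2 ⟨(c, d), mem_product.2 ⟨hc, hd⟩, rfl⟩)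

private lemma d1_Pol (s r : Finset (ℕ × ℕ)) :
    Pol s r = ((crn s ×ˢ crn r).filter (fun x => ¬ x.1.2 = x.2.2)).image d1G := by
  ext γ
  constructor
  · intro h
    unfold Pol at h
    rcases mem_union.1 h with h | h
    · obtain ⟨⟨c, d⟩, hcd, rfl⟩ := mem_image.1 h
      rw [mem_product] at hcd
      refine mem_image.2 ⟨(((c.1 + 1, c.2 + 1), false), (d, true)),
        mem_filter.2 ⟨mem_product.2 ⟨?_, ?_⟩, Bool.false_ne_true⟩, d1_pole_rm c d⟩
      · exact mem_union_right _ (mem_image_of_mem (fun c : ℕ × ℕ => ((c.1 + 1, c.2 + 1), false)) hcd.1)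
      · exact mem_union_left _ (mem_image_of_mem _ hcd.2)
    · obtain ⟨⟨c, d⟩, hcd, rfl⟩ := mem_image.1 h
      rw [mem_product] at hcd
      refine mem_image.2 ⟨((c, true), ((d.1 + 1, d.2 + 1), false)),
        mem_filter.2 ⟨mem_product.2 ⟨?_, ?_⟩, Bool.false_ne_true.symm⟩, d1_pole_ad c d⟩
      · exact mem_union_left _ (mem_image_of_mem _ hcd.1)
      · exact mem_union_right _ (mem_image_of_mem (fun c : ℕ × ℕ => ((c.1 + 1, c.2 + 1), false)) hcd.2)
  · intro h
    obtain ⟨⟨z, y⟩, hzy, rfl⟩ := mem_image.1 h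
    rw [mem_filter, mem_product] at hzy
    obtain ⟨⟨hz, hy⟩, ht⟩ := hzy
    unfold crn at hz hy
    unfold Pol
    rcases mem_union.1 hz with hz | hz
    · obtain ⟨c, hc, rfl⟩ := mem_image.1 hz
      rcases mem_union.1 hy with hy | hy
      · obtain ⟨d, hd, rfl⟩ := mem_image.1 hy
        exact absurd rfl ht
      · obtain ⟨d, hd, rfl⟩ := mem_image.1 hy
        exact mem_union_right _ (mem_image.2 ⟨(c, d), mem_product.2 ⟨hc, hd⟩, (d1_pole_ad c d).symm⟩)
    · obtain ⟨c, hc, rfl⟩ := mem_image.1 hz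
      rcases mem_union.1 hy with hy | hy
      · obtain ⟨d, hd, rfl⟩ := mem_image.1 hy
        exact mem_union_left _ (mem_image.2 ⟨(c, d), mem_product.2 ⟨hc, hd⟩, (d1_pole_rm c d).symm⟩)
      · obtain ⟨d, hd, rfl⟩ := mem_image.1 hy
        exact absurd rfl ht

private lemma d1_sum_Zer {s r : Finset (ℕ × ℕ)} (hs : Lo s) (hr : Lo r) {M : Type*}
    [AddCommMonoid M] (φ : Gm → M) : ∑ γ ∈ Zer s r, φ γ =
      ∑ c ∈ adb s, ∑ d ∈ adb r, φ (d1G ((c, true), (d, true))) +
      ∑ c ∈ rmb s, ∑ d ∈ rmb r,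
        φ (d1G (((c.1 + 1, c.2 + 1), false), ((d.1 + 1, d.2 + 1), false))) := by
  rw [d1_Zer, sum_image]
  · rw [sum_filter, sum_product, d1_sum_crn]
    simp only [d1_sum_crn]
    simp
  · intro x hx x' hx' h
    exact d1_inj hs hr (mem_filter.1 hx).1 (mem_filter.1 hx').1 h

theorem sum_Pol {s r : Finset (ℕ × ℕ)} (hs : Lo s) (hr : Lo r) {M : Type*} [AddCommMonoid M]
    (φ : Gm → M) : ∑ γ ∈ Pol s r, φ γ =
      ∑ c ∈ rmb s, ∑ d ∈ adb r, φ (pole c d) + ∑ c ∈ adb s, ∑ d ∈ rmb r, φ (pole c d) := by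
  rw [d1_Pol, sum_image]
  · rw [sum_filter, sum_product, d1_sum_crn]
    simp only [d1_sum_crn, d1_pole_rm, d1_pole_ad]
    simp
    rw [add_comm]
  · intro x hx x' hx' h
    exact d1_inj hs hr (mem_filter.1 hx).1 (mem_filter.1 hx').1 h

private lemma d1_xx_mul (γ δ : Gm) : xx γ * xx δ = xx (γ + δ) := by
  unfold xx
  rw [AddMonoidAlgebra.single_mul_single, mul_one]

private lemma d1_pt_neg (c : ℕ × ℕ) : pt (-u1) (-u2) c = -pt u1 u2 c := by
  simp [pt, smul_neg]
  abel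

private lemma d1_key (z y : ℕ × ℕ) (t t' : Bool) :
    xx (d1G ((z, t), (y, t'))) = xx (pt u3 u4 y) * xx (pt (-u1) (-u2) z) := by
  rw [d1_xx_mul, d1_pt_neg]
  unfold d1G
  rw [sub_eq_add_neg]

theorem NN_eq {s r : Finset (ℕ × ℕ)} (hs : Lo s) (hr : Lo r) :
    NN s r = ∑ γ ∈ Zer s r, xx γ - ∑ γ ∈ Pol s r, xx γ := by
  have h1 : ∑ c ∈ adb s, ∑ d ∈ adb r, xx (d1G ((c, true), (d, true))) =
      (∑ d ∈ adb r, xx (pt u3 u4 d)) * ∑ c ∈ adb s, xx (pt (-u1) (-u2) c) := by
    rw [Finset.sum_mul_sum, Finset.sum_comm]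
    refine Finset.sum_congr rfl fun d _ => Finset.sum_congr rfl fun c _ => ?_
    rw [d1_key]
  have h2 : ∑ c ∈ rmb s, ∑ d ∈ rmb r,
      xx (d1G (((c.1 + 1, c.2 + 1), false), ((d.1 + 1, d.2 + 1), false))) =
      (∑ d ∈ rmb r, xx (pt u3 u4 (d.1 + 1, d.2 + 1))) *
        ∑ c ∈ rmb s, xx (pt (-u1) (-u2) (c.1 + 1, c.2 + 1)) := by
    rw [Finset.sum_mul_sum, Finset.sum_comm]
    refine Finset.sum_congr rfl fun d _ => Finset.sum_congr rfl fun c _ => ?_
    rw [d1_key]
  have h3 : ∑ c ∈ rmb s, ∑ d ∈ adb r, xx (pole c d) =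
      (∑ d ∈ adb r, xx (pt u3 u4 d)) *
        ∑ c ∈ rmb s, xx (pt (-u1) (-u2) (c.1 + 1, c.2 + 1)) := by
    rw [Finset.sum_mul_sum, Finset.sum_comm]
    refine Finset.sum_congr rfl fun d _ => Finset.sum_congr rfl fun c _ => ?_
    rw [← d1_pole_rm, d1_key]
  have h4 : ∑ c ∈ adb s, ∑ d ∈ rmb r, xx (pole c d) =
      (∑ d ∈ rmb r, xx (pt u3 u4 (d.1 + 1, d.2 + 1))) * ∑ c ∈ adb s, xx (pt (-u1) (-u2) c) := by
    rw [Finset.sum_mul_sum, Finset.sum_comm]
    refine Finset.sum_congr rfl fun d _ => Finset.sum_congr rfl fun c _ => ?_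
    rw [← d1_pole_ad, d1_key]
  rw [d1_sum_Zer hs hr, sum_Pol hs hr, h1, h2, h3, h4]
  unfold NN
  rw [HH_eq hr, HH_eq hs]
  ring

theorem disj_ZP {s r : Finset (ℕ × ℕ)} (hs : Lo s) (hr : Lo r) :
    Disjoint (Zer s r) (Pol s r) := by
  rw [d1_Zer, d1_Pol, disjoint_left]
  intro γ h1 h2
  obtain ⟨x, hx, rfl⟩ := mem_image.1 h1
  obtain ⟨y, hy, h⟩ := mem_image.1 h2
  rw [mem_filter] at hx hy
  have := d1_inj hs hr hy.1 hx.1 h
  rw [this] at hy
  exact hy.2 hx.2

theorem card_ZP {s r : Finset (ℕ × ℕ)} (hs : Lo s) (hr : Lo r) :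
    (Zer s r).card = (Pol s r).card + 1 := by
  rw [card_eq_sum_ones, card_eq_sum_ones, d1_sum_Zer hs hr, sum_Pol hs hr]
  simp only [sum_const, smul_eq_mul, mul_one]
  rw [card_adb hs, card_adb hr]
  ring

end MPa7fa83.Cs
end

section

/-!
# D0: the residue as a value of `eh`

By `NN_eq`, `xx (-γ) * NN s r = ∑_{Zer} xx (u - γ) - ∑_{Pol} xx (u - γ)`; `γ` is not in `Zer`
(`disj_ZP`), and `eh` is multiplicative (`eh_sub`, `eh_sum`, `eh_xx`).
-/

set_option autoImplicit false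

namespace MPa7fa83.Cs

open Finset PowerSeries

/-- the residue as a value of `eh` -/
theorem res_eq {F : Type*} [Field F] {t1 t2 t3 : F} (hg : Gen t1 t2 t3)
    {s r : Finset (ℕ × ℕ)} (hs : Lo s) (hr : Lo r) {γ : Gm} (hγ : γ ∈ Pol s r) :
    (∏ u ∈ Zer s r, (ev t1 t2 t3 u - ev t1 t2 t3 γ)) /
      ∏ u ∈ (Pol s r).erase γ, (ev t1 t2 t3 u - ev t1 t2 t3 γ) =
    eh (ev t1 t2 t3) (xx (-γ) * NN s r) := by
  have h : ∀ δ, ev t1 t2 t3 δ = 0 → δ = 0 := hg
  rw [NN_eq hs hr, mul_sub, Finset.mul_sum, Finset.mul_sum, eh_sub h, eh_sum h, eh_sum h,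
    ← Finset.mul_prod_erase (Pol s r) _ hγ]
  have e1 : eh (ev t1 t2 t3) (xx (-γ) * xx γ) = 1 := by
    rw [xx_mul, eh_xx, if_pos (by simp)]
  rw [e1, one_mul]
  congr 1
  · apply Finset.prod_congr rfl
    intro u hu
    have hne : -γ + u ≠ 0 := by
      intro h0
      have : u = γ := by
        rw [neg_add_eq_zero] at h0; exact h0.symm
      rw [this] at hu
      exact (Finset.disjoint_left.mp (disj_ZP hs hr)) hu hγ
    rw [xx_mul, eh_xx, if_neg hne, map_add, map_neg]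
    ring
  · apply Finset.prod_congr rfl
    intro u hu
    have hne : -γ + u ≠ 0 := by
      intro h0
      have : u = γ := by
        rw [neg_add_eq_zero] at h0; exact h0.symm
      exact (Finset.ne_of_mem_erase hu) this
    rw [xx_mul, eh_xx, if_neg hne, map_add, map_neg]
    ring

end MPa7fa83.Cs
end

section

/-!
# D2: the crossing identity

For `s ∈ dg a`, `r ∈ dg b` let `E = ∏_{Zer} (1 + ev(γ) X) / ∏_{Pol} (1 + ev(γ) X)`; its coefficients
are `ee (pwr t1 t2 t3 s r)` (`newton`, `pwr_eq`, `NN_eq`), and by `pf` the inner sum is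
`∑_{γ ∈ Pol} R_γ g(-ev γ) (-ev γ)^{k-2}` with
`R_γ = ∏_{Zer} (ev u - ev γ) / ∏_{Pol ∖ γ} (ev u - ev γ) = eh (xx (-γ) * NN s r)` (`res_eq`).
Split the sum over `Pol` by `sum_Pol`; by `sum_rmb` (for `s` in the first part, for `r` in the
second) both parts become sums over `(s, r)` with `N - 1` boxes and `c ∈ adb s`, `d ∈ adb r`, and
the terms cancel by `link` and `hc`.
-/

set_option autoImplicit false

namespace MPa7fa83.Cs

open Finset PowerSeries

private lemma ev_inj {F : Type*} [Field F] {t1 t2 t3 : F} (hg : Gen t1 t2 t3) :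
    Function.Injective (ev t1 t2 t3) := by
  intro a b h
  have h1 : ev t1 t2 t3 (a - b) = 0 := by rw [map_sub, h, sub_self]
  exact sub_eq_zero.1 (hg _ h1)

private lemma exists_E {F κ : Type*} [Field F] (P S : Finset κ) (f : κ → F) :
    ∃ E : F⟦X⟧, E * ∏ v ∈ S, (1 + C (f v) * X) = ∏ v ∈ P, (1 + C (f v) * X) := by
  refine ⟨(∏ v ∈ P, (1 + C (f v) * X)) * (∏ v ∈ S, (1 + C (f v) * X) : F⟦X⟧)⁻¹, ?_⟩
  rw [mul_assoc, PowerSeries.inv_mul_cancel, mul_one]
  rw [map_prod]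
  simp

/-- the inner sum -/
private lemma inner_eq {F : Type*} [Field F] [Algebra ℚ F] {t1 t2 t3 : F} (hg : Gen t1 t2 t3)
    (g : Polynomial F) (D : ℕ) (hD : g.natDegree ≤ D) {s r : Finset (ℕ × ℕ)} (hs : Lo s) (hr : Lo r)
    (k : ℕ) (hk : 2 ≤ k) :
    ∑ i ∈ range (D + 1), g.coeff i * ee (pwr t1 t2 t3 s r) (i + k) =
      ∑ c ∈ rmb s, ∑ d ∈ adb r, eh (ev t1 t2 t3) (xx (-(pole c d)) * NN s r) *
        (g.eval (-(ev t1 t2 t3 (pole c d))) * (-(ev t1 t2 t3 (pole c d))) ^ (k - 2)) +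
      ∑ c ∈ adb s, ∑ d ∈ rmb r, eh (ev t1 t2 t3) (xx (-(pole c d)) * NN s r) *
        (g.eval (-(ev t1 t2 t3 (pole c d))) * (-(ev t1 t2 t3 (pole c d))) ^ (k - 2)) := by
  obtain ⟨E, hE⟩ := exists_E (Zer s r) (Pol s r) (ev t1 t2 t3)
  have h1 : ∀ j, ee (pwr t1 t2 t3 s r) j = coeff j E := by
    intro j
    rw [newton (Zer s r) (Pol s r) (ev t1 t2 t3) E hE j]
    congr 1
    funext i
    exact pwr_eq t1 t2 t3 s r _ _ (NN_eq hs hr) i
  have h2 := pf (Zer s r) (Pol s r) (ev t1 t2 t3) ((ev_inj hg).injOn) (card_ZP hs hr) E hE g D hD k hk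
  have h3 := sum_Pol hs hr (fun γ => eh (ev t1 t2 t3) (xx (-γ) * NN s r) *
        (g.eval (-(ev t1 t2 t3 γ)) * (-(ev t1 t2 t3 γ)) ^ (k - 2)))
  rw [← h3]
  rw [sum_congr rfl (fun i _ => by rw [h1 (i + k)]), h2]
  apply sum_congr rfl
  intro γ hγ
  rw [res_eq hg hs hr hγ]

private lemma rmb_empty : rmb ∅ = ∅ := by
  unfold rmb
  simp

private lemma sum_first {F : Type*} [Field F] (A : Finset (ℕ × ℕ) → (ℕ × ℕ) → F) (n : ℕ) :
    ∑ s ∈ dg (n + 1), ∑ c ∈ rmb s, A s c = ∑ s ∈ dg n, ∑ c ∈ adb s, A (insert c s) c := by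
  rw [← sum_rmb n (fun s c => A (insert c s) c)]
  apply sum_congr rfl
  intro s _
  apply sum_congr rfl
  intro c hc
  rw [insert_erase (mem_rmb.1 hc).1]

theorem cross_gen {F : Type*} [Field F] [Algebra ℚ F] {t1 t2 t3 : F} (hg : Gen t1 t2 t3)
    (g : Finset (ℕ × ℕ) → Finset (ℕ × ℕ) → Polynomial F) (D : ℕ)
    (hD : ∀ s r, (g s r).natDegree ≤ D)
    (hc : ∀ s r, Lo s → Lo r → ∀ c ∈ adb s, ∀ d ∈ adb r,
      (g (insert c s) r).eval (-(ev t1 t2 t3 (pole c d))) =
      (g s (insert d r)).eval (-(ev t1 t2 t3 (pole c d))))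
    (N k : ℕ) (hk : 2 ≤ k) :
    ∑ a ∈ Finset.HasAntidiagonal.antidiagonal N, ∑ s ∈ dg a.1, ∑ r ∈ dg a.2,
      wg t1 t2 t3 s * wg t3 (-t1 - t2 - t3) t1 r *
        ∑ i ∈ range (D + 1), (g s r).coeff i * ee (pwr t1 t2 t3 s r) (i + k) = 0 := by
  classical
  -- the general term
  set A : Finset (ℕ × ℕ) → Finset (ℕ × ℕ) → (ℕ × ℕ) → (ℕ × ℕ) → F := fun s r c d =>
    wg t1 t2 t3 s * wg t3 (-t1 - t2 - t3) t1 r * (eh (ev t1 t2 t3) (xx (-(pole c d)) * NN s r) *
      ((g s r).eval (-(ev t1 t2 t3 (pole c d))) * (-(ev t1 t2 t3 (pole c d))) ^ (k - 2))) with hA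
  have h1 : ∀ a : ℕ × ℕ, ∑ s ∈ dg a.1, ∑ r ∈ dg a.2,
      wg t1 t2 t3 s * wg t3 (-t1 - t2 - t3) t1 r *
        ∑ i ∈ range (D + 1), (g s r).coeff i * ee (pwr t1 t2 t3 s r) (i + k) =
      ∑ s ∈ dg a.1, ∑ c ∈ rmb s, ∑ r ∈ dg a.2, ∑ d ∈ adb r, A s r c d +
      ∑ r ∈ dg a.2, ∑ d ∈ rmb r, ∑ s ∈ dg a.1, ∑ c ∈ adb s, A s r c d := by
    intro a
    have e1 : ∑ s ∈ dg a.1, ∑ c ∈ rmb s, ∑ r ∈ dg a.2, ∑ d ∈ adb r, A s r c d =
        ∑ s ∈ dg a.1, ∑ r ∈ dg a.2, ∑ c ∈ rmb s, ∑ d ∈ adb r, A s r c d :=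
      sum_congr rfl fun s _ => sum_comm
    have e2 : ∑ r ∈ dg a.2, ∑ d ∈ rmb r, ∑ s ∈ dg a.1, ∑ c ∈ adb s, A s r c d =
        ∑ s ∈ dg a.1, ∑ r ∈ dg a.2, ∑ c ∈ adb s, ∑ d ∈ rmb r, A s r c d := by
      rw [sum_comm' (s := dg a.1) (t := fun _ => dg a.2) (t' := dg a.2) (s' := fun _ => dg a.1)
        (fun x y => by tauto)]
      apply sum_congr rfl
      intro r _
      rw [sum_comm]
      apply sum_congr rfl
      intro s _
      rw [sum_comm]
    rw [e1, e2, ← sum_add_distrib]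
    apply sum_congr rfl
    intro s hs
    rw [← sum_add_distrib]
    apply sum_congr rfl
    intro r hr
    rw [inner_eq hg (g s r) D (hD s r) (mem_dg.1 hs).1 (mem_dg.1 hr).1 k hk, mul_add, mul_sum,
      mul_sum]
    congr 1
    · apply sum_congr rfl
      intro c _
      rw [mul_sum]
    · apply sum_congr rfl
      intro c _
      rw [mul_sum]
  rw [sum_congr rfl (fun a _ => h1 a), sum_add_distrib]
  rcases N with _ | N
  · have h2 : (Finset.HasAntidiagonal.antidiagonal 0 : Finset (ℕ × ℕ)) = {(0, 0)} := by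
      ext x
      simp [Finset.mem_antidiagonal]
    rw [h2, sum_singleton, sum_singleton]
    simp only [dg_zero, sum_singleton, rmb_empty, sum_empty, add_zero]
  · have h2 : ∑ a ∈ Finset.HasAntidiagonal.antidiagonal (N + 1),
        ∑ s ∈ dg a.1, ∑ c ∈ rmb s, ∑ r ∈ dg a.2, ∑ d ∈ adb r, A s r c d =
        ∑ a ∈ Finset.HasAntidiagonal.antidiagonal N, ∑ s ∈ dg a.1, ∑ c ∈ adb s,
          ∑ r ∈ dg a.2, ∑ d ∈ adb r, A (insert c s) r c d := by
      rw [Finset.Nat.sum_antidiagonal_succ (f := fun a : ℕ × ℕ => ∑ s ∈ dg a.1, ∑ c ∈ rmb s, ∑ r ∈ dg a.2, ∑ d ∈ adb r, A s r c d)]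
      simp only [dg_zero, sum_singleton, rmb_empty, sum_empty, zero_add]
      apply sum_congr rfl
      intro a _
      exact sum_first (fun s c => ∑ r ∈ dg a.2, ∑ d ∈ adb r, A s r c d) a.1
    have h3 : ∑ a ∈ Finset.HasAntidiagonal.antidiagonal (N + 1),
        ∑ r ∈ dg a.2, ∑ d ∈ rmb r, ∑ s ∈ dg a.1, ∑ c ∈ adb s, A s r c d =
        ∑ a ∈ Finset.HasAntidiagonal.antidiagonal N, ∑ r ∈ dg a.2, ∑ d ∈ adb r,
          ∑ s ∈ dg a.1, ∑ c ∈ adb s, A s (insert d r) c d := by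
      rw [Finset.Nat.sum_antidiagonal_succ' (f := fun a : ℕ × ℕ => ∑ r ∈ dg a.2, ∑ d ∈ rmb r, ∑ s ∈ dg a.1, ∑ c ∈ adb s, A s r c d)]
      simp only [dg_zero, sum_singleton, rmb_empty, sum_empty, zero_add]
      apply sum_congr rfl
      intro a _
      exact sum_first (fun r d => ∑ s ∈ dg a.1, ∑ c ∈ adb s, A s r c d) a.2
    rw [h2, h3, ← sum_add_distrib]
    apply sum_eq_zero
    intro a _
    have e1 : ∑ s ∈ dg a.1, ∑ c ∈ adb s, ∑ r ∈ dg a.2, ∑ d ∈ adb r, A (insert c s) r c d =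
        ∑ s ∈ dg a.1, ∑ r ∈ dg a.2, ∑ c ∈ adb s, ∑ d ∈ adb r, A (insert c s) r c d :=
      sum_congr rfl fun s _ => sum_comm
    have e2 : ∑ r ∈ dg a.2, ∑ d ∈ adb r, ∑ s ∈ dg a.1, ∑ c ∈ adb s, A s (insert d r) c d =
        ∑ s ∈ dg a.1, ∑ r ∈ dg a.2, ∑ c ∈ adb s, ∑ d ∈ adb r, A s (insert d r) c d := by
      rw [sum_comm' (s := dg a.1) (t := fun _ => dg a.2) (t' := dg a.2) (s' := fun _ => dg a.1)
        (fun x y => by tauto)]
      apply sum_congr rfl
      intro r _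
      rw [sum_comm]
      apply sum_congr rfl
      intro s _
      rw [sum_comm]
    rw [e1, e2, ← sum_add_distrib]
    apply sum_eq_zero
    intro s hs
    rw [← sum_add_distrib]
    apply sum_eq_zero
    intro r hr
    rw [← sum_add_distrib]
    apply sum_eq_zero
    intro c hcs
    rw [← sum_add_distrib]
    apply sum_eq_zero
    intro d hdr
    have hls := (mem_dg.1 hs).1
    have hlr := (mem_dg.1 hr).1
    have h4 := link hg hls hlr hcs hdr
    have h5 := hc s r hls hlr c hcs d hdr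
    simp only [hA]
    rw [h5]
    linear_combination (((g s (insert d r)).eval (-(ev t1 t2 t3 (pole c d)))) *
      (-(ev t1 t2 t3 (pole c d))) ^ (k - 2)) * h4

end MPa7fa83.Cs
end

section

/-!
# D3: the crossing identity with sources

Apply `cross_gen` to
`g s r = ∏_{k ∈ ks} (C (chs l t1 t2 k s) + ∑_{e ∈ r} C (1/k!) * (x + C (l - t1 - t2 + cn t3 t4 e))^k)`,
`D = ks.sum`.  Condition `hc`: at `x = - ev (pole c d) = cn t1 t2 c - cn t3 t4 d + t1 + t2` the new
box `c` of the first diagram contributes `(l + cn t1 t2 c)^k / k!` and the new box `d` of the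
second one the same.  By the binomial theorem
`∑_{e ∈ r} (x + L + cn e)^k / k! = ∑_{j ≤ k} x^{k-j} / (k-j)! * chs L t3 t4 j r`, so the reversed
polynomial `X^D g(1/X)` is `Gks` (with `g.coeff i` the coefficient of `X^(D-i)`), and the sum over
`i` of `g.coeff i * e_{i+k}` is the coefficient of `X^(D+k)` in `Gks * ∑ e_j X^j`.
-/

set_option autoImplicit false

namespace MPa7fa83.Cs

open Finset PowerSeries

section

variable {Λ : Type*} [CommRing Λ] [Algebra ℚ Λ]

/-- `∑_{j ≤ k} chs L t3 t4 j r / (k-j)! X^j` -/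
noncomputable def bb (L a b : Λ) (r : Finset (ℕ × ℕ)) (k : ℕ) : Λ⟦X⟧ :=
  ∑ j ∈ range (k + 1), C (algebraMap ℚ Λ (((k - j).factorial : ℚ)⁻¹) * chs L a b j r) * X ^ j

/-- the source factor; `L` is `l - t1 - t2` -/
noncomputable def Gks (l t1 t2 t3 : Λ) (ks : List ℕ) (s r : Finset (ℕ × ℕ)) : Λ⟦X⟧ :=
  (ks.map (fun k => C (chs l t1 t2 k s) * X ^ k + bb (l - t1 - t2) t3 (-t1 - t2 - t3) r k)).prod

end

private theorem d3x_rev {F : Type*} [Field F] (p : Polynomial F) (D : ℕ) (hp : p.natDegree ≤ D)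
    (e : ℕ → F) (n : ℕ) (hn : D ≤ n) :
    coeff n (((Polynomial.reflect D p : Polynomial F) : F⟦X⟧) * PowerSeries.mk e) =
      ∑ i ∈ range (D + 1), p.coeff i * e (i + (n - D)) := by
  rw [PowerSeries.coeff_mul, Finset.Nat.sum_antidiagonal_eq_sum_range_succ_mk]
  have h1 : ∑ a ∈ range n.succ, coeff a ((Polynomial.reflect D p : Polynomial F) : F⟦X⟧) *
      coeff (n - a) (PowerSeries.mk e) =
      ∑ a ∈ range (D + 1), p.coeff (D + 1 - 1 - a) * e ((D + 1 - 1 - a) + (n - D)) := by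
    symm
    apply Finset.sum_subset_zero_on_sdiff
    · intro a ha
      simp only [mem_range] at ha ⊢
      omega
    · intro a ha
      rw [mem_sdiff, mem_range, mem_range] at ha
      rw [Polynomial.coeff_coe, Polynomial.coeff_reflect, Polynomial.revAt_eq_self_of_lt (by omega),
        Polynomial.coeff_eq_zero_of_natDegree_lt (by omega), zero_mul]
    · intro a ha
      rw [mem_range] at ha
      rw [Polynomial.coeff_coe, Polynomial.coeff_reflect, Polynomial.revAt_le (by omega),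
        PowerSeries.coeff_mk]
      congr 2
      omega
  rw [h1]
  exact Finset.sum_range_reflect (fun i => p.coeff i * e (i + (n - D))) (D + 1)

/-- one factor -/
private noncomputable def d3xP {F : Type*} [Field F] [Algebra ℚ F] (c L a b : F)
    (r : Finset (ℕ × ℕ)) (k : ℕ) : Polynomial F :=
  Polynomial.C c + ∑ e ∈ r, Polynomial.C (algebraMap ℚ F ((k.factorial : ℚ)⁻¹)) *
    (Polynomial.X + Polynomial.C (L + cn a b e)) ^ k

private theorem d3xP_deg {F : Type*} [Field F] [Algebra ℚ F] (c L a b : F)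
    (r : Finset (ℕ × ℕ)) (k : ℕ) : (d3xP c L a b r k).natDegree ≤ k := by
  unfold d3xP
  refine Polynomial.natDegree_add_le_of_degree_le (by simp) ?_
  apply Polynomial.natDegree_sum_le_of_forall_le
  intro e _
  refine (Polynomial.natDegree_C_mul_le _ _).trans ?_
  rw [Polynomial.natDegree_pow_X_add_C]

private theorem d3xP_reflect {F : Type*} [Field F] [Algebra ℚ F] (c L a b : F)
    (r : Finset (ℕ × ℕ)) (k : ℕ) :
    ((Polynomial.reflect k (d3xP c L a b r k) : Polynomial F) : F⟦X⟧) =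
      C c * X ^ k + bb L a b r k := by
  ext j
  rw [Polynomial.coeff_coe, Polynomial.coeff_reflect, map_add]
  have hbb : coeff j (bb L a b r k) = if j ≤ k then
      algebraMap ℚ F (((k - j).factorial : ℚ)⁻¹) * chs L a b j r else 0 := by
    unfold bb
    rw [map_sum]
    simp only [PowerSeries.coeff_C_mul, PowerSeries.coeff_X_pow]
    simp only [mul_ite, mul_one, mul_zero]
    rw [Finset.sum_ite_eq]
    simp only [mem_range]
    by_cases h : j ≤ k
    · rw [if_pos (by omega), if_pos h]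
    · rw [if_neg (by omega), if_neg h]
  rw [hbb]
  by_cases h : j ≤ k
  · rw [if_pos h, Polynomial.revAt_le h, PowerSeries.coeff_C_mul, PowerSeries.coeff_X_pow]
    unfold d3xP
    rw [Polynomial.coeff_add, Polynomial.coeff_C, Polynomial.finsetSum_coeff]
    congr 1
    · by_cases h2 : j = k
      · subst h2; simp
      · rw [if_neg (by omega), if_neg h2, mul_zero]
    · unfold chs
      rw [Finset.mul_sum]
      apply Finset.sum_congr rfl
      intro e _
      rw [Polynomial.coeff_C_mul, Polynomial.coeff_X_add_C_pow, Nat.sub_sub_self h,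
        Nat.choose_symm h]
      suffices hs : algebraMap ℚ F ((k.factorial : ℚ)⁻¹) * ((k.choose j : ℕ) : F) =
          algebraMap ℚ F (((k - j).factorial : ℚ)⁻¹) * algebraMap ℚ F ((j.factorial : ℚ)⁻¹) by
        linear_combination (L + cn a b e) ^ j * hs
      rw [← map_natCast (algebraMap ℚ F), ← map_mul, ← map_mul]
      congr 1
      have h1 : ((k.choose j : ℕ) : ℚ) * (j.factorial : ℚ) * ((k - j).factorial : ℚ) =
          (k.factorial : ℚ) := by
        exact_mod_cast Nat.choose_mul_factorial_mul_factorial h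
      have h2 : (j.factorial : ℚ) ≠ 0 := by exact_mod_cast j.factorial_ne_zero
      have h3 : ((k - j).factorial : ℚ) ≠ 0 := by exact_mod_cast (k - j).factorial_ne_zero
      have h4 : (k.factorial : ℚ) ≠ 0 := by exact_mod_cast k.factorial_ne_zero
      field_simp
      rw [← h1]
      ring
  · rw [if_neg h, Polynomial.revAt_eq_self_of_lt (by omega),
      Polynomial.coeff_eq_zero_of_natDegree_lt (lt_of_le_of_lt (d3xP_deg c L a b r k) (by omega)),
      PowerSeries.coeff_C_mul, PowerSeries.coeff_X_pow, if_neg (by omega)]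
    simp

/-- the polynomial -/
private noncomputable def d3xG {F : Type*} [Field F] [Algebra ℚ F] (l t1 t2 t3 : F) (ks : List ℕ)
    (s r : Finset (ℕ × ℕ)) : Polynomial F :=
  (ks.map (fun k => d3xP (chs l t1 t2 k s) (l - t1 - t2) t3 (-t1 - t2 - t3) r k)).prod

private theorem d3xG_spec {F : Type*} [Field F] [Algebra ℚ F] (l t1 t2 t3 : F) (ks : List ℕ)
    (s r : Finset (ℕ × ℕ)) : (d3xG l t1 t2 t3 ks s r).natDegree ≤ ks.sum ∧
      ((Polynomial.reflect ks.sum (d3xG l t1 t2 t3 ks s r) : Polynomial F) : F⟦X⟧) =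
        Gks l t1 t2 t3 ks s r := by
  induction ks with
  | nil =>
    constructor
    · simp [d3xG]
    · simp [d3xG, Gks]
  | cons k ks ih =>
    have h1 : d3xG l t1 t2 t3 (k :: ks) s r =
        d3xP (chs l t1 t2 k s) (l - t1 - t2) t3 (-t1 - t2 - t3) r k *
          d3xG l t1 t2 t3 ks s r := by
      simp [d3xG]
    have h2 : Gks l t1 t2 t3 (k :: ks) s r =
        (C (chs l t1 t2 k s) * X ^ k + bb (l - t1 - t2) t3 (-t1 - t2 - t3) r k) *
          Gks l t1 t2 t3 ks s r := by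
      simp [Gks]
    rw [h1, h2, List.sum_cons]
    constructor
    · exact Polynomial.natDegree_mul_le_of_le (d3xP_deg _ _ _ _ _ _) ih.1
    · rw [Polynomial.reflect_mul _ _ (d3xP_deg _ _ _ _ _ _) ih.1, Polynomial.coe_mul,
        d3xP_reflect, ih.2]

private theorem d3x_evalP {F : Type*} [Field F] [Algebra ℚ F] (l t1 t2 t3 t4 : F)
    (s r : Finset (ℕ × ℕ)) (c d : ℕ × ℕ) (hcs : c ∉ s) (hdr : d ∉ r) (x : F)
    (hx : x + (l - t1 - t2) + cn t3 t4 d = l + cn t1 t2 c) (k : ℕ) :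
    (d3xP (chs l t1 t2 k (insert c s)) (l - t1 - t2) t3 t4 r k).eval x =
      (d3xP (chs l t1 t2 k s) (l - t1 - t2) t3 t4 (insert d r) k).eval x := by
  unfold d3xP
  rw [Finset.sum_insert hdr]
  unfold chs
  rw [Finset.sum_insert hcs]
  simp only [Polynomial.eval_add, Polynomial.eval_C, Polynomial.eval_mul, Polynomial.eval_pow,
    Polynomial.eval_X]
  rw [← hx]
  ring

theorem cross {F : Type*} [Field F] [Algebra ℚ F] {t1 t2 t3 : F} (hg : Gen t1 t2 t3) (l : F)
    (ks : List ℕ) (N n : ℕ) (hn : ks.sum + 2 ≤ n) :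
    ∑ a ∈ Finset.HasAntidiagonal.antidiagonal N, ∑ s ∈ dg a.1, ∑ r ∈ dg a.2,
      wg t1 t2 t3 s * wg t3 (-t1 - t2 - t3) t1 r *
        coeff n (Gks l t1 t2 t3 ks s r * PowerSeries.mk (ee (pwr t1 t2 t3 s r))) = 0 := by
  have key := cross_gen hg (d3xG l t1 t2 t3 ks) ks.sum
    (fun s r => (d3xG_spec l t1 t2 t3 ks s r).1) ?_ N (n - ks.sum) (by omega)
  · rw [← key]
    apply Finset.sum_congr rfl
    intro a _
    apply Finset.sum_congr rfl
    intro s _
    apply Finset.sum_congr rfl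
    intro r _
    rw [← (d3xG_spec l t1 t2 t3 ks s r).2,
      d3x_rev _ _ (d3xG_spec l t1 t2 t3 ks s r).1 _ n (by omega)]
  · intro s r _ _ c hc d hd
    have hcs : c ∉ s := by
      simp only [adb, mem_filter] at hc
      exact hc.2.1
    have hdr : d ∉ r := by
      simp only [adb, mem_filter] at hd
      exact hd.2.1
    unfold d3xG
    rw [Polynomial.eval_list_prod, Polynomial.eval_list_prod, List.map_map, List.map_map]
    congr 1
    apply List.map_congr_left
    intro k _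
    simp only [Function.comp]
    apply d3x_evalP l t1 t2 t3 _ s r c d hcs hdr
    simp only [pole, pt, u1, u2, u3, u4, ev, cn, AddMonoidHom.coe_mk, ZeroHom.coe_mk,
      Prod.fst_sub, Prod.snd_sub, Prod.fst_add, Prod.snd_add, Prod.smul_fst, Prod.smul_snd,
      smul_eq_mul]
    push_cast
    ring

end MPa7fa83.Cs
end
end
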