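import Pool.Agent.Lib.MP_a7fa83_ag.Ok.Ch

/-!
# MP_a7fa83_ag, compact surfaces: definitions

Diagrams are finite lower sets `s` of `ℕ × ℕ`; the box `e = (i, j)` has the content
`cn a b e = i a + j b` in the plane with the weights `a, b`.
-/

set_option autoImplicit false

namespace MPa7fa83.Cs

open Finset

/-- lower sets -/
def Lo (s : Finset (ℕ × ℕ)) : Prop :=
  ∀ i j i' j' : ℕ, (i, j) ∈ s → i' ≤ i → j' ≤ j → (i', j') ∈ s

open Classical in
/-- the diagrams with `n` boxes -/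
noncomputable def dg (n : ℕ) : Finset (Finset (ℕ × ℕ)) :=
  (range n ×ˢ range n).powerset.filter (fun s => Lo s ∧ s.card = n)

/-- the arm (first coordinate) of the box `e` -/
def arm (s : Finset (ℕ × ℕ)) (e : ℕ × ℕ) : ℕ := (s.filter (fun f => f.2 = e.2 ∧ e.1 < f.1)).card

/-- the leg (second coordinate) of the box `e` -/
def leg (s : Finset (ℕ × ℕ)) (e : ℕ × ℕ) : ℕ := (s.filter (fun f => f.1 = e.1 ∧ e.2 < f.2)).card

open Classical in
/-- the boxes which can be added -/
noncomputable def adb (s : Finset (ℕ × ℕ)) : Finset (ℕ × ℕ) :=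
  (range (s.card + 1) ×ˢ range (s.card + 1)).filter (fun c => c ∉ s ∧ Lo (insert c s))

open Classical in
/-- the boxes which can be removed -/
noncomputable def rmb (s : Finset (ℕ × ℕ)) : Finset (ℕ × ℕ) :=
  s.filter (fun c => Lo (s.erase c))

section

variable {F : Type*} [CommRing F]

/-- content -/
def cn (a b : F) (e : ℕ × ℕ) : F := e.1 * a + e.2 * b

/-- tangent weights -/
def W1 (a b : F) (s : Finset (ℕ × ℕ)) (e : ℕ × ℕ) : F :=
  ((arm s e : F) + 1) * a - (leg s e : F) * b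

/-- tangent weights -/
def W2 (a b : F) (s : Finset (ℕ × ℕ)) (e : ℕ × ℕ) : F :=
  ((leg s e : F) + 1) * b - (arm s e : F) * a

/-- the statistic `ch_k`: the sum of `(l + content)^k / k!` -/
def chs [Algebra ℚ F] (l a b : F) (k : ℕ) (s : Finset (ℕ × ℕ)) : F :=
  ∑ e ∈ s, algebraMap ℚ F ((k.factorial : ℚ)⁻¹) * (l + cn a b e) ^ k

/-- monomials in a sequence -/
def mon (x : ℕ → F) (d : ℕ →₀ ℕ) : F := d.prod fun k n => x k ^ n

/-- sums over all diagrams -/
noncomputable def qs (φ : Finset (ℕ × ℕ) → F) : PowerSeries F :=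
  PowerSeries.mk fun n => ∑ s ∈ dg n, φ s

end

/-- product of the factorials -/
def dfac (d : ℕ →₀ ℕ) : ℕ := d.prod fun _ n => n.factorial

/-- total degree `∑ k d_k` -/
def deg (d : ℕ →₀ ℕ) : ℕ := d.sum fun k n => n * k

/-- number of factors `∑ d_k` -/
def num (d : ℕ →₀ ℕ) : ℕ := d.sum fun _ n => n

/-- weight: `∑ d_k (k + 2)` -/
def wt (d : ℕ →₀ ℕ) : ℕ := d.sum fun k n => n * (k + 2)

/-- the weight of a box configuration `∏ (c + w) / w` -/
def wg {F : Type*} [Field F] (a b c : F) (s : Finset (ℕ × ℕ)) : F :=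
  ∏ e ∈ s, ((c + W1 a b s e) * (c + W2 a b s e)) / (W1 a b s e * W2 a b s e)

end MPa7fa83.Cs
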