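import Pool.Agent.Lib.MP_a7fa83_ag.Cs.PolDefs
import Mathlib.RingTheory.LaurentSeries

/-!
# MP_a7fa83_ag, compact surfaces: expansions in `z`

`K` is a field, `LaurentSeries K` the field of Laurent series in `z`; `q`-series are power series
over it.  `cz i f` is the coefficient of `z^i`.  `FAp ρ p w` says that a family `f c` of `q`-series
is regular in `z` and: the coefficient of `z^0` does not depend on `c` and is in the span of q-zeta
values of weight `w`; the coefficients of `z^1` are in this span and their combination with the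
weights `ρ c` vanishes; the coefficients of `z^2` are in this span.
-/

set_option autoImplicit false

namespace MPa7fa83.Cs

open Finset PowerSeries MPa7fa83.Ok

section

variable {K : Type*} [Field K]

/-- the coefficient of `z^i` of a `q`-series -/
noncomputable def cz (i : ℤ) (f : (LaurentSeries K)⟦X⟧) : K⟦X⟧ :=
  PowerSeries.mk fun n => (coeff n f).coeff i

/-- regular in `z` -/
def Reg (f : (LaurentSeries K)⟦X⟧) : Prop := ∀ i < 0, cz i f = 0

/-- the element `a + b z` -/
noncomputable def lin (a b : K) : LaurentSeries K := HahnSeries.C a + HahnSeries.single 1 b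

variable {ι : Type*} [Fintype ι]

/-- families of Laurent series regular in `z`, with constant coefficient of `z^0` and with
coefficients of `z^1` orthogonal to `ρ` -/
def Bf (ρ : ι → K) (b : ι → LaurentSeries K) : Prop :=
  (∀ c, ∀ i < 0, (b c).coeff i = 0) ∧ (∃ a : K, ∀ c, (b c).coeff 0 = a) ∧
    ∑ c, ρ c * (b c).coeff 1 = 0

/-- the filtration -/
def FAp [CharZero K] (ρ : ι → K) (p : Bool) (w : ℕ) (f : ι → (LaurentSeries K)⟦X⟧) : Prop :=
  (∀ c, Reg (f c)) ∧ (∃ g ∈ qM K (okb p) w, ∀ c, cz 0 (f c) = g) ∧
    ((∀ c, cz 1 (f c) ∈ qM K (okb p) w) ∧ ∑ c, ρ c • cz 1 (f c) = 0) ∧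
    ∀ c, cz 2 (f c) ∈ qM K (okb p) w

/-- the target: regular, with value at `z = 0` in the span of q-zeta values -/
def Gp [CharZero K] (p : Bool) (w : ℕ) (g : (LaurentSeries K)⟦X⟧) : Prop :=
  Reg g ∧ cz 0 g ∈ qM K (okb p) w

end

end MPa7fa83.Cs
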