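import Pool.Agent.Lib.MP_a7fa83_ag.Cs.RimDefs
import Pool.Agent.Lib.MP_a7fa83_ag.Cs.B0
import Pool.Agent.Lib.MP_a7fa83_ag.Cs.D3
import Pool.Agent.Lib.MP_a7fa83_ag.Cs.FilDefs

section

/-!
# MP_a7fa83_ag, compact surfaces: function spaces for the covariance

Functions of `d, h : ℕ`, `β : ℚ` and a sequence `x : ℕ → ℚ`.
-/

set_option autoImplicit false

namespace MPa7fa83.Cs

open Finset PowerSeries

/-- functions of `(d, h, β, x)` -/
abbrev Fn := ℕ → ℕ → ℚ → (ℕ → ℚ) → ℚ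

/-- the span of `d^n h^j β^i x^e` with `1 ≤ n ≤ j`, `j - n` even, `n + j + i + wt e = w - 2 k` -/
def VV (w : ℕ) : Submodule ℚ Fn :=
  Submodule.span ℚ {F | ∃ (n j i : ℕ) (e : ℕ →₀ ℕ), 1 ≤ n ∧ (∃ m, j = n + 2 * m) ∧
    (∃ k, n + j + i + wt e + 2 * k = w) ∧
    F = (fun (d h : ℕ) (β : ℚ) (x : ℕ → ℚ) => (d : ℚ) ^ n * (h : ℚ) ^ j * β ^ i * mon x e)}

/-- the span of `x^e` with `wt e = w - 2 k` -/
def V0 (w : ℕ) : Submodule ℚ Fn :=
  Submodule.span ℚ {F | ∃ e : ℕ →₀ ℕ, (∃ k, wt e + 2 * k = w) ∧ F = (fun (_ _ : ℕ) (_ : ℚ) (x : ℕ → ℚ) => mon x e)}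

/-- `∑_{h d = N} d^n h^J q^N` -/
noncomputable def SE (n J : ℕ) : ℚ⟦X⟧ :=
  PowerSeries.mk fun N => ∑ y ∈ N.divisorsAntidiagonal, (y.1 : ℚ) ^ n * (y.2 : ℚ) ^ J

end MPa7fa83.Cs
end

section

section

/-!
# L0: expansion of the source factor of the plane 34

`∏_k (∑_{j ≤ k} x_j/(k-j)! X^j)^{I_k}` is a product of `num I` factors; the coefficient of `X^n` is a
rational combination of monomials `x^e` with `num e = num I` and `deg e = n`, so
`wt e = n + 2 num I`.  Induction on `I` (or on `num I`, adding `single k 1`).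
-/

set_option autoImplicit false

namespace MPa7fa83.Cs

open Finset PowerSeries MPa7fa83.Ok

private def wL : ℕ → ℕ := fun k => k + 2

private lemma wL_weight (d : ℕ →₀ ℕ) : Finsupp.weight wL d = wt d := by
  rw [Finsupp.weight_apply]
  rfl

/-- a function whose coefficients are isobaric polynomials -/
private def Gd {Λ : Type*} [CommRing Λ] [Algebra ℚ Λ] (N : ℕ) (F : (ℕ → Λ) → Λ⟦X⟧) : Prop :=
  ∀ n : ℕ, ∃ p : MvPolynomial ℕ ℚ, MvPolynomial.IsWeightedHomogeneous wL p (n + 2 * N) ∧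
    ∀ x : ℕ → Λ, coeff n (F x) = MvPolynomial.aeval x p

private lemma Gd_one {Λ : Type*} [CommRing Λ] [Algebra ℚ Λ] :
    Gd 0 (fun _ : ℕ → Λ => (1 : Λ⟦X⟧)) := by
  intro n
  by_cases h : n = 0
  · subst h
    refine ⟨1, by simpa using MvPolynomial.isWeightedHomogeneous_one ℚ wL, fun x => ?_⟩
    simp
  · refine ⟨0, MvPolynomial.isWeightedHomogeneous_zero ℚ wL _, fun x => ?_⟩
    simp [PowerSeries.coeff_one, h]

private lemma Gd_mul {Λ : Type*} [CommRing Λ] [Algebra ℚ Λ] {N M : ℕ} {F G : (ℕ → Λ) → Λ⟦X⟧}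
    (hF : Gd N F) (hG : Gd M G) : Gd (N + M) (fun x => F x * G x) := by
  intro n
  choose p hp hp' using hF
  choose q hq hq' using hG
  refine ⟨∑ a ∈ Finset.HasAntidiagonal.antidiagonal n, p a.1 * q a.2, ?_, fun x => ?_⟩
  · refine MvPolynomial.IsWeightedHomogeneous.sum _ _ _ fun a ha => ?_
    have h := (hp a.1).mul (hq a.2)
    have h1 : a.1 + a.2 = n := Finset.HasAntidiagonal.mem_antidiagonal.mp ha
    have h2 : a.1 + 2 * N + (a.2 + 2 * M) = n + 2 * (N + M) := by omega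
    rwa [h2] at h
  · rw [PowerSeries.coeff_mul, map_sum]
    exact Finset.sum_congr rfl fun a _ => by rw [map_mul, hp', hq']

private lemma Gd_pow {Λ : Type*} [CommRing Λ] [Algebra ℚ Λ] {N : ℕ} {F : (ℕ → Λ) → Λ⟦X⟧}
    (hF : Gd N F) (m : ℕ) : Gd (m * N) (fun x => F x ^ m) := by
  induction m with
  | zero => simpa using Gd_one
  | succ m ih =>
    have := Gd_mul ih hF
    rw [← Nat.succ_mul] at this
    simpa only [pow_succ] using this

private lemma Gd_fac {Λ : Type*} [CommRing Λ] [Algebra ℚ Λ] (k : ℕ) :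
    Gd 1 (fun x : ℕ → Λ => (∑ j ∈ range (k + 1),
        C (algebraMap ℚ Λ (((k - j).factorial : ℚ)⁻¹) * x j) * X ^ j : Λ⟦X⟧)) := by
  intro n
  have hc : ∀ x : ℕ → Λ, coeff n (∑ j ∈ range (k + 1),
        C (algebraMap ℚ Λ (((k - j).factorial : ℚ)⁻¹) * x j) * X ^ j : Λ⟦X⟧) =
        if n ∈ range (k + 1) then algebraMap ℚ Λ (((k - n).factorial : ℚ)⁻¹) * x n else 0 := by
    intro x
    rw [map_sum]
    have : ∀ j ∈ range (k + 1), coeff n (C (algebraMap ℚ Λ (((k - j).factorial : ℚ)⁻¹) * x j) *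
        X ^ j : Λ⟦X⟧) = if n = j then algebraMap ℚ Λ (((k - j).factorial : ℚ)⁻¹) * x j else 0 := by
      intro j _
      rw [PowerSeries.coeff_C_mul, PowerSeries.coeff_X_pow]
      split_ifs <;> simp
    rw [Finset.sum_congr rfl this, Finset.sum_ite_eq]
  by_cases h : n ∈ range (k + 1)
  · refine ⟨MvPolynomial.C (((k - n).factorial : ℚ)⁻¹) * MvPolynomial.X n, ?_, fun x => ?_⟩
    · have h1 := (MvPolynomial.isWeightedHomogeneous_C wL (((k - n).factorial : ℚ)⁻¹)).mul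
        (MvPolynomial.isWeightedHomogeneous_X ℚ wL n)
      simpa [wL] using h1
    · rw [hc, if_pos h, map_mul, MvPolynomial.aeval_C, MvPolynomial.aeval_X]
  · refine ⟨0, MvPolynomial.isWeightedHomogeneous_zero ℚ wL _, fun x => ?_⟩
    rw [hc, if_neg h, map_zero]

/-- expansion of the source factor of the plane 34, with coefficients independent of `x` -/
theorem bb_expand {Λ : Type*} [CommRing Λ] [Algebra ℚ Λ] (I : ℕ →₀ ℕ) (n : ℕ) :
    ∃ (T : Finset (ℕ →₀ ℕ)) (q : (ℕ →₀ ℕ) → ℚ), (∀ e ∈ T, wt e = n + 2 * num I) ∧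
      ∀ x : ℕ → Λ, coeff n (I.prod fun k m => (∑ j ∈ range (k + 1),
        C (algebraMap ℚ Λ (((k - j).factorial : ℚ)⁻¹) * x j) * X ^ j : Λ⟦X⟧) ^ m) =
      ∑ e ∈ T, algebraMap ℚ Λ (q e) * mon x e := by
  have key : Gd (num I) (fun x : ℕ → Λ => I.prod fun k m => (∑ j ∈ range (k + 1),
        C (algebraMap ℚ Λ (((k - j).factorial : ℚ)⁻¹) * x j) * X ^ j : Λ⟦X⟧) ^ m) := by
    induction I using Finsupp.induction_linear with
    | zero => simpa [num_zero'] using Gd_one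
    | add I J hI hJ =>
      have h := Gd_mul hI hJ
      rw [← num_add] at h
      have h2 : ∀ x : ℕ → Λ, ((I + J).prod fun k m => (∑ j ∈ range (k + 1),
        C (algebraMap ℚ Λ (((k - j).factorial : ℚ)⁻¹) * x j) * X ^ j : Λ⟦X⟧) ^ m) =
          (I.prod fun k m => (∑ j ∈ range (k + 1),
        C (algebraMap ℚ Λ (((k - j).factorial : ℚ)⁻¹) * x j) * X ^ j : Λ⟦X⟧) ^ m) *
          (J.prod fun k m => (∑ j ∈ range (k + 1),
        C (algebraMap ℚ Λ (((k - j).factorial : ℚ)⁻¹) * x j) * X ^ j : Λ⟦X⟧) ^ m) := fun x =>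
        Finsupp.prod_add_index' (fun _ => pow_zero _) (fun _ _ _ => pow_add _ _ _)
      intro n
      obtain ⟨p, hp, hp'⟩ := h n
      exact ⟨p, hp, fun x => (congrArg (coeff n) (h2 x)).trans (hp' x)⟩
    | single k m =>
      have h := Gd_pow (Gd_fac (Λ := Λ) k) m
      rw [mul_one] at h
      rw [num_single]
      intro n
      obtain ⟨p, hp, hp'⟩ := h n
      have h2 : ∀ x : ℕ → Λ, ((Finsupp.single k m).prod fun k m => (∑ j ∈ range (k + 1),
        C (algebraMap ℚ Λ (((k - j).factorial : ℚ)⁻¹) * x j) * X ^ j : Λ⟦X⟧) ^ m) =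
          (∑ j ∈ range (k + 1),
        C (algebraMap ℚ Λ (((k - j).factorial : ℚ)⁻¹) * x j) * X ^ j : Λ⟦X⟧) ^ m := by
        intro x
        rw [Finsupp.prod_single_index]
        exact pow_zero _
      exact ⟨p, hp, fun x => (congrArg (coeff n) (h2 x)).trans (hp' x)⟩
  obtain ⟨p, hp, hp'⟩ := key n
  refine ⟨p.support, fun e => p.coeff e, fun e he => ?_, fun x => ?_⟩
  · rw [← wL_weight]
    exact hp (MvPolynomial.mem_support_iff.mp he)
  · rw [hp' x, MvPolynomial.aeval_def, MvPolynomial.eval₂_eq]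
    rfl

end MPa7fa83.Cs
end

section

/-!
# E3: a filtration on the series

`Wf A w`: all coefficients of `τ^I y^n` are in `A (w + n + 2 num I)`.  Closed under products; if
`f ∈ Wf A 0`, `f g = 1` and the coefficient of `τ^0` of `f` is `1` then `g ∈ Wf A 0` (the
coefficient of `τ^I` of `g` is minus the sum over `I₁ + I₂ = I`, `I₁ ≠ 0`, of the products;
induction on `num I`).
-/

set_option autoImplicit false

namespace MPa7fa83.Cs

open Finset PowerSeries MPa7fa83.Ok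

section

variable {R : Type*} [CommRing R] [Algebra ℚ R]

/-- coefficients of `τ^I y^n` in `A (w + n + 2 num I)` -/
def Wf (A : ℕ → AddSubgroup R) (w : ℕ) (f : MvPowerSeries ℕ R⟦X⟧) : Prop :=
  ∀ (I : ℕ →₀ ℕ) (n : ℕ), coeff n (MvPowerSeries.coeff I f) ∈ A (w + n + 2 * num I)

private lemma num_pos_of_ne {d : ℕ →₀ ℕ} (h : d ≠ 0) : 0 < num d := by
  obtain ⟨i, hi⟩ := Finsupp.support_nonempty_iff.2 h
  have h1 : d i ≠ 0 := Finsupp.mem_support_iff.1 hi
  have h2 : d i ≤ num d := by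
    unfold num
    exact Finset.single_le_sum (f := fun i => d i) (fun _ _ => Nat.zero_le _) hi
  omega

private lemma mul_mem_aux {ok : ℕ → ℕ → Prop} {A : ℕ → AddSubgroup R} (hF : Fil ok A) {v w : ℕ}
    {a b : R⟦X⟧} {k l : ℕ} (ha : ∀ n, coeff n a ∈ A (v + n + 2 * k))
    (hb : ∀ n, coeff n b ∈ A (w + n + 2 * l)) (n : ℕ) :
    coeff n (a * b) ∈ A ((v + w) + n + 2 * (k + l)) := by
  rw [PowerSeries.coeff_mul]
  apply AddSubgroup.sum_mem
  intro q hq
  have h1 := hF.mul (ha q.1) (hb q.2)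
  have h2 : q.1 + q.2 = n := Finset.HasAntidiagonal.mem_antidiagonal.1 hq
  have h3 : v + q.1 + 2 * k + (w + q.2 + 2 * l) = (v + w) + n + 2 * (k + l) := by
    rw [← h2]; ring
  rwa [h3] at h1

lemma Wf_mul {ok : ℕ → ℕ → Prop} {A : ℕ → AddSubgroup R} (hF : Fil ok A) {v w : ℕ}
    {f g : MvPowerSeries ℕ R⟦X⟧} (hf : Wf A v f) (hg : Wf A w g) : Wf A (v + w) (f * g) := by
  intro I n
  rw [MvPowerSeries.coeff_mul, map_sum]
  apply AddSubgroup.sum_mem
  intro p hp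
  have h1 : p.1 + p.2 = I := Finset.HasAntidiagonal.mem_antidiagonal.1 hp
  have h2 : num I = num p.1 + num p.2 := by rw [← h1, num_add]
  rw [h2]
  exact mul_mem_aux hF (hf p.1) (hg p.2) n

lemma Wf_inv {ok : ℕ → ℕ → Prop} {A : ℕ → AddSubgroup R} (hF : Fil ok A)
    {f g : MvPowerSeries ℕ R⟦X⟧} (hf : Wf A 0 f) (h0 : MvPowerSeries.coeff 0 f = 1)
    (h : f * g = 1) : Wf A 0 g := by
  have key : ∀ m : ℕ, ∀ I : ℕ →₀ ℕ, num I = m → ∀ n : ℕ,
      coeff n (MvPowerSeries.coeff I g) ∈ A (0 + n + 2 * num I) := by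
    intro m
    induction m using Nat.strong_induction_on with
    | _ m ih =>
      intro I hI n
      have h1 : ∑ p ∈ Finset.HasAntidiagonal.antidiagonal I,
          MvPowerSeries.coeff p.1 f * MvPowerSeries.coeff p.2 g = MvPowerSeries.coeff I 1 := by
        rw [← MvPowerSeries.coeff_mul, h]
      have hmem : ((0 : ℕ →₀ ℕ), I) ∈ Finset.HasAntidiagonal.antidiagonal I := by
        rw [Finset.HasAntidiagonal.mem_antidiagonal]; simp
      classical
      rw [← Finset.add_sum_erase _ _ hmem, h0, one_mul] at h1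
      have h2 : MvPowerSeries.coeff I g = MvPowerSeries.coeff I 1 -
          ∑ p ∈ (Finset.HasAntidiagonal.antidiagonal I).erase ((0 : ℕ →₀ ℕ), I),
            MvPowerSeries.coeff p.1 f * MvPowerSeries.coeff p.2 g := by
        rw [← h1]; ring
      rw [h2, map_sub, map_sum]
      apply AddSubgroup.sub_mem
      · rw [MvPowerSeries.coeff_one]
        by_cases hI0 : I = 0
        · rw [if_pos hI0, PowerSeries.coeff_one, hI0, num_zero']
          by_cases hn : n = 0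
          · rw [if_pos hn, hn]
            exact hF.one
          · rw [if_neg hn]
            exact AddSubgroup.zero_mem _
        · rw [if_neg hI0, map_zero]
          exact AddSubgroup.zero_mem _
      · apply AddSubgroup.sum_mem
        intro p hp
        rw [Finset.mem_erase] at hp
        have h3 : p.1 + p.2 = I := Finset.HasAntidiagonal.mem_antidiagonal.1 hp.2
        have h4 : num I = num p.1 + num p.2 := by rw [← h3, num_add]
        have h5 : p.1 ≠ 0 := by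
          intro h5
          apply hp.1
          ext1
          · exact h5
          · rw [← h3, h5, zero_add]
        have h6 := num_pos_of_ne h5
        rw [h4]
        exact mul_mem_aux hF (v := 0) (w := 0) (hf p.1) (ih (num p.2) (by omega) p.2 rfl) n
  intro I n
  exact key _ I rfl n

end

end MPa7fa83.Cs
end
end

section

section

/-!
# J0: coefficients of powers of `z`

For regular `f`, `g`: `cz 0 (f g) = cz 0 f cz 0 g`, `cz 1 (f g) = cz 0 f cz 1 g + cz 1 f cz 0 g`,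
`cz 2 (f g) = cz 0 f cz 2 g + cz 1 f cz 1 g + cz 2 f cz 0 g`.  -/

set_option autoImplicit false

namespace MPa7fa83.Cs

open Finset PowerSeries MPa7fa83.Ok

section

variable {K : Type*} [Field K]

private lemma coeff_cz (i : ℤ) (n : ℕ) (f : (LaurentSeries K)⟦X⟧) :
    coeff n (cz i f) = (coeff n f).coeff i := by
  unfold cz
  rw [coeff_mk]

private lemma reg_coe {x : LaurentSeries K} (h : ∀ i < 0, x.coeff i = 0) :
    ∃ y : K⟦X⟧, x = HahnSeries.ofPowerSeries ℤ K y := by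
  refine ⟨PowerSeries.mk fun n => x.coeff (n : ℤ), ?_⟩
  ext i
  rcases lt_or_ge i 0 with hi | hi
  · rw [h i hi]
    symm
    apply HahnSeries.embDomain_of_notMem_range
    rintro ⟨n, hn⟩
    have : (n : ℤ) = i := hn
    omega
  · obtain ⟨n, rfl⟩ := Int.eq_ofNat_of_zero_le hi
    rw [HahnSeries.ofPowerSeries_apply_coeff, coeff_mk]

private lemma coe_neg (y : K⟦X⟧) {i : ℤ} (hi : i < 0) :
    (HahnSeries.ofPowerSeries ℤ K y).coeff i = 0 := by
  apply HahnSeries.embDomain_of_notMem_range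
  rintro ⟨n, hn⟩
  have : (n : ℤ) = i := hn
  omega

private lemma coeff_mul_cz (i : ℤ) (n : ℕ) (f g : (LaurentSeries K)⟦X⟧) :
    coeff n (cz i (f * g)) =
      ∑ p ∈ Finset.HasAntidiagonal.antidiagonal n, (coeff p.1 f * coeff p.2 g).coeff i := by
  rw [coeff_cz, coeff_mul, HahnSeries.coeff_sum]

private lemma Reg.coe {f : (LaurentSeries K)⟦X⟧} (hf : Reg f) (n : ℕ) :
    ∃ y : K⟦X⟧, coeff n f = HahnSeries.ofPowerSeries ℤ K y := by
  apply reg_coe
  intro i hi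
  rw [← coeff_cz, hf i hi, map_zero]

lemma cz_add (i : ℤ) (f g : (LaurentSeries K)⟦X⟧) : cz i (f + g) = cz i f + cz i g := by
  ext n
  rw [map_add, coeff_cz, coeff_cz, coeff_cz, map_add, HahnSeries.coeff_add]

lemma cz_sum {κ : Type*} (i : ℤ) (T : Finset κ) (f : κ → (LaurentSeries K)⟦X⟧) :
    cz i (∑ a ∈ T, f a) = ∑ a ∈ T, cz i (f a) := by
  ext n
  rw [map_sum, coeff_cz, map_sum, HahnSeries.coeff_sum]
  exact Finset.sum_congr rfl fun a _ => (coeff_cz i n (f a)).symm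

lemma Reg_mul {f g : (LaurentSeries K)⟦X⟧} (hf : Reg f) (hg : Reg g) : Reg (f * g) := by
  intro i hi
  ext n
  rw [coeff_mul_cz, map_zero]
  refine Finset.sum_eq_zero fun p _ => ?_
  obtain ⟨y, hy⟩ := Reg.coe hf p.1
  obtain ⟨z, hz⟩ := Reg.coe hg p.2
  rw [hy, hz, ← map_mul]
  exact coe_neg _ hi

lemma Reg_add {f g : (LaurentSeries K)⟦X⟧} (hf : Reg f) (hg : Reg g) : Reg (f + g) := by
  intro i hi
  rw [cz_add, hf i hi, hg i hi, add_zero]

lemma Reg_one : Reg (1 : (LaurentSeries K)⟦X⟧) := by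
  intro i hi
  ext n
  rw [coeff_cz, coeff_one, map_zero]
  split_ifs
  · rw [← map_one (HahnSeries.ofPowerSeries ℤ K)]
    exact coe_neg _ hi
  · rfl

private lemma coe_nat (y : K⟦X⟧) (n : ℕ) (i : ℤ) (hi : i = n) :
    (HahnSeries.ofPowerSeries ℤ K y).coeff i = coeff n y := by
  subst hi
  exact HahnSeries.ofPowerSeries_apply_coeff y n

lemma cz0_mul {f g : (LaurentSeries K)⟦X⟧} (hf : Reg f) (hg : Reg g) :
    cz 0 (f * g) = cz 0 f * cz 0 g := by
  ext n
  rw [coeff_mul_cz, coeff_mul]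
  refine Finset.sum_congr rfl fun p _ => ?_
  obtain ⟨y, hy⟩ := Reg.coe hf p.1
  obtain ⟨z, hz⟩ := Reg.coe hg p.2
  rw [coeff_cz, coeff_cz, hy, hz, ← map_mul, coe_nat _ 0 0 (by simp), coe_nat _ 0 0 (by simp),
    coe_nat _ 0 0 (by simp), coeff_mul]
  simp

lemma cz1_mul {f g : (LaurentSeries K)⟦X⟧} (hf : Reg f) (hg : Reg g) :
    cz 1 (f * g) = cz 0 f * cz 1 g + cz 1 f * cz 0 g := by
  ext n
  rw [coeff_mul_cz, map_add, coeff_mul, coeff_mul, ← Finset.sum_add_distrib]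
  refine Finset.sum_congr rfl fun p _ => ?_
  obtain ⟨y, hy⟩ := Reg.coe hf p.1
  obtain ⟨z, hz⟩ := Reg.coe hg p.2
  rw [coeff_cz, coeff_cz, coeff_cz, coeff_cz, hy, hz, ← map_mul, coe_nat _ 1 1 (by simp),
    coe_nat _ 1 1 (by simp), coe_nat _ 0 0 (by simp), coe_nat _ 0 0 (by simp),
    coe_nat _ 1 1 (by simp), coeff_mul]
  have h : Finset.HasAntidiagonal.antidiagonal 1 = {((0 : ℕ), (1 : ℕ)), (1, 0)} := by decide
  rw [h, Finset.sum_pair (by decide)]

lemma cz2_mul {f g : (LaurentSeries K)⟦X⟧} (hf : Reg f) (hg : Reg g) :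
    cz 2 (f * g) = cz 0 f * cz 2 g + cz 1 f * cz 1 g + cz 2 f * cz 0 g := by
  ext n
  rw [coeff_mul_cz, map_add, map_add, coeff_mul, coeff_mul, coeff_mul, ← Finset.sum_add_distrib,
    ← Finset.sum_add_distrib]
  refine Finset.sum_congr rfl fun p _ => ?_
  obtain ⟨y, hy⟩ := Reg.coe hf p.1
  obtain ⟨z, hz⟩ := Reg.coe hg p.2
  rw [coeff_cz, coeff_cz, coeff_cz, coeff_cz, coeff_cz, coeff_cz, hy, hz, ← map_mul,
    coe_nat _ 2 2 (by simp), coe_nat _ 2 2 (by simp), coe_nat _ 2 2 (by simp),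
    coe_nat _ 1 1 (by simp), coe_nat _ 1 1 (by simp), coe_nat _ 0 0 (by simp),
    coe_nat _ 0 0 (by simp), coeff_mul]
  have h : Finset.HasAntidiagonal.antidiagonal 2 = {((0 : ℕ), (2 : ℕ)), (1, 1), (2, 0)} := by decide
  rw [h, Finset.sum_insert (by decide), Finset.sum_pair (by decide), add_assoc]

variable [CharZero K] {ι : Type*} [Fintype ι] {ρ : ι → K} {p : Bool}

lemma qM_okb_mono {m n : ℕ} (h : okb p m n) : qM K (okb p) m ≤ qM K (okb p) n := by
  unfold qM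
  refine Submodule.span_mono ?_
  rintro f ⟨l, hl, h1, rfl⟩
  refine ⟨l, hl, ?_, rfl⟩
  cases p
  · exact le_trans h1 h
  · obtain ⟨k, hk⟩ := h1
    obtain ⟨k', hk'⟩ := h
    exact ⟨k + k', by omega⟩

end

end MPa7fa83.Cs
end

section

/-!
# J1: the filtration is a filtered algebra

For the products use `cz0_mul`, `cz1_mul`, `cz2_mul` and `qM_mul`.
-/

set_option autoImplicit false

namespace MPa7fa83.Cs

open Finset PowerSeries MPa7fa83.Ok

section

variable {K : Type*} [Field K] [CharZero K] {ι : Type*} [Fintype ι] {ρ : ι → K} {p : Bool}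

omit [CharZero K] in
private lemma cz_zero (i : ℤ) : cz i (0 : (LaurentSeries K)⟦X⟧) = 0 := by
  ext n
  unfold cz
  rw [coeff_mk, map_zero, HahnSeries.coeff_zero, map_zero]

omit [CharZero K] in
private lemma cz_C (i : ℤ) (b : LaurentSeries K) :
    cz i (C b : (LaurentSeries K)⟦X⟧) = b.coeff i • (1 : K⟦X⟧) := by
  ext n
  unfold cz
  rw [coeff_mk, PowerSeries.coeff_C, PowerSeries.coeff_smul, PowerSeries.coeff_one]
  split_ifs
  · rw [smul_eq_mul, mul_one]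
  · rw [smul_zero, HahnSeries.coeff_zero]

omit [CharZero K] in
private lemma cz_neg (i : ℤ) (f : (LaurentSeries K)⟦X⟧) : cz i (-f) = -cz i f := by
  ext n
  unfold cz
  rw [map_neg, coeff_mk, coeff_mk, map_neg, HahnSeries.coeff_neg]

lemma FAp_zero (w : ℕ) : FAp ρ p w (0 : ι → (LaurentSeries K)⟦X⟧) := by
  refine ⟨fun c i _ => cz_zero i, ⟨0, zero_mem _, fun c => cz_zero 0⟩,
    ⟨fun c => ?_, ?_⟩, fun c => ?_⟩
  · rw [Pi.zero_apply, cz_zero]
    exact zero_mem _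
  · refine Finset.sum_eq_zero (fun c _ => ?_)
    rw [Pi.zero_apply, cz_zero, smul_zero]
  · rw [Pi.zero_apply, cz_zero]
    exact zero_mem _

/-- constants -/
lemma FAp_C {b : ι → LaurentSeries K} (hb : Bf ρ b) :
    FAp ρ p 0 (fun c => (C (b c) : (LaurentSeries K)⟦X⟧)) := by
  have h1 : (1 : K⟦X⟧) ∈ qM K (okb p) 0 := one_mem_qM (okb_rel p).zero
  obtain ⟨hb1, ⟨a, ha⟩, hb3⟩ := hb
  refine ⟨fun c i hi => ?_, ⟨a • (1 : K⟦X⟧), Submodule.smul_mem _ _ h1, fun c => ?_⟩,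
    ⟨fun c => ?_, ?_⟩, fun c => ?_⟩
  · rw [cz_C, hb1 c i hi, zero_smul]
  · rw [cz_C, ha c]
  · rw [cz_C]
    exact Submodule.smul_mem _ _ h1
  · have h2 : ∀ c, ρ c • cz 1 (C (b c) : (LaurentSeries K)⟦X⟧) =
        (ρ c * (b c).coeff 1) • (1 : K⟦X⟧) := by
      intro c
      rw [cz_C, smul_smul]
    simp_rw [h2]
    rw [← Finset.sum_smul, hb3, zero_smul]
  · rw [cz_C]
    exact Submodule.smul_mem _ _ h1

lemma FAp_one : FAp ρ p 0 (1 : ι → (LaurentSeries K)⟦X⟧) := by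
  have h : Bf ρ (fun _ : ι => (1 : LaurentSeries K)) := by
    refine ⟨fun c i hi => ?_, ⟨1, fun c => ?_⟩, ?_⟩
    · rw [HahnSeries.coeff_one, if_neg (by omega)]
    · rw [HahnSeries.coeff_one, if_pos rfl]
    · refine Finset.sum_eq_zero (fun c _ => ?_)
      rw [HahnSeries.coeff_one, if_neg (by norm_num), mul_zero]
  have h2 := FAp_C (p := p) h
  have h3 : (fun _ : ι => (C (1 : LaurentSeries K) : (LaurentSeries K)⟦X⟧)) = 1 := by
    funext c
    rw [map_one, Pi.one_apply]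
  rwa [h3] at h2

lemma FAp_add {w : ℕ} {f g : ι → (LaurentSeries K)⟦X⟧} (hf : FAp ρ p w f) (hg : FAp ρ p w g) :
    FAp ρ p w (f + g) := by
  obtain ⟨f1, ⟨a, ha, f2⟩, ⟨f3, f4⟩, f5⟩ := hf
  obtain ⟨g1, ⟨b, hb, g2⟩, ⟨g3, g4⟩, g5⟩ := hg
  refine ⟨fun c => Reg_add (f1 c) (g1 c), ⟨a + b, add_mem ha hb, fun c => ?_⟩,
    ⟨fun c => ?_, ?_⟩, fun c => ?_⟩
  · rw [Pi.add_apply, cz_add, f2, g2]
  · rw [Pi.add_apply, cz_add]
    exact add_mem (f3 c) (g3 c)
  · simp only [Pi.add_apply, cz_add, smul_add]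
    rw [Finset.sum_add_distrib, f4, g4, add_zero]
  · rw [Pi.add_apply, cz_add]
    exact add_mem (f5 c) (g5 c)

lemma FAp_neg {w : ℕ} {f : ι → (LaurentSeries K)⟦X⟧} (hf : FAp ρ p w f) :
    FAp ρ p w (-f) := by
  obtain ⟨f1, ⟨a, ha, f2⟩, ⟨f3, f4⟩, f5⟩ := hf
  refine ⟨fun c i hi => ?_, ⟨-a, neg_mem ha, fun c => ?_⟩, ⟨fun c => ?_, ?_⟩, fun c => ?_⟩
  · rw [Pi.neg_apply, cz_neg, f1 c i hi, neg_zero]
  · rw [Pi.neg_apply, cz_neg, f2]
  · rw [Pi.neg_apply, cz_neg]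
    exact neg_mem (f3 c)
  · simp only [Pi.neg_apply, cz_neg, smul_neg]
    rw [Finset.sum_neg_distrib, f4, neg_zero]
  · rw [Pi.neg_apply, cz_neg]
    exact neg_mem (f5 c)

lemma FAp_mul {v w : ℕ} {f g : ι → (LaurentSeries K)⟦X⟧} (hf : FAp ρ p v f)
    (hg : FAp ρ p w g) : FAp ρ p (v + w) (f * g) := by
  obtain ⟨f1, ⟨a, ha, f2⟩, ⟨f3, f4⟩, f5⟩ := hf
  obtain ⟨g1, ⟨b, hb, g2⟩, ⟨g3, g4⟩, g5⟩ := hg
  have hm : ∀ {x y : K⟦X⟧}, x ∈ qM K (okb p) v → y ∈ qM K (okb p) w →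
      x * y ∈ qM K (okb p) (v + w) := fun hx hy => qM_mul (okb_rel p) hx hy
  refine ⟨fun c => Reg_mul (f1 c) (g1 c), ⟨a * b, hm ha hb, fun c => ?_⟩,
    ⟨fun c => ?_, ?_⟩, fun c => ?_⟩
  · rw [Pi.mul_apply, cz0_mul (f1 c) (g1 c), f2, g2]
  · rw [Pi.mul_apply, cz1_mul (f1 c) (g1 c), f2, g2]
    exact add_mem (hm ha (g3 c)) (hm (f3 c) hb)
  · have h : ∀ c, ρ c • cz 1 ((f * g) c) =
        a * (ρ c • cz 1 (g c)) + (ρ c • cz 1 (f c)) * b := by
      intro c
      rw [Pi.mul_apply, cz1_mul (f1 c) (g1 c), f2, g2, smul_add, mul_smul_comm, smul_mul_assoc]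
    simp_rw [h]
    rw [Finset.sum_add_distrib, ← Finset.mul_sum, ← Finset.sum_mul, f4, g4, mul_zero, zero_mul,
      add_zero]
  · rw [Pi.mul_apply, cz2_mul (f1 c) (g1 c), f2, g2]
    exact add_mem (add_mem (hm ha (g5 c)) (hm (f3 c) (g3 c))) (hm (f5 c) hb)

lemma FAp_rat {w : ℕ} (a : ℚ) {f : ι → (LaurentSeries K)⟦X⟧} (hf : FAp ρ p w f) :
    FAp ρ p w (algebraMap ℚ (ι → (LaurentSeries K)⟦X⟧) a * f) := by
  have h : Bf ρ (fun _ : ι => (HahnSeries.C (algebraMap ℚ K a) : LaurentSeries K)) := by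
    refine ⟨fun c i hi => ?_, ⟨algebraMap ℚ K a, fun c => ?_⟩, ?_⟩
    · rw [HahnSeries.C_apply, HahnSeries.coeff_single_of_ne (by omega)]
    · rw [HahnSeries.C_apply, HahnSeries.coeff_single_same]
    · refine Finset.sum_eq_zero (fun c _ => ?_)
      rw [HahnSeries.C_apply, HahnSeries.coeff_single_of_ne (by norm_num), mul_zero]
  have h2 := FAp_C (p := p) h
  have h3 : (fun _ : ι => (C (HahnSeries.C (algebraMap ℚ K a) : LaurentSeries K) :
      (LaurentSeries K)⟦X⟧)) = algebraMap ℚ (ι → (LaurentSeries K)⟦X⟧) a := by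
    funext c
    rw [Pi.algebraMap_apply]
    have e : ((PowerSeries.C (R := LaurentSeries K)).comp
        ((HahnSeries.C (Γ := ℤ) (R := K)).comp (algebraMap ℚ K))) =
        algebraMap ℚ ((LaurentSeries K)⟦X⟧) := Subsingleton.elim _ _
    exact RingHom.congr_fun e a
  rw [h3] at h2
  have h4 := FAp_mul h2 hf
  rwa [zero_add] at h4

lemma FAp_mono {v w : ℕ} (h : okb p v w) {f : ι → (LaurentSeries K)⟦X⟧} (hf : FAp ρ p v f) :
    FAp ρ p w f := by
  have hm := qM_okb_mono (K := K) h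
  obtain ⟨f1, ⟨a, ha, f2⟩, ⟨f3, f4⟩, f5⟩ := hf
  exact ⟨f1, ⟨a, hm ha, f2⟩, ⟨fun c => hm (f3 c), f4⟩, fun c => hm (f5 c)⟩

end

section

variable {K : Type*} [Field K] [CharZero K] {ι : Type*} [Fintype ι]

/-- the filtration as subgroups -/
noncomputable def FA (ρ : ι → K) (p : Bool) (w : ℕ) : AddSubgroup (ι → (LaurentSeries K)⟦X⟧) where
  carrier := {f | FAp ρ p w f}
  add_mem' := FAp_add
  zero_mem' := FAp_zero w
  neg_mem' := FAp_neg

lemma mem_FA {ρ : ι → K} {p : Bool} {w : ℕ} {f : ι → (LaurentSeries K)⟦X⟧} :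
    f ∈ FA ρ p w ↔ FAp ρ p w f := Iff.rfl

theorem Fil_FA (ρ : ι → K) (p : Bool) : Fil (okb p) (FA ρ p) where
  one := FAp_one
  rat := fun q _ _ h => FAp_rat q h
  mul := fun h h' => FAp_mul h h'
  mono := fun h _ hf => FAp_mono h hf

end

end MPa7fa83.Cs
end
end
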