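import Pool.Agent.Lib.MP_a7fa83_ag.Cs.GenDefs
import Pool.Agent.Lib.MP_a7fa83_ag.Cs.A1
import Pool.Agent.Lib.MP_a7fa83_ag.Cs.J1
import Pool.Agent.Lib.MP_a7fa83_ag.Cs.B0

section

/-!
# F0: elementary facts on the sums over diagrams

`coeff N (qs φ * qs ψ)` is the sum over the pairs of diagrams with `N` boxes in total.
-/

set_option autoImplicit false

namespace MPa7fa83.Cs

open Finset PowerSeries

section

variable {F : Type*} [CommRing F]

lemma qs_add (φ ψ : Finset (ℕ × ℕ) → F) : qs (fun s => φ s + ψ s) = qs φ + qs ψ := by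
  ext n
  rw [map_add]
  simp only [qs, coeff_mk]
  exact sum_add_distrib

lemma qs_smul (a : F) (φ : Finset (ℕ × ℕ) → F) : qs (fun s => a * φ s) = C a * qs φ := by
  ext n
  rw [coeff_C_mul]
  simp only [qs, coeff_mk]
  exact (mul_sum _ _ _).symm

lemma qs_sum {κ : Type*} (T : Finset κ) (φ : κ → Finset (ℕ × ℕ) → F) :
    qs (fun s => ∑ i ∈ T, φ i s) = ∑ i ∈ T, qs (φ i) := by
  ext n
  rw [map_sum]
  simp only [qs, coeff_mk]
  exact sum_comm

lemma coeff_qs_mul (φ ψ : Finset (ℕ × ℕ) → F) (N : ℕ) : coeff N (qs φ * qs ψ) =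
    ∑ a ∈ Finset.HasAntidiagonal.antidiagonal N, ∑ s ∈ dg a.1, ∑ r ∈ dg a.2, φ s * ψ r := by
  rw [coeff_mul]
  refine sum_congr rfl fun a _ => ?_
  simp only [qs, coeff_mk]
  exact sum_mul_sum _ _ _ _

lemma constantCoeff_qs (φ : Finset (ℕ × ℕ) → F) : constantCoeff (qs φ) = φ ∅ := by
  rw [← coeff_zero_eq_constantCoeff_apply]
  simp only [qs, coeff_mk]
  have h : dg 0 = {∅} := by
    ext s
    simp only [dg, mem_filter, mem_powerset, mem_singleton, card_eq_zero]
    constructor
    · rintro ⟨_, _, h⟩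
      exact h
    · rintro rfl
      exact ⟨empty_subset _, fun i j i' j' h => absurd h (notMem_empty _), rfl⟩
  rw [h, sum_singleton]

lemma mon_add (x : ℕ → F) (d e : ℕ →₀ ℕ) : mon x (d + e) = mon x d * mon x e := by
  unfold mon
  exact Finsupp.prod_add_index' (fun a => pow_zero _) (fun a b c => pow_add _ _ _)

lemma mon_zero (x : ℕ → F) : mon x 0 = 1 := by
  unfold mon
  exact Finsupp.prod_zero_index

lemma mon_single (x : ℕ → F) (k n : ℕ) : mon x (Finsupp.single k n) = x k ^ n := by
  unfold mon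
  exact Finsupp.prod_single_index (h := fun k n => x k ^ n) (pow_zero _)

end

lemma wg_empty {F : Type*} [Field F] (a b c : F) : wg a b c ∅ = 1 := by
  unfold wg
  exact prod_empty

/-- a `q`-series with constant term `1` has an inverse with constant term `1` -/
lemma exists_inv {F : Type*} [Field F] {f : F⟦X⟧} (h : constantCoeff f = 1) :
    ∃ g : F⟦X⟧, f * g = 1 ∧ constantCoeff g = 1 := by
  refine ⟨f⁻¹, PowerSeries.mul_inv_cancel _ (by rw [h]; exact one_ne_zero), ?_⟩
  rw [PowerSeries.constantCoeff_inv, h, inv_one]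

end MPa7fa83.Cs
end

section

section

/-!
# L2: the localization sum

Let `ρ c = (A c B c)⁻¹` with `∑ ρ c = 0`.  For `f` with `FAp ρ p w f` the sum
`∑_c z⁻² ρ c f c` is regular and its value at `z = 0` is `∑_c ρ c cz 2 (f c)`: the coefficient of
`z^{-2}` is `(∑ ρ c) g = 0` and that of `z^{-1}` is `∑ ρ c cz 1 (f c) = 0`.
-/

set_option autoImplicit false

namespace MPa7fa83.Cs

open Finset PowerSeries MPa7fa83.Ok

section

variable {K : Type*} [Field K]

private lemma L2_cz_single (i b : ℤ) (a : K) (f : (LaurentSeries K)⟦X⟧) :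
    cz i (C (HahnSeries.single b a : LaurentSeries K) * f) = a • cz (i - b) f := by
  ext n
  simp only [cz, coeff_mk, map_smul, smul_eq_mul]
  rw [coeff_C_mul]
  have h := HahnSeries.coeff_single_mul_add (r := a) (x := coeff n f) (a := i - b) (b := b)
  rwa [sub_add_cancel] at h

private lemma L2_cz_C (i : ℤ) (a : K) (f : (LaurentSeries K)⟦X⟧) :
    cz i (C (HahnSeries.C a : LaurentSeries K) * f) = a • cz i f := by
  have h := L2_cz_single i 0 a f
  rwa [sub_zero] at h

private lemma L2_cz_zero (i : ℤ) : cz i (0 : (LaurentSeries K)⟦X⟧) = 0 := by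
  ext n
  simp [cz]

private lemma L2_cz0_one : cz 0 (1 : (LaurentSeries K)⟦X⟧) = 1 := by
  ext n
  simp only [cz, coeff_mk, coeff_one]
  split_ifs <;> simp

end

section

variable {K : Type*} [Field K] [CharZero K] {ι : Type*} [Fintype ι] {ρ : ι → K} {p : Bool}

theorem loc_sum (h0 : ∑ c, ρ c = 0) {w : ℕ} {f : ι → (LaurentSeries K)⟦X⟧}
    (hf : FAp ρ p w f) :
    Gp p w (∑ c, C (HahnSeries.single (-2 : ℤ) (ρ c) : LaurentSeries K) * f c) := by
  obtain ⟨hreg, ⟨g, hg, hg0⟩, ⟨_, h1⟩, h2⟩ := hf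
  have key : ∀ i : ℤ, cz i (∑ c, C (HahnSeries.single (-2 : ℤ) (ρ c) : LaurentSeries K) * f c) =
      ∑ c, ρ c • cz (i + 2) (f c) := by
    intro i
    rw [cz_sum]
    refine Finset.sum_congr rfl fun c _ => ?_
    rw [L2_cz_single, sub_neg_eq_add]
  refine ⟨fun i hi => ?_, ?_⟩
  · rw [key]
    rcases lt_or_ge i (-2) with h | h
    · refine Finset.sum_eq_zero fun c _ => ?_
      rw [hreg c (i + 2) (by omega), smul_zero]
    · rcases eq_or_lt_of_le h with h' | h'
      · rw [← h']
        have : ∀ c, ρ c • cz (-2 + 2) (f c) = ρ c • g := fun c => by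
          rw [show (-2 + 2 : ℤ) = 0 by norm_num, hg0 c]
        rw [Finset.sum_congr rfl fun c _ => this c, ← Finset.sum_smul, h0, zero_smul]
      · have e : i = -1 := by omega
        rw [e, show (-1 + 2 : ℤ) = 1 by norm_num]
        exact h1
  · rw [key, zero_add]
    exact sum_mem fun c _ => Submodule.smul_mem _ _ (h2 c)

lemma Gp_mul {v w : ℕ} {f g : (LaurentSeries K)⟦X⟧} (hf : Gp p v f) (hg : Gp p w g) :
    Gp p (v + w) (f * g) := by
  refine ⟨Reg_mul hf.1 hg.1, ?_⟩
  rw [cz0_mul hf.1 hg.1]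
  exact qM_mul (okb_rel p) hf.2 hg.2

lemma Gp_one : Gp p 0 (1 : (LaurentSeries K)⟦X⟧) := by
  refine ⟨Reg_one, ?_⟩
  rw [L2_cz0_one]
  exact one_mem_qM (okb_refl p 0)

lemma Gp_zero (w : ℕ) : Gp p w (0 : (LaurentSeries K)⟦X⟧) := by
  refine ⟨fun i _ => L2_cz_zero i, ?_⟩
  rw [L2_cz_zero]
  exact zero_mem _

lemma Gp_add {w : ℕ} {f g : (LaurentSeries K)⟦X⟧} (hf : Gp p w f) (hg : Gp p w g) :
    Gp p w (f + g) := by
  refine ⟨Reg_add hf.1 hg.1, ?_⟩
  rw [cz_add]
  exact add_mem hf.2 hg.2

lemma Gp_C {w : ℕ} (a : K) {f : (LaurentSeries K)⟦X⟧} (hf : Gp p w f) :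
    Gp p w (C (HahnSeries.C a : LaurentSeries K) * f) := by
  refine ⟨fun i hi => ?_, ?_⟩
  · rw [L2_cz_C, hf.1 i hi, smul_zero]
  · rw [L2_cz_C]
    exact Submodule.smul_mem _ _ hf.2

lemma Gp_mono {v w : ℕ} (h : okb p v w) {f : (LaurentSeries K)⟦X⟧} (hf : Gp p v f) :
    Gp p w f :=
  ⟨hf.1, qM_okb_mono h hf.2⟩

end

end MPa7fa83.Cs
end

section

/-!
# L3: from logarithmic derivatives to moments

Let `Z` be a series with inverse `Y`, and suppose that all coefficients of the logarithmic
derivatives `L_k = (∂_k Z) Y` satisfy `Gp p (k + 2 + deg J + 2 num J)`.  Then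
`coeff I Z = coeff 0 Z * G` with `Gp p (wt I) G`: from `∂_k Z = L_k Z`,
`(I_k) coeff I Z = ∑_{J + J' = I - e_k} coeff J L_k coeff J' Z`; induction on `num I`.
-/

set_option autoImplicit false

namespace MPa7fa83.Cs

open Finset PowerSeries MPa7fa83.Ok

section

variable {K : Type*} [Field K] [CharZero K] {p : Bool}

private lemma Gp_sum' {κ : Type*} {w : ℕ} (T : Finset κ) (f : κ → (LaurentSeries K)⟦X⟧)
    (h : ∀ a ∈ T, Gp p w (f a)) : Gp p w (∑ a ∈ T, f a) :=
  Finset.sum_induction f (Gp p w) (fun _ _ ha hb => Gp_add ha hb) (Gp_zero w) h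

theorem moments {Z Y : MvPowerSeries ℕ (LaurentSeries K)⟦X⟧} (h : Z * Y = 1)
    (hL : ∀ (k : ℕ) (J : ℕ →₀ ℕ), Gp p (k + 2 + deg J + 2 * num J)
      (MvPowerSeries.coeff J (MvPowerSeries.pderiv (LaurentSeries K)⟦X⟧ k Z * Y)))
    (I : ℕ →₀ ℕ) :
    ∃ G : (LaurentSeries K)⟦X⟧, Gp p (wt I) G ∧
      MvPowerSeries.coeff I Z = MvPowerSeries.coeff 0 Z * G := by
  classical
  suffices H : ∀ (n : ℕ) (I : ℕ →₀ ℕ), num I = n → ∃ G : (LaurentSeries K)⟦X⟧, Gp p (wt I) G ∧
      MvPowerSeries.coeff I Z = MvPowerSeries.coeff 0 Z * G from H _ I rfl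
  intro n
  induction n using Nat.strong_induction_on with
  | _ n ih =>
    intro I hI
    by_cases h0 : I = 0
    · subst h0
      refine ⟨1, ?_, by rw [mul_one]⟩
      rw [wt_zero']
      exact Gp_one
    · obtain ⟨k, hk⟩ : ∃ k, I k ≠ 0 := by
        by_contra hcon
        push_neg at hcon
        exact h0 (Finsupp.ext hcon)
      obtain ⟨I', rfl⟩ : ∃ I' : ℕ →₀ ℕ, I = I' + Finsupp.single k 1 := by
        refine ⟨I - Finsupp.single k 1, ?_⟩
        rw [tsub_add_cancel_of_le]
        rw [Finsupp.single_le_iff]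
        omega
      have hnum : num I' < n := by
        rw [← hI, num_add, num_single]
        omega
      have hG : ∀ J : ℕ →₀ ℕ, num J < n → ∃ G : (LaurentSeries K)⟦X⟧, Gp p (wt J) G ∧
          MvPowerSeries.coeff J Z = MvPowerSeries.coeff 0 Z * G := fun J hJ => ih _ hJ J rfl
      choose! G hG1 hG2 using hG
      have hle : ∀ x ∈ Finset.HasAntidiagonal.antidiagonal I', num x.2 < n := by
        intro x hx
        have hx' := Finset.HasAntidiagonal.mem_antidiagonal.1 hx
        have := congrArg num hx'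
        rw [num_add] at this
        omega
      have hkey : MvPowerSeries.coeff (I' + Finsupp.single k 1) Z * ((I' k : (LaurentSeries K)⟦X⟧) + 1)
          = MvPowerSeries.coeff 0 Z * ∑ x ∈ Finset.HasAntidiagonal.antidiagonal I',
            MvPowerSeries.coeff x.1 (MvPowerSeries.pderiv (LaurentSeries K)⟦X⟧ k Z * Y) * G x.2 := by
        have e1 : MvPowerSeries.pderiv (LaurentSeries K)⟦X⟧ k Z =
            (MvPowerSeries.pderiv (LaurentSeries K)⟦X⟧ k Z * Y) * Z := by
          rw [mul_assoc, mul_comm Y Z, h, mul_one]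
        have e2 := MvPowerSeries.coeff_pderiv (R := (LaurentSeries K)⟦X⟧) (i := k) Z I'
        rw [← e2]
        conv_lhs => rw [e1]
        rw [MvPowerSeries.coeff_mul, Finset.mul_sum]
        refine Finset.sum_congr rfl fun x hx => ?_
        rw [hG2 x.2 (hle x hx)]
        ring
      refine ⟨C (HahnSeries.C (((I' k : K) + 1)⁻¹) : LaurentSeries K) *
        ∑ x ∈ Finset.HasAntidiagonal.antidiagonal I',
            MvPowerSeries.coeff x.1 (MvPowerSeries.pderiv (LaurentSeries K)⟦X⟧ k Z * Y) * G x.2,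
        ?_, ?_⟩
      · refine Gp_C _ (Gp_sum' _ _ fun x hx => ?_)
        have hx' := Finset.HasAntidiagonal.mem_antidiagonal.1 hx
        have hw : wt (I' + Finsupp.single k 1) =
            (k + 2 + deg x.1 + 2 * num x.1) + wt x.2 := by
          rw [← hx', wt_add, wt_add, wt_single, wt_eq x.1]
          ring
        rw [hw]
        exact Gp_mul (hL k x.1) (hG1 x.2 (hle x hx))
      · have hne : ((I' k : K) + 1) ≠ 0 := by exact_mod_cast Nat.succ_ne_zero (I' k)
        have hc : (C (HahnSeries.C (((I' k : K) + 1)⁻¹) : LaurentSeries K) : (LaurentSeries K)⟦X⟧) *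
            ((I' k : (LaurentSeries K)⟦X⟧) + 1) = 1 := by
          have : ((I' k : (LaurentSeries K)⟦X⟧) + 1) =
              C (HahnSeries.C ((I' k : K) + 1) : LaurentSeries K) := by
            rw [map_add, map_one, map_natCast, map_add, map_natCast, map_one]
          rw [this, ← map_mul, ← map_mul, inv_mul_cancel₀ hne, map_one, map_one]
        calc MvPowerSeries.coeff (I' + Finsupp.single k 1) Z
            = (C (HahnSeries.C (((I' k : K) + 1)⁻¹) : LaurentSeries K) : (LaurentSeries K)⟦X⟧) *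
              (MvPowerSeries.coeff (I' + Finsupp.single k 1) Z *
                ((I' k : (LaurentSeries K)⟦X⟧) + 1)) := by
              rw [mul_comm (MvPowerSeries.coeff (I' + Finsupp.single k 1) Z), ← mul_assoc, hc,
                one_mul]
          _ = _ := by rw [hkey]; ring

omit [CharZero K] in
private lemma lreg_mul {a b : LaurentSeries K} (ha : ∀ i < 0, a.coeff i = 0)
    (hb : ∀ i < 0, b.coeff i = 0) (i : ℤ) (hi : i < 0) : (a * b).coeff i = 0 := by
  rw [HahnSeries.coeff_mul]
  refine Finset.sum_eq_zero fun x hx => ?_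
  have hx' := (Finset.mem_antidiagonal.1 hx).2.2
  rcases lt_or_ge x.1 0 with h1 | h1
  · rw [ha _ h1, zero_mul]
  · rw [hb _ (by omega), mul_zero]

/-- regularity from the logarithmic `q`-derivative -/
theorem reg_of_log {f g : (LaurentSeries K)⟦X⟧} (hg : Reg g)
    (h : ∀ n : ℕ, ((n : ℕ) : LaurentSeries K) * coeff n f = coeff n (g * f))
    (h0 : coeff 0 g = 0) (h1 : coeff 0 f = 1) : Reg f := by
  have hg' : ∀ (n : ℕ) (i : ℤ), i < 0 → (coeff n g).coeff i = 0 := by
    intro n i hi
    have := congrArg (coeff n) (hg i hi)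
    simpa [cz] using this
  have key : ∀ (n : ℕ) (i : ℤ), i < 0 → (coeff n f).coeff i = 0 := by
    intro n
    induction n using Nat.strong_induction_on with
    | _ n ih =>
      intro i hi
      rcases Nat.eq_zero_or_pos n with rfl | hn
      · rw [h1, HahnSeries.coeff_one, if_neg (by omega)]
      · have e := congrArg (fun a : LaurentSeries K => a.coeff i) (h n)
        simp only [PowerSeries.coeff_mul] at e
        rw [HahnSeries.coeff_sum] at e
        rw [Finset.sum_eq_zero] at e
        · have e3 : ((n : LaurentSeries K) * coeff n f).coeff i = (n : K) * (coeff n f).coeff i := by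
            have : (n : LaurentSeries K) = HahnSeries.C (n : K) := by simp
            rw [this, HahnSeries.C_mul_eq_smul, HahnSeries.coeff_smul, smul_eq_mul]
          rw [e3] at e
          have hn' : (n : K) ≠ 0 := by exact_mod_cast hn.ne'
          exact (mul_eq_zero.1 e).resolve_left hn'
        · intro x hx
          have hx' := Finset.HasAntidiagonal.mem_antidiagonal.1 hx
          rcases Nat.eq_zero_or_pos x.1 with h2 | h2
          · rw [h2, h0, zero_mul]
            rfl
          · exact lreg_mul (hg' x.1) (ih x.2 (by omega)) i hi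
  intro i hi
  ext n
  simpa [cz] using key n i hi

/-- logarithmic derivatives of a product -/
theorem log_prod {R : Type*} [CommRing R] {ι : Type*} [Fintype ι] [DecidableEq ι]
    (Z Y : ι → MvPowerSeries ℕ R) (h : ∀ c, Z c * Y c = 1) (k : ℕ) :
    MvPowerSeries.pderiv R k (∏ c, Z c) * ∏ c, Y c =
      ∑ c, MvPowerSeries.pderiv R k (Z c) * Y c := by
  have H : ∀ s : Finset ι, MvPowerSeries.pderiv R k (∏ c ∈ s, Z c) * ∏ c ∈ s, Y c =
      ∑ c ∈ s, MvPowerSeries.pderiv R k (Z c) * Y c := by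
    intro s
    induction s using Finset.induction_on with
    | empty => simp
    | insert a s ha ih =>
      rw [Finset.prod_insert ha, Finset.prod_insert ha, Finset.sum_insert ha, ← ih,
        Derivation.leibniz, smul_eq_mul, smul_eq_mul]
      have hP : (∏ c ∈ s, Z c) * ∏ c ∈ s, Y c = 1 := by
        rw [← Finset.prod_mul_distrib]
        exact Finset.prod_eq_one fun c _ => h c
      calc _ = (Z a * Y a) * (MvPowerSeries.pderiv R k (∏ c ∈ s, Z c) * ∏ c ∈ s, Y c) +
            ((∏ c ∈ s, Z c) * ∏ c ∈ s, Y c) * (MvPowerSeries.pderiv R k (Z a) * Y a) := by ring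
        _ = _ := by rw [h a, hP]; ring
  exact H Finset.univ

end

end MPa7fa83.Cs
end
end
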