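import Pool.Agent.Lib.MP_a7fa83_ag.Cs.B0
import Pool.Agent.Lib.MP_a7fa83_ag.Cs.L3

section

/-!
# E2: normalization of the relation

`P0` : the series `f` with `coeff n (coeff I f) = 0` for `n > deg I`.  It contains `tw g`, it is
closed under products, and under inverses (if `f * g = 1`, `f ∈ P0` and the coefficient of
`τ^0` in `f` is (then necessarily) a constant; induction on `I`).
If `V` satisfies `Rel` and `Y ∈ P0` then `V_j * Y` satisfies `Rel`: the coefficient is
`∑_{I₁+I₂=I} ∑_{m ≤ deg I₂} coeff m (coeff I₂ Y) * [the relation for (I₁, n - m)]`, and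
`n - m ≥ deg I₁ + 2`.
-/

set_option autoImplicit false

namespace MPa7fa83.Cs

open Finset PowerSeries

section

variable {R : Type*} [CommRing R]

/-- polynomials in `x = 1/y` -/
def P0 (f : MvPowerSeries ℕ R⟦X⟧) : Prop :=
  ∀ (I : ℕ →₀ ℕ) (n : ℕ), deg I < n → coeff n (MvPowerSeries.coeff I f) = 0

lemma P0_tw (f : MvPowerSeries ℕ R) : P0 (tw f) := by
  intro I n h
  rw [coeff_tw, if_neg (by omega)]

private theorem E2_mul_coeff {f g : MvPowerSeries ℕ R⟦X⟧} {I J : ℕ →₀ ℕ} {n : ℕ}
    (hf : ∀ m, deg I < m → coeff m (MvPowerSeries.coeff I f) = 0)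
    (hg : ∀ m, deg J < m → coeff m (MvPowerSeries.coeff J g) = 0) (h : deg I + deg J < n) :
    coeff n (MvPowerSeries.coeff I f * MvPowerSeries.coeff J g) = 0 := by
  rw [PowerSeries.coeff_mul]
  refine Finset.sum_eq_zero fun p hp => ?_
  rw [Finset.HasAntidiagonal.mem_antidiagonal] at hp
  by_cases h1 : deg I < p.1
  · rw [hf _ h1, zero_mul]
  · rw [hg _ (by omega), mul_zero]

lemma P0_mul {f g : MvPowerSeries ℕ R⟦X⟧} (hf : P0 f) (hg : P0 g) : P0 (f * g) := by
  intro I n h
  rw [MvPowerSeries.coeff_mul, map_sum]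
  refine Finset.sum_eq_zero fun p hp => ?_
  rw [Finset.HasAntidiagonal.mem_antidiagonal] at hp
  refine E2_mul_coeff (hf p.1) (hg p.2) ?_
  rw [← deg_add, hp]
  exact h

lemma P0_inv {f g : MvPowerSeries ℕ R⟦X⟧} (hf : P0 f) (h : f * g = 1) : P0 g := by
  have hf0 : MvPowerSeries.coeff 0 f = C (coeff 0 (MvPowerSeries.coeff 0 f)) := by
    ext n
    rw [PowerSeries.coeff_C]
    split_ifs with hn
    · rw [hn]
    · exact hf 0 n (by rw [deg_zero']; omega)
  obtain ⟨b, hb⟩ : ∃ b : R, coeff 0 (MvPowerSeries.coeff 0 f) * b = 1 := by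
    refine ⟨coeff 0 (MvPowerSeries.coeff 0 g), ?_⟩
    have h1 := congrArg (fun z => coeff 0 (MvPowerSeries.coeff (0 : ℕ →₀ ℕ) z)) h
    simpa [PowerSeries.coeff_mul, MvPowerSeries.coeff_mul] using h1
  have key : ∀ k : ℕ, ∀ I : ℕ →₀ ℕ, wt I = k → ∀ n, deg I < n →
      coeff n (MvPowerSeries.coeff I g) = 0 := by
    intro k
    induction k using Nat.strong_induction_on with
    | _ k ih =>
      intro I hI n hn
      have h1 := congrArg (fun z => coeff n (MvPowerSeries.coeff I z)) h
      have h2 : coeff n (MvPowerSeries.coeff I (1 : MvPowerSeries ℕ R⟦X⟧)) = 0 := by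
        rw [MvPowerSeries.coeff_one]
        split_ifs with h0
        · rw [PowerSeries.coeff_one, if_neg (by omega)]
        · rw [map_zero]
      simp only [h2] at h1
      rw [MvPowerSeries.coeff_mul, map_sum,
        ← Finset.add_sum_erase _ _ (show ((0, I) : (ℕ →₀ ℕ) × (ℕ →₀ ℕ)) ∈
          Finset.HasAntidiagonal.antidiagonal I by
            rw [Finset.HasAntidiagonal.mem_antidiagonal]; exact zero_add I)] at h1
      rw [Finset.sum_eq_zero, add_zero] at h1
      · have h3 : coeff n (MvPowerSeries.coeff (0, I).1 f * MvPowerSeries.coeff (0, I).2 g) =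
            coeff 0 (MvPowerSeries.coeff 0 f) * coeff n (MvPowerSeries.coeff I g) := by
          show coeff n (MvPowerSeries.coeff 0 f * MvPowerSeries.coeff I g) = _
          conv_lhs => rw [hf0]
          rw [PowerSeries.coeff_C_mul]
        rw [h3] at h1
        calc coeff n (MvPowerSeries.coeff I g)
            = (coeff 0 (MvPowerSeries.coeff 0 f) * b) * coeff n (MvPowerSeries.coeff I g) := by
              rw [hb, one_mul]
          _ = b * (coeff 0 (MvPowerSeries.coeff 0 f) * coeff n (MvPowerSeries.coeff I g)) := by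
              ring
          _ = 0 := by rw [h1, mul_zero]
      · intro p hp
        rw [Finset.mem_erase, Finset.HasAntidiagonal.mem_antidiagonal] at hp
        obtain ⟨hp1, hp2⟩ := hp
        have hne : p.1 ≠ 0 := by
          intro h0
          apply hp1
          rw [h0, zero_add] at hp2
          exact Prod.ext h0 hp2
        have hpos : 0 < wt p.1 := by
          obtain ⟨j, hj⟩ := Finsupp.ne_iff.1 hne
          have hj' : j ∈ p.1.support := by
            rw [Finsupp.mem_support_iff]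
            exact hj
          have h4 : p.1 j * (j + 2) ≤ wt p.1 := by
            unfold wt
            rw [Finsupp.sum]
            exact Finset.single_le_sum (f := fun k => p.1 k * (k + 2))
              (fun _ _ => Nat.zero_le _) hj'
          have h5 : 0 < p.1 j := Nat.pos_of_ne_zero hj
          exact lt_of_lt_of_le (Nat.mul_pos h5 (by omega)) h4
        have hw : wt p.1 + wt p.2 = k := by rw [← wt_add, hp2, hI]
        refine E2_mul_coeff (hf p.1) (ih (wt p.2) (by omega) p.2 rfl) ?_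
        rw [← deg_add, hp2]
        exact hn
  exact fun I n hn => key _ I rfl n hn

lemma Rel_mul {V : ℕ → MvPowerSeries ℕ R⟦X⟧} (hV : Rel V) {Y : MvPowerSeries ℕ R⟦X⟧}
    (hY : P0 Y) : Rel (fun j => V j * Y) := by
  intro I n hn
  have h1 : ∀ j, coeff (n - j) (MvPowerSeries.coeff I (V j * Y)) =
      ∑ p ∈ Finset.HasAntidiagonal.antidiagonal I,
        ∑ m ∈ range (n - j + 1), coeff (n - j - m) (MvPowerSeries.coeff p.1 (V j)) *
          coeff m (MvPowerSeries.coeff p.2 Y) := by
    intro j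
    rw [MvPowerSeries.coeff_mul, map_sum]
    refine Finset.sum_congr rfl fun p _ => ?_
    rw [mul_comm, PowerSeries.coeff_mul, Finset.Nat.sum_antidiagonal_eq_sum_range_succ
      (fun a b => coeff a (MvPowerSeries.coeff p.2 Y) * coeff b (MvPowerSeries.coeff p.1 (V j)))]
    exact Finset.sum_congr rfl fun m _ => mul_comm _ _
  simp only [h1]
  rw [Finset.sum_comm]
  refine Finset.sum_eq_zero fun p hp => ?_
  rw [Finset.HasAntidiagonal.mem_antidiagonal] at hp
  have hd : deg p.1 + deg p.2 = deg I := by rw [← deg_add, hp]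
  have h2 : ∀ j ∈ range (n + 1), ∑ m ∈ range (n - j + 1),
      coeff (n - j - m) (MvPowerSeries.coeff p.1 (V j)) * coeff m (MvPowerSeries.coeff p.2 Y) =
      ∑ m ∈ range (n + 1), if j + m ≤ n then
        coeff (n - m - j) (MvPowerSeries.coeff p.1 (V j)) * coeff m (MvPowerSeries.coeff p.2 Y)
        else 0 := by
    intro j hj
    rw [Finset.mem_range] at hj
    rw [← Finset.sum_filter]
    have e : (range (n + 1)).filter (fun m => j + m ≤ n) = range (n - j + 1) := by
      ext m
      simp only [Finset.mem_filter, Finset.mem_range]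
      omega
    rw [e]
    refine Finset.sum_congr rfl fun m _ => ?_
    rw [Nat.sub_right_comm]
  rw [Finset.sum_congr rfl h2, Finset.sum_comm]
  refine Finset.sum_eq_zero fun m hm => ?_
  rw [Finset.mem_range] at hm
  by_cases hm2 : deg p.2 < m
  · refine Finset.sum_eq_zero fun j _ => ?_
    rw [hY p.2 m hm2, mul_zero, ite_self]
  · rw [← Finset.sum_filter]
    have e : (range (n + 1)).filter (fun j => j + m ≤ n) = range (n - m + 1) := by
      ext j
      simp only [Finset.mem_filter, Finset.mem_range]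
      omega
    rw [e, ← Finset.sum_mul, hV p.1 (n - m) (by omega), zero_mul]

/-- normalization -/
theorem Rel_norm (Z : (ℕ →₀ ℕ) → MvPowerSeries ℕ R) (W : (ℕ →₀ ℕ) → MvPowerSeries ℕ R⟦X⟧)
    (P : ℕ → MvPolynomial (ℕ ⊕ ℕ) R) (hrel : Rel (fun j => jt Z W (P j)))
    {Zi : MvPowerSeries ℕ R} (hZ : Z 0 * Zi = 1) {Wi : MvPowerSeries ℕ R⟦X⟧} (hW : W 0 * Wi = 1)
    (hW0 : P0 (W 0)) :
    Rel (fun j => jt (fun d => Z d * Zi) (fun b => W b * Wi) (P j)) := by
  have h1 := Rel_mul hrel (P0_mul (P0_tw Zi) (P0_inv hW0 hW))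
  have h2 : (fun j => jt (fun d => Z d * Zi) (fun b => W b * Wi) (P j)) =
      fun j => jt Z W (P j) * (tw Zi * Wi) := by
    funext j
    unfold jt
    rw [Finset.sum_mul]
    refine Finset.sum_congr rfl fun d _ => ?_
    rw [tw_mul]
    ring
  rw [h2]
  exact h1

end

end MPa7fa83.Cs
end

section

/-!
# F1: derivatives and inverses of the generating series

`pderiv k` of the exponential generating series multiplies by `ch_k`
(`(I_k + 1) src x (I + single k 1) = x_k src x I`).
-/

set_option autoImplicit false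

namespace MPa7fa83.Cs

open Finset PowerSeries MPa7fa83.Ok

section

variable {ι F : Type*} [Field F] [Algebra ℚ F]

private lemma dfac_succ (I : ℕ →₀ ℕ) (k : ℕ) :
    dfac (I + Finsupp.single k 1) = dfac I * (I k + 1) := by
  classical
  have e1 : ∀ J : ℕ →₀ ℕ, dfac J = J.prod fun _ n => n.factorial := fun _ => rfl
  rw [e1, e1]
  have h1 : (I + Finsupp.single k 1).prod (fun _ n => n.factorial) =
      ∏ i ∈ insert k I.support, ((I + Finsupp.single k 1 : ℕ →₀ ℕ) i).factorial := by
    apply Finsupp.prod_of_support_subset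
    · intro i hi
      rw [Finsupp.mem_support_iff, Finsupp.add_apply] at hi
      rw [Finset.mem_insert, Finsupp.mem_support_iff]
      by_cases h : i = k
      · exact Or.inl h
      · right
        rwa [Finsupp.single_eq_of_ne h, add_zero] at hi
    · intro i _; rfl
  have h2 : I.prod (fun _ n => n.factorial) = ∏ i ∈ insert k I.support, (I i).factorial := by
    apply Finsupp.prod_of_support_subset
    · exact Finset.subset_insert _ _
    · intro i _; rfl
  rw [h1, h2, ← Finset.mul_prod_erase _ _ (Finset.mem_insert_self k I.support),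
    ← Finset.mul_prod_erase _ (fun i => (I i).factorial) (Finset.mem_insert_self k I.support)]
  have h3 : ∏ x ∈ (insert k I.support).erase k,
      ((I + Finsupp.single k 1 : ℕ →₀ ℕ) x).factorial =
      ∏ x ∈ (insert k I.support).erase k, (I x).factorial := by
    apply Finset.prod_congr rfl
    intro i hi
    rw [Finset.mem_erase] at hi
    rw [Finsupp.add_apply, Finsupp.single_eq_of_ne hi.1, add_zero]
  rw [h3, Finsupp.add_apply, Finsupp.single_eq_same, Nat.factorial_succ]
  ring

private lemma dfac_pos (I : ℕ →₀ ℕ) : 0 < dfac I := by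
  apply Finset.prod_pos
  intro i _
  exact Nat.factorial_pos _

private lemma dfac_zero : dfac 0 = 1 := by
  simp [dfac]

private lemma src_zero (x : ℕ → F) : src x 0 = 1 := by
  rw [src, dfac_zero, mon_zero]
  simp

lemma src_succ (x : ℕ → F) (I : ℕ →₀ ℕ) (k : ℕ) :
    src x (I + Finsupp.single k 1) * ((I k : F) + 1) = x k * src x I := by
  have h1 : algebraMap ℚ F ((dfac (I + Finsupp.single k 1) : ℚ)⁻¹) * ((I k : F) + 1) =
      algebraMap ℚ F ((dfac I : ℚ)⁻¹) := by
    have h2 : ((I k : F) + 1) = algebraMap ℚ F ((I k : ℚ) + 1) := by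
      rw [map_add, map_natCast, map_one]
    rw [h2, ← map_mul, dfac_succ]
    congr 1
    have h3 : (dfac I : ℚ) ≠ 0 := by
      have := dfac_pos I
      positivity
    push_cast
    field_simp
  rw [src, src, mon_add, mon_single, pow_one]
  calc algebraMap ℚ F ((dfac (I + Finsupp.single k 1) : ℚ)⁻¹) * (mon x I * x k) * ((I k : F) + 1)
      = (algebraMap ℚ F ((dfac (I + Finsupp.single k 1) : ℚ)⁻¹) * ((I k : F) + 1)) *
          (mon x I * x k) := by ring
    _ = x k * (algebraMap ℚ F ((dfac I : ℚ)⁻¹) * mon x I) := by rw [h1]; ring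

theorem Z12_succ (t1 t2 t3 l : ι → F) (d : ℕ →₀ ℕ) (k : ℕ) :
    Z12 t1 t2 t3 l (d + Finsupp.single k 1) = MvPowerSeries.C (fc (fun c => t1 c * t2 c)) *
      MvPowerSeries.pderiv (ι → F⟦X⟧) k (Z12 t1 t2 t3 l d) := by
  ext1 I
  rw [MvPowerSeries.coeff_C_mul, MvPowerSeries.coeff_pderiv]
  funext c
  have e1 : ∀ (J d' : ℕ →₀ ℕ), MvPowerSeries.coeff J (Z12 t1 t2 t3 l d') c =
      qs (fun s => wg (t1 c) (t2 c) (t3 c) s *
        (mon (fun a => t1 c * t2 c * chs (l c) (t1 c) (t2 c) a s) d' *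
          src (fun k => chs (l c) (t1 c) (t2 c) k s) J)) := fun J d' => rfl
  have e2 : (fc (fun c => t1 c * t2 c) * (MvPowerSeries.coeff (I + Finsupp.single k 1)
      (Z12 t1 t2 t3 l d) * ((I k : ι → F⟦X⟧) + 1))) c =
      C (t1 c * t2 c) * (MvPowerSeries.coeff (I + Finsupp.single k 1)
      (Z12 t1 t2 t3 l d) c * ((I k : F⟦X⟧) + 1)) := rfl
  rw [e2, e1, e1]
  have e3 : ((I k : F⟦X⟧) + 1) = C ((I k : F) + 1) := by
    rw [map_add, map_natCast, map_one]
  rw [e3, mul_comm (qs _) (C ((I k : F) + 1)), ← qs_smul, ← qs_smul]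
  congr 1
  funext s
  rw [mon_add, mon_single, pow_one]
  have h := src_succ (fun k => chs (l c) (t1 c) (t2 c) k s) I k
  linear_combination (-(t1 c * t2 c) * wg (t1 c) (t2 c) (t3 c) s *
    mon (fun a => t1 c * t2 c * chs (l c) (t1 c) (t2 c) a s) d) * h

private lemma isUnit_fam (f : ι → F⟦X⟧) (h : ∀ c, constantCoeff (f c) = 1) : IsUnit f := by
  rw [Pi.isUnit_iff]
  intro c
  rw [PowerSeries.isUnit_iff_constantCoeff, h c]
  exact isUnit_one

theorem Z12_inv (t1 t2 t3 l : ι → F) : ∃ Zi, Z12 t1 t2 t3 l 0 * Zi = 1 := by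
  have h : IsUnit (Z12 t1 t2 t3 l 0) := by
    rw [MvPowerSeries.isUnit_iff_constantCoeff]
    apply isUnit_fam
    intro c
    have e1 : MvPowerSeries.constantCoeff (Z12 t1 t2 t3 l 0) c =
      qs (fun s => wg (t1 c) (t2 c) (t3 c) s *
        (mon (fun a => t1 c * t2 c * chs (l c) (t1 c) (t2 c) a s) 0 *
          src (fun k => chs (l c) (t1 c) (t2 c) k s) 0)) := rfl
    rw [e1, constantCoeff_qs, wg_empty, mon_zero, src_zero]
    ring
  obtain ⟨u, hu⟩ := h
  exact ⟨↑u⁻¹, by rw [← hu, Units.mul_inv]⟩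

private lemma coeff_Z34 (t1 t2 t3 l : ι → F) (b I : ℕ →₀ ℕ) (n : ℕ) :
    coeff n (MvPowerSeries.coeff I (Z34 t1 t2 t3 l b)) = fun c => qs (fun r =>
      wg (t3 c) (-t1 c - t2 c - t3 c) (t1 c) r *
      (mon (fun a => chs (l c - t1 c - t2 c) (t3 c) (-t1 c - t2 c - t3 c) a r) b *
        (algebraMap ℚ F ((dfac I : ℚ)⁻¹) * coeff n (I.prod fun k m =>
          (bb (l c - t1 c - t2 c) (t3 c) (-t1 c - t2 c - t3 c) r k) ^ m)))) := by
  have h0 : MvPowerSeries.coeff I (Z34 t1 t2 t3 l b) = PowerSeries.mk fun n c => qs (fun r =>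
      wg (t3 c) (-t1 c - t2 c - t3 c) (t1 c) r *
      (mon (fun a => chs (l c - t1 c - t2 c) (t3 c) (-t1 c - t2 c - t3 c) a r) b *
        (algebraMap ℚ F ((dfac I : ℚ)⁻¹) * coeff n (I.prod fun k m =>
          (bb (l c - t1 c - t2 c) (t3 c) (-t1 c - t2 c - t3 c) r k) ^ m)))) := rfl
  rw [h0, PowerSeries.coeff_mk]

theorem Z34_inv (t1 t2 t3 l : ι → F) : ∃ Wi, Z34 t1 t2 t3 l 0 * Wi = 1 := by
  have h : IsUnit (Z34 t1 t2 t3 l 0) := by
    rw [MvPowerSeries.isUnit_iff_constantCoeff, PowerSeries.isUnit_iff_constantCoeff]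
    apply isUnit_fam
    intro c
    have e1 : (PowerSeries.constantCoeff (MvPowerSeries.constantCoeff (Z34 t1 t2 t3 l 0))) c =
      qs (fun r => wg (t3 c) (-t1 c - t2 c - t3 c) (t1 c) r *
        (mon (fun a => chs (l c - t1 c - t2 c) (t3 c) (-t1 c - t2 c - t3 c) a r) 0 *
        (algebraMap ℚ F ((dfac 0 : ℚ)⁻¹) * coeff 0 ((0 : ℕ →₀ ℕ).prod fun k m =>
          (bb (l c - t1 c - t2 c) (t3 c) (-t1 c - t2 c - t3 c) r k) ^ m)))) := by
      rw [← PowerSeries.coeff_zero_eq_constantCoeff_apply,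
        ← MvPowerSeries.coeff_zero_eq_constantCoeff_apply, coeff_Z34]
    rw [e1, constantCoeff_qs, wg_empty, mon_zero, dfac_zero, Finsupp.prod_zero_index]
    simp
  obtain ⟨u, hu⟩ := h
  exact ⟨↑u⁻¹, by rw [← hu, Units.mul_inv]⟩

private lemma bdd_mul {f g : F⟦X⟧} {a b : ℕ} (hf : ∀ n, a < n → coeff n f = 0)
    (hg : ∀ n, b < n → coeff n g = 0) : ∀ n, a + b < n → coeff n (f * g) = 0 := by
  intro n hn
  rw [PowerSeries.coeff_mul]
  apply Finset.sum_eq_zero
  intro x hx
  rw [Finset.HasAntidiagonal.mem_antidiagonal] at hx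
  by_cases h : a < x.1
  · rw [hf _ h, zero_mul]
  · rw [hg _ (by omega), mul_zero]

private lemma bdd_pow {f : F⟦X⟧} {a : ℕ} (hf : ∀ n, a < n → coeff n f = 0) (m : ℕ) :
    ∀ n, m * a < n → coeff n (f ^ m) = 0 := by
  induction m with
  | zero =>
    intro n hn
    rw [pow_zero, PowerSeries.coeff_one, if_neg (by omega)]
  | succ m ih =>
    intro n hn
    rw [pow_succ]
    exact bdd_mul ih hf n (by rw [Nat.succ_mul] at hn; exact hn)

private lemma bdd_prod (T : Finset ℕ) (f : ℕ → F⟦X⟧) (a : ℕ → ℕ)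
    (hf : ∀ k ∈ T, ∀ n, a k < n → coeff n (f k) = 0) :
    ∀ n, ∑ k ∈ T, a k < n → coeff n (∏ k ∈ T, f k) = 0 := by
  classical
  induction T using Finset.induction_on with
  | empty =>
    intro n hn
    rw [Finset.prod_empty, PowerSeries.coeff_one, if_neg (by
      rw [Finset.sum_empty] at hn; omega)]
  | insert k T hk ih =>
    intro n hn
    rw [Finset.prod_insert hk]
    rw [Finset.sum_insert hk] at hn
    exact bdd_mul (hf k (Finset.mem_insert_self _ _))
      (ih (fun k' hk' => hf k' (Finset.mem_insert_of_mem hk'))) n hn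

private lemma bdd_bb (L a b : F) (r : Finset (ℕ × ℕ)) (k : ℕ) :
    ∀ n, k < n → coeff n (bb L a b r k) = 0 := by
  intro n hn
  rw [bb, map_sum]
  apply Finset.sum_eq_zero
  intro j hj
  rw [Finset.mem_range] at hj
  rw [PowerSeries.coeff_C_mul, PowerSeries.coeff_X_pow, if_neg (by omega), mul_zero]

theorem Z34_P0 (t1 t2 t3 l : ι → F) : P0 (Z34 t1 t2 t3 l 0) := by
  intro I n hn
  have e1 : coeff n (MvPowerSeries.coeff I (Z34 t1 t2 t3 l 0)) = fun c => qs (fun r =>
      wg (t3 c) (-t1 c - t2 c - t3 c) (t1 c) r *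
      (mon (fun a => chs (l c - t1 c - t2 c) (t3 c) (-t1 c - t2 c - t3 c) a r) 0 *
        (algebraMap ℚ F ((dfac I : ℚ)⁻¹) * coeff n (I.prod fun k m =>
          (bb (l c - t1 c - t2 c) (t3 c) (-t1 c - t2 c - t3 c) r k) ^ m)))) :=
    coeff_Z34 t1 t2 t3 l 0 I n
  rw [e1]
  funext c
  have e2 : ∀ r, coeff n (I.prod fun k m =>
          (bb (l c - t1 c - t2 c) (t3 c) (-t1 c - t2 c - t3 c) r k) ^ m) = 0 := by
    intro r
    have h := bdd_prod I.support
      (fun k => (bb (l c - t1 c - t2 c) (t3 c) (-t1 c - t2 c - t3 c) r k) ^ (I k))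
      (fun k => I k * k) (fun k _ => bdd_pow (bdd_bb _ _ _ r k) (I k)) n hn
    exact h
  simp only [e2, mul_zero]
  have h := qs_smul (0 : F) (fun _ : Finset (ℕ × ℕ) => (0 : F))
  simp only [zero_mul, map_zero] at h
  exact h

/-- the normalized series satisfy the recursion of `core` -/
theorem norm_succ {R : Type*} [CommRing R] (κ : R) (Z : (ℕ →₀ ℕ) → MvPowerSeries ℕ R)
    (hZ : ∀ d k, Z (d + Finsupp.single k 1) =
      MvPowerSeries.C κ * MvPowerSeries.pderiv R k (Z d)) {Zi : MvPowerSeries ℕ R}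
    (h : Z 0 * Zi = 1) (d : ℕ →₀ ℕ) (k : ℕ) :
    Z (d + Finsupp.single k 1) * Zi =
      MvPowerSeries.C κ * MvPowerSeries.pderiv R k (Z d * Zi) +
        (Z (Finsupp.single k 1) * Zi) * (Z d * Zi) := by
  have h1 := hZ d k
  have h2 := hZ 0 k
  rw [zero_add] at h2
  have h3 : Z 0 * MvPowerSeries.pderiv R k Zi + Zi * MvPowerSeries.pderiv R k (Z 0) = 0 := by
    have h4 := congrArg (MvPowerSeries.pderiv R k) h
    rw [Derivation.leibniz, MvPowerSeries.pderiv_one] at h4
    simpa only [smul_eq_mul] using h4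
  rw [Derivation.leibniz]
  simp only [smul_eq_mul]
  linear_combination Zi * h1 - (Zi * (Z d * Zi)) * h2 -
    MvPowerSeries.C κ * Z d * (Zi * h3 - MvPowerSeries.pderiv R k Zi * h)

end

end MPa7fa83.Cs
end
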