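import Pool.Agent.Lib.MP_a7fa83_ag.Cs.B0
import Pool.Agent.Lib.MP_a7fa83_ag.Cs.A1

/-!
# MP_a7fa83_ag, compact surfaces: the universal polynomials
-/

set_option autoImplicit false

namespace MPa7fa83.Cs

open Finset PowerSeries MPa7fa83.Ok

/-- allowed weights: `a ≤ n` (`p = false`), `a = n, n - 2, ...` (`p = true`) -/
def okb (p : Bool) (a n : ℕ) : Prop := if p then ∃ k, a + 2 * k = n else a ≤ n

lemma okb_rel (p : Bool) : OkRel (okb p) := by
  cases p
  · exact okRel_le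
  · exact okRel_par

lemma okb_le {p : Bool} {a n : ℕ} (h : okb p a n) : a ≤ n := by
  cases p
  · exact h
  · obtain ⟨k, hk⟩ := h
    omega

lemma okb_refl (p : Bool) (n : ℕ) : okb p n n := by
  cases p
  · exact le_refl n
  · exact ⟨0, by omega⟩

section

variable {R : Type*} [CommRing R] [Algebra ℚ R]

/-- `1 - X² α(X) ∑ (-X)^a x_a` -/
noncomputable def hxs (α : ℕ → R) : (MvPolynomial (ℕ ⊕ ℕ) R)⟦X⟧ :=
  1 - X ^ 2 * PowerSeries.mk (fun e => MvPolynomial.C (α e)) *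
    PowerSeries.mk (fun a => (-1) ^ a * MvPolynomial.X (Sum.inl a))

/-- `1 - X² β(X) ∑ X^b y_b` -/
noncomputable def hys (β : ℕ → R) : (MvPolynomial (ℕ ⊕ ℕ) R)⟦X⟧ :=
  1 - X ^ 2 * PowerSeries.mk (fun e => MvPolynomial.C (β e)) *
    PowerSeries.mk (fun b => MvPolynomial.X (Sum.inr b))

/-- the universal power sums -/
noncomputable def ppp (α β : ℕ → R) (i : ℕ) : MvPolynomial (ℕ ⊕ ℕ) R :=
  (i.factorial : MvPolynomial (ℕ ⊕ ℕ) R) * coeff i (hys β * hxs α)

/-- the universal polynomials -/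
noncomputable def PP (α β : ℕ → R) (j : ℕ) : MvPolynomial (ℕ ⊕ ℕ) R := ee (ppp α β) j

/-- `∑ a^i X^i / (i+1)!` -/
noncomputable def rs (a : R) : R⟦X⟧ :=
  PowerSeries.mk (fun i => algebraMap ℚ R (((i + 1).factorial : ℚ)⁻¹) * a ^ i)

/-- the coefficients `α_e` -/
noncomputable def al (t1 t2 l : R) (e : ℕ) : R := coeff e (rs (-t1) * rs (-t2) * ex l)

/-- the coefficients `β_e` -/
noncomputable def be (t1 t2 t3 l : R) (e : ℕ) : R :=
  t3 * (-t1 - t2 - t3) * coeff e (rs t3 * rs (-t1 - t2 - t3) * ex (t1 + t2 - l))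

end

end MPa7fa83.Cs
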