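import Pool.Agent.Lib.MP_a7fa83_ag.Cs.PolDefs
import Pool.Agent.Lib.MP_a7fa83_ag.Cs.A1

/-!
# MP_a7fa83_ag, compact surfaces: hooks, beta sets
-/

set_option autoImplicit false

namespace MPa7fa83.Cs

open Finset PowerSeries

/-- content of a box: `e.2 - e.1` -/
def ct (e : ℕ × ℕ) : ℚ := (e.2 : ℚ) - e.1

/-- `ck k r = ∑ (content)^k / k!` -/
def ck (k : ℕ) (r : Finset (ℕ × ℕ)) : ℚ := ∑ e ∈ r, (k.factorial : ℚ)⁻¹ * ct e ^ k

/-- number of boxes with hook length `h` -/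
def hk (h : ℕ) (r : Finset (ℕ × ℕ)) : ℕ := (r.filter (fun e => arm r e + leg r e + 1 = h)).card

/-- `∑ 1 / hook²` -/
def Tm (r : Finset (ℕ × ℕ)) : ℚ := ∑ e ∈ r, (((arm r e : ℚ) + leg r e + 1) ^ 2)⁻¹

/-- the contribution to `ck k` of a rim hook of length `h` with central content `β` -/
def Dl (h k : ℕ) (β : ℚ) : ℚ :=
  ∑ i ∈ range h, (k.factorial : ℚ)⁻¹ * (β - ((h : ℚ) - 1) / 2 + i) ^ k

/-- the operator `Y_h` on functions of the central content -/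
def Yh (h : ℕ) (ψ : ℚ → ℚ) (r : Finset (ℕ × ℕ)) : ℚ :=
  ∑ i ∈ range h, ψ ((1 - (h : ℚ)) / 2 + i) +
    ∑ e ∈ r, (ψ (ct e + ((h : ℚ) + 1) / 2) - ψ (ct e + ((h : ℚ) - 1) / 2)
      - ψ (ct e - ((h : ℚ) - 1) / 2) + ψ (ct e - ((h : ℚ) + 1) / 2))

/-- `N`-element sets of natural numbers with sum `n + N(N-1)/2` -/
def bs (N n : ℕ) : Finset (Finset ℕ) :=
  (powersetCard N (range (N + n))).filter (fun B => ∑ b ∈ B, b = n + ∑ i ∈ range N, i)

/-- the beta set of a diagram: the numbers `h_i + (N - 1 - i)`, `h_i` the height of column `i` -/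
def bet (N : ℕ) (r : Finset (ℕ × ℕ)) : Finset ℕ :=
  (range N).image (fun i => (r.filter (fun e => e.1 = i)).card + (N - 1 - i))

/-- the statistic `ck` in terms of the beta set -/
def ckB (N k : ℕ) (B : Finset ℕ) : ℚ :=
  ∑ b ∈ B, ∑ j ∈ range b, (k.factorial : ℚ)⁻¹ * ((j : ℚ) - (N - 1)) ^ k -
    ∑ b ∈ range N, ∑ j ∈ range b, (k.factorial : ℚ)⁻¹ * ((j : ℚ) - (N - 1)) ^ k

/-- the change of `ck k` when a bead moves from `b` to `b + h` -/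
def Db (N h k b : ℕ) : ℚ :=
  ∑ i ∈ range h, (k.factorial : ℚ)⁻¹ * ((b : ℚ) + i - (N - 1)) ^ k

end MPa7fa83.Cs
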