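import Pool.Agent.Lib.MP_a7fa83_ag.Cs.J1
import Pool.Agent.Lib.MP_a7fa83_ag.Cs.B0
import Pool.Agent.Lib.MP_a7fa83_ag.Cs.RimDefs
import Pool.Agent.Lib.MP_a7fa83_ag.Cs.PolDefs
import Pool.Agent.Lib.MP_a7fa83_ag.Cs.A4
import Pool.Agent.Lib.MP_a7fa83_ag.Cs.FilDefs

section

/-!
# G7: the moments and `Dl`

`Dl h k β` is a combination of `h^j β^i`, `j` odd, `i + j ≤ k + 1`, `i + j ≡ k + 1 mod 2`: indeed
`Dl h k β = k!⁻¹ ∑_{i<h} (β + (2 i - h + 1)/2)^k`, expand; the odd moments of `(2 i - h + 1)/2`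
vanish and the even moment `2 m` is an odd polynomial of degree `2 m + 1` in `h` (e.g. since the
sum `∑_{i<h} G((2 i - h + 1)/2)`, `G` even, is a polynomial in `h` which changes sign under
`h ↦ -h`; or use `F_k(β + h/2) - F_k(β - h/2)` with a polynomial `F_k` with
`F_k(t + 1/2) - F_k(t - 1/2) = t^k / k!`, of parity `k + 1`: Bernoulli polynomials, or induction).
So `d * Dl h k β` is in `VV (k + 2)`.
-/

set_option autoImplicit false

namespace MPa7fa83.Cs

open Finset PowerSeries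

/-- being an odd polynomial of degree at most `2 m + 1` -/
private def OddPolyG7 (m : ℕ) (F : ℕ → ℚ) : Prop :=
  ∃ c : ℕ → ℚ, ∀ h : ℕ, F h = ∑ a ∈ range (m + 1), c a * (h : ℚ) ^ (2 * a + 1)

private lemma oddG7_add {m : ℕ} {F G : ℕ → ℚ} (hF : OddPolyG7 m F) (hG : OddPolyG7 m G) :
    OddPolyG7 m (fun h => F h + G h) := by
  obtain ⟨c, hc⟩ := hF
  obtain ⟨c', hc'⟩ := hG
  refine ⟨fun a => c a + c' a, fun h => ?_⟩
  simp only [hc, hc', add_mul, Finset.sum_add_distrib]

private lemma oddG7_smul {m : ℕ} {F : ℕ → ℚ} (k : ℚ) (hF : OddPolyG7 m F) :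
    OddPolyG7 m (fun h => k * F h) := by
  obtain ⟨c, hc⟩ := hF
  refine ⟨fun a => k * c a, fun h => ?_⟩
  simp only [hc, Finset.mul_sum, mul_assoc]

private lemma oddG7_zero (m : ℕ) : OddPolyG7 m (fun _ => 0) :=
  ⟨fun _ => 0, fun h => by simp⟩

private lemma oddG7_sum {ι : Type*} {m : ℕ} (s : Finset ι) (F : ι → ℕ → ℚ)
    (hF : ∀ a ∈ s, OddPolyG7 m (F a)) : OddPolyG7 m (fun h => ∑ a ∈ s, F a h) := by
  classical
  induction s using Finset.induction_on with
  | empty => simpa using oddG7_zero m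
  | insert a s ha ih =>
    have h1 := ih (fun b hb => hF b (Finset.mem_insert_of_mem hb))
    have h2 := hF a (Finset.mem_insert_self a s)
    have h3 := oddG7_add h2 h1
    simpa [Finset.sum_insert ha] using h3

private lemma oddG7_mono {m m' : ℕ} (hm : m ≤ m') {F : ℕ → ℚ} (hF : OddPolyG7 m F) : OddPolyG7 m' F := by
  obtain ⟨c, hc⟩ := hF
  refine ⟨fun a => if a ∈ range (m + 1) then c a else 0, fun h => ?_⟩
  rw [hc]
  have hsub : range (m + 1) ⊆ range (m' + 1) := Finset.range_mono (by omega)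
  rw [← Finset.sum_subset hsub (f := fun a => (if a ∈ range (m + 1) then c a else 0) * (h : ℚ) ^ (2 * a + 1))]
  · refine Finset.sum_congr rfl fun a ha => ?_
    simp only [if_pos ha]
  · intro a _ ha
    simp only [if_neg ha, zero_mul]

private lemma oddG7_top (m : ℕ) (k : ℚ) : OddPolyG7 m (fun h => k * (h : ℚ) ^ (2 * m + 1)) := by
  refine ⟨fun a => if a = m then k else 0, fun h => ?_⟩
  rw [Finset.sum_eq_single m]
  · simp
  · intro b _ hb
    simp [hb]
  · intro h'
    exact absurd (Finset.mem_range.2 (Nat.lt_succ_self m)) h'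

private lemma sum_even_oddG7 (f : ℕ → ℚ) (n : ℕ) :
    ∑ j ∈ range (2 * n + 2), f j = ∑ a ∈ range (n + 1), (f (2 * a) + f (2 * a + 1)) := by
  induction n with
  | zero => simp [Finset.sum_range_succ]
  | succ n ih =>
    rw [show 2 * (n + 1) + 2 = (2 * n + 2) + 1 + 1 by ring, Finset.sum_range_succ,
      Finset.sum_range_succ, ih, Finset.sum_range_succ _ (n + 1)]
    rw [show 2 * (n + 1) = 2 * n + 2 by ring]
    ring

private lemma half_diffG7 (m : ℕ) (t : ℚ) :
    (t + 1 / 2) ^ (2 * m + 1) - (t - 1 / 2) ^ (2 * m + 1) =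
      ∑ a ∈ range (m + 1), (((2 * m + 1).choose (2 * a) : ℕ) : ℚ) * (2 * (1 / 2) ^ (2 * (m - a) + 1)) *
        t ^ (2 * a) := by
  rw [sub_eq_add_neg t, add_pow, add_pow, ← Finset.sum_sub_distrib,
    show 2 * m + 1 + 1 = 2 * m + 2 by ring, sum_even_oddG7]
  refine Finset.sum_congr rfl fun a ha => ?_
  have ha' : a ≤ m := Nat.lt_succ_iff.1 (Finset.mem_range.1 ha)
  have e1 : 2 * m + 1 - 2 * a = 2 * (m - a) + 1 := by omega
  have e2 : 2 * m + 1 - (2 * a + 1) = 2 * (m - a) := by omega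
  rw [e1, e2]
  have o1 : (-(1 / 2 : ℚ)) ^ (2 * (m - a) + 1) = -(1 / 2) ^ (2 * (m - a) + 1) :=
    Odd.neg_pow ⟨m - a, rfl⟩ _
  have o2 : (-(1 / 2 : ℚ)) ^ (2 * (m - a)) = (1 / 2) ^ (2 * (m - a)) :=
    Even.neg_pow ⟨m - a, by ring⟩ _
  rw [o1, o2]
  ring

private lemma teleG7 (m h : ℕ) :
    ∑ i ∈ range h, (((i : ℚ) - ((h : ℚ) - 1) / 2 + 1 / 2) ^ (2 * m + 1) -
      ((i : ℚ) - ((h : ℚ) - 1) / 2 - 1 / 2) ^ (2 * m + 1)) = 2 * ((h : ℚ) / 2) ^ (2 * m + 1) := by
  have h1 : ∀ i ∈ range h, (((i : ℚ) - ((h : ℚ) - 1) / 2 + 1 / 2) ^ (2 * m + 1) -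
      ((i : ℚ) - ((h : ℚ) - 1) / 2 - 1 / 2) ^ (2 * m + 1)) =
      (fun j : ℕ => ((j : ℚ) - (h : ℚ) / 2) ^ (2 * m + 1)) (i + 1) -
      (fun j : ℕ => ((j : ℚ) - (h : ℚ) / 2) ^ (2 * m + 1)) i := by
    intro i _
    simp only []
    push_cast
    congr 1 <;> congr 1 <;> ring
  rw [Finset.sum_congr rfl h1,
    Finset.sum_range_sub (fun j : ℕ => ((j : ℚ) - (h : ℚ) / 2) ^ (2 * m + 1)) h]
  simp only [Nat.cast_zero]
  have o1 : ((0 : ℚ) - (h : ℚ) / 2) ^ (2 * m + 1) = -((h : ℚ) / 2) ^ (2 * m + 1) := by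
    rw [zero_sub]
    exact Odd.neg_pow ⟨m, rfl⟩ _
  rw [o1, show (h : ℚ) - (h : ℚ) / 2 = (h : ℚ) / 2 by ring]
  ring

/-- even moments of the symmetric interval, scaled: an odd polynomial in `h` -/
theorem moment (m : ℕ) : ∃ c : ℕ → ℚ, ∀ h : ℕ,
    ∑ i ∈ range h, ((i : ℚ) - ((h : ℚ) - 1) / 2) ^ (2 * m) =
      ∑ a ∈ range (m + 1), c a * (h : ℚ) ^ (2 * a + 1) := by
  change OddPolyG7 m (fun h => ∑ i ∈ range h, ((i : ℚ) - ((h : ℚ) - 1) / 2) ^ (2 * m))
  induction m using Nat.strong_induction_on with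
  | _ m ih =>
    have key : ∀ h : ℕ, ∑ a ∈ range (m + 1), (((2 * m + 1).choose (2 * a) : ℕ) : ℚ) *
        (2 * (1 / 2) ^ (2 * (m - a) + 1)) *
        ∑ i ∈ range h, ((i : ℚ) - ((h : ℚ) - 1) / 2) ^ (2 * a) =
        2 * ((h : ℚ) / 2) ^ (2 * m + 1) := by
      intro h
      rw [← teleG7 m h]
      simp only [half_diffG7, Finset.mul_sum]
      rw [Finset.sum_comm]
    have key2 : ∀ h : ℕ, ∑ i ∈ range h, ((i : ℚ) - ((h : ℚ) - 1) / 2) ^ (2 * m) =
        (2 * (m : ℚ) + 1)⁻¹ * (2 * (1 / 2) ^ (2 * m + 1)) * (h : ℚ) ^ (2 * m + 1) +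
        ∑ a ∈ range m, (-(2 * (m : ℚ) + 1)⁻¹ * ((((2 * m + 1).choose (2 * a) : ℕ) : ℚ) *
        (2 * (1 / 2) ^ (2 * (m - a) + 1)))) *
        ∑ i ∈ range h, ((i : ℚ) - ((h : ℚ) - 1) / 2) ^ (2 * a) := by
      intro h
      have hk := key h
      rw [Finset.sum_range_succ, Nat.sub_self, mul_zero, zero_add, pow_one,
        show (2 * m + 1).choose (2 * m) = 2 * m + 1 from by
          rw [Nat.choose_succ_self_right], div_pow] at hk
      have hpos : (2 * (m : ℚ) + 1) ≠ 0 := by positivity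
      have e1 : ∀ S : ℚ, ((2 * m + 1 : ℕ) : ℚ) * (2 * (1 / 2)) * S = (2 * (m : ℚ) + 1) * S := by
        intro S
        push_cast
        ring
      rw [e1] at hk
      have e2 : ∑ a ∈ range m, (-(2 * (m : ℚ) + 1)⁻¹ * ((((2 * m + 1).choose (2 * a) : ℕ) : ℚ) *
        (2 * (1 / 2) ^ (2 * (m - a) + 1)))) *
        ∑ i ∈ range h, ((i : ℚ) - ((h : ℚ) - 1) / 2) ^ (2 * a) =
        -(2 * (m : ℚ) + 1)⁻¹ * ∑ a ∈ range m, ((((2 * m + 1).choose (2 * a) : ℕ) : ℚ) *
        (2 * (1 / 2) ^ (2 * (m - a) + 1))) *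
        ∑ i ∈ range h, ((i : ℚ) - ((h : ℚ) - 1) / 2) ^ (2 * a) := by
        rw [Finset.mul_sum]
        refine Finset.sum_congr rfl fun a _ => ?_
        ring
      rw [e2]
      generalize (∑ a ∈ range m, ((((2 * m + 1).choose (2 * a) : ℕ) : ℚ) *
        (2 * (1 / 2) ^ (2 * (m - a) + 1))) *
        ∑ i ∈ range h, ((i : ℚ) - ((h : ℚ) - 1) / 2) ^ (2 * a)) = T at hk ⊢
      generalize (∑ i ∈ range h, ((i : ℚ) - ((h : ℚ) - 1) / 2) ^ (2 * m)) = S at hk ⊢
      have hS : S = (2 * (m : ℚ) + 1)⁻¹ * (2 * ((h : ℚ) ^ (2 * m + 1) / 2 ^ (2 * m + 1)) - T) := by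
        rw [← hk]
        field_simp
        ring
      rw [hS, one_div, inv_pow]
      ring
    have h1 : OddPolyG7 m (fun h => (2 * (m : ℚ) + 1)⁻¹ * (2 * (1 / 2) ^ (2 * m + 1)) *
        (h : ℚ) ^ (2 * m + 1)) := oddG7_top m _
    have h2 : OddPolyG7 m (fun h => ∑ a ∈ range m, (-(2 * (m : ℚ) + 1)⁻¹ *
        ((((2 * m + 1).choose (2 * a) : ℕ) : ℚ) *
        (2 * (1 / 2) ^ (2 * (m - a) + 1)))) *
        ∑ i ∈ range h, ((i : ℚ) - ((h : ℚ) - 1) / 2) ^ (2 * a)) :=
      oddG7_sum (range m) _ fun a ha => oddG7_mono (Finset.mem_range.1 ha).le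
        (oddG7_smul _ (ih a (Finset.mem_range.1 ha)))
    have h3 := oddG7_add h1 h2
    obtain ⟨c, hc⟩ := h3
    exact ⟨c, fun h => by
      have := hc h
      simp only [] at this ⊢
      rw [key2 h]
      exact this⟩

theorem moment_odd (m h : ℕ) :
    ∑ i ∈ range h, ((i : ℚ) - ((h : ℚ) - 1) / 2) ^ (2 * m + 1) = 0 := by
  have h1 := Finset.sum_range_reflect (fun i : ℕ => ((i : ℚ) - ((h : ℚ) - 1) / 2) ^ (2 * m + 1)) h
  have h2 : ∑ j ∈ range h, (fun i : ℕ => ((i : ℚ) - ((h : ℚ) - 1) / 2) ^ (2 * m + 1)) (h - 1 - j) =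
      ∑ j ∈ range h, -((j : ℚ) - ((h : ℚ) - 1) / 2) ^ (2 * m + 1) := by
    refine Finset.sum_congr rfl fun j hj => ?_
    have hj' : j + 1 ≤ h := Finset.mem_range.1 hj
    simp only []
    have e : ((h - 1 - j : ℕ) : ℚ) = (h : ℚ) - 1 - j := by
      rw [Nat.sub_sub, Nat.cast_sub (by omega)]
      push_cast
      ring
    rw [e, ← Odd.neg_pow (⟨m, rfl⟩ : Odd (2 * m + 1))]
    congr 1
    ring
  rw [h2, Finset.sum_neg_distrib] at h1
  linarith

theorem Dl_mem (k : ℕ) : (fun (d h : ℕ) (β : ℚ) (_ : ℕ → ℚ) => (d : ℚ) * Dl h k β : Fn) ∈ VV (k + 2) := by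
  have hF : (fun (d h : ℕ) (β : ℚ) (_ : ℕ → ℚ) => (d : ℚ) * Dl h k β : Fn) =
      ∑ m ∈ range (k + 1), ((k.factorial : ℚ)⁻¹ * ((k.choose m : ℕ) : ℚ)) •
        (fun (d h : ℕ) (β : ℚ) (_ : ℕ → ℚ) => (d : ℚ) *
          (∑ i ∈ range h, ((i : ℚ) - ((h : ℚ) - 1) / 2) ^ m) * β ^ (k - m) : Fn) := by
    funext d h β x
    simp only [Finset.sum_apply, Pi.smul_apply, smul_eq_mul, Dl]
    have e1 : ∀ i ∈ range h, (k.factorial : ℚ)⁻¹ * (β - ((h : ℚ) - 1) / 2 + (i : ℚ)) ^ k =
        ∑ m ∈ range (k + 1), (k.factorial : ℚ)⁻¹ * (((i : ℚ) - ((h : ℚ) - 1) / 2) ^ m *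
          β ^ (k - m) * ((k.choose m : ℕ) : ℚ)) := by
      intro i _
      rw [← Finset.mul_sum, ← add_pow]
      congr 2
      ring
    rw [Finset.sum_congr rfl e1, Finset.sum_comm, Finset.mul_sum]
    refine Finset.sum_congr rfl fun m _ => ?_
    rw [← Finset.mul_sum, ← Finset.sum_mul, ← Finset.sum_mul]
    ring
  rw [hF]
  refine Submodule.sum_mem _ fun m hm => Submodule.smul_mem _ _ ?_
  have hm' : m ≤ k := Nat.lt_succ_iff.1 (Finset.mem_range.1 hm)
  obtain ⟨a, ha | ha⟩ := Nat.even_or_odd' m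
  · subst ha
    obtain ⟨c, hc⟩ := moment a
    have hG : (fun (d h : ℕ) (β : ℚ) (_ : ℕ → ℚ) => (d : ℚ) *
          (∑ i ∈ range h, ((i : ℚ) - ((h : ℚ) - 1) / 2) ^ (2 * a)) * β ^ (k - 2 * a) : Fn) =
        ∑ b ∈ range (a + 1), c b • (fun (d h : ℕ) (β : ℚ) (x : ℕ → ℚ) =>
          (d : ℚ) ^ 1 * (h : ℚ) ^ (2 * b + 1) * β ^ (k - 2 * a) * mon x 0 : Fn) := by
      funext d h β x
      simp only [Finset.sum_apply, Pi.smul_apply, smul_eq_mul, hc, mon, Finsupp.prod_zero_index]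
      rw [Finset.mul_sum, Finset.sum_mul]
      refine Finset.sum_congr rfl fun b _ => ?_
      ring
    rw [hG]
    refine Submodule.sum_mem _ fun b hb => Submodule.smul_mem _ _ (Submodule.subset_span ?_)
    have hb' : b ≤ a := Nat.lt_succ_iff.1 (Finset.mem_range.1 hb)
    refine ⟨1, 2 * b + 1, k - 2 * a, 0, le_refl _, ⟨b, by ring⟩, ⟨a - b, ?_⟩, rfl⟩
    rw [wt_zero']
    omega
  · subst ha
    have hG : (fun (d h : ℕ) (β : ℚ) (_ : ℕ → ℚ) => (d : ℚ) *
          (∑ i ∈ range h, ((i : ℚ) - ((h : ℚ) - 1) / 2) ^ (2 * a + 1)) *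
          β ^ (k - (2 * a + 1)) : Fn) = 0 := by
      funext d h β x
      simp only [moment_odd, mul_zero, zero_mul, Pi.zero_apply]
    rw [hG]
    exact Submodule.zero_mem _

end MPa7fa83.Cs
end

section

section

/-!
# G1: diagrams and beta sets

For `N ≥ n`, `r ↦ bet N r` is a bijection from `dg n` to `bs N n`: the numbers
`h_i + (N - 1 - i)`, `i < N`, are strictly decreasing in `i`, `h_i = 0` for `i ≥ n`, and their sum is
`n + N(N-1)/2`.
-/

set_option autoImplicit false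

namespace MPa7fa83.Cs

open Finset

/-- a finite lower set of naturals is an initial segment -/
private lemma g1_mem_iff {T : Finset ℕ} (hT : ∀ a ∈ T, ∀ b ≤ a, b ∈ T) (a : ℕ) :
    a ∈ T ↔ a < T.card := by
  have hsub : T ⊆ range T.card := by
    intro x hx
    have h1 : range (x + 1) ⊆ T := by
      intro y hy
      exact hT x hx y (by have := mem_range.1 hy; omega)
    have h2 := card_le_card h1
    rw [card_range] at h2
    exact mem_range.2 (by omega)
  have heq : T = range T.card := eq_of_subset_of_card_le hsub (by rw [card_range])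
  constructor
  · intro h
    exact mem_range.1 (hsub h)
  · intro h
    rw [heq]
    exact mem_range.2 h

/-- height of the column `i` -/
private def g1h (r : Finset (ℕ × ℕ)) (i : ℕ) : ℕ := (r.filter (fun e => e.1 = i)).card

private lemma g1_mem {r : Finset (ℕ × ℕ)} (hlo : Lo r) (i j : ℕ) :
    (i, j) ∈ r ↔ j < g1h r i := by
  have h1 : g1h r i = ((range r.card).filter (fun j => (i, j) ∈ r)).card := by
    unfold g1h
    have h2 : r.filter (fun e => e.1 = i) =
        ((range r.card).filter (fun j => (i, j) ∈ r)).image (fun j => (i, j)) := by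
      ext ⟨a, b⟩
      simp only [mem_filter, mem_image, mem_range, Prod.mk.injEq]
      constructor
      · rintro ⟨h3, rfl⟩
        exact ⟨b, ⟨(lt_of_mem hlo h3).2, h3⟩, rfl, rfl⟩
      · rintro ⟨b', ⟨_, h3⟩, rfl, rfl⟩
        exact ⟨h3, rfl⟩
    rw [h2, card_image_of_injective _ (fun a b hab => (Prod.mk.inj hab).2)]
  rw [h1, ← g1_mem_iff (T := (range r.card).filter (fun j => (i, j) ∈ r)), mem_filter, mem_range]
  · constructor
    · exact fun h => ⟨(lt_of_mem hlo h).2, h⟩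
    · exact fun h => h.2
  · intro a ha b hb
    rw [mem_filter, mem_range] at ha ⊢
    exact ⟨by omega, hlo i a i b ha.2 le_rfl hb⟩

private lemma g1_anti {r : Finset (ℕ × ℕ)} (hlo : Lo r) {i i' : ℕ} (h : i' ≤ i) :
    g1h r i ≤ g1h r i' := by
  by_contra hc
  have h1 : (i, g1h r i') ∈ r := (g1_mem hlo _ _).2 (by omega)
  have h2 := hlo _ _ i' (g1h r i') h1 h le_rfl
  rw [g1_mem hlo] at h2
  omega

private lemma g1_zero {r : Finset (ℕ × ℕ)} (hlo : Lo r) {i : ℕ} (h : r.card ≤ i) :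
    g1h r i = 0 := by
  by_contra hc
  have h1 : (i, 0) ∈ r := (g1_mem hlo _ _).2 (by omega)
  have h2 := (lt_of_mem hlo h1).1
  simp only at h2
  omega

private lemma g1_sum {r : Finset (ℕ × ℕ)} (hlo : Lo r) {N : ℕ} (h : r.card ≤ N) :
    ∑ i ∈ range N, g1h r i = r.card := by
  unfold g1h
  rw [← card_eq_sum_card_fiberwise]
  intro e he
  have := (lt_of_mem hlo (mem_coe.1 he)).1
  exact mem_coe.2 (mem_range.2 (by omega))

private lemma g1_le {r : Finset (ℕ × ℕ)} (i : ℕ) : g1h r i ≤ r.card := card_filter_le _ _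

private lemma g1_bet (N : ℕ) (r : Finset (ℕ × ℕ)) :
    bet N r = (range N).image (fun i => g1h r i + (N - 1 - i)) := rfl

private lemma g1_strict {r : Finset (ℕ × ℕ)} (hlo : Lo r) {N i i' : ℕ} (h : i' < i) (hi : i < N) :
    g1h r i + (N - 1 - i) < g1h r i' + (N - 1 - i') := by
  have := g1_anti hlo h.le
  omega

private lemma g1_injOn {r : Finset (ℕ × ℕ)} (hlo : Lo r) (N : ℕ) :
    Set.InjOn (fun i => g1h r i + (N - 1 - i)) (range N : Set ℕ) := by
  intro a ha b hb hab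
  have ha' := mem_range.1 (mem_coe.1 ha)
  have hb' := mem_range.1 (mem_coe.1 hb)
  simp only at hab
  rcases lt_trichotomy a b with h | h | h
  · have := g1_strict hlo (N := N) h hb'
    omega
  · exact h
  · have := g1_strict hlo (N := N) h ha'
    omega

private lemma g1_maps {N n : ℕ} (h : n ≤ N) {r : Finset (ℕ × ℕ)} (hr : r ∈ dg n) :
    bet N r ∈ bs N n := by
  obtain ⟨hlo, hcard⟩ := mem_dg.1 hr
  unfold bs
  rw [mem_filter, mem_powersetCard, g1_bet]
  refine ⟨⟨?_, ?_⟩, ?_⟩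
  · intro x hx
    rw [mem_image] at hx
    obtain ⟨i, hi, rfl⟩ := hx
    have h1 := mem_range.1 hi
    have h2 := g1_le (r := r) i
    rw [mem_range]
    omega
  · rw [card_image_of_injOn (g1_injOn hlo N), card_range]
  · rw [sum_image (g1_injOn hlo N), sum_add_distrib, g1_sum hlo (by omega), hcard,
      sum_range_reflect (fun i => i) N]

private lemma g1_inj {N n : ℕ} (h : n ≤ N) {r r' : Finset (ℕ × ℕ)} (hr : r ∈ dg n)
    (hr' : r' ∈ dg n) (hb : bet N r = bet N r') : r = r' := by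
  obtain ⟨hlo, hcard⟩ := mem_dg.1 hr
  obtain ⟨hlo', hcard'⟩ := mem_dg.1 hr'
  have hB := g1_maps h hr
  unfold bs at hB
  rw [mem_filter, mem_powersetCard] at hB
  have hBc : (bet N r).card = N := hB.1.2
  -- the increasing enumerations
  have key : ∀ {s : Finset (ℕ × ℕ)}, Lo s → bet N s = bet N r → ∀ k : Fin N,
      g1h s (N - 1 - k) + (k : ℕ) = (bet N r).orderEmbOfFin hBc k := by
    intro s hs hsb k
    have h1 : StrictMono (fun k : Fin N => g1h s (N - 1 - k) + (k : ℕ)) := by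
      intro a b hab
      have hab' : (a : ℕ) < b := hab
      have ha := a.2
      have hb := b.2
      have := g1_anti hs (i := N - 1 - a) (i' := N - 1 - b) (by omega)
      simp only
      omega
    have h2 : ∀ k : Fin N, g1h s (N - 1 - k) + (k : ℕ) ∈ bet N r := by
      intro k
      rw [← hsb, g1_bet, mem_image]
      have hk := k.2
      refine ⟨N - 1 - k, mem_range.2 (by omega), ?_⟩
      omega
    have h3 := Finset.orderEmbOfFin_unique hBc h2 h1
    exact congrFun h3 k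
  have hcol : ∀ i, g1h r i = g1h r' i := by
    intro i
    by_cases hi : i < N
    · have h1 := key hlo rfl ⟨N - 1 - i, by omega⟩
      have h2 := key hlo' hb.symm ⟨N - 1 - i, by omega⟩
      rw [← h2] at h1
      simp only at h1
      have e : N - 1 - (N - 1 - i) = i := by omega
      rw [e] at h1
      omega
    · rw [g1_zero hlo (by omega), g1_zero hlo' (by omega)]
  ext ⟨i, j⟩
  rw [g1_mem hlo, g1_mem hlo', hcol]

private lemma g1_surj {N n : ℕ} {B : Finset ℕ} (hB : B ∈ bs N n) :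
    ∃ r ∈ dg n, bet N r = B := by
  unfold bs at hB
  rw [mem_filter, mem_powersetCard] at hB
  obtain ⟨⟨hBs, hBc⟩, hBsum⟩ := hB
  set e : ℕ → ℕ := fun k => if h : k < N then B.orderEmbOfFin hBc ⟨k, h⟩ else N + n + k with he
  have heB : ∀ k, k < N → e k ∈ B := by
    intro k hk
    rw [he]
    simp only [dif_pos hk]
    exact orderEmbOfFin_mem _ _ _
  have helt : ∀ k, k < N → e k < N + n := fun k hk => mem_range.1 (hBs (heB k hk))
  have hmono : StrictMono e := by
    intro a b hab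
    by_cases hb : b < N
    · have ha : a < N := by omega
      rw [he]
      simp only [dif_pos ha, dif_pos hb]
      exact (B.orderEmbOfFin hBc).strictMono (by exact hab)
    · by_cases ha : a < N
      · have h1 := helt a ha
        have h2 : e b = N + n + b := by rw [he]; simp only [dif_neg hb]
        omega
      · have h1 : e a = N + n + a := by rw [he]; simp only [dif_neg ha]
        have h2 : e b = N + n + b := by rw [he]; simp only [dif_neg hb]
        omega
  have hid : ∀ k, k ≤ e k := fun k => hmono.le_apply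
  have himg : (range N).image e = B := by
    refine eq_of_subset_of_card_le ?_ ?_
    · intro x hx
      rw [mem_image] at hx
      obtain ⟨k, hk, rfl⟩ := hx
      exact heB k (mem_range.1 hk)
    · rw [card_image_of_injective _ hmono.injective, card_range, hBc]
  set H : ℕ → ℕ := fun i => e (N - 1 - i) - (N - 1 - i) with hH
  have hHanti : ∀ i i', i' ≤ i → i < N → H i ≤ H i' := by
    intro i i' h hi
    have h1 := hmono.add_le_nat (N - 1 - i' - (N - 1 - i)) (N - 1 - i)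
    have h2 : N - 1 - i' - (N - 1 - i) + (N - 1 - i) = N - 1 - i' := by omega
    rw [h2] at h1
    have h3 := hid (N - 1 - i)
    have h4 := hid (N - 1 - i')
    simp only [hH]
    omega
  set r : Finset (ℕ × ℕ) := (range N ×ˢ range (N + n)).filter (fun x => x.2 < H x.1) with hr
  have hmem : ∀ i j, (i, j) ∈ r ↔ i < N ∧ j < H i := by
    intro i j
    rw [hr, mem_filter, mem_product, mem_range, mem_range]
    simp only
    constructor
    · exact fun h => ⟨h.1.1, h.2⟩
    · intro h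
      have h1 := helt (N - 1 - i) (by omega)
      have h2 : H i ≤ e (N - 1 - i) := Nat.sub_le _ _
      exact ⟨⟨h.1, by omega⟩, h.2⟩
  have hlo : Lo r := by
    intro i j i' j' h hi hj
    rw [hmem] at h ⊢
    have := hHanti i i' hi h.1
    exact ⟨by omega, by omega⟩
  have hcol : ∀ i, i < N → g1h r i = H i := by
    intro i hi
    have h1 : ∀ j, j < g1h r i ↔ j < H i := by
      intro j
      rw [← g1_mem hlo, hmem]
      exact ⟨fun h => h.2, fun h => ⟨hi, h⟩⟩
    have h2 := h1 (H i)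
    have h3 := h1 (g1h r i)
    omega
  have hcard : r.card = n := by
    have h1 : r.card = ∑ i ∈ range N, g1h r i := by
      unfold g1h
      rw [← card_eq_sum_card_fiberwise]
      rintro ⟨i, j⟩ hx
      exact mem_coe.2 (mem_range.2 ((hmem i j).1 (mem_coe.1 hx)).1)
    have h2 : ∑ i ∈ range N, g1h r i = ∑ k ∈ range N, (e k - k) := by
      rw [← sum_range_reflect (fun k => e k - k) N]
      refine sum_congr rfl (fun i hi => ?_)
      rw [hcol i (mem_range.1 hi)]
    have h3 : ∑ k ∈ range N, (e k - k) + ∑ k ∈ range N, k = ∑ k ∈ range N, e k := by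
      rw [← sum_add_distrib]
      refine sum_congr rfl (fun k _ => ?_)
      have := hid k
      omega
    have h4 : ∑ k ∈ range N, e k = ∑ b ∈ B, b := by
      rw [← himg, sum_image (fun a _ b _ hab => hmono.injective hab)]
    omega
  refine ⟨r, mem_dg.2 ⟨hlo, hcard⟩, ?_⟩
  rw [g1_bet, ← himg]
  ext x
  rw [mem_image, mem_image]
  constructor
  · rintro ⟨i, hi, rfl⟩
    have hi' := mem_range.1 hi
    refine ⟨N - 1 - i, mem_range.2 (by omega), ?_⟩
    have h1 := hid (N - 1 - i)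
    rw [hcol i hi']
    simp only [hH]
    omega
  · rintro ⟨k, hk, rfl⟩
    have hk' := mem_range.1 hk
    refine ⟨N - 1 - k, mem_range.2 (by omega), ?_⟩
    have h1 := hid k
    have e1 : N - 1 - (N - 1 - k) = k := by omega
    rw [hcol _ (by omega)]
    simp only [hH]
    rw [e1]
    omega

theorem sum_bet {M : Type*} [AddCommMonoid M] {N n : ℕ} (h : n ≤ N) (Φ : Finset ℕ → M) :
    ∑ r ∈ dg n, Φ (bet N r) = ∑ B ∈ bs N n, Φ B := by
  refine sum_bij (fun r _ => bet N r) (fun r hr => g1_maps h hr)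
    (fun r hr r' hr' hb => g1_inj h hr hr' hb) (fun B hB => ?_) (fun _ _ => rfl)
  obtain ⟨r, hr, hb⟩ := g1_surj hB
  exact ⟨r, hr, hb⟩

end MPa7fa83.Cs
end

section

/-!
# G3: hooks in terms of the beta set

The hook lengths of the column `i` of `r` are the numbers `b_i - b'`, `b_i = h_i + (N - 1 - i)`,
`0 ≤ b' < b_i`, `b'` not in the beta set: the box `(i, j)` has
`arm = #{i' > i : h_{i'} > j}`, `leg = h_i - 1 - j`, and `b_i - (arm + leg + 1)` is
`j + N - 1 - i - arm`, which is not in the beta set; the values for `j < h_i` are distinct, and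
their number is the number of the missing `b' < b_i`.
-/

set_option autoImplicit false

namespace MPa7fa83.Cs

open Finset

private theorem G3_lower (S : Finset ℕ) (hS : ∀ a ∈ S, ∀ b, b ≤ a → b ∈ S) (a : ℕ) :
    a ∈ S ↔ a < S.card := by
  rcases S.eq_empty_or_nonempty with rfl | hne
  · simp
  · have h1 : S = range (S.max' hne + 1) := by
      ext x
      rw [Finset.mem_range]
      constructor
      · intro hx
        have := S.le_max' x hx
        omega
      · intro hx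
        exact hS _ (S.max'_mem hne) x (by omega)
    have h2 : S.card = S.max' hne + 1 := by
      conv_lhs => rw [h1]
      rw [Finset.card_range]
    constructor
    · intro ha
      have := S.le_max' a ha
      omega
    · intro ha
      exact hS _ (S.max'_mem hne) a (by omega)

/-- column heights -/
private def G3_H (r : Finset (ℕ × ℕ)) (i : ℕ) : ℕ := (r.filter (fun e => e.1 = i)).card

/-- row lengths -/
private def G3_R (r : Finset (ℕ × ℕ)) (j : ℕ) : ℕ := (r.filter (fun e => e.2 = j)).card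

private theorem G3_memH {r : Finset (ℕ × ℕ)} (hr : Lo r) (i j : ℕ) : (i, j) ∈ r ↔ j < G3_H r i := by
  have h1 : G3_H r i = ((r.filter (fun e => e.1 = i)).image Prod.snd).card := by
    unfold G3_H
    rw [Finset.card_image_of_injOn]
    intro x hx y hy hxy
    have hx' := (Finset.mem_filter.mp hx).2
    have hy' := (Finset.mem_filter.mp hy).2
    exact Prod.ext (hx'.trans hy'.symm) hxy
  rw [h1, ← G3_lower]
  · constructor
    · intro h
      exact Finset.mem_image.mpr ⟨(i, j), Finset.mem_filter.mpr ⟨h, rfl⟩, rfl⟩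
    · intro h
      obtain ⟨x, hx, hxj⟩ := Finset.mem_image.mp h
      obtain ⟨hx1, hx2⟩ := Finset.mem_filter.mp hx
      have : x = (i, j) := Prod.ext hx2 hxj
      rwa [this] at hx1
  · intro a ha b hb
    obtain ⟨x, hx, hxj⟩ := Finset.mem_image.mp ha
    obtain ⟨hx1, hx2⟩ := Finset.mem_filter.mp hx
    have hxe : x = (i, a) := Prod.ext hx2 hxj
    rw [hxe] at hx1
    exact Finset.mem_image.mpr ⟨(i, b), Finset.mem_filter.mpr ⟨hr i a i b hx1 le_rfl hb, rfl⟩, rfl⟩

private theorem G3_memR {r : Finset (ℕ × ℕ)} (hr : Lo r) (i j : ℕ) : (i, j) ∈ r ↔ i < G3_R r j := by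
  have h1 : G3_R r j = ((r.filter (fun e => e.2 = j)).image Prod.fst).card := by
    unfold G3_R
    rw [Finset.card_image_of_injOn]
    intro x hx y hy hxy
    have hx' := (Finset.mem_filter.mp hx).2
    have hy' := (Finset.mem_filter.mp hy).2
    exact Prod.ext hxy (hx'.trans hy'.symm)
  rw [h1, ← G3_lower]
  · constructor
    · intro h
      exact Finset.mem_image.mpr ⟨(i, j), Finset.mem_filter.mpr ⟨h, rfl⟩, rfl⟩
    · intro h
      obtain ⟨x, hx, hxj⟩ := Finset.mem_image.mp h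
      obtain ⟨hx1, hx2⟩ := Finset.mem_filter.mp hx
      have : x = (i, j) := Prod.ext hxj hx2
      rwa [this] at hx1
  · intro a ha b hb
    obtain ⟨x, hx, hxj⟩ := Finset.mem_image.mp ha
    obtain ⟨hx1, hx2⟩ := Finset.mem_filter.mp hx
    have hxe : x = (a, j) := Prod.ext hxj hx2
    rw [hxe] at hx1
    exact Finset.mem_image.mpr ⟨(b, j), Finset.mem_filter.mpr ⟨hr a j b j hx1 hb le_rfl, rfl⟩, rfl⟩

private theorem G3_arm {r : Finset (ℕ × ℕ)} (hr : Lo r) (i j : ℕ) :
    arm r (i, j) = G3_R r j - (i + 1) := by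
  have h1 : r.filter (fun f => f.2 = j ∧ i < f.1) = (Ico (i + 1) (G3_R r j)).image (fun a => (a, j)) := by
    ext x
    obtain ⟨x1, x2⟩ := x
    simp only [Finset.mem_filter, Finset.mem_image, Finset.mem_Ico, Prod.mk.injEq]
    constructor
    · rintro ⟨hx, rfl, hlt⟩
      exact ⟨x1, ⟨hlt, (G3_memR hr x1 x2).mp hx⟩, rfl, rfl⟩
    · rintro ⟨a, ⟨ha1, ha2⟩, rfl, rfl⟩
      exact ⟨(G3_memR hr a j).mpr ha2, rfl, ha1⟩
  have h2 : arm r (i, j) = (r.filter (fun f => f.2 = j ∧ i < f.1)).card := rfl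
  rw [h2, h1, Finset.card_image_of_injective _ (fun a b hab => (Prod.mk.inj hab).1), Nat.card_Ico]

private theorem G3_leg {r : Finset (ℕ × ℕ)} (hr : Lo r) (i j : ℕ) :
    leg r (i, j) = G3_H r i - (j + 1) := by
  have h1 : r.filter (fun f => f.1 = i ∧ j < f.2) = (Ico (j + 1) (G3_H r i)).image (fun a => (i, a)) := by
    ext x
    obtain ⟨x1, x2⟩ := x
    simp only [Finset.mem_filter, Finset.mem_image, Finset.mem_Ico, Prod.mk.injEq]
    constructor
    · rintro ⟨hx, rfl, hlt⟩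
      exact ⟨x2, ⟨hlt, (G3_memH hr x1 x2).mp hx⟩, rfl, rfl⟩
    · rintro ⟨a, ⟨ha1, ha2⟩, rfl, rfl⟩
      exact ⟨(G3_memH hr i a).mpr ha2, rfl, ha1⟩
  have h2 : leg r (i, j) = (r.filter (fun f => f.1 = i ∧ j < f.2)).card := rfl
  rw [h2, h1, Finset.card_image_of_injective _ (fun a b hab => (Prod.mk.inj hab).2), Nat.card_Ico]

private theorem G3_antiH {r : Finset (ℕ × ℕ)} (hr : Lo r) {i i' : ℕ} (h : i ≤ i') :
    G3_H r i' ≤ G3_H r i := by
  by_contra hc
  have h1 : (i', G3_H r i) ∈ r := (G3_memH hr i' _).mpr (by omega)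
  have h2 := (G3_memH hr i _).mp (hr i' _ i _ h1 h le_rfl)
  omega

private theorem G3_antiR {r : Finset (ℕ × ℕ)} (hr : Lo r) {j j' : ℕ} (h : j ≤ j') :
    G3_R r j' ≤ G3_R r j := by
  by_contra hc
  have h1 : (G3_R r j, j') ∈ r := (G3_memR hr _ j').mpr (by omega)
  have h2 := (G3_memR hr _ j).mp (hr _ j' _ j h1 le_rfl h)
  omega

private theorem G3_membet {N : ℕ} {r : Finset (ℕ × ℕ)} (b : ℕ) :
    b ∈ bet N r ↔ ∃ i, i < N ∧ G3_H r i + (N - 1 - i) = b := by
  unfold bet
  rw [Finset.mem_image]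
  constructor
  · rintro ⟨i, hi, h⟩
    exact ⟨i, Finset.mem_range.mp hi, h⟩
  · rintro ⟨i, hi, h⟩
    exact ⟨i, Finset.mem_range.mpr hi, h⟩

theorem hk_bet {N : ℕ} {r : Finset (ℕ × ℕ)} (hr : Lo r) (hN : r.card ≤ N) {h : ℕ} (hh : 1 ≤ h) :
    hk h r = ((bet N r).filter (fun b => h ≤ b ∧ b - h ∉ bet N r)).card := by
  have hRN : ∀ j, G3_R r j ≤ N := fun j => (Finset.card_filter_le _ _).trans hN
  have hiN : ∀ i j, (i, j) ∈ r → i < N := by
    intro i j hij
    have := (G3_memR hr i j).mp hij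
    have := hRN j
    omega
  -- the hook equation
  have hook : ∀ i j, (i, j) ∈ r →
      (arm r (i, j) + leg r (i, j) + 1 = h ↔ G3_R r j + G3_H r i = h + i + j + 1) := by
    intro i j hij
    have h1 := (G3_memR hr i j).mp hij
    have h2 := (G3_memH hr i j).mp hij
    rw [G3_arm hr, G3_leg hr]
    omega
  unfold hk
  refine Finset.card_nbij (fun e => G3_H r e.1 + (N - 1 - e.1)) ?_ ?_ ?_
  · rintro ⟨i, j⟩ he
    rw [Finset.mem_coe] at he
    obtain ⟨hij, hhk⟩ := Finset.mem_filter.mp he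
    have hhk' := (hook i j hij).mp hhk
    have h1 := (G3_memR hr i j).mp hij
    have h2 := (G3_memH hr i j).mp hij
    have h3 := hRN j
    have h4 := hiN i j hij
    simp only [Finset.coe_filter, Set.mem_ofPred_eq]
    refine ⟨(G3_membet _).mpr ⟨i, h4, rfl⟩, by omega, ?_⟩
    intro hmem
    obtain ⟨i', hi', heq⟩ := (G3_membet _).mp hmem
    by_cases hc : i' < G3_R r j
    · have h5 := (G3_memH hr i' j).mp ((G3_memR hr i' j).mpr hc)
      omega
    · have h5 : ¬ j < G3_H r i' := fun hlt => hc ((G3_memR hr i' j).mp ((G3_memH hr i' j).mpr hlt))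
      omega
  · rintro ⟨i, j⟩ he ⟨i', j'⟩ he' heq
    rw [Finset.mem_coe] at he he'
    obtain ⟨hij, hhk⟩ := Finset.mem_filter.mp he
    obtain ⟨hij', hhk'⟩ := Finset.mem_filter.mp he'
    have e1 := (hook i j hij).mp hhk
    have e2 := (hook i' j' hij').mp hhk'
    have h4 := hiN i j hij
    have h4' := hiN i' j' hij'
    simp only at heq
    have hi : i = i' := by
      rcases lt_trichotomy i i' with hlt | heq' | hgt
      · have := G3_antiH hr hlt.le
        omega
      · exact heq'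
      · have := G3_antiH hr hgt.le
        omega
    subst hi
    have hj : j = j' := by
      rcases lt_trichotomy j j' with hlt | heq' | hgt
      · have := G3_antiR hr hlt.le
        omega
      · exact heq'
      · have := G3_antiR hr hgt.le
        omega
    rw [hj]
  · intro b hb
    rw [Finset.mem_coe] at hb
    obtain ⟨hb1, hb2, hb3⟩ := Finset.mem_filter.mp hb
    obtain ⟨i, hi, hib⟩ := (G3_membet _).mp hb1
    have hv : ∀ i', i' < N → G3_H r i' + (N - 1 - i') ≠ b - h := fun i' hi' heq =>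
      hb3 ((G3_membet _).mpr ⟨i', hi', heq⟩)
    obtain ⟨s, hs⟩ : ∃ s : ℕ, ∀ i', (i' < N ∧ b - h < G3_H r i' + (N - 1 - i')) ↔ i' < s := by
      refine ⟨((range N).filter (fun i' => b - h < G3_H r i' + (N - 1 - i'))).card, fun i' => ?_⟩
      rw [← G3_lower, Finset.mem_filter, Finset.mem_range]
      intro a ha c hc
      obtain ⟨ha1, ha2⟩ := Finset.mem_filter.mp ha
      rw [Finset.mem_range] at ha1
      refine Finset.mem_filter.mpr ⟨Finset.mem_range.mpr (by omega), ?_⟩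
      have := G3_antiH hr hc
      omega
    have his : i < s := (hs i).mp ⟨hi, by omega⟩
    have hsN : s ≤ N := by
      by_contra hc
      have := ((hs N).mpr (by omega)).1
      omega
    have hs1 : s < N → G3_H r s + (N - 1 - s) < b - h := by
      intro hlt
      have h1 : ¬ (b - h < G3_H r s + (N - 1 - s)) := fun hc => by
        have := (hs s).mp ⟨hlt, hc⟩
        omega
      have h2 := hv s hlt
      omega
    have hNv : N ≤ b - h + s := by
      by_cases hlt : s < N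
      · have := hs1 hlt
        omega
      · omega
    have hs2 := ((hs (s - 1)).mpr (by omega)).2
    obtain ⟨j, hj⟩ : ∃ j, j = b - h + s - N := ⟨_, rfl⟩
    have hR1 : s ≤ G3_R r j := by
      have h1 : (s - 1, j) ∈ r := (G3_memH hr _ _).mpr (by omega)
      have := (G3_memR hr _ _).mp h1
      omega
    have hR2 : G3_R r j ≤ s := by
      by_contra hc
      have h1 : (s, j) ∈ r := (G3_memR hr _ _).mpr (by omega)
      have h2 := (G3_memH hr _ _).mp h1
      have h3 := hRN j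
      have h4 := hs1 (by omega)
      omega
    have hij : (i, j) ∈ r := (G3_memR hr _ _).mpr (by omega)
    refine ⟨(i, j), ?_, ?_⟩
    · rw [Finset.mem_coe]
      refine Finset.mem_filter.mpr ⟨hij, (hook i j hij).mpr ?_⟩
      omega
    · exact hib

end MPa7fa83.Cs
end

section

/-!
# G4: moving beads

`(B, b) ↦ (B.erase b ∪ {b - h}, b - h)` is a bijection from the pairs `B ∈ bs N (n + h)`, `b ∈ B`,
`h ≤ b`, `b - h ∉ B` to the pairs `B ∈ bs N n`, `b ∈ B`, `b + h ∉ B`.  The statistic `ckB` changes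
by `Db`.
-/

set_option autoImplicit false

namespace MPa7fa83.Cs

open Finset

/-- sum over the removable beads; the argument is the new position -/
def Xs (N n h : ℕ) (Φ : ℕ → Finset ℕ → ℚ) : ℚ :=
  ∑ B ∈ bs N n, ∑ b ∈ B.filter (fun b => h ≤ b ∧ b - h ∉ B), Φ (b - h) B

/-- sum over the addable beads; the argument is the old position -/
def Us (N n h : ℕ) (Φ : ℕ → Finset ℕ → ℚ) : ℚ :=
  ∑ B ∈ bs N n, ∑ b ∈ B.filter (fun b => b + h ∉ B), Φ b B

private theorem G4_low (s : Finset ℕ) : ∑ i ∈ range s.card, i ≤ ∑ x ∈ s, x := by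
  induction s using Finset.induction_on_max with
  | empty => simp
  | insert a s ha ih =>
    have hn : a ∉ s := fun h => lt_irrefl _ (ha a h)
    rw [Finset.card_insert_of_notMem hn, Finset.sum_range_succ, Finset.sum_insert hn]
    have h1 : s.card ≤ a := by
      have h2 : s ⊆ range a := fun x hx => Finset.mem_range.2 (ha x hx)
      simpa using Finset.card_le_card h2
    omega

private theorem G4_mem {N n : ℕ} {B : Finset ℕ} :
    B ∈ bs N n ↔ B.card = N ∧ ∑ b ∈ B, b = n + ∑ i ∈ range N, i := by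
  unfold bs
  rw [Finset.mem_filter, Finset.mem_powersetCard]
  constructor
  · rintro ⟨⟨_, h1⟩, h2⟩
    exact ⟨h1, h2⟩
  · rintro ⟨h1, h2⟩
    refine ⟨⟨fun x hx => ?_, h1⟩, h2⟩
    have h3 := G4_low (B.erase x)
    have h4 : x + ∑ y ∈ B.erase x, y = ∑ y ∈ B, y := Finset.add_sum_erase B (fun y => y) hx
    have h5 : (B.erase x).card + 1 = B.card := Finset.card_erase_add_one hx
    have h6 : ∑ i ∈ range B.card, i = ∑ i ∈ range (B.erase x).card, i + (B.erase x).card := by
      rw [← h5, Finset.sum_range_succ]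
    rw [Finset.mem_range]
    rw [← h1] at h2 ⊢
    omega

private theorem G4_move {B : Finset ℕ} {b c : ℕ} (hb : b ∈ B) (hc : c ∉ B) :
    (insert c (B.erase b)).card = B.card ∧
      ∑ y ∈ insert c (B.erase b), y + b = ∑ y ∈ B, y + c := by
  have hc' : c ∉ B.erase b := fun h => hc (Finset.mem_of_mem_erase h)
  have h4 : b + ∑ y ∈ B.erase b, y = ∑ y ∈ B, y := Finset.add_sum_erase B (fun y => y) hb
  have h5 : (B.erase b).card + 1 = B.card := Finset.card_erase_add_one hb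
  rw [Finset.card_insert_of_notMem hc', Finset.sum_insert hc']
  constructor
  · exact h5
  · omega

theorem X_eq_U (N n h : ℕ) (hh : 1 ≤ h) (Φ : ℕ → Finset ℕ → ℚ) :
    Xs N (n + h) h Φ = Us N n h (fun b B => Φ b (insert (b + h) (B.erase b))) := by
  unfold Xs Us
  rw [Finset.sum_sigma', Finset.sum_sigma']
  refine Finset.sum_bij' (fun p _ => ⟨insert (p.2 - h) (p.1.erase p.2), p.2 - h⟩)
    (fun p _ => ⟨insert (p.2 + h) (p.1.erase p.2), p.2 + h⟩) ?_ ?_ ?_ ?_ ?_
  · rintro ⟨B, b⟩ hp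
    simp only [Finset.mem_sigma, Finset.mem_filter] at hp ⊢
    obtain ⟨hB, hb, hhb, hnb⟩ := hp
    obtain ⟨h1, h2⟩ := G4_mem.1 hB
    obtain ⟨h3, h4⟩ := G4_move hb hnb
    refine ⟨G4_mem.2 ⟨h3.trans h1, by omega⟩, Finset.mem_insert_self _ _, ?_⟩
    rw [Nat.sub_add_cancel hhb, Finset.mem_insert, not_or]
    exact ⟨by omega, Finset.notMem_erase _ _⟩
  · rintro ⟨B, b⟩ hp
    simp only [Finset.mem_sigma, Finset.mem_filter] at hp ⊢
    obtain ⟨hB, hb, hnb⟩ := hp
    obtain ⟨h1, h2⟩ := G4_mem.1 hB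
    obtain ⟨h3, h4⟩ := G4_move hb hnb
    refine ⟨G4_mem.2 ⟨h3.trans h1, by omega⟩, Finset.mem_insert_self _ _, by omega, ?_⟩
    rw [Nat.add_sub_cancel, Finset.mem_insert, not_or]
    exact ⟨by omega, Finset.notMem_erase _ _⟩
  · rintro ⟨B, b⟩ hp
    simp only [Finset.mem_sigma, Finset.mem_filter] at hp
    obtain ⟨hB, hb, hhb, hnb⟩ := hp
    have e : b - h + h = b := Nat.sub_add_cancel hhb
    have e2 : insert b ((insert (b - h) (B.erase b)).erase (b - h)) = B := by
      rw [Finset.erase_insert (fun h' => hnb (Finset.mem_of_mem_erase h')), Finset.insert_erase hb]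
    simp only [e, e2]
  · rintro ⟨B, b⟩ hp
    simp only [Finset.mem_sigma, Finset.mem_filter] at hp
    obtain ⟨hB, hb, hnb⟩ := hp
    have e : b + h - h = b := Nat.add_sub_cancel b h
    have e2 : insert b ((insert (b + h) (B.erase b)).erase (b + h)) = B := by
      rw [Finset.erase_insert (fun h' => hnb (Finset.mem_of_mem_erase h')), Finset.insert_erase hb]
    simp only [e, e2]
  · rintro ⟨B, b⟩ hp
    simp only [Finset.mem_sigma, Finset.mem_filter] at hp
    obtain ⟨hB, hb, hhb, hnb⟩ := hp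
    have e : b - h + h = b := Nat.sub_add_cancel hhb
    have e2 : insert b ((insert (b - h) (B.erase b)).erase (b - h)) = B := by
      rw [Finset.erase_insert (fun h' => hnb (Finset.mem_of_mem_erase h')), Finset.insert_erase hb]
    simp only [e, e2]

theorem X_zero (N n h : ℕ) (hn : n < h) (Φ : ℕ → Finset ℕ → ℚ) : Xs N n h Φ = 0 := by
  unfold Xs
  refine Finset.sum_eq_zero fun B hB => Finset.sum_eq_zero fun b hb => ?_
  exfalso
  rw [Finset.mem_filter] at hb
  obtain ⟨hb, hhb, hnb⟩ := hb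
  obtain ⟨h1, h2⟩ := G4_mem.1 hB
  obtain ⟨h3, h4⟩ := G4_move hb hnb
  have h5 := G4_low (insert (b - h) (B.erase b))
  rw [h3, h1] at h5
  omega

theorem ckB_move (N k h : ℕ) (hh : 1 ≤ h) {B : Finset ℕ} {b : ℕ} (hb : b ∈ B) (hb' : b + h ∉ B) :
    ckB N k (insert (b + h) (B.erase b)) = ckB N k B + Db N h k b := by
  have hc' : b + h ∉ B.erase b := fun h' => hb' (Finset.mem_of_mem_erase h')
  unfold ckB Db
  rw [Finset.sum_insert hc', ← Finset.add_sum_erase B _ hb, Finset.sum_range_add]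
  have e : ∀ i : ℕ, ((((b + i : ℕ) : ℚ)) - ((N : ℚ) - 1)) = (b : ℚ) + i - (N - 1) := by
    intro i
    push_cast
    ring
  simp only [e]
  ring

/-- the difference -/
theorem U_sub_X (N n h : ℕ) (Φ : ℕ → Finset ℕ → ℚ) :
    Us N n h Φ - Xs N n h Φ =
      ∑ B ∈ bs N n, (∑ b ∈ B, Φ b B - ∑ b ∈ B.filter (fun b => h ≤ b), Φ (b - h) B) := by
  unfold Us Xs
  rw [← Finset.sum_sub_distrib]
  refine Finset.sum_congr rfl fun B _ => ?_
  have h1 : ∑ b ∈ B, Φ b B = ∑ b ∈ B.filter (fun b => b + h ∈ B), Φ b B +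
      ∑ b ∈ B.filter (fun b => b + h ∉ B), Φ b B :=
    (Finset.sum_filter_add_sum_filter_not B (fun b => b + h ∈ B) _).symm
  have h2 : ∑ b ∈ B.filter (fun b => h ≤ b), Φ (b - h) B =
      ∑ b ∈ B.filter (fun b => h ≤ b ∧ b - h ∈ B), Φ (b - h) B +
      ∑ b ∈ B.filter (fun b => h ≤ b ∧ b - h ∉ B), Φ (b - h) B := by
    rw [← Finset.sum_filter_add_sum_filter_not (B.filter (fun b => h ≤ b)) (fun b => b - h ∈ B),
      Finset.filter_filter, Finset.filter_filter]
  have h3 : ∑ b ∈ B.filter (fun b => b + h ∈ B), Φ b B =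
      ∑ b ∈ B.filter (fun b => h ≤ b ∧ b - h ∈ B), Φ (b - h) B := by
    refine Finset.sum_bij' (fun b _ => b + h) (fun b _ => b - h) ?_ ?_ ?_ ?_ ?_
    · intro b hb
      rw [Finset.mem_filter] at hb ⊢
      exact ⟨hb.2, by omega, by rw [Nat.add_sub_cancel]; exact hb.1⟩
    · intro b hb
      rw [Finset.mem_filter] at hb ⊢
      exact ⟨hb.2.2, by rw [Nat.sub_add_cancel hb.2.1]; exact hb.1⟩
    · intro b _
      exact Nat.add_sub_cancel b h
    · intro b hb
      rw [Finset.mem_filter] at hb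
      exact Nat.sub_add_cancel hb.2.1
    · intro b _
      show Φ b B = Φ (b + h - h) B
      rw [Nat.add_sub_cancel]
  rw [h1, h2, h3]
  ring

end MPa7fa83.Cs
end

section

/-!
# U1: the uniform measure

This is the theorem proved in `Results/MP_a7fa83_ag/TrivialM.lean` for one fixed point:
the sum over the partitions of a polynomial in the `ch_k` is the sum of `1` times an element of
the span of q-zeta values.  Use `sum_cel`, `EL_mem`, `Bn_mul`, `one_mem_Bn`, `chb_eq`, `chp_mem`,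
`chp_eq_zero`, `bs_bd` (see the lemmas `ch_eq`, `St_mem`, `St_mem_par`, `TP_pow`, `TP_prod` of that
file).  The content of the box `(i, j)` is `l + i a + j b`, i.e. `ch_k` with `t₁ = -a`, `t₂ = -b`.
-/

set_option autoImplicit false

namespace MPa7fa83.Cs

open Finset PowerSeries MPa7fa83.Ok

section

variable {Λ : Type*} [CommRing Λ] [Algebra ℚ Λ] {ok : ℕ → ℕ → Prop}

/-- the span of the statistics of allowed weight -/
private def SB (Λ : Type*) [CommRing Λ] [Algebra ℚ Λ] (ok : ℕ → ℕ → Prop) (n : ℕ) :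
    Submodule Λ (List Bool → Λ) :=
  Submodule.span Λ {f | ∃ m, ok m n ∧ f ∈ Bn Λ m}

private lemma SB_of {m n : ℕ} (h : ok m n) {f : List Bool → Λ} (hf : f ∈ Bn Λ m) :
    f ∈ SB Λ ok n := Submodule.subset_span ⟨m, h, hf⟩

private lemma SB_one (hok : OkRel ok) : (1 : List Bool → Λ) ∈ SB Λ ok 0 :=
  SB_of hok.zero one_mem_Bn

private lemma SB_mul (hok : OkRel ok) {a b : ℕ} {f g : List Bool → Λ} (hf : f ∈ SB Λ ok a)
    (hg : g ∈ SB Λ ok b) : f * g ∈ SB Λ ok (a + b) := by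
  unfold SB at hf
  induction hf using Submodule.span_induction with
  | mem x hx =>
    obtain ⟨m, h1, hx⟩ := hx
    unfold SB at hg
    induction hg using Submodule.span_induction with
    | mem y hy =>
      obtain ⟨m', h2, hy⟩ := hy
      exact SB_of (hok.add h1 h2) (Bn_mul hx hy)
    | zero => rw [mul_zero]; exact zero_mem _
    | add x y _ _ hx hy => rw [mul_add]; exact add_mem hx hy
    | smul c x _ hx => rw [mul_smul_comm]; exact Submodule.smul_mem _ _ hx
  | zero => rw [zero_mul]; exact zero_mem _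
  | add x y _ _ hx hy => rw [add_mul]; exact add_mem hx hy
  | smul c x _ hx => rw [smul_mul_assoc]; exact Submodule.smul_mem _ _ hx

private lemma SB_pow (hok : OkRel ok) {a : ℕ} {f : List Bool → Λ} (hf : f ∈ SB Λ ok a) (n : ℕ) :
    f ^ n ∈ SB Λ ok (n * a) := by
  induction n with
  | zero =>
    rw [pow_zero, Nat.zero_mul]
    exact SB_one hok
  | succ n ih =>
    rw [pow_succ, Nat.succ_mul]
    exact SB_mul hok ih hf

private lemma SB_prod (hok : OkRel ok) {S : ℕ → List Bool → Λ}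
    (hS : ∀ k, S k ∈ SB Λ ok (k + 2)) (u : ℕ → ℕ) (s : Finset ℕ) :
    ∏ k ∈ s, S k ^ u k ∈ SB Λ ok (∑ k ∈ s, u k * (k + 2)) := by
  induction s using Finset.induction_on with
  | empty =>
    rw [Finset.prod_empty, Finset.sum_empty]
    exact SB_one hok
  | insert a s ha ih =>
    rw [Finset.prod_insert ha, Finset.sum_insert ha]
    exact SB_mul hok (SB_pow hok (hS a) (u a)) ih

private lemma SB_EL (hok : OkRel ok) {n : ℕ} {f : List Bool → Λ} (hf : f ∈ SB Λ ok n) :
    ∃ G ∈ qM Λ ok n, EL f = EL 1 * G := by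
  unfold SB at hf
  induction hf using Submodule.span_induction with
  | mem x hx =>
    obtain ⟨m, h, hx⟩ := hx
    exact EL_mem hok h hx
  | zero => exact ⟨0, zero_mem _, by rw [EL_zero, mul_zero]⟩
  | add x y _ _ hx hy =>
    obtain ⟨G, hG, e⟩ := hx
    obtain ⟨G', hG', e'⟩ := hy
    exact ⟨G + G', add_mem hG hG', by rw [EL_add, e, e', mul_add]⟩
  | smul c x _ hx =>
    obtain ⟨G, hG, e⟩ := hx
    exact ⟨c • G, Submodule.smul_mem _ _ hG, by rw [EL_smul, e, mul_smul_comm]⟩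

private lemma chb_SB (p : Bool) {l a b : Λ} (hp : p = true → 2 * l = a + b) (k : ℕ) :
    chb l (-a) (-b) k ∈ SB Λ (okb p) (k + 2) := by
  have e : chb l (-a) (-b) k = ∑ k' ∈ range (k + 1), chp l (-a) (-b) k k' := by
    funext β
    rw [chb_eq, Finset.sum_apply]
  rw [e]
  apply Submodule.sum_mem
  intro k' hk'
  have h1 := Finset.mem_range.1 hk'
  rcases Nat.lt_succ_iff_lt_or_eq.1 h1 with h2 | h2
  · cases p with
    | false =>
      refine SB_of (m := k' + 2) ?_ (chp_mem l (-a) (-b) k k')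
      show k' + 2 ≤ k + 2
      omega
    | true =>
      have h3 : 2 * l = -(-a + -b) := by rw [hp rfl]; ring
      have e : chp l (-a) (-b) k k' = 0 := by
        funext β
        exact chp_eq_zero h3 h2 β
      rw [e]
      exact Submodule.zero_mem _
  · subst h2
    exact SB_of (okb_refl p _) (chp_mem l (-a) (-b) k' k')

private lemma chs_cel (l a b : Λ) (k : ℕ) {n : ℕ} (p : n.Partition) :
    chs l a b k (cel p) = chb l (-a) (-b) k (bd p.parts n) := by
  unfold chb
  rw [bs_bd _ p.parts n n (fun i hi => p.parts_pos hi) (fun i hi => p.le_of_mem_parts hi)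
    (fun i hi => p.le_of_mem_parts hi)]
  unfold chs cel
  rw [Finset.sum_filter, Finset.sum_product]
  apply Finset.sum_congr rfl
  intro i hi
  rw [← Finset.sum_filter]
  refine Finset.sum_congr ?_ ?_
  · ext j
    simp only [Finset.mem_filter, Finset.mem_range]
    refine ⟨fun h => h.2, fun h => ⟨?_, h⟩⟩
    have h1 : (i, j) ∈ cel p := (mem_cel p).2 h
    unfold cel at h1
    exact Finset.mem_range.1 (Finset.mem_product.1 (Finset.mem_filter.1 h1).1).2
  · intro j _
    rw [Algebra.smul_def]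
    unfold cn
    ring

omit [Algebra ℚ Λ] in
private lemma qs_EL {f : List Bool → Λ} {φ : Finset (ℕ × ℕ) → Λ}
    (h : ∀ (n : ℕ) (p : n.Partition), φ (cel p) = f (bd p.parts n)) : qs φ = EL f := by
  ext n
  unfold qs EL
  rw [coeff_mk, coeff_mk, ← sum_cel]
  exact Finset.sum_congr rfl (fun p _ => h n p)

end

theorem uni {Λ : Type*} [CommRing Λ] [Algebra ℚ Λ] (p : Bool) (l a b : Λ)
    (hp : p = true → 2 * l = a + b) (d : ℕ →₀ ℕ) :
    ∃ G ∈ qM Λ (okb p) (wt d), qs (fun s => mon (fun k => chs l a b k s) d) =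
      qs (fun _ => (1 : Λ)) * G := by
  have h1 := SB_EL (okb_rel p)
    (SB_prod (okb_rel p) (fun k => chb_SB (Λ := Λ) p hp k) d d.support)
  obtain ⟨G, hG, e⟩ := h1
  refine ⟨G, hG, ?_⟩
  rw [qs_EL (f := ∏ k ∈ d.support, chb l (-a) (-b) k ^ d k), qs_EL (f := 1), e]
  · intro n q
    rfl
  · intro n q
    rw [Finset.prod_apply]
    unfold mon
    apply Finset.prod_congr rfl
    intro k _
    show chs l a b k (cel q) ^ d k = chb l (-a) (-b) k (bd q.parts n) ^ d k
    rw [chs_cel]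

end MPa7fa83.Cs
end

section

/-!
# G7b: expansion of a product under the shift `x ↦ x + d Dl`

Generators multiply to generators; `x^e` with `x_k` replaced by `x_k + d Dl h k β` (`Dl_mem`) is
`x^e` plus an element of `VV (wt e)`: induction on `e` (`Finsupp.induction` with `single k n`, or on
`num e`).
-/

set_option autoImplicit false

namespace MPa7fa83.Cs

open Finset PowerSeries

private theorem monA (x : ℕ → ℚ) (d e : ℕ →₀ ℕ) : mon x (d + e) = mon x d * mon x e := by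
  unfold mon
  exact Finsupp.prod_add_index' (fun a => pow_zero _) (fun a b c => pow_add _ _ _)

private theorem mon0 (x : ℕ → ℚ) : mon x 0 = 1 := by
  unfold mon
  exact Finsupp.prod_zero_index

private theorem monS (x : ℕ → ℚ) (k : ℕ) : mon x (Finsupp.single k 1) = x k := by
  unfold mon
  have h : (Finsupp.single k 1).prod (fun k n => x k ^ n) = x k ^ 1 :=
    Finsupp.prod_single_index (h := fun k n => x k ^ n) (pow_zero _)
  rw [h, pow_one]

theorem VV_mul {v w : ℕ} {F G : Fn} (hF : F ∈ VV v) (hG : G ∈ VV w) :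
    (fun (d h : ℕ) (β : ℚ) (x : ℕ → ℚ) => F d h β x * G d h β x : Fn) ∈ VV (v + w) := by
  unfold VV at hF
  induction hF using Submodule.span_induction with
  | mem F hF =>
    obtain ⟨n, j, i, e, hn, ⟨m, hm⟩, ⟨k, hk⟩, rfl⟩ := hF
    unfold VV at hG
    induction hG using Submodule.span_induction with
    | mem G hG =>
      obtain ⟨n', j', i', e', hn', ⟨m', hm'⟩, ⟨k', hk'⟩, rfl⟩ := hG
      refine Submodule.subset_span ⟨n + n', j + j', i + i', e + e', by omega, ⟨m + m', by omega⟩,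
        ⟨k + k', ?_⟩, ?_⟩
      · rw [wt_add]
        omega
      · funext d h β x
        rw [monA, pow_add, pow_add, pow_add]
        ring
    | zero =>
      have e0 : (fun (d h : ℕ) (β : ℚ) (x : ℕ → ℚ) =>
          ((d : ℚ) ^ n * (h : ℚ) ^ j * β ^ i * mon x e) * (0 : Fn) d h β x : Fn) = 0 := by
        funext d h β x
        exact mul_zero _
      rw [e0]
      exact Submodule.zero_mem _
    | add G G' _ _ h1 h2 =>
      have e0 : (fun (d h : ℕ) (β : ℚ) (x : ℕ → ℚ) =>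
          ((d : ℚ) ^ n * (h : ℚ) ^ j * β ^ i * mon x e) * (G + G') d h β x : Fn) =
          (fun (d h : ℕ) (β : ℚ) (x : ℕ → ℚ) =>
          ((d : ℚ) ^ n * (h : ℚ) ^ j * β ^ i * mon x e) * G d h β x : Fn) +
          (fun (d h : ℕ) (β : ℚ) (x : ℕ → ℚ) =>
          ((d : ℚ) ^ n * (h : ℚ) ^ j * β ^ i * mon x e) * G' d h β x : Fn) := by
        funext d h β x
        exact mul_add _ _ _
      rw [e0]
      exact Submodule.add_mem _ h1 h2
    | smul c G _ h1 =>
      have e0 : (fun (d h : ℕ) (β : ℚ) (x : ℕ → ℚ) =>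
          ((d : ℚ) ^ n * (h : ℚ) ^ j * β ^ i * mon x e) * (c • G) d h β x : Fn) =
          c • (fun (d h : ℕ) (β : ℚ) (x : ℕ → ℚ) =>
          ((d : ℚ) ^ n * (h : ℚ) ^ j * β ^ i * mon x e) * G d h β x : Fn) := by
        funext d h β x
        exact mul_left_comm _ _ _
      rw [e0]
      exact Submodule.smul_mem _ _ h1
  | zero =>
    have e0 : (fun (d h : ℕ) (β : ℚ) (x : ℕ → ℚ) => (0 : Fn) d h β x * G d h β x : Fn) = 0 := by
      funext d h β x
      exact zero_mul _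
    rw [e0]
    exact Submodule.zero_mem _
  | add F F' _ _ h1 h2 =>
    have e0 : (fun (d h : ℕ) (β : ℚ) (x : ℕ → ℚ) => (F + F') d h β x * G d h β x : Fn) =
        (fun (d h : ℕ) (β : ℚ) (x : ℕ → ℚ) => F d h β x * G d h β x : Fn) +
        (fun (d h : ℕ) (β : ℚ) (x : ℕ → ℚ) => F' d h β x * G d h β x : Fn) := by
      funext d h β x
      exact add_mul _ _ _
    rw [e0]
    exact Submodule.add_mem _ h1 h2
  | smul c F _ h1 =>
    have e0 : (fun (d h : ℕ) (β : ℚ) (x : ℕ → ℚ) => (c • F) d h β x * G d h β x : Fn) =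
        c • (fun (d h : ℕ) (β : ℚ) (x : ℕ → ℚ) => F d h β x * G d h β x : Fn) := by
      funext d h β x
      exact mul_assoc _ _ _
    rw [e0]
    exact Submodule.smul_mem _ _ h1

theorem VV_mul_mon {v : ℕ} {F : Fn} (hF : F ∈ VV v) (e : ℕ →₀ ℕ) :
    (fun (d h : ℕ) (β : ℚ) (x : ℕ → ℚ) => F d h β x * mon x e : Fn) ∈ VV (v + wt e) := by
  unfold VV at hF
  induction hF using Submodule.span_induction with
  | mem F hF =>
    obtain ⟨n, j, i, e', hn, ⟨m, hm⟩, ⟨k, hk⟩, rfl⟩ := hF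
    refine Submodule.subset_span ⟨n, j, i, e' + e, hn, ⟨m, hm⟩, ⟨k, ?_⟩, ?_⟩
    · rw [wt_add]
      omega
    · funext d h β x
      rw [monA]
      ring
  | zero =>
    have e0 : (fun (d h : ℕ) (β : ℚ) (x : ℕ → ℚ) => (0 : Fn) d h β x * mon x e : Fn) = 0 := by
      funext d h β x
      exact zero_mul _
    rw [e0]
    exact Submodule.zero_mem _
  | add F F' _ _ h1 h2 =>
    have e0 : (fun (d h : ℕ) (β : ℚ) (x : ℕ → ℚ) => (F + F') d h β x * mon x e : Fn) =
        (fun (d h : ℕ) (β : ℚ) (x : ℕ → ℚ) => F d h β x * mon x e : Fn) +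
        (fun (d h : ℕ) (β : ℚ) (x : ℕ → ℚ) => F' d h β x * mon x e : Fn) := by
      funext d h β x
      exact add_mul _ _ _
    rw [e0]
    exact Submodule.add_mem _ h1 h2
  | smul c F _ h1 =>
    have e0 : (fun (d h : ℕ) (β : ℚ) (x : ℕ → ℚ) => (c • F) d h β x * mon x e : Fn) =
        c • (fun (d h : ℕ) (β : ℚ) (x : ℕ → ℚ) => F d h β x * mon x e : Fn) := by
      funext d h β x
      exact mul_assoc _ _ _
    rw [e0]
    exact Submodule.smul_mem _ _ h1

private theorem shift_add (f g : ℕ →₀ ℕ)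
    (hf : (fun (d h : ℕ) (β : ℚ) (x : ℕ → ℚ) =>
      mon (fun k => x k + (d : ℚ) * Dl h k β) f - mon x f : Fn) ∈ VV (wt f))
    (hg : (fun (d h : ℕ) (β : ℚ) (x : ℕ → ℚ) =>
      mon (fun k => x k + (d : ℚ) * Dl h k β) g - mon x g : Fn) ∈ VV (wt g)) :
    (fun (d h : ℕ) (β : ℚ) (x : ℕ → ℚ) =>
      mon (fun k => x k + (d : ℚ) * Dl h k β) (f + g) - mon x (f + g) : Fn) ∈ VV (wt (f + g)) := by
  have h1 := VV_mul hf hg
  have h2 := VV_mul_mon hf g
  have h3 := VV_mul_mon hg f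
  rw [add_comm (wt g)] at h3
  rw [wt_add]
  have h4 := Submodule.add_mem _ (Submodule.add_mem _ h1 h2) h3
  refine (congrArg (· ∈ VV (wt f + wt g)) ?_).mp h4
  funext d h β x
  rw [monA, monA]
  simp only [Pi.add_apply]
  ring

theorem shift_mem (e : ℕ →₀ ℕ) :
    (fun (d h : ℕ) (β : ℚ) (x : ℕ → ℚ) => mon (fun k => x k + (d : ℚ) * Dl h k β) e - mon x e : Fn) ∈ VV (wt e) := by
  have hz : (fun (d h : ℕ) (β : ℚ) (x : ℕ → ℚ) =>
      mon (fun k => x k + (d : ℚ) * Dl h k β) 0 - mon x 0 : Fn) ∈ VV (wt 0) := by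
    have e0 : (fun (d h : ℕ) (β : ℚ) (x : ℕ → ℚ) =>
        mon (fun k => x k + (d : ℚ) * Dl h k β) 0 - mon x 0 : Fn) = 0 := by
      funext d h β x
      rw [mon0, mon0]
      exact sub_self _
    rw [e0]
    exact Submodule.zero_mem _
  induction e using Finsupp.induction_linear with
  | zero => exact hz
  | add f g hf hg => exact shift_add f g hf hg
  | single k n =>
    induction n with
    | zero =>
      rw [Finsupp.single_zero]
      exact hz
    | succ n ih =>
      rw [Finsupp.single_add]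
      refine shift_add _ _ ih ?_
      have h1 := Dl_mem k
      rw [wt_single, one_mul]
      refine (congrArg (· ∈ VV (k + 2)) ?_).mp h1
      funext d h β x
      rw [monS, monS]
      ring

end MPa7fa83.Cs
end

section

/-!
# G8: the operator `Y_h` on powers of `β`

`Yh h (β^i) r` is a combination of `h^j`, `j` odd, `j = i + 1 - 2 k`, and of `h^j ck a r`, `j` odd,
`j + (a + 2) = i + 1 - 2 k`: the first sum is a moment; the second difference
`(c + (h+1)/2)^i - (c + (h-1)/2)^i - (c - (h-1)/2)^i + (c - (h+1)/2)^i` is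
`i!` times the coefficient of `σ^i` of `e^{σ c} 4 sinh(σ/2) sinh(σ h/2)`, i.e. it is the second
difference `g(h/2) - g(-h/2)`, `g(t) = (c+t+1/2)^i - (c+t-1/2)^i`: expand in `c`.
-/

set_option autoImplicit false

namespace MPa7fa83.Cs

open Finset PowerSeries

private theorem G8_pairs (n : ℕ) (F : ℕ → ℚ) :
    ∑ j ∈ range (2 * n), F j = ∑ a ∈ range n, (F (2 * a) + F (2 * a + 1)) := by
  induction n with
  | zero => simp
  | succ n ih =>
    rw [show 2 * (n + 1) = 2 * n + 1 + 1 by ring, sum_range_succ, sum_range_succ, ih,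
      sum_range_succ]
    ring

/-- coefficients of the second difference -/
private def G8_e (s j : ℕ) : ℚ :=
  (2⁻¹ : ℚ) ^ s * (1 + (-1) ^ s) * ((s.choose j : ℚ) * (1 - (-1) ^ (s - j)))

private theorem G8_e_ne {s j : ℕ} (h : G8_e s j ≠ 0) : s % 2 = 0 ∧ j % 2 = 1 ∧ j < s := by
  unfold G8_e at h
  have h1 : (1 + (-1 : ℚ) ^ s) ≠ 0 := fun h0 => h (by rw [h0]; ring)
  have h2 : (s.choose j : ℚ) ≠ 0 := fun h0 => h (by rw [h0]; ring)
  have h3 : (1 - (-1 : ℚ) ^ (s - j)) ≠ 0 := fun h0 => h (by rw [h0]; ring)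
  have hjs : j ≤ s := by
    by_contra hcon
    exact h2 (by rw [Nat.choose_eq_zero_of_lt (by omega)]; simp)
  have hs : s % 2 = 0 := by
    rcases Nat.even_or_odd s with he | ho
    · exact Nat.even_iff.1 he
    · exact absurd (by rw [ho.neg_one_pow]; ring) h1
  have hsj : (s - j) % 2 = 1 := by
    rcases Nat.even_or_odd (s - j) with he | ho
    · exact absurd (by rw [he.neg_one_pow]; ring) h3
    · exact Nat.odd_iff.1 ho
  refine ⟨hs, by omega, by omega⟩

private theorem G8_E (s n : ℕ) (hs : s < n) (h : ℚ) :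
    ((h + 1) / 2) ^ s - ((h - 1) / 2) ^ s - (-((h - 1) / 2)) ^ s + (-((h + 1) / 2)) ^ s =
      ∑ j ∈ range n, G8_e s j * h ^ j := by
  have hext : ∑ j ∈ range n, G8_e s j * h ^ j = ∑ j ∈ range (s + 1), G8_e s j * h ^ j := by
    symm
    apply sum_subset
    · intro j hj
      rw [mem_range] at hj ⊢
      omega
    · intro j _ hj
      rw [mem_range] at hj
      by_cases he : G8_e s j = 0
      · rw [he, zero_mul]
      · have := (G8_e_ne he).2.2
        omega
  rw [hext]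
  have h1 : ((h + 1) / 2) ^ s = (2⁻¹ : ℚ) ^ s * ∑ j ∈ range (s + 1), h ^ j * (s.choose j : ℚ) := by
    rw [div_eq_mul_inv, mul_pow, add_pow, mul_comm]
    congr 1
    refine sum_congr rfl fun j _ => ?_
    rw [one_pow, mul_one]
  have h2 : ((h - 1) / 2) ^ s =
      (2⁻¹ : ℚ) ^ s * ∑ j ∈ range (s + 1), h ^ j * (-1) ^ (s - j) * (s.choose j : ℚ) := by
    rw [div_eq_mul_inv, mul_pow, sub_eq_add_neg, add_pow, mul_comm]
  have h3 : (-((h - 1) / 2)) ^ s = (-1) ^ s * ((h - 1) / 2) ^ s := by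
    rw [neg_eq_neg_one_mul, mul_pow]
  have h4 : (-((h + 1) / 2)) ^ s = (-1) ^ s * ((h + 1) / 2) ^ s := by
    rw [neg_eq_neg_one_mul, mul_pow]
  rw [h3, h4]
  have h5 : ((h + 1) / 2) ^ s - ((h - 1) / 2) ^ s - (-1) ^ s * ((h - 1) / 2) ^ s +
      (-1) ^ s * ((h + 1) / 2) ^ s =
      (1 + (-1) ^ s) * (((h + 1) / 2) ^ s - ((h - 1) / 2) ^ s) := by ring
  rw [h5, h1, h2, ← mul_sub, ← sum_sub_distrib, ← mul_assoc, mul_sum]
  refine sum_congr rfl fun j _ => ?_
  unfold G8_e
  ring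

private theorem G8_D (i : ℕ) (h c : ℚ) :
    (c + (h + 1) / 2) ^ i - (c + (h - 1) / 2) ^ i - (c - (h - 1) / 2) ^ i +
      (c - (h + 1) / 2) ^ i =
    ∑ j ∈ range (i + 2), ∑ a ∈ range (i + 2), (i.choose a : ℚ) * G8_e (i - a) j * h ^ j * c ^ a := by
  have hexp : ∀ u : ℚ, (c + u) ^ i = ∑ a ∈ range (i + 2), (i.choose a : ℚ) * c ^ a * u ^ (i - a) := by
    intro u
    rw [sum_range_succ _ (i + 1), Nat.choose_succ_self]
    rw [add_pow]
    simp only [Nat.cast_zero, zero_mul, add_zero]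
    refine sum_congr rfl fun a _ => ?_
    ring
  rw [sum_comm, sub_eq_add_neg c ((h - 1) / 2), sub_eq_add_neg c ((h + 1) / 2), hexp, hexp, hexp,
    hexp, ← sum_sub_distrib, ← sum_sub_distrib, ← sum_add_distrib]
  refine sum_congr rfl fun a _ => ?_
  have hE := G8_E (i - a) (i + 2) (by omega) h
  have h1 : ∑ j ∈ range (i + 2), (i.choose a : ℚ) * G8_e (i - a) j * h ^ j * c ^ a =
      (i.choose a : ℚ) * c ^ a * ∑ j ∈ range (i + 2), G8_e (i - a) j * h ^ j := by
    rw [mul_sum]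
    refine sum_congr rfl fun j _ => ?_
    ring
  rw [h1, ← hE]
  ring

private theorem G8_first (i : ℕ) : ∃ c : ℕ → ℚ,
    (∀ j, c j ≠ 0 → j % 2 = 1 ∧ ∃ k, j + 2 * k = i + 1) ∧
    ∀ h : ℕ, ∑ l ∈ range h, ((1 - (h : ℚ)) / 2 + l) ^ i = ∑ j ∈ range (i + 2), c j * (h : ℚ) ^ j := by
  have hre : ∀ h l : ℕ, (1 - (h : ℚ)) / 2 + l = (l : ℚ) - ((h : ℚ) - 1) / 2 := by
    intro h l
    ring
  rcases Nat.even_or_odd' i with ⟨m, hm | hm⟩
  · subst hm
    obtain ⟨c0, hc0⟩ := moment m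
    refine ⟨fun j => if j % 2 = 1 ∧ j ≤ 2 * m + 1 then c0 (j / 2) else 0, ?_, ?_⟩
    · intro j hj
      have hj' : j % 2 = 1 ∧ j ≤ 2 * m + 1 := by
        by_contra hcon
        exact hj (if_neg hcon)
      exact ⟨hj'.1, (2 * m + 1 - j) / 2, by omega⟩
    · intro h
      simp_rw [hre]
      rw [hc0 h, show 2 * m + 2 = 2 * (m + 1) by ring, G8_pairs]
      refine sum_congr rfl fun a ha => ?_
      rw [mem_range] at ha
      rw [if_neg (by omega), if_pos (by omega), zero_mul, zero_add,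
        show (2 * a + 1) / 2 = a by omega]
  · subst hm
    refine ⟨fun _ => 0, fun j hj => absurd rfl hj, ?_⟩
    intro h
    simp_rw [hre]
    rw [moment_odd m h]
    simp

theorem Yh_pow (i : ℕ) : ∃ (c : ℕ → ℚ) (c' : ℕ → ℕ → ℚ),
    (∀ j, c j ≠ 0 → j % 2 = 1 ∧ ∃ k, j + 2 * k = i + 1) ∧
    (∀ j a, c' j a ≠ 0 → j % 2 = 1 ∧ ∃ k, j + (a + 2) + 2 * k = i + 1) ∧
    ∀ (h : ℕ) (r : Finset (ℕ × ℕ)), Yh h (fun β => β ^ i) r =
      ∑ j ∈ range (i + 2), c j * (h : ℚ) ^ j +
        ∑ j ∈ range (i + 2), ∑ a ∈ range (i + 2), c' j a * (h : ℚ) ^ j * ck a r := by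
  obtain ⟨c, hc, hcs⟩ := G8_first i
  refine ⟨c, fun j a => (a.factorial : ℚ) * ((i.choose a : ℚ) * G8_e (i - a) j), hc, ?_, ?_⟩
  · intro j a hja
    have h1 : (i.choose a : ℚ) ≠ 0 := fun h0 => hja (by simp only [h0]; ring)
    have h2 : G8_e (i - a) j ≠ 0 := fun h0 => hja (by simp only [h0]; ring)
    have hai : a ≤ i := by
      by_contra hcon
      exact h1 (by rw [Nat.choose_eq_zero_of_lt (by omega)]; simp)
    obtain ⟨h3, h4, h5⟩ := G8_e_ne h2
    exact ⟨h4, (i - a - j - 1) / 2, by omega⟩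
  · intro h r
    unfold Yh
    rw [hcs h]
    congr 1
    simp only [G8_D]
    rw [sum_comm]
    refine sum_congr rfl fun j _ => ?_
    rw [sum_comm]
    refine sum_congr rfl fun a _ => ?_
    unfold ck
    rw [← mul_sum, ← mul_sum]
    have hf : (a.factorial : ℚ) ≠ 0 := by exact_mod_cast a.factorial_ne_zero
    field_simp

theorem Yh_add (h : ℕ) (ψ φ : ℚ → ℚ) (r : Finset (ℕ × ℕ)) :
    Yh h (fun β => ψ β + φ β) r = Yh h ψ r + Yh h φ r := by
  unfold Yh
  have h1 : ∑ i ∈ range h, (ψ ((1 - (h : ℚ)) / 2 + i) + φ ((1 - (h : ℚ)) / 2 + i)) =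
      ∑ i ∈ range h, ψ ((1 - (h : ℚ)) / 2 + i) + ∑ i ∈ range h, φ ((1 - (h : ℚ)) / 2 + i) :=
    by rw [← sum_add_distrib]
  have h2 : ∀ F G H : ℕ × ℕ → ℚ, (∀ e, F e = G e + H e) →
      ∑ e ∈ r, F e = ∑ e ∈ r, G e + ∑ e ∈ r, H e := by
    intro F G H hFGH
    rw [← sum_add_distrib]
    exact sum_congr rfl fun e _ => hFGH e
  rw [h1, h2 _ (fun e => ψ (ct e + ((h : ℚ) + 1) / 2) - ψ (ct e + ((h : ℚ) - 1) / 2)
      - ψ (ct e - ((h : ℚ) - 1) / 2) + ψ (ct e - ((h : ℚ) + 1) / 2))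
      (fun e => φ (ct e + ((h : ℚ) + 1) / 2) - φ (ct e + ((h : ℚ) - 1) / 2)
      - φ (ct e - ((h : ℚ) - 1) / 2) + φ (ct e - ((h : ℚ) + 1) / 2)) (fun e => by ring)]
  ring

theorem Yh_smul (h : ℕ) (a : ℚ) (ψ : ℚ → ℚ) (r : Finset (ℕ × ℕ)) :
    Yh h (fun β => a * ψ β) r = a * Yh h ψ r := by
  unfold Yh
  rw [mul_add, mul_sum, mul_sum]
  congr 1
  refine sum_congr rfl fun e _ => ?_
  ring

theorem Yh_const (h : ℕ) (a : ℚ) (r : Finset (ℕ × ℕ)) : Yh h (fun _ => a) r = h * a := by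
  unfold Yh
  simp

end MPa7fa83.Cs
end

section

/-!
# H2: the weight of a diagram of the plane 34 modulo `z³`

With `t1 = - A z`, `t2 = - B z`, `t3 = - m - M z`, `t4 = m + (A + B + M) z` (sum zero) each factor of
`wg t3 t4 t1 r` is `(t1 + W1)(t1 + W2)/(W1 W2) = 1 - t1 t2/(W1 W2)` (as `W1 + W2 = t3 + t4`) and
`W1 W2 = - m² h² + O(z)`, `h = arm + leg + 1`; so `wg t3 t4 t1 r = 1 + (A B/m²) Tm r z² + O(z³)`.
-/

set_option autoImplicit false

namespace MPa7fa83.Cs

open Finset PowerSeries MPa7fa83.Ok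

/-- power series `1 + t z² + O(z³)` -/
private def Q2 {K : Type*} [Field K] (t : K) (f : K⟦X⟧) : Prop :=
  coeff 0 f = 1 ∧ coeff 1 f = 0 ∧ coeff 2 f = t

private lemma Q2_one {K : Type*} [Field K] : Q2 (0 : K) 1 := by
  refine ⟨?_, ?_, ?_⟩ <;> simp [coeff_one]

private lemma Q2_mul {K : Type*} [Field K] {t s : K} {f g : K⟦X⟧} (hf : Q2 t f) (hg : Q2 s g) :
    Q2 (t + s) (f * g) := by
  obtain ⟨f0, f1, f2⟩ := hf
  obtain ⟨g0, g1, g2⟩ := hg
  refine ⟨?_, ?_, ?_⟩
  · rw [coeff_mul, show (Finset.HasAntidiagonal.antidiagonal 0 : Finset (ℕ × ℕ)) = {(0, 0)} from rfl,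
      Finset.sum_singleton, f0, g0, one_mul]
  · rw [coeff_mul, show (Finset.HasAntidiagonal.antidiagonal 1 : Finset (ℕ × ℕ)) =
      {(0, 1), (1, 0)} from rfl, Finset.sum_insert (by simp), Finset.sum_singleton, f1, g1]
    simp
  · rw [coeff_mul, show (Finset.HasAntidiagonal.antidiagonal 2 : Finset (ℕ × ℕ)) =
      {(0, 2), (1, 1), (2, 0)} from rfl, Finset.sum_insert (by simp), Finset.sum_insert (by simp),
      Finset.sum_singleton, f0, f1, f2, g0, g1, g2]
    ring

private lemma factor_exp {K : Type*} [Field K] [CharZero K] (A B M m : K) (hm : m ≠ 0) (p q : ℕ) :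
    ∃ f : K⟦X⟧, Q2 (A * B / m ^ 2 * (((p : K) + q + 1) ^ 2)⁻¹) f ∧
      ((lin 0 (-A) + (((p : LaurentSeries K) + 1) * lin (-m) (-M) -
          (q : LaurentSeries K) * lin m (A + B + M))) *
        (lin 0 (-A) + (((q : LaurentSeries K) + 1) * lin m (A + B + M) -
          (p : LaurentSeries K) * lin (-m) (-M)))) /
        ((((p : LaurentSeries K) + 1) * lin (-m) (-M) -
          (q : LaurentSeries K) * lin m (A + B + M)) *
        (((q : LaurentSeries K) + 1) * lin m (A + B + M) -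
          (p : LaurentSeries K) * lin (-m) (-M))) = HahnSeries.ofPowerSeries ℤ K f := by
  have hlin : ∀ a b : K, lin a b = HahnSeries.ofPowerSeries ℤ K (C a + C b * X) := by
    intro a b
    rw [map_add, map_mul, HahnSeries.ofPowerSeries_C, HahnSeries.ofPowerSeries_C,
      HahnSeries.ofPowerSeries_X, lin, HahnSeries.C_apply, HahnSeries.C_apply,
      HahnSeries.single_mul_single]
    simp
  set P1 : K⟦X⟧ := ((p : K⟦X⟧) + 1) * (C (-m) + C (-M) * X) -
    (q : K⟦X⟧) * (C m + C (A + B + M) * X) with hP1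
  set P2 : K⟦X⟧ := ((q : K⟦X⟧) + 1) * (C m + C (A + B + M) * X) -
    (p : K⟦X⟧) * (C (-m) + C (-M) * X) with hP2
  have hW1 : (((p : LaurentSeries K) + 1) * lin (-m) (-M) -
      (q : LaurentSeries K) * lin m (A + B + M)) = HahnSeries.ofPowerSeries ℤ K P1 := by
    rw [hP1, hlin, hlin, map_sub, map_mul, map_mul (HahnSeries.ofPowerSeries ℤ K) (q : K⟦X⟧),
      map_add (HahnSeries.ofPowerSeries ℤ K) (p : K⟦X⟧), map_natCast, map_natCast, map_one]
  have hW2 : (((q : LaurentSeries K) + 1) * lin m (A + B + M) -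
      (p : LaurentSeries K) * lin (-m) (-M)) = HahnSeries.ofPowerSeries ℤ K P2 := by
    rw [hP2, hlin, hlin, map_sub, map_mul, map_mul (HahnSeries.ofPowerSeries ℤ K) (p : K⟦X⟧),
      map_add (HahnSeries.ofPowerSeries ℤ K) (q : K⟦X⟧), map_natCast, map_natCast, map_one]
  have hc : constantCoeff (P1 * P2) = -(m ^ 2 * ((p : K) + q + 1) ^ 2) := by
    rw [hP1, hP2]
    simp only [map_mul, map_sub, map_add, map_natCast, map_one, constantCoeff_C,
      constantCoeff_X]
    ring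
  have hh : ((p : K) + q + 1) ≠ 0 := by
    have : ((p + q + 1 : ℕ) : K) ≠ 0 := by exact_mod_cast Nat.succ_ne_zero (p + q)
    push_cast at this
    exact this
  have hc0 : constantCoeff (P1 * P2) ≠ 0 := by
    rw [hc]
    exact neg_ne_zero.mpr (mul_ne_zero (pow_ne_zero 2 hm) (pow_ne_zero 2 hh))
  have hinv : P1 * P2 * (P1 * P2)⁻¹ = 1 := PowerSeries.mul_inv_cancel _ hc0
  have hsum : P1 + P2 = C (A + B) * X := by
    rw [hP1, hP2]
    simp only [map_add, map_neg]
    ring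
  refine ⟨1 - C (A * B) * X ^ 2 * (P1 * P2)⁻¹, ⟨?_, ?_, ?_⟩, ?_⟩
  · simp
  · have e1 : C (A * B) * X ^ 2 * (P1 * P2)⁻¹ = C (A * B) * ((P1 * P2)⁻¹ * X ^ 2) := by ring
    rw [e1, map_sub, coeff_C_mul, coeff_mul_X_pow']
    simp [coeff_one]
  · have e1 : C (A * B) * X ^ 2 * (P1 * P2)⁻¹ = C (A * B) * ((P1 * P2)⁻¹ * X ^ 2) := by ring
    rw [e1, map_sub, coeff_C_mul, coeff_mul_X_pow', if_pos le_rfl, Nat.sub_self,
      coeff_zero_eq_constantCoeff_apply, PowerSeries.constantCoeff_inv, hc, coeff_one,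
      if_neg (by norm_num), inv_neg]
    field_simp
    ring
  · rw [hW1, hW2, hlin, ← map_add, ← map_add, ← map_mul, ← map_mul, div_eq_iff, ← map_mul]
    · congr 1
      have e2 : (C 0 + C (-A) * X + P1) * (C 0 + C (-A) * X + P2) =
          C (-A) * X * (C (-A) * X + (P1 + P2)) + P1 * P2 := by
        rw [map_zero]
        ring
      have e3 : (1 - C (A * B) * X ^ 2 * (P1 * P2)⁻¹) * (P1 * P2) =
          P1 * P2 - C (A * B) * X ^ 2 * (P1 * P2 * (P1 * P2)⁻¹) := by
        ring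
      rw [e2, e3, hsum, hinv]
      simp only [map_mul, map_add, map_neg]
      ring
    · intro h0
      apply hc0
      have h1 : P1 * P2 = 0 :=
        HahnSeries.ofPowerSeries_injective (Γ := ℤ) (R := K) (by rw [h0, map_zero])
      rw [h1, map_zero]

theorem wg_exp {K : Type*} [Field K] [CharZero K] (A B M m : K) (hm : m ≠ 0)
    (r : Finset (ℕ × ℕ)) :
    (∀ i < 0, (wg (lin (-m) (-M)) (lin m (A + B + M)) (lin 0 (-A)) r).coeff i = 0) ∧
    (wg (lin (-m) (-M)) (lin m (A + B + M)) (lin 0 (-A)) r).coeff 0 = 1 ∧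
    (wg (lin (-m) (-M)) (lin m (A + B + M)) (lin 0 (-A)) r).coeff 1 = 0 ∧
    (wg (lin (-m) (-M)) (lin m (A + B + M)) (lin 0 (-A)) r).coeff 2 =
      A * B / m ^ 2 * algebraMap ℚ K (Tm r) := by
  have key : ∀ T : Finset (ℕ × ℕ), ∃ f : K⟦X⟧,
      Q2 (∑ e ∈ T, A * B / m ^ 2 * (((arm r e : K) + leg r e + 1) ^ 2)⁻¹) f ∧
      ∏ e ∈ T, ((lin 0 (-A) + W1 (lin (-m) (-M)) (lin m (A + B + M)) r e) *
        (lin 0 (-A) + W2 (lin (-m) (-M)) (lin m (A + B + M)) r e)) /
        (W1 (lin (-m) (-M)) (lin m (A + B + M)) r e * W2 (lin (-m) (-M)) (lin m (A + B + M)) r e) =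
      HahnSeries.ofPowerSeries ℤ K f := by
    intro T
    classical
    induction T using Finset.induction_on with
    | empty => exact ⟨1, by simpa using Q2_one, by simp⟩
    | insert e T he ih =>
      obtain ⟨f, hf, hf'⟩ := ih
      obtain ⟨g, hg, hg'⟩ := factor_exp A B M m hm (arm r e) (leg r e)
      refine ⟨g * f, ?_, ?_⟩
      · rw [Finset.sum_insert he]
        exact Q2_mul hg hf
      · rw [Finset.prod_insert he, hf', map_mul, ← hg']
        rfl
  obtain ⟨f, ⟨f0, f1, f2⟩, hf⟩ := key r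
  have hw : wg (lin (-m) (-M)) (lin m (A + B + M)) (lin 0 (-A)) r =
      HahnSeries.ofPowerSeries ℤ K f := hf
  rw [hw]
  refine ⟨?_, ?_, ?_, ?_⟩
  · intro i hi
    rw [PowerSeries.coeff_coe, if_pos hi]
  · rw [PowerSeries.coeff_coe]
    simpa using f0
  · rw [PowerSeries.coeff_coe]
    simpa using f1
  · rw [PowerSeries.coeff_coe]
    have e1 : A * B / m ^ 2 * algebraMap ℚ K (Tm r) =
        ∑ e ∈ r, A * B / m ^ 2 * (((arm r e : K) + leg r e + 1) ^ 2)⁻¹ := by
      rw [Tm, map_sum, Finset.mul_sum]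
      simp
    rw [e1]
    simpa using f2

end MPa7fa83.Cs
end
end

section

section

/-!
# G2: contents in terms of the beta set

The column `i` has the contents `-i, ..., h_i - 1 - i`, which are the numbers `j - (N - 1)` for
`N - 1 - i ≤ j < h_i + (N - 1 - i)`.
-/

set_option autoImplicit false

namespace MPa7fa83.Cs

open Finset

/-- a finite lower set of natural numbers is an initial segment -/
private lemma lower_eq_range (T : Finset ℕ) (h : ∀ a b : ℕ, b ∈ T → a ≤ b → a ∈ T) :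
    T = range T.card := by
  have hsub : T ⊆ range T.card := by
    intro b hb
    rw [mem_range]
    have h1 : range (b + 1) ⊆ T := by
      intro a ha
      exact h a b hb (by have := mem_range.mp ha; omega)
    have h2 := card_le_card h1
    rw [card_range] at h2
    omega
  exact eq_of_subset_of_card_le hsub (by rw [card_range])

private lemma col_eq {r : Finset (ℕ × ℕ)} (hr : Lo r) (i : ℕ) :
    r.filter (fun e => e.1 = i) =
      (range (r.filter (fun e => e.1 = i)).card).image (fun t => (i, t)) := by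
  set C := r.filter (fun e => e.1 = i) with hC
  have hinj : Set.InjOn Prod.snd (C : Set (ℕ × ℕ)) := by
    intro a ha b hb hab
    rw [mem_coe, hC, mem_filter] at ha hb
    exact Prod.ext (ha.2.trans hb.2.symm) hab
  have hcard : (C.image Prod.snd).card = C.card := card_image_of_injOn hinj
  have hT : C.image Prod.snd = range C.card := by
    rw [← hcard]
    refine lower_eq_range _ ?_
    intro a b hb hab
    rw [mem_image] at hb ⊢
    obtain ⟨e, he, rfl⟩ := hb
    rw [hC, mem_filter] at he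
    refine ⟨(i, a), ?_, rfl⟩
    rw [hC, mem_filter]
    refine ⟨hr e.1 e.2 i a he.1 he.2.ge hab, rfl⟩
  ext ⟨x, y⟩
  rw [mem_image]
  constructor
  · intro he
    have hy : y ∈ C.image Prod.snd := mem_image.mpr ⟨(x, y), he, rfl⟩
    rw [hT] at hy
    have hx : x = i := by
      rw [hC, mem_filter] at he
      exact he.2
    exact ⟨y, hy, by rw [hx]⟩
  · rintro ⟨t, ht, hte⟩
    rw [← hT, mem_image] at ht
    obtain ⟨e, he, het⟩ := ht
    have : e = (x, y) := by
      rw [← hte, ← het]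
      rw [hC, mem_filter] at he
      exact Prod.ext he.2 rfl
    rwa [this] at he

private lemma fst_lt {N : ℕ} {r : Finset (ℕ × ℕ)} (hr : Lo r) (h : r.card ≤ N) {e : ℕ × ℕ}
    (he : e ∈ r) : e.1 < N := by
  have h1 : (range (e.1 + 1)).image (fun i => (i, e.2)) ⊆ r := by
    intro x hx
    rw [mem_image] at hx
    obtain ⟨i, hi, rfl⟩ := hx
    exact hr e.1 e.2 i e.2 he (by have := mem_range.mp hi; omega) le_rfl
  have h2 := card_le_card h1
  rw [card_image_of_injective _ (fun a b hab => (Prod.ext_iff.mp hab).1), card_range] at h2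
  omega

private lemma col_anti {r : Finset (ℕ × ℕ)} (hr : Lo r) {i i' : ℕ} (h : i ≤ i') :
    (r.filter (fun e => e.1 = i')).card ≤ (r.filter (fun e => e.1 = i)).card := by
  refine card_le_card_of_injOn (fun e => (i, e.2)) ?_ ?_
  · intro e he
    rw [mem_coe, mem_filter] at he
    rw [mem_coe, mem_filter]
    exact ⟨hr e.1 e.2 i e.2 he.1 (he.2 ▸ h) le_rfl, rfl⟩
  · intro a ha b hb hab
    rw [mem_coe, mem_filter] at ha hb
    have : a.2 = b.2 := (Prod.ext_iff.mp hab).2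
    exact Prod.ext (ha.2.trans hb.2.symm) this

private lemma sum_bet_eq {M : Type*} [AddCommMonoid M] {N : ℕ} {r : Finset (ℕ × ℕ)} (hr : Lo r)
    (F : ℕ → M) :
    ∑ b ∈ bet N r, F b =
      ∑ i ∈ range N, F ((r.filter (fun e => e.1 = i)).card + (N - 1 - i)) := by
  unfold bet
  rw [sum_image]
  intro a ha b hb hab
  rw [mem_coe, mem_range] at ha hb
  rcases lt_trichotomy a b with hlt | heq | hgt
  · have := col_anti hr hlt.le
    simp only at hab
    omega
  · exact heq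
  · have := col_anti hr hgt.le
    simp only at hab
    omega

theorem sum_ct {N : ℕ} {r : Finset (ℕ × ℕ)} (hr : Lo r) (h : r.card ≤ N) (φ : ℚ → ℚ) :
    ∑ e ∈ r, φ (ct e) = ∑ b ∈ bet N r, ∑ j ∈ range b, φ ((j : ℚ) - (N - 1)) -
      ∑ b ∈ range N, ∑ j ∈ range b, φ ((j : ℚ) - (N - 1)) := by
  rw [sum_bet_eq hr, ← Finset.sum_range_reflect (fun b => ∑ j ∈ range b, φ ((j : ℚ) - (N - 1))) N,
    ← Finset.sum_sub_distrib]
  have h1 : ∑ e ∈ r, φ (ct e) = ∑ i ∈ range N, ∑ e ∈ r.filter (fun e => e.1 = i), φ (ct e) := by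
    rw [Finset.sum_fiberwise_of_maps_to (g := fun e : ℕ × ℕ => e.1)]
    intro e he
    exact mem_range.mpr (fst_lt hr h he)
  rw [h1]
  refine Finset.sum_congr rfl fun i hi => ?_
  have hiN : i < N := mem_range.mp hi
  rw [col_eq hr i, sum_image (by intro a _ b _ hab; exact (Prod.ext_iff.mp hab).2)]
  rw [← col_eq hr i]
  set c := (r.filter (fun e => e.1 = i)).card with hc
  have h2 : ∑ j ∈ range (c + (N - 1 - i)), φ ((j : ℚ) - (N - 1)) =
      ∑ j ∈ range (N - 1 - i), φ ((j : ℚ) - (N - 1)) +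
        ∑ t ∈ range c, φ (((N - 1 - i + t : ℕ) : ℚ) - (N - 1)) := by
    rw [add_comm c, Finset.sum_range_add]
  rw [h2, add_sub_cancel_left]
  refine Finset.sum_congr rfl fun t _ => ?_
  congr 1
  unfold ct
  have h3 : ((N - 1 - i : ℕ) : ℚ) = (N : ℚ) - 1 - i := by
    rw [Nat.sub_sub, Nat.cast_sub (by omega)]
    push_cast
    ring
  push_cast
  rw [h3]
  ring

/-- in particular -/
theorem ck_bet {N : ℕ} {r : Finset (ℕ × ℕ)} (hr : Lo r) (h : r.card ≤ N) (k : ℕ) :
    ck k r = ckB N k (bet N r) := by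
  exact sum_ct hr h (fun x => (k.factorial : ℚ)⁻¹ * x ^ k)

end MPa7fa83.Cs
end

section

/-!
# G5: the operator `Y_h` in terms of the beta set

For `B = bet N r`, `r` a diagram with `n'` boxes, `n' + h ≤ N`, and a function `ψ` of the central
content `β(b) = b - N + (h + 1)/2`:
`∑_{b ∈ B} ψ(β(b)) - ∑_{b ∈ B, b ≥ h} ψ(β(b - h)) = Yh h ψ r`.
Proof: `B` contains `0, ..., h - 1` (the last `N - n'` columns have height zero), so the left side is
`∑_{b ∈ B} (ψ(β(b)) - ψ(β(b - h))) + ∑_{i < h} ψ(β(i - h))` with `β` extended to the integers.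
By induction on `b`, `ψ(β(b)) - ψ(β(b-h))` is a constant plus `∑_{j < b}` of the second difference
at the content `j - (N - 1)`; apply `sum_ct` to this second difference `φ`.  For `r = ∅`
(`B = range N`) the sums telescope to `∑_{b = N-h}^{N-1} ψ(β(b)) = ∑_{i<h} ψ((1-h)/2 + i)`.
-/

set_option autoImplicit false

namespace MPa7fa83.Cs

open Finset

private theorem G5_H_anti {r : Finset (ℕ × ℕ)} (hr : Lo r) {i j : ℕ} (hij : i ≤ j) :
    (r.filter (fun e => e.1 = j)).card ≤ (r.filter (fun e => e.1 = i)).card := by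
  apply card_le_card_of_injOn (fun e => (i, e.2))
  · intro e he
    have he' := mem_filter.1 (mem_coe.1 he)
    exact mem_coe.2 (mem_filter.2 ⟨hr e.1 e.2 i e.2 he'.1 (by rw [he'.2]; exact hij) le_rfl, rfl⟩)
  · intro e he f hf hef
    have he' := mem_filter.1 (mem_coe.1 he)
    have hf' := mem_filter.1 (mem_coe.1 hf)
    have h2 : e.2 = f.2 := (Prod.mk.inj hef).2
    exact Prod.ext (he'.2.trans hf'.2.symm) h2

private theorem G5_H_zero {r : Finset (ℕ × ℕ)} (hr : Lo r) {i : ℕ} (hi : r.card ≤ i) :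
    (r.filter (fun e => e.1 = i)).card = 0 := by
  rw [card_eq_zero, filter_eq_empty_iff]
  intro e he hei
  have h1 : (range (i + 1)).card ≤ r.card := by
    apply card_le_card_of_injOn (fun t => (t, 0))
    · intro t ht
      have ht' := mem_range.1 (mem_coe.1 ht)
      exact mem_coe.2 (hr e.1 e.2 t 0 he (by omega) (Nat.zero_le _))
    · intro a _ b _ hab
      exact (Prod.mk.inj hab).1
  rw [card_range] at h1
  omega

private theorem G5_card {N : ℕ} {r : Finset (ℕ × ℕ)} (hr : Lo r) : (bet N r).card = N := by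
  unfold bet
  rw [card_image_of_injOn, card_range]
  intro i hi j hj hij
  have hi' := mem_range.1 (mem_coe.1 hi)
  have hj' := mem_range.1 (mem_coe.1 hj)
  simp only at hij
  rcases lt_trichotomy i j with h | h | h
  · have := G5_H_anti hr h.le
    omega
  · exact h
  · have := G5_H_anti hr h.le
    omega

private theorem G5_small {N : ℕ} {r : Finset (ℕ × ℕ)} (hr : Lo r) {h : ℕ} (hN : r.card + h ≤ N) :
    (bet N r).filter (fun b => ¬ h ≤ b) = range h := by
  ext b
  rw [mem_filter, mem_range]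
  constructor
  · intro h
    omega
  · intro hb
    refine ⟨?_, by omega⟩
    unfold bet
    rw [mem_image]
    refine ⟨N - 1 - b, mem_range.2 (by omega), ?_⟩
    rw [G5_H_zero hr (by omega)]
    omega

theorem Y_bet {N : ℕ} {r : Finset (ℕ × ℕ)} (hr : Lo r) {h : ℕ} (hN : r.card + h ≤ N)
    (ψ : ℚ → ℚ) :
    ∑ b ∈ bet N r, ψ ((b : ℚ) - N + ((h : ℚ) + 1) / 2) -
      ∑ b ∈ (bet N r).filter (fun b => h ≤ b), ψ (((b - h : ℕ) : ℚ) - N + ((h : ℚ) + 1) / 2) =
    Yh h ψ r := by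
  set Ψ : ℚ → ℚ := fun x => ψ (x - N + ((h : ℚ) + 1) / 2) with hΨ
  set G : ℚ → ℚ := fun x => Ψ x - Ψ (x - h) with hG
  set φ : ℚ → ℚ := fun c => ψ (c + ((h : ℚ) + 1) / 2) - ψ (c + ((h : ℚ) - 1) / 2)
      - ψ (c - ((h : ℚ) - 1) / 2) + ψ (c - ((h : ℚ) + 1) / 2) with hφ
  have hstep : ∀ j : ℕ, φ ((j : ℚ) - (N - 1)) = G ((j + 1 : ℕ) : ℚ) - G (j : ℚ) := by
    intro j
    simp only [hφ, hG, hΨ]
    push_cast
    have a1 : (j : ℚ) - (N - 1) + ((h : ℚ) + 1) / 2 = (j : ℚ) + 1 - N + ((h : ℚ) + 1) / 2 := by ring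
    have a2 : (j : ℚ) - (N - 1) + ((h : ℚ) - 1) / 2 = (j : ℚ) - N + ((h : ℚ) + 1) / 2 := by ring
    have a3 : (j : ℚ) - (N - 1) - ((h : ℚ) - 1) / 2 = (j : ℚ) + 1 - h - N + ((h : ℚ) + 1) / 2 := by
      ring
    have a4 : (j : ℚ) - (N - 1) - ((h : ℚ) + 1) / 2 = (j : ℚ) - h - N + ((h : ℚ) + 1) / 2 := by
      ring
    rw [a1, a2, a3, a4]
    ring
  have hsum : ∀ b : ℕ, ∑ j ∈ range b, φ ((j : ℚ) - (N - 1)) = G (b : ℚ) - G 0 := by
    intro b
    rw [sum_congr rfl fun j _ => hstep j]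
    have := sum_range_sub (fun j : ℕ => G (j : ℚ)) b
    simpa using this
  have hct := sum_ct hr (show r.card ≤ N by omega) φ
  have hx1 : ∑ b ∈ bet N r, ∑ j ∈ range b, φ ((j : ℚ) - (N - 1)) =
      ∑ b ∈ bet N r, G (b : ℚ) - N * G 0 := by
    rw [sum_congr rfl fun b _ => hsum b, sum_sub_distrib (fun b : ℕ => G (b : ℚ)) (fun _ => G 0),
      sum_const, G5_card hr, nsmul_eq_mul]
  have hx2 : ∑ b ∈ range N, ∑ j ∈ range b, φ ((j : ℚ) - (N - 1)) =
      ∑ b ∈ range N, G (b : ℚ) - N * G 0 := by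
    rw [sum_congr rfl fun b _ => hsum b, sum_sub_distrib (fun b : ℕ => G (b : ℚ)) (fun _ => G 0),
      sum_const, card_range, nsmul_eq_mul]
  rw [hx1, hx2] at hct
  have hsplit : ∑ b ∈ bet N r, Ψ ((b : ℚ) - h) =
      ∑ b ∈ (bet N r).filter (fun b => h ≤ b), ψ (((b - h : ℕ) : ℚ) - N + ((h : ℚ) + 1) / 2) +
        ∑ b ∈ range h, Ψ ((b : ℚ) - h) := by
    rw [← sum_filter_add_sum_filter_not (bet N r) (fun b => h ≤ b), G5_small hr hN]
    congr 1
    refine sum_congr rfl fun b hb => ?_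
    have hb' := (mem_filter.1 hb).2
    simp only [hΨ]
    rw [Nat.cast_sub hb']
  obtain ⟨M, rfl⟩ : ∃ M, N = M + h := ⟨N - h, by omega⟩
  have hGsum : ∑ b ∈ bet (M + h) r, G (b : ℚ) =
      ∑ b ∈ bet (M + h) r, Ψ (b : ℚ) - ∑ b ∈ bet (M + h) r, Ψ ((b : ℚ) - h) := by
    rw [← sum_sub_distrib]
  have hGsum2 : ∑ b ∈ range (M + h), G (b : ℚ) =
      ∑ b ∈ range (M + h), Ψ (b : ℚ) - ∑ b ∈ range (M + h), Ψ ((b : ℚ) - h) := by
    rw [← sum_sub_distrib]
  have h1 : ∑ b ∈ range (M + h), Ψ (b : ℚ) =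
      ∑ b ∈ range M, Ψ (b : ℚ) + ∑ i ∈ range h, ψ ((1 - (h : ℚ)) / 2 + i) := by
    rw [sum_range_add]
    congr 1
    refine sum_congr rfl fun i _ => ?_
    simp only [hΨ]
    congr 1
    push_cast
    ring
  have h2 : ∑ b ∈ range (M + h), Ψ ((b : ℚ) - h) =
      ∑ b ∈ range h, Ψ ((b : ℚ) - h) + ∑ b ∈ range M, Ψ (b : ℚ) := by
    rw [add_comm M h, sum_range_add]
    congr 1
    refine sum_congr rfl fun i _ => ?_
    congr 1
    push_cast
    ring
  have h3 : Yh h ψ r = ∑ i ∈ range h, ψ ((1 - (h : ℚ)) / 2 + i) + ∑ e ∈ r, φ (ct e) := rfl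
  have h4 : ∑ b ∈ bet (M + h) r, ψ ((b : ℚ) - ((M + h : ℕ) : ℚ) + ((h : ℚ) + 1) / 2) =
      ∑ b ∈ bet (M + h) r, Ψ (b : ℚ) := rfl
  rw [h3, h4, hct]
  linarith

end MPa7fa83.Cs
end
end
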