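import Pool.Agent.Lib.MP_a7fa83_ag.Cs.PolDefs
import Pool.Agent.Lib.MP_a7fa83_ag.Cs.D3

/-!
# MP_a7fa83_ag, compact surfaces: generating series

`ι` is the set of fixed points; everything is a family indexed by `c : ι`.
`Z12 d` is the generating series over the diagrams `s` of the plane 12 with sources coupled to
`ch_k`, with the monomial `∏ (t1 t2 ch_a)^{d_a}` inserted; `Z34 b` is the one of the plane 34.
-/

set_option autoImplicit false

namespace MPa7fa83.Cs

open Finset PowerSeries MPa7fa83.Ok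

section

variable {ι F : Type*} [Field F] [Algebra ℚ F]

/-- `∏_k ch_k^{I_k} / I_k!` -/
noncomputable def src (x : ℕ → F) (I : ℕ →₀ ℕ) : F :=
  algebraMap ℚ F ((dfac I : ℚ)⁻¹) * mon x I

/-- generating series of the plane 12 with insertions -/
noncomputable def Z12 (t1 t2 t3 l : ι → F) (d : ℕ →₀ ℕ) : MvPowerSeries ℕ (ι → F⟦X⟧) :=
  fun I c => qs (fun s => wg (t1 c) (t2 c) (t3 c) s *
    (mon (fun a => t1 c * t2 c * chs (l c) (t1 c) (t2 c) a s) d *
      src (fun k => chs (l c) (t1 c) (t2 c) k s) I))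

/-- generating series of the plane 34 with insertions -/
noncomputable def Z34 (t1 t2 t3 l : ι → F) (b : ℕ →₀ ℕ) : MvPowerSeries ℕ (ι → F⟦X⟧)⟦X⟧ :=
  fun I => PowerSeries.mk fun n c => qs (fun r =>
    wg (t3 c) (-t1 c - t2 c - t3 c) (t1 c) r *
    (mon (fun a => chs (l c - t1 c - t2 c) (t3 c) (-t1 c - t2 c - t3 c) a r) b *
      (algebraMap ℚ F ((dfac I : ℚ)⁻¹) * coeff n (I.prod fun k m =>
        (bb (l c - t1 c - t2 c) (t3 c) (-t1 c - t2 c - t3 c) r k) ^ m))))

/-- constants in the ring of families of `q`-series -/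
noncomputable def fc (x : ι → F) : ι → F⟦X⟧ := fun c => C (x c)

/-- the coefficients `α_e`, `β_e` as families -/
noncomputable def alf (t1 t2 l : ι → F) (e : ℕ) : ι → F⟦X⟧ :=
  fc (fun c => al (t1 c) (t2 c) (l c) e)

/-- the coefficients `β_e` as families -/
noncomputable def bef (t1 t2 t3 l : ι → F) (e : ℕ) : ι → F⟦X⟧ :=
  fc (fun c => be (t1 c) (t2 c) (t3 c) (l c) e)

end

end MPa7fa83.Cs
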