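import Pool.Agent.Lib.MP_a7fa83_ag.Cs.FilDefs
import Pool.Agent.Lib.MP_a7fa83_ag.Cs.J1
import Pool.Agent.Lib.MP_a7fa83_ag.Cs.A1
import Pool.Agent.Lib.MP_a7fa83_ag.Cs.G5
import Pool.Agent.Lib.MP_a7fa83_ag.Cs.L3

section

/-!
# J2: the subalgebra of coefficient families

`Bf ρ` is a `ℚ`-subalgebra of `ι → LaurentSeries K`.
-/

set_option autoImplicit false

namespace MPa7fa83.Cs

open Finset PowerSeries MPa7fa83.Ok

section

variable {K : Type*} [Field K] {ι : Type*} [Fintype ι] {ρ : ι → K}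

lemma Bf_zero : Bf ρ (0 : ι → LaurentSeries K) := by
  refine ⟨fun c i _ => by simp, ⟨0, fun c => by simp⟩, by simp⟩

lemma Bf_one : Bf ρ (1 : ι → LaurentSeries K) := by
  refine ⟨fun c i hi => ?_, ⟨1, fun c => ?_⟩, ?_⟩
  · rw [Pi.one_apply, HahnSeries.coeff_one, if_neg (by omega)]
  · rw [Pi.one_apply, HahnSeries.coeff_one, if_pos rfl]
  · simp [HahnSeries.coeff_one]

lemma Bf_add {a b : ι → LaurentSeries K} (ha : Bf ρ a) (hb : Bf ρ b) : Bf ρ (a + b) := by
  obtain ⟨a1, ⟨x, a2⟩, a3⟩ := ha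
  obtain ⟨b1, ⟨y, b2⟩, b3⟩ := hb
  refine ⟨fun c i hi => ?_, ⟨x + y, fun c => ?_⟩, ?_⟩
  · rw [Pi.add_apply, HahnSeries.coeff_add, a1 c i hi, b1 c i hi, add_zero]
  · rw [Pi.add_apply, HahnSeries.coeff_add, a2 c, b2 c]
  · simp only [Pi.add_apply, HahnSeries.coeff_add, mul_add, Finset.sum_add_distrib, a3, b3,
      add_zero]

/-- regular Laurent series are power series -/
private lemma exists_ps {a : LaurentSeries K} (h : ∀ i < 0, a.coeff i = 0) :
    ∃ f : K⟦X⟧, a = (HahnSeries.ofPowerSeries ℤ K f) := by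
  refine ⟨PowerSeries.mk fun n => a.coeff n, ?_⟩
  ext i
  by_cases hi : i < 0
  · rw [h i hi]
    symm
    apply HahnSeries.embDomain_of_notMem_range
    rintro ⟨n, hn⟩
    simp at hn
    omega
  · obtain ⟨n, rfl⟩ := Int.eq_ofNat_of_zero_le (not_lt.1 hi)
    rw [HahnSeries.ofPowerSeries_apply_coeff, coeff_mk]

private lemma ops0 (f : K⟦X⟧) : (HahnSeries.ofPowerSeries ℤ K f).coeff 0 = coeff 0 f := by
  have := HahnSeries.ofPowerSeries_apply_coeff (Γ := ℤ) f 0
  simpa using this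

private lemma ops1 (f : K⟦X⟧) : (HahnSeries.ofPowerSeries ℤ K f).coeff 1 = coeff 1 f := by
  have := HahnSeries.ofPowerSeries_apply_coeff (Γ := ℤ) f 1
  simpa using this

private lemma opsn (f : K⟦X⟧) {i : ℤ} (hi : i < 0) :
    (HahnSeries.ofPowerSeries ℤ K f).coeff i = 0 := by
  apply HahnSeries.embDomain_of_notMem_range
  rintro ⟨n, hn⟩
  simp at hn
  omega

lemma Bf_mul {a b : ι → LaurentSeries K} (ha : Bf ρ a) (hb : Bf ρ b) : Bf ρ (a * b) := by
  obtain ⟨a1, ⟨x, a2⟩, a3⟩ := ha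
  obtain ⟨b1, ⟨y, b2⟩, b3⟩ := hb
  choose f hf using fun c => exists_ps (a1 c)
  choose g hg using fun c => exists_ps (b1 c)
  have e : ∀ c, (a * b) c = HahnSeries.ofPowerSeries ℤ K (f c * g c) := by
    intro c
    rw [Pi.mul_apply, hf c, hg c, map_mul]
  have f0 : ∀ c, coeff 0 (f c) = x := fun c => by rw [← ops0, ← hf, a2]
  have g0 : ∀ c, coeff 0 (g c) = y := fun c => by rw [← ops0, ← hg, b2]
  refine ⟨fun c i hi => ?_, ⟨x * y, fun c => ?_⟩, ?_⟩
  · rw [e c, opsn _ hi]
  · rw [e c, ops0, coeff_zero_eq_constantCoeff_apply, RingHom.map_mul,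
      ← coeff_zero_eq_constantCoeff_apply, ← coeff_zero_eq_constantCoeff_apply, f0, g0]
  · have e1 : ∀ c, ((a * b) c).coeff 1 = x * (b c).coeff 1 + y * (a c).coeff 1 := by
      intro c
      have e3 : coeff 1 (f c * g c) = coeff 0 (f c) * coeff 1 (g c) +
          coeff 1 (f c) * coeff 0 (g c) := by
        rw [coeff_mul, Finset.Nat.antidiagonal_eq_map]
        simp [Finset.sum_range_succ]
      rw [e c, ops1, e3, f0, g0, hf c, hg c, ops1, ops1]
      ring
    simp only [e1]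
    have e2 : ∑ c, ρ c * (x * (b c).coeff 1 + y * (a c).coeff 1) =
        x * ∑ c, ρ c * (b c).coeff 1 + y * ∑ c, ρ c * (a c).coeff 1 := by
      rw [Finset.mul_sum, Finset.mul_sum, ← Finset.sum_add_distrib]
      apply Finset.sum_congr rfl
      intro c _
      ring
    rw [e2, a3, b3, mul_zero, mul_zero, add_zero]

lemma Bf_lin (a : K) {b : ι → K} (hb : ∑ c, ρ c * b c = 0) : Bf ρ (fun c => lin a (b c)) := by
  refine ⟨fun c i hi => ?_, ⟨a, fun c => ?_⟩, ?_⟩
  · unfold lin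
    rw [HahnSeries.coeff_add, HahnSeries.C_apply, HahnSeries.coeff_single_of_ne (by omega),
      HahnSeries.coeff_single_of_ne (by omega), add_zero]
  · unfold lin
    rw [HahnSeries.coeff_add, HahnSeries.C_apply, HahnSeries.coeff_single_same,
      HahnSeries.coeff_single_of_ne (by omega), add_zero]
  · unfold lin
    simp only [HahnSeries.coeff_add, HahnSeries.C_apply, HahnSeries.coeff_single_same]
    rw [← hb]
    apply Finset.sum_congr rfl
    intro c _
    rw [HahnSeries.coeff_single_of_ne (by omega), zero_add]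

/-- anything of order at least two in `z` -/
lemma Bf_ord {b : ι → LaurentSeries K} (h : ∀ c, ∀ i < 2, (b c).coeff i = 0) : Bf ρ b := by
  refine ⟨fun c i hi => h c i (by omega), ⟨0, fun c => h c 0 (by omega)⟩, ?_⟩
  apply Finset.sum_eq_zero
  intro c _
  rw [h c 1 (by omega), mul_zero]

variable [CharZero K]

lemma Bf_algebraMap (a : ℚ) : Bf ρ (algebraMap ℚ (ι → LaurentSeries K) a) := by
  have e : algebraMap ℚ (ι → LaurentSeries K) a = fun _ : ι => lin (a : K) 0 := by
    funext c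
    show algebraMap ℚ (LaurentSeries K) a = _
    unfold lin
    rw [map_zero, add_zero, eq_ratCast, map_ratCast]
  rw [e]
  exact Bf_lin (a : K) (by simp)

/-- as a subalgebra -/
noncomputable def Bsub (ρ : ι → K) : Subalgebra ℚ (ι → LaurentSeries K) where
  carrier := {b | Bf ρ b}
  mul_mem' := Bf_mul
  add_mem' := Bf_add
  algebraMap_mem' := Bf_algebraMap

end

end MPa7fa83.Cs
end

section

/-!
# G9: Eisenstein series

`SE n J = ∑_{h, d ≥ 1} d^n h^J q^{hd}`.  Put `e(x) = x/(1-x)²`, `θ = x d/dx`.  Then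
`θ² e^j = 4 j² e^{j+1} + j² e^j + 2 j e^{j+1}` (as `(θ e)² = e² (1 + 4 e)`, `θ² e = e (1 + 6 e)`), so
`∑_h h^{2m+1} x^h = θ^{2m} e` is a combination of `e, e², ..., e^{m+1}`, and
`SE 0 (2m+1) = ∑_{d} (...)(q^d)` is a combination of `Z(2), ..., Z(2m+2)`
(`letter (2j) n = (q^n/(1-q^n)²)^j`).  Next `SE (n+1) (J+1) = DD (SE n J)` (`coeff_DD`), and
`SE n J = SE J n` (swap the divisors).  So for `J = n - 1 + 2 i`, `n ≥ 1`:
`SE n J = DD^n (SE 0 (2i-1))` for `i ≥ 1`, `= DD^{n-1} (SE 1 0)` for `i = 0`.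
By `DD_Z`, `DD` maps `QP w` to `QP (w + 2)`.
-/

set_option autoImplicit false

namespace MPa7fa83.Cs

open Finset PowerSeries

private lemma QP_up {w w' : ℕ} (h : ∃ k, w + 2 * k = w') {f : ℚ⟦X⟧} (hf : f ∈ QP w) :
    f ∈ QP w' := by
  unfold QP at hf
  induction hf using Submodule.span_induction with
  | mem x hx =>
    obtain ⟨l, hl, ⟨k, hk⟩, rfl⟩ := hx
    obtain ⟨k', hk'⟩ := h
    exact Submodule.subset_span ⟨l, hl, ⟨k + k', by omega⟩, rfl⟩
  | zero => exact zero_mem _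
  | add x y _ _ hx hy => exact add_mem hx hy
  | smul c x _ hx => exact Submodule.smul_mem _ _ hx

theorem DD_QP {w : ℕ} {f : ℚ⟦X⟧} (hf : f ∈ QP w) : DD f ∈ QP (w + 2) := by
  unfold QP at hf
  induction hf using Submodule.span_induction with
  | mem x hx =>
    obtain ⟨l, hl, ⟨k, hk⟩, rfl⟩ := hx
    exact QP_up ⟨k, by omega⟩ (DD_Z l hl)
  | zero => rw [map_zero]; exact zero_mem _
  | add x y _ _ hx hy => rw [map_add]; exact add_mem hx hy
  | smul c x _ hx => rw [Derivation.map_smul]; exact Submodule.smul_mem _ _ hx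

/-- the coefficients of `1/(1-q^d)` -/
private lemma coeff_ys (d N : ℕ) (hd : 1 ≤ d) :
    coeff N (ys d) = if d ∣ N then (1 : ℚ) else 0 := by
  have h1 := ys_mul d hd
  have h2 : (PowerSeries.mk (fun N => if d ∣ N then (1 : ℚ) else 0)) * (1 - X ^ d) = 1 := by
    ext N
    rw [mul_sub, mul_one, map_sub, coeff_mk, coeff_mul_X_pow', coeff_one]
    by_cases hN : d ≤ N
    · rw [if_pos hN, coeff_mk, if_neg (by omega : ¬ N = 0)]
      have : d ∣ N - d ↔ d ∣ N := by
        constructor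
        · intro h
          have := Nat.dvd_add h (dvd_refl d)
          rwa [Nat.sub_add_cancel hN] at this
        · intro h
          exact Nat.dvd_sub h (dvd_refl d)
      by_cases hdN : d ∣ N
      · rw [if_pos hdN, if_pos (this.2 hdN), sub_self]
      · rw [if_neg hdN, if_neg (fun h => hdN (this.1 h)), sub_self]
    · rw [if_neg hN, sub_zero]
      by_cases hN0 : N = 0
      · subst hN0; simp
      · rw [if_neg hN0, if_neg]
        intro h
        exact hN (Nat.le_of_dvd (by omega) h)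
  have h3 : ys d = PowerSeries.mk (fun N => if d ∣ N then (1 : ℚ) else 0) := by
    calc ys d = ys d * ((PowerSeries.mk (fun N => if d ∣ N then (1 : ℚ) else 0)) * (1 - X ^ d)) := by
          rw [h2, mul_one]
      _ = (ys d * (1 - X ^ d)) * PowerSeries.mk (fun N => if d ∣ N then (1 : ℚ) else 0) := by ring
      _ = _ := by rw [h1, one_mul]
  rw [h3, coeff_mk]

/-- the coefficients of `q^d/(1-q^d)^2` -/
private lemma coeff_fl0 (d N : ℕ) (hd : 1 ≤ d) :
    coeff N (fl 0 d) = if d ∣ N then ((N / d : ℕ) : ℚ) ^ 1 else 0 := by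
  have h1 := DD_ys d hd
  have h2 : ys d * (ys d - 1) = fl 0 d := by
    rw [fl_zero]
    unfold xs
    have h3 := two_hf
    linear_combination (ys d) * h3
  rw [h2] at h1
  have h3 := congrArg (coeff N) h1
  rw [coeff_DD, coeff_ys d N hd] at h3
  have h4 : coeff N ((d : ℚ⟦X⟧) * fl 0 d) = (d : ℚ) * coeff N (fl 0 d) := by
    rw [show (d : ℚ⟦X⟧) = C (d : ℚ) by rw [map_natCast], coeff_C_mul]
  rw [h4] at h3
  have hd' : (d : ℚ) ≠ 0 := by exact_mod_cast (by omega : d ≠ 0)
  by_cases hdN : d ∣ N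
  · rw [if_pos hdN] at h3 ⊢
    rw [Nat.cast_div hdN hd', pow_one, eq_div_iff hd']
    linarith
  · rw [if_neg hdN] at h3 ⊢
    rw [mul_zero] at h3
    rcases mul_eq_zero.1 h3.symm with h | h
    · exact absurd h hd'
    · exact h

/-- the second derivative of the powers -/
private lemma DD2_fl0 (j d : ℕ) (hd : 1 ≤ d) :
    DD (DD (fl 0 d ^ j)) = C ((d : ℚ) ^ 2) * (C ((j : ℚ) ^ 2) * fl 0 d ^ j +
      C (4 * (j : ℚ) ^ 2 + 2 * j) * fl 0 d ^ (j + 1)) := by
  have hx : DD (xs d) = (d : ℚ⟦X⟧) * fl 0 d := by rw [DD_xs d hd, fl_zero]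
  have hf1 : DD (fl 0 d) = (d : ℚ⟦X⟧) * (2 * xs d * fl 0 d) := by
    rw [DD_fl 0 d hd, dfs_apply]
    unfold dfl
    rw [fl_zero]
    push_cast
    ring
  have hpow : ∀ k : ℕ, DD (fl 0 d ^ k) = (k : ℚ⟦X⟧) * (d : ℚ⟦X⟧) * (2 * xs d * fl 0 d ^ k) := by
    intro k
    rw [Derivation.leibniz_pow, hf1]
    simp only [smul_eq_mul, nsmul_eq_mul]
    rcases k with _ | k
    · simp
    · simp only [Nat.add_sub_cancel]
      rw [pow_succ]
      ring
  have hn : ∀ k : ℕ, DD ((k : ℚ⟦X⟧)) = 0 := by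
    intro k
    exact Derivation.map_natCast _ _
  have h2 : DD (2 : ℚ⟦X⟧) = 0 := by
    have := hn 2
    simpa using this
  rw [hpow]
  simp only [Derivation.leibniz, smul_eq_mul, hn, h2, hpow, hx, mul_zero, add_zero]
  have h4 : (4 : ℚ⟦X⟧) * xs d ^ 2 = 4 * fl 0 d + 1 := by
    rw [fl_zero]
    have h3 := two_hf
    linear_combination (2 * hf + 1) * h3
  have hC1 : (C ((d : ℚ) ^ 2) : ℚ⟦X⟧) = (d : ℚ⟦X⟧) ^ 2 := by rw [map_pow, map_natCast]
  have hC2 : (C ((j : ℚ) ^ 2) : ℚ⟦X⟧) = (j : ℚ⟦X⟧) ^ 2 := by rw [map_pow, map_natCast]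
  have hC3 : (C (4 * (j : ℚ) ^ 2 + 2 * j) : ℚ⟦X⟧) = 4 * (j : ℚ⟦X⟧) ^ 2 + 2 * j := by
    rw [map_add, map_mul, map_mul, map_pow, map_natCast, map_ofNat, map_ofNat]
  rw [hC1, hC2, hC3, pow_succ]
  linear_combination ((j : ℚ⟦X⟧) ^ 2 * (d : ℚ⟦X⟧) ^ 2 * fl 0 d ^ j) * h4

/-- the span of `fl 0 ^ (j + 1)`, `j ≤ m` -/
private noncomputable def Pm (m : ℕ) : Submodule ℚ Sq :=
  Submodule.span ℚ {F | ∃ j ≤ m, F = fl 0 ^ (j + 1)}

private lemma Pm_step {m : ℕ} {G : Sq} (hG : G ∈ Pm m) :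
    ∃ G' ∈ Pm (m + 1), ∀ d, 1 ≤ d → DD (DD (G d)) = C ((d : ℚ) ^ 2) * G' d := by
  unfold Pm at hG
  induction hG using Submodule.span_induction with
  | mem x hx =>
    obtain ⟨j, hj, rfl⟩ := hx
    refine ⟨(((j + 1 : ℕ) : ℚ) ^ 2) • fl 0 ^ (j + 1) +
      (4 * ((j + 1 : ℕ) : ℚ) ^ 2 + 2 * ((j + 1 : ℕ) : ℚ)) • fl 0 ^ (j + 1 + 1), ?_, ?_⟩
    · refine add_mem (Submodule.smul_mem _ _ (Submodule.subset_span ⟨j, by omega, rfl⟩))
        (Submodule.smul_mem _ _ (Submodule.subset_span ⟨j + 1, by omega, rfl⟩))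
    · intro d hd
      rw [Pi.pow_apply, DD2_fl0 _ _ hd]
      simp only [Pi.add_apply, Pi.smul_apply, Pi.pow_apply, PowerSeries.smul_eq_C_mul]
  | zero => exact ⟨0, zero_mem _, fun d _ => by simp⟩
  | add x y _ _ hx hy =>
    obtain ⟨x', hx1, hx2⟩ := hx
    obtain ⟨y', hy1, hy2⟩ := hy
    refine ⟨x' + y', add_mem hx1 hy1, fun d hd => ?_⟩
    rw [Pi.add_apply, map_add, map_add, hx2 d hd, hy2 d hd, Pi.add_apply, mul_add]
  | smul c x _ hx =>
    obtain ⟨x', hx1, hx2⟩ := hx
    refine ⟨c • x', Submodule.smul_mem _ _ hx1, fun d hd => ?_⟩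
    rw [Pi.smul_apply, Derivation.map_smul, Derivation.map_smul, hx2 d hd, Pi.smul_apply,
      mul_smul_comm]

private lemma exists_G (m : ℕ) : ∃ G ∈ Pm m, ∀ d, 1 ≤ d → ∀ N,
    coeff N (G d) = if d ∣ N then ((N / d : ℕ) : ℚ) ^ (2 * m + 1) else 0 := by
  induction m with
  | zero =>
    refine ⟨fl 0, Submodule.subset_span ⟨0, le_refl 0, by rw [zero_add, pow_one]⟩, ?_⟩
    intro d hd N
    rw [coeff_fl0 d N hd]
  | succ m ih =>
    obtain ⟨G, hG, h⟩ := ih
    obtain ⟨G', hG', h'⟩ := Pm_step hG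
    refine ⟨G', hG', ?_⟩
    intro d hd N
    have h1 := congrArg (coeff N) (h' d hd)
    rw [coeff_DD, coeff_DD, h d hd N, coeff_C_mul] at h1
    have hd' : (d : ℚ) ≠ 0 := by exact_mod_cast (by omega : d ≠ 0)
    have hd2 : (d : ℚ) ^ 2 ≠ 0 := pow_ne_zero 2 hd'
    by_cases hdN : d ∣ N
    · rw [if_pos hdN] at h1 ⊢
      have e : ((N / d : ℕ) : ℚ) * d = N := by
        rw [Nat.cast_div hdN hd']
        field_simp
      have h2 : (d : ℚ) ^ 2 * coeff N (G' d) =
          (d : ℚ) ^ 2 * ((N / d : ℕ) : ℚ) ^ (2 * (m + 1) + 1) := by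
        rw [← h1, ← e]
        have : ((((N / d : ℕ) : ℚ) * d) : ℚ) = ((N / d : ℕ) : ℚ) * d := rfl
        rw [show 2 * (m + 1) + 1 = (2 * m + 1) + 2 by ring, pow_add]
        have e2 : ((N / d : ℕ) : ℚ) = ((N / d : ℕ) : ℚ) := rfl
        ring
      exact mul_left_cancel₀ hd2 h2
    · rw [if_neg hdN] at h1 ⊢
      rw [mul_zero, mul_zero] at h1
      rcases mul_eq_zero.1 h1.symm with h | h
      · exact absurd h hd2
      · exact h

private lemma S_Pm {m : ℕ} {G : Sq} (hG : G ∈ Pm m) : S G ∈ W (2 * m + 2) := by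
  unfold Pm at hG
  induction hG using Submodule.span_induction with
  | mem x hx =>
    obtain ⟨j, hj, rfl⟩ := hx
    have h1 := S_pow_mem j 0 0 1 (one_mem_W ⟨0, rfl⟩)
    rw [pow_zero, mul_one, mul_one] at h1
    exact W_mono h1 ⟨m - j, by omega⟩
  | zero => rw [S_zero]; exact zero_mem _
  | add x y _ _ hx hy => rw [S_add]; exact add_mem hx hy
  | smul c x _ hx => rw [S_smul]; exact Submodule.smul_mem _ _ hx

theorem SE_base (m : ℕ) : SE 0 (2 * m + 1) ∈ QP (2 * m + 2) := by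
  obtain ⟨G, hG, h⟩ := exists_G m
  have h1 := lim_WZ (W_le_WZ (S_Pm hG))
  have e : SE 0 (2 * m + 1) = lim (S G) := by
    ext N
    rw [lim_apply]
    unfold SE S
    rw [coeff_mk, map_sum]
    simp only [pow_zero, one_mul]
    rw [Nat.sum_divisorsAntidiagonal (fun _ b => (b : ℚ) ^ (2 * m + 1)), Nat.divisors,
      Finset.sum_filter]
    apply Finset.sum_congr
    · ext x
      simp only [Finset.mem_Ico]
    · intro d hd
      rw [h d (Finset.mem_Ico.1 hd).1 N]
  rw [e]
  exact h1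

private lemma SE_succ (n J : ℕ) : SE (n + 1) (J + 1) = DD (SE n J) := by
  ext N
  rw [coeff_DD]
  unfold SE
  rw [coeff_mk, coeff_mk, Finset.mul_sum]
  apply Finset.sum_congr rfl
  intro y hy
  have h := (Nat.mem_divisorsAntidiagonal.1 hy).1
  rw [← h]
  push_cast
  ring

private lemma SE_swap (n J : ℕ) : SE n J = SE J n := by
  ext N
  unfold SE
  rw [coeff_mk, coeff_mk]
  conv_lhs => rw [← Nat.map_swap_divisorsAntidiagonal]
  rw [Finset.sum_map]
  apply Finset.sum_congr rfl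
  intro y _
  simp [mul_comm]

private lemma SE_iter (n J a : ℕ) {w : ℕ} (h : SE n J ∈ QP w) :
    SE (n + a) (J + a) ∈ QP (w + 2 * a) := by
  induction a with
  | zero => simpa using h
  | succ a ih =>
    rw [← add_assoc, ← add_assoc, SE_succ]
    have := DD_QP ih
    rwa [show w + 2 * (a + 1) = w + 2 * a + 2 by ring]

theorem SE_mem (n i : ℕ) : SE (n + 1) (n + 2 * i) ∈ QP (2 * n + 2 * i + 2) := by
  rcases i with _ | i
  · have h0 : SE 1 0 ∈ QP 2 := by
      rw [SE_swap]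
      exact SE_base 0
    have h1 := SE_iter 1 0 n h0
    rw [show n + 1 = 1 + n by ring, show n + 2 * 0 = 0 + n by ring,
      show 2 * n + 2 * 0 + 2 = 2 + 2 * n by ring]
    exact h1
  · have h1 := SE_iter 0 (2 * i + 1) (n + 1) (SE_base i)
    rw [show n + 2 * (i + 1) = 2 * i + 1 + (n + 1) by ring,
      show 2 * n + 2 * (i + 1) + 2 = 2 * i + 2 + 2 * (n + 1) by ring]
    rw [zero_add] at h1
    exact h1

end MPa7fa83.Cs
end

section

section

/-!
# G10a: small lemmas on `ck` and `Tm`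
-/

set_option autoImplicit false

namespace MPa7fa83.Cs

open Finset PowerSeries

lemma chs_ck (k : ℕ) (r : Finset (ℕ × ℕ)) : chs (0 : ℚ) (-1) 1 k r = ck k r := by
  unfold chs ck
  refine Finset.sum_congr rfl fun e _ => ?_
  simp only [cn, ct, Algebra.algebraMap_self, RingHom.id_apply]
  congr 2
  ring

private lemma hook_le {r : Finset (ℕ × ℕ)} {e : ℕ × ℕ} (he : e ∈ r) :
    arm r e + leg r e + 1 ≤ r.card := by
  classical
  unfold arm leg
  have hd : Disjoint (r.filter (fun f => f.2 = e.2 ∧ e.1 < f.1))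
      (r.filter (fun f => f.1 = e.1 ∧ e.2 < f.2)) := by
    rw [Finset.disjoint_left]
    intro f hf1 hf2
    rw [Finset.mem_filter] at hf1 hf2
    omega
  have hn : e ∉ (r.filter (fun f => f.2 = e.2 ∧ e.1 < f.1)) ∪
      (r.filter (fun f => f.1 = e.1 ∧ e.2 < f.2)) := by
    rw [Finset.mem_union, Finset.mem_filter, Finset.mem_filter]
    omega
  rw [← Finset.card_union_of_disjoint hd, ← Finset.card_insert_of_notMem hn]
  apply Finset.card_le_card
  intro f hf
  rw [Finset.mem_insert, Finset.mem_union, Finset.mem_filter, Finset.mem_filter] at hf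
  rcases hf with rfl | hf | hf
  · exact he
  · exact hf.1
  · exact hf.1

/-- sum over the hook lengths -/
lemma Tm_hk {n : ℕ} {r : Finset (ℕ × ℕ)} (hr : r ∈ dg n) :
    Tm r = ∑ h ∈ Icc 1 n, ((h : ℚ) ^ 2)⁻¹ * hk h r := by
  classical
  have hn : r.card = n := (mem_dg.1 hr).2
  have hmaps : ∀ e ∈ r, arm r e + leg r e + 1 ∈ Icc 1 n := by
    intro e he
    rw [Finset.mem_Icc]
    have := hook_le he
    omega
  unfold Tm
  rw [← Finset.sum_fiberwise_of_maps_to hmaps]
  refine Finset.sum_congr rfl fun h _ => ?_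
  unfold hk
  rw [Finset.card_eq_sum_ones, Nat.cast_sum, Finset.mul_sum]
  refine Finset.sum_congr rfl fun e he => ?_
  have h1 := (Finset.mem_filter.1 he).2
  have h2 : (arm r e : ℚ) + leg r e + 1 = (h : ℚ) := by exact_mod_cast h1
  rw [h2]
  simp

end MPa7fa83.Cs
end

section

/-!
# G6: the rim hook formula

Fix `N = n`.  For `m ≤ n` and functions `Φ b B = G b (fun k => ckB N k B)`: by `X_eq_U`,
`ckB_move`, `U_sub_X`
`Xs m [G] = Xs (m-h) [ΘG] + (Y-sum at m-h of ΘG)`, `ΘG b x = G b (x + Db b)`, so by iteration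
`Xs n [G] = ∑_{d ≥ 1, d h ≤ n} (Y-sum at n - d h of G b (x + d Db b))`.
Take `G b x = f x` and use `hk_bet`, `ck_bet`, `Y_bet`, `sum_bet`; note that
`Db N h k b = Dl h k (b - N + (h+1)/2)`.
-/

set_option autoImplicit false

namespace MPa7fa83.Cs

open Finset

/-- the shifted function -/
private def G6_G (N h : ℕ) (f : (ℕ → ℚ) → ℚ) (d : ℕ) (b : ℕ) (B : Finset ℕ) : ℚ :=
  f (fun k => ckB N k B + (d : ℚ) * Db N h k b)

/-- the `Y`-sum -/
private def G6_Y (N h : ℕ) (f : (ℕ → ℚ) → ℚ) (d n' : ℕ) : ℚ :=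
  ∑ B ∈ bs N n', (∑ b ∈ B, G6_G N h f d b B -
    ∑ b ∈ B.filter (fun b => h ≤ b), G6_G N h f d (b - h) B)

private theorem G6_step (N h : ℕ) (hh : 1 ≤ h) (f : (ℕ → ℚ) → ℚ) (d m : ℕ) (hm : h ≤ m) :
    Xs N m h (G6_G N h f d) = G6_Y N h f (d + 1) (m - h) + Xs N (m - h) h (G6_G N h f (d + 1)) := by
  have h1 := X_eq_U N (m - h) h hh (G6_G N h f d)
  have e1 : m - h + h = m := by omega
  rw [e1] at h1
  have h2 : Us N (m - h) h (fun b B => G6_G N h f d b (insert (b + h) (B.erase b))) =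
      Us N (m - h) h (G6_G N h f (d + 1)) := by
    unfold Us
    refine Finset.sum_congr rfl fun B _ => Finset.sum_congr rfl fun b hb => ?_
    have hb1 := (Finset.mem_filter.mp hb).1
    have hb2 := (Finset.mem_filter.mp hb).2
    show f (fun k => ckB N k (insert (b + h) (B.erase b)) + (d : ℚ) * Db N h k b) =
      f (fun k => ckB N k B + ((d + 1 : ℕ) : ℚ) * Db N h k b)
    congr 1
    funext k
    rw [ckB_move N k h hh hb1 hb2]
    push_cast
    ring
  have h3 := U_sub_X N (m - h) h (G6_G N h f (d + 1))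
  rw [h1, h2]
  unfold G6_Y
  linarith

private theorem G6_iter (N h : ℕ) (hh : 1 ≤ h) (f : (ℕ → ℚ) → ℚ) (K : ℕ) :
    ∀ m d : ℕ, m ≤ K → Xs N m h (G6_G N h f d) =
      ∑ a ∈ range K, if (a + 1) * h ≤ m then G6_Y N h f (d + (a + 1)) (m - (a + 1) * h) else 0 := by
  induction K with
  | zero =>
    intro m d hm
    rw [Finset.sum_range_zero]
    exact X_zero N m h (by omega) _
  | succ K ih =>
    intro m d hm
    rw [Finset.sum_range_succ']
    by_cases hmh : h ≤ m
    · rw [G6_step N h hh f d m hmh, ih (m - h) (d + 1) (by omega), add_comm]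
      congr 1
      · refine Finset.sum_congr rfl fun a _ => ?_
        have e1 : (a + 1 + 1) * h = (a + 1) * h + h := by ring
        rw [e1]
        by_cases hc : (a + 1) * h ≤ m - h
        · rw [if_pos hc, if_pos (by omega)]
          have e2 : d + 1 + (a + 1) = d + (a + 1 + 1) := by ring
          have e3 : m - h - (a + 1) * h = m - ((a + 1) * h + h) := by omega
          rw [e2, e3]
        · rw [if_neg hc, if_neg (by omega)]
      · rw [if_pos (by omega)]
        have e1 : (0 + 1) * h = h := by ring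
        rw [e1]
    · rw [X_zero N m h (by omega)]
      symm
      have h1 : ∀ a : ℕ, ¬ ((a + 1) * h ≤ m) := by
        intro a hc
        apply hmh
        calc h = 1 * h := (one_mul h).symm
          _ ≤ (a + 1) * h := Nat.mul_le_mul_right h (by omega)
          _ ≤ m := hc
      rw [if_neg (h1 0), add_zero]
      refine Finset.sum_eq_zero fun a _ => ?_
      rw [if_neg (h1 (a + 1))]

private theorem G6_Db (N h k b : ℕ) :
    Db N h k b = Dl h k ((b : ℚ) - N + ((h : ℚ) + 1) / 2) := by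
  unfold Db Dl
  refine Finset.sum_congr rfl fun i _ => ?_
  congr 2
  ring

theorem rim (n h : ℕ) (hh : 1 ≤ h) (f : (ℕ → ℚ) → ℚ) :
    ∑ r ∈ dg n, (hk h r : ℚ) * f (fun k => ck k r) =
      ∑ d ∈ (Icc 1 n).filter (fun d => d * h ≤ n), ∑ r ∈ dg (n - d * h),
        Yh h (fun β => f (fun k => ck k r + d * Dl h k β)) r := by
  -- left side
  have hL : ∑ r ∈ dg n, (hk h r : ℚ) * f (fun k => ck k r) = Xs n n h (G6_G n h f 0) := by
    unfold Xs
    rw [← sum_bet (le_refl n) (fun B => ∑ b ∈ B.filter (fun b => h ≤ b ∧ b - h ∉ B),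
      G6_G n h f 0 (b - h) B)]
    refine Finset.sum_congr rfl fun r hr => ?_
    obtain ⟨hLo, hc⟩ := mem_dg.mp hr
    rw [hk_bet hLo (le_of_eq hc) hh]
    have h1 : ∀ b, G6_G n h f 0 b (bet n r) = f (fun k => ck k r) := by
      intro b
      unfold G6_G
      congr 1
      funext k
      rw [← ck_bet hLo (le_of_eq hc) k]
      simp
    rw [Finset.sum_congr rfl (fun b _ => h1 (b - h)), Finset.sum_const, nsmul_eq_mul]
  rw [hL, G6_iter n h hh f n n 0 le_rfl, Finset.sum_filter]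
  have hI : (Icc 1 n) = Ico (0 + 1) (n + 1) := by
    ext x
    simp only [Finset.mem_Icc, Finset.mem_Ico]
    omega
  rw [hI, ← Finset.sum_Ico_add' (fun d => if d * h ≤ n then ∑ r ∈ dg (n - d * h),
        Yh h (fun β => f (fun k => ck k r + (d : ℚ) * Dl h k β)) r else 0) 0 n 1,
    ← Finset.range_eq_Ico]
  refine Finset.sum_congr rfl fun a _ => ?_
  by_cases hc : (a + 1) * h ≤ n
  · rw [if_pos hc, if_pos hc, zero_add]
    unfold G6_Y
    rw [← sum_bet (Nat.sub_le n ((a + 1) * h)) (fun B => (∑ b ∈ B, G6_G n h f (a + 1) b B -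
      ∑ b ∈ B.filter (fun b => h ≤ b), G6_G n h f (a + 1) (b - h) B))]
    refine Finset.sum_congr rfl fun r hr => ?_
    obtain ⟨hLo, hcd⟩ := mem_dg.mp hr
    have hle : r.card ≤ n := by omega
    have h1 : ∀ b, G6_G n h f (a + 1) b (bet n r) =
        (fun β : ℚ => f (fun k => ck k r + ((a + 1 : ℕ) : ℚ) * Dl h k β))
          ((b : ℚ) - n + ((h : ℚ) + 1) / 2) := by
      intro b
      unfold G6_G
      congr 1
      funext k
      rw [ck_bet hLo hle k, G6_Db]
    have hcard : r.card + h ≤ n := by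
      rw [hcd]
      have : h ≤ (a + 1) * h := Nat.le_mul_of_pos_left h (by omega)
      omega
    rw [Finset.sum_congr rfl (fun b _ => h1 b), Finset.sum_congr rfl (fun b _ => h1 (b - h))]
    exact Y_bet hLo hcard (fun β : ℚ => f (fun k => ck k r + ((a + 1 : ℕ) : ℚ) * Dl h k β))
  · rw [if_neg hc, if_neg hc]

end MPa7fa83.Cs
end

section

/-!
# H1: the uniform part over the ring `Bf ρ`

Apply `uni` with `Λ = Bsub ρ` (a subalgebra, as a type) to the elements given by `l`, `a`, `b`.  The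
resulting `G ∈ qM Λ (okb p) (wt d)` is a combination of the series `Z(s)` with coefficients in
`Bsub ρ`; its image in `ι → (LaurentSeries K)⟦X⟧` (coefficientwise, evaluate at `c`) satisfies
`FAp`: `cz 0` has constant coefficients, `∑ ρ c cz 1 = 0` holds coefficientwise.
-/

set_option autoImplicit false

namespace MPa7fa83.Cs

open Finset PowerSeries MPa7fa83.Ok

section

variable {A B : Type*} [CommRing A] [CommRing B] [Algebra ℚ A] [Algebra ℚ B]

private lemma H1_map_mon (φ : A →ₐ[ℚ] B) (x : ℕ → A) (d : ℕ →₀ ℕ) :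
    φ (mon x d) = mon (fun k => φ (x k)) d := by
  unfold mon
  rw [map_finsuppProd]
  simp only [map_pow]

private lemma H1_map_chs (φ : A →ₐ[ℚ] B) (l a b : A) (k : ℕ) (s : Finset (ℕ × ℕ)) :
    φ (chs l a b k s) = chs (φ l) (φ a) (φ b) k s := by
  unfold chs cn
  rw [map_sum]
  refine sum_congr rfl fun e _ => ?_
  rw [map_mul, map_pow, AlgHom.commutes]
  simp only [map_add, map_mul, map_natCast]

private lemma H1_map_qs (φ : A →ₐ[ℚ] B) (f : Finset (ℕ × ℕ) → A) :
    PowerSeries.map (φ : A →+* B) (qs f) = qs (fun s => φ (f s)) := by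
  ext n
  unfold qs
  rw [coeff_map, coeff_mk, coeff_mk, map_sum]
  rfl

end

section

variable {K : Type*} [Field K] [CharZero K] {ι : Type*} [Fintype ι] {ρ : ι → K}

/-- evaluation at `c` -/
private noncomputable def H1_ev (ρ : ι → K) (c : ι) : Bsub ρ →ₐ[ℚ] LaurentSeries K :=
  (Pi.evalAlgHom ℚ (fun _ : ι => LaurentSeries K) c).comp (Bsub ρ).val

private lemma H1_algebraMap (x : ℚ) :
    algebraMap ℚ (LaurentSeries K) x = HahnSeries.C (algebraMap ℚ K x) := by
  rw [eq_ratCast (algebraMap ℚ (LaurentSeries K)) x, eq_ratCast (algebraMap ℚ K) x]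
  exact (map_ratCast (HahnSeries.C : K →+* LaurentSeries K) x).symm

private lemma H1_cz (i : ℤ) (g : ℚ⟦X⟧) :
    cz i (PowerSeries.map (algebraMap ℚ (LaurentSeries K)) g) =
      if i = 0 then PowerSeries.map (algebraMap ℚ K) g else 0 := by
  ext n
  unfold cz
  rw [coeff_mk, coeff_map, H1_algebraMap, HahnSeries.C_apply, HahnSeries.coeff_single]
  split_ifs <;> simp

private lemma H1_FAp (p : Bool) {w : ℕ} {G : (Bsub ρ)⟦X⟧} (hG : G ∈ qM (Bsub ρ) (okb p) w) :
    FAp ρ p w (fun c => PowerSeries.map ((H1_ev ρ c : Bsub ρ →ₐ[ℚ] LaurentSeries K) :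
      Bsub ρ →+* LaurentSeries K) G) := by
  unfold qM at hG
  induction hG using Submodule.span_induction with
  | mem x hx =>
    obtain ⟨L, hL, hok, rfl⟩ := hx
    have h1 : ∀ c : ι, PowerSeries.map ((H1_ev ρ c : Bsub ρ →ₐ[ℚ] LaurentSeries K) :
        Bsub ρ →+* LaurentSeries K) (PowerSeries.map (algebraMap ℚ (Bsub ρ)) (Z L)) =
        PowerSeries.map (algebraMap ℚ (LaurentSeries K)) (Z L) := by
      intro c
      ext1 n
      rw [coeff_map, coeff_map, coeff_map]
      exact (H1_ev ρ c).commutes _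
    have hmem : PowerSeries.map (algebraMap ℚ K) (Z L) ∈ qM K (okb p) w :=
      Submodule.subset_span ⟨L, hL, hok, rfl⟩
    simp only [h1]
    refine ⟨?_, ⟨_, hmem, ?_⟩, ⟨?_, ?_⟩, ?_⟩
    · intro c i hi
      rw [H1_cz, if_neg hi.ne]
    · intro c
      rw [H1_cz, if_pos rfl]
    · intro c
      rw [H1_cz, if_neg one_ne_zero]
      exact zero_mem _
    · refine sum_eq_zero fun c _ => ?_
      rw [H1_cz, if_neg one_ne_zero, smul_zero]
    · intro c
      rw [H1_cz, if_neg two_ne_zero]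
      exact zero_mem _
  | zero =>
    have h0 := FAp_zero (ρ := ρ) (p := p) w
    convert h0 using 1
    funext c
    rw [map_zero]
    rfl
  | add x y _ _ hx hy =>
    have h0 := FAp_add hx hy
    convert h0 using 1
    funext c
    rw [map_add]
    rfl
  | smul b x _ hx =>
    have h2 : Bf ρ (b : ι → LaurentSeries K) := b.2
    have := FAp_mul (FAp_C (p := p) h2) hx
    rw [zero_add] at this
    convert this using 1
    funext c
    rw [PowerSeries.smul_eq_C_mul, map_mul, PowerSeries.map_C]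
    rfl

end

theorem uni_FA {K : Type*} [Field K] [CharZero K] {ι : Type*} [Fintype ι] {ρ : ι → K} (p : Bool)
    {l a b : ι → LaurentSeries K} (hl : Bf ρ l) (ha : Bf ρ a) (hb : Bf ρ b)
    (hp : p = true → ∀ c, 2 * l c = a c + b c) (d : ℕ →₀ ℕ) :
    ∃ G : ι → (LaurentSeries K)⟦X⟧, FAp ρ p (wt d) G ∧ ∀ c,
      qs (fun s => mon (fun k => chs (l c) (a c) (b c) k s) d) =
        qs (fun _ => (1 : LaurentSeries K)) * G c := by
  obtain ⟨G, hG, hq⟩ := uni (Λ := Bsub ρ) p ⟨l, hl⟩ ⟨a, ha⟩ ⟨b, hb⟩ (by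
    intro hpt
    apply Subtype.ext
    funext c
    exact hp hpt c) d
  refine ⟨_, H1_FAp p hG, fun c => ?_⟩
  have h1 := congrArg (PowerSeries.map ((H1_ev ρ c : Bsub ρ →ₐ[ℚ] LaurentSeries K) :
      Bsub ρ →+* LaurentSeries K)) hq
  rw [map_mul, H1_map_qs, H1_map_qs] at h1
  simp only [H1_map_mon, H1_map_chs, map_one] at h1
  exact h1

end MPa7fa83.Cs
end

section

/-!
# G10b: the contribution of an element of `VV`

Linear in `F`, so take a generator `F = d^n' h^j β^i x^e`.  By `Yh_pow` we get combinations of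
`SE n' (j + j' - 2) * qs (ck^e)` and `SE n' (j + j' - 2) * qs (ck^e ck_a)` (`h^{-2} h^j h^{j'}`;
note `j ≥ n' ≥ 1`, `j' ≥ 1`, both `j'` and `j - n' + 1` odd), with `j + j' - 2 = (n' - 1) + 2 m`; use
`SE_mem` (with `n' - 1` for `n`) and `uni` (`p = true`, `a = -1`, `b = 1`, `l = 0`:
`chs_ck`), `qM_mul`, `QP_map_mem`.  The sum over `h ∈ Icc 1 n`, `d ∈ Icc 1 n`, `d h ≤ n` and
`r ∈ dg (n - d h)` is the coefficient `n` of the product of the two `q`-series.
Weights: `2 (n' - 1) + 2 m + 2 + wt e + (a + 2) = w - 2 k`.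
-/

set_option autoImplicit false

namespace MPa7fa83.Cs

open Finset PowerSeries MPa7fa83.Ok

/-- the series of a function of `d, h` and a diagram -/
private noncomputable def Ps (K : ℕ → ℕ → Finset (ℕ × ℕ) → ℚ) : ℚ⟦X⟧ :=
  PowerSeries.mk fun n => ∑ h ∈ Icc 1 n, ∑ d ∈ (Icc 1 n).filter (fun d => d * h ≤ n),
    ∑ r ∈ dg (n - d * h), K d h r

private lemma Ps_congr {K K' : ℕ → ℕ → Finset (ℕ × ℕ) → ℚ}
    (h : ∀ d h r, 1 ≤ h → K d h r = K' d h r) : Ps K = Ps K' := by
  ext n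
  unfold Ps
  rw [coeff_mk, coeff_mk]
  refine sum_congr rfl fun x hx => sum_congr rfl fun d _ => sum_congr rfl fun r _ => ?_
  exact h d x r (mem_Icc.1 hx).1

private lemma Ps_add (K K' : ℕ → ℕ → Finset (ℕ × ℕ) → ℚ) :
    Ps (fun d h r => K d h r + K' d h r) = Ps K + Ps K' := by
  ext n
  rw [map_add]
  unfold Ps
  simp only [coeff_mk, sum_add_distrib]

private lemma Ps_smul (a : ℚ) (K : ℕ → ℕ → Finset (ℕ × ℕ) → ℚ) :
    Ps (fun d h r => a * K d h r) = a • Ps K := by
  ext n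
  rw [PowerSeries.coeff_smul, smul_eq_mul]
  unfold Ps
  simp only [coeff_mk, mul_sum]

private lemma Ps_zero : Ps (fun _ _ _ => 0) = 0 := by
  ext n
  unfold Ps
  simp

private lemma Ps_sum {κ : Type*} (T : Finset κ) (K : κ → ℕ → ℕ → Finset (ℕ × ℕ) → ℚ) :
    Ps (fun d h r => ∑ t ∈ T, K t d h r) = ∑ t ∈ T, Ps (K t) := by
  classical
  induction T using Finset.induction_on with
  | empty => simpa using Ps_zero
  | insert a s ha ih =>
    rw [sum_insert ha, ← ih, ← Ps_add]
    refine Ps_congr fun d h r _ => ?_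
    rw [sum_insert ha]

private lemma conv2 (n : ℕ) (a : ℕ → ℕ → ℚ) (g : ℕ → ℚ) :
    ∑ h ∈ Icc 1 n, ∑ d ∈ (Icc 1 n).filter (fun d => d * h ≤ n), a d h * g (n - d * h) =
      ∑ p ∈ Finset.HasAntidiagonal.antidiagonal n,
        (∑ y ∈ p.1.divisorsAntidiagonal, a y.1 y.2) * g p.2 := by
  have h1 : ∀ p ∈ Finset.HasAntidiagonal.antidiagonal n,
      (∑ y ∈ p.1.divisorsAntidiagonal, a y.1 y.2) * g p.2 =
      ∑ h ∈ Icc 1 n, ∑ d ∈ Icc 1 n, if d * h = p.1 then a d h * g p.2 else 0 := by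
    intro p hp
    rw [Finset.HasAntidiagonal.mem_antidiagonal] at hp
    rw [sum_comm, ← sum_product', ← sum_filter, sum_mul]
    refine sum_congr ?_ fun _ _ => rfl
    ext y
    rw [Nat.mem_divisorsAntidiagonal, mem_filter, mem_product, mem_Icc, mem_Icc]
    constructor
    · rintro ⟨h2, h3⟩
      have h4 : y.1 ≠ 0 := by
        intro h0
        apply h3
        rw [← h2, h0, zero_mul]
      have h5 : y.2 ≠ 0 := by
        intro h0
        apply h3
        rw [← h2, h0, mul_zero]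
      have h6 : y.1 ≤ p.1 := by
        rw [← h2]
        exact Nat.le_mul_of_pos_right _ (by omega)
      have h7 : y.2 ≤ p.1 := by
        rw [← h2]
        exact Nat.le_mul_of_pos_left _ (by omega)
      exact ⟨⟨⟨by omega, by omega⟩, ⟨by omega, by omega⟩⟩, h2⟩
    · rintro ⟨⟨⟨h2, _⟩, ⟨h3, _⟩⟩, h4⟩
      refine ⟨h4, ?_⟩
      rw [← h4]
      exact Nat.mul_ne_zero (by omega) (by omega)
  rw [Finset.sum_congr rfl h1, Finset.sum_comm]
  refine Finset.sum_congr rfl fun h hh => ?_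
  rw [Finset.sum_comm, Finset.sum_filter]
  refine Finset.sum_congr rfl fun d hd => ?_
  by_cases hdn : d * h ≤ n
  · rw [if_pos hdn, Finset.sum_eq_single (d * h, n - d * h)]
    · simp
    · intro p hp hp'
      rw [Finset.HasAntidiagonal.mem_antidiagonal] at hp
      rw [if_neg]
      intro h3
      apply hp'
      ext
      · exact h3.symm
      · simp only
        omega
    · intro h3
      exfalso
      apply h3
      rw [Finset.HasAntidiagonal.mem_antidiagonal]
      simp only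
      omega
  · rw [if_neg hdn]
    symm
    refine Finset.sum_eq_zero fun p hp => ?_
    rw [Finset.HasAntidiagonal.mem_antidiagonal] at hp
    rw [if_neg]
    intro h3
    omega

private lemma Ps_main (n J : ℕ) (ψ : Finset (ℕ × ℕ) → ℚ) :
    Ps (fun d h r => (d : ℚ) ^ n * (h : ℚ) ^ J * ψ r) = SE n J * qs ψ := by
  ext N
  rw [coeff_mul]
  unfold Ps SE qs
  simp only [coeff_mk]
  rw [← conv2 N (fun d h => (d : ℚ) ^ n * (h : ℚ) ^ J) (fun m => ∑ r ∈ dg m, ψ r)]
  refine sum_congr rfl fun h _ => sum_congr rfl fun d _ => ?_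
  rw [mul_sum]

/-- multiples of `qs 1` -/
private noncomputable def PW (w : ℕ) : Submodule ℚ ℚ⟦X⟧ :=
  (qM ℚ (okb true) w).map (LinearMap.mulLeft ℚ (qs (fun _ => (1 : ℚ))))

private lemma mem_PW {w : ℕ} {f : ℚ⟦X⟧} :
    f ∈ PW w ↔ ∃ G ∈ qM ℚ (okb true) w, qs (fun _ => (1 : ℚ)) * G = f := by
  unfold PW
  rw [Submodule.mem_map]
  rfl

private lemma qM_up {v w k : ℕ} (h : v + 2 * k = w) {f : ℚ⟦X⟧} (hf : f ∈ qM ℚ (okb true) v) :
    f ∈ qM ℚ (okb true) w := by
  unfold qM at hf ⊢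
  refine Submodule.span_mono ?_ hf
  rintro g ⟨l, h1, ⟨k', h2⟩, h3⟩
  exact ⟨l, h1, ⟨k' + k, by omega⟩, h3⟩

private lemma SE_qs {w : ℕ} (n M k : ℕ) (e : ℕ →₀ ℕ) (h : 2 * n + 2 * M + 2 + wt e + 2 * k = w) :
    SE (n + 1) (n + 2 * M) * qs (fun r => mon (fun k => ck k r) e) ∈ PW w := by
  obtain ⟨G, hG, hG'⟩ := uni true (0 : ℚ) (-1) 1 (fun _ => by norm_num) e
  have h1 : (fun s => mon (fun k => chs (0 : ℚ) (-1) 1 k s) e) =
      (fun r => mon (fun k => ck k r) e) := by
    funext s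
    simp only [chs_ck]
  rw [h1] at hG'
  rw [mem_PW]
  refine ⟨SE (n + 1) (n + 2 * M) * G, ?_, ?_⟩
  · refine qM_up h (qM_mul (okb_rel true) ?_ hG)
    have h2 := QP_map_mem (Λ := ℚ) (okb_rel true) (okb_refl true (2 * n + 2 * M + 2))
      (SE_mem n M)
    have h3 : PowerSeries.map (algebraMap ℚ ℚ) (SE (n + 1) (n + 2 * M)) =
        SE (n + 1) (n + 2 * M) := by
      ext m
      rw [PowerSeries.coeff_map]
      rfl
    rwa [h3] at h2
  · rw [hG']
    ring

private lemma wt_add_single (e : ℕ →₀ ℕ) (a : ℕ) : wt (e + Finsupp.single a 1) = wt e + (a + 2) := by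
  unfold wt
  rw [Finsupp.sum_add_index' (fun _ => by simp) (fun _ _ _ => by ring),
    Finsupp.sum_single_index (by simp)]
  ring

private lemma gen_gen {w : ℕ} (n j i : ℕ) (e : ℕ →₀ ℕ) (hn : 1 ≤ n) (hj : ∃ m, j = n + 2 * m)
    (hw : ∃ k, n + j + i + wt e + 2 * k = w) :
    Ps (fun d h r => ((h : ℚ) ^ 2)⁻¹ * Yh h (fun β => (d : ℚ) ^ n * (h : ℚ) ^ j * β ^ i *
      mon (fun k => ck k r) e) r) ∈ PW w := by
  obtain ⟨c, c', hc, hc', hY⟩ := Yh_pow i
  obtain ⟨m, rfl⟩ := hj
  obtain ⟨k, hk⟩ := hw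
  obtain ⟨n, rfl⟩ : ∃ n', n = n' + 1 := ⟨n - 1, by omega⟩
  have h1 : Ps (fun d h r => ((h : ℚ) ^ 2)⁻¹ * Yh h (fun β => (d : ℚ) ^ (n + 1) *
      (h : ℚ) ^ (n + 1 + 2 * m) * β ^ i * mon (fun k => ck k r) e) r) =
      Ps (fun d h r => ∑ j ∈ range (i + 2), c j * ((d : ℚ) ^ (n + 1) *
        (h : ℚ) ^ (n + 2 * m + j - 1) * mon (fun k => ck k r) e) +
        ∑ j ∈ range (i + 2), ∑ a ∈ range (i + 2), c' j a * ((d : ℚ) ^ (n + 1) *
        (h : ℚ) ^ (n + 2 * m + j - 1) * mon (fun k => ck k r) (e + Finsupp.single a 1))) := by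
    refine Ps_congr fun d h r hh => ?_
    have h2 : (fun β : ℚ => (d : ℚ) ^ (n + 1) *
      (h : ℚ) ^ (n + 1 + 2 * m) * β ^ i * mon (fun k => ck k r) e) =
      (fun β => ((d : ℚ) ^ (n + 1) *
      (h : ℚ) ^ (n + 1 + 2 * m) * mon (fun k => ck k r) e) * β ^ i) := by
      funext β
      ring
    have hh0 : (h : ℚ) ≠ 0 := by
      have : h ≠ 0 := by omega
      exact_mod_cast this
    have h4 : ∀ j, j % 2 = 1 → ((h : ℚ) ^ 2)⁻¹ * ((h : ℚ) ^ (n + 1 + 2 * m) * (h : ℚ) ^ j) =
        (h : ℚ) ^ (n + 2 * m + j - 1) := by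
      intro j hj
      rw [inv_mul_eq_iff_eq_mul₀ (pow_ne_zero _ hh0), ← pow_add, ← pow_add]
      congr 1
      omega
    rw [h2, Yh_smul, hY, mul_add, mul_add, mul_sum, mul_sum, mul_sum, mul_sum]
    congr 1
    · refine sum_congr rfl fun j _ => ?_
      by_cases h3 : c j = 0
      · rw [h3]; ring
      · rw [← h4 j (hc j h3).1]
        ring
    · refine sum_congr rfl fun j _ => ?_
      rw [mul_sum, mul_sum]
      refine sum_congr rfl fun a _ => ?_
      by_cases h3 : c' j a = 0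
      · rw [h3]; ring
      · rw [← h4 j (hc' j a h3).1, mon_add, mon_single]
        ring
  rw [h1, Ps_add, Ps_sum, Ps_sum]
  refine add_mem (Submodule.sum_mem _ fun j _ => ?_) (Submodule.sum_mem _ fun j _ => ?_)
  · rw [Ps_smul]
    by_cases h3 : c j = 0
    · rw [h3, zero_smul]
      exact zero_mem _
    · refine Submodule.smul_mem _ _ ?_
      obtain ⟨h4, k', h5⟩ := hc j h3
      rw [Ps_main]
      have h6 : n + 2 * m + j - 1 = n + 2 * (m + j / 2) := by omega
      rw [h6]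
      refine SE_qs n (m + j / 2) (k + k') e ?_
      omega
  · rw [Ps_sum]
    refine Submodule.sum_mem _ fun a _ => ?_
    rw [Ps_smul]
    by_cases h3 : c' j a = 0
    · rw [h3, zero_smul]
      exact zero_mem _
    · refine Submodule.smul_mem _ _ ?_
      obtain ⟨h4, k', h5⟩ := hc' j a h3
      rw [Ps_main]
      have h6 : n + 2 * m + j - 1 = n + 2 * (m + j / 2) := by omega
      rw [h6]
      refine SE_qs n (m + j / 2) (k + k') _ ?_
      rw [wt_add_single]
      omega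

/-- the contribution of a generator -/
theorem gen_part {w : ℕ} {F : Fn} (hF : F ∈ VV w) : ∃ G ∈ qM ℚ (okb true) w,
    (PowerSeries.mk fun n => ∑ h ∈ Icc 1 n, ∑ d ∈ (Icc 1 n).filter (fun d => d * h ≤ n),
      ((h : ℚ) ^ 2)⁻¹ * ∑ r ∈ dg (n - d * h), Yh h (fun β => F d h β (fun k => ck k r)) r) =
    qs (fun _ => (1 : ℚ)) * G := by
  have h1 : ∀ F : Fn, (PowerSeries.mk fun n => ∑ h ∈ Icc 1 n,
      ∑ d ∈ (Icc 1 n).filter (fun d => d * h ≤ n),
      ((h : ℚ) ^ 2)⁻¹ * ∑ r ∈ dg (n - d * h), Yh h (fun β => F d h β (fun k => ck k r)) r) =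
      Ps (fun d h r => ((h : ℚ) ^ 2)⁻¹ * Yh h (fun β => F d h β (fun k => ck k r)) r) := by
    intro F
    unfold Ps
    simp only [mul_sum]
  rw [h1]
  have h2 : Ps (fun d h r => ((h : ℚ) ^ 2)⁻¹ * Yh h (fun β => F d h β (fun k => ck k r)) r) ∈
      PW w := by
    unfold VV at hF
    induction hF using Submodule.span_induction with
    | mem x hx =>
      obtain ⟨n, j, i, e, hn, hj, hw, rfl⟩ := hx
      exact gen_gen n j i e hn hj hw
    | zero =>
      have h3 : Ps (fun d h r => ((h : ℚ) ^ 2)⁻¹ *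
          Yh h (fun β => (0 : Fn) d h β (fun k => ck k r)) r) = Ps (fun _ _ _ => 0) := by
        refine Ps_congr fun d h r _ => ?_
        have h4 := Yh_const h 0 r
        simp only [Pi.zero_apply]
        rw [h4, mul_zero, mul_zero]
      rw [h3, Ps_zero]
      exact zero_mem _
    | add x y _ _ hx hy =>
      have h3 : Ps (fun d h r => ((h : ℚ) ^ 2)⁻¹ *
          Yh h (fun β => (x + y) d h β (fun k => ck k r)) r) =
          Ps (fun d h r => ((h : ℚ) ^ 2)⁻¹ * Yh h (fun β => x d h β (fun k => ck k r)) r +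
            ((h : ℚ) ^ 2)⁻¹ * Yh h (fun β => y d h β (fun k => ck k r)) r) := by
        refine Ps_congr fun d h r _ => ?_
        simp only [Pi.add_apply]
        rw [Yh_add, mul_add]
      rw [h3, Ps_add]
      exact add_mem hx hy
    | smul a x _ hx =>
      have h3 : Ps (fun d h r => ((h : ℚ) ^ 2)⁻¹ *
          Yh h (fun β => (a • x) d h β (fun k => ck k r)) r) =
          Ps (fun d h r => a * (((h : ℚ) ^ 2)⁻¹ *
            Yh h (fun β => x d h β (fun k => ck k r)) r)) := by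
        refine Ps_congr fun d h r _ => ?_
        simp only [Pi.smul_apply, smul_eq_mul]
        rw [Yh_smul]
        ring
      rw [h3, Ps_smul]
      exact Submodule.smul_mem _ _ hx
  rw [mem_PW] at h2
  obtain ⟨G, hG, hG'⟩ := h2
  exact ⟨G, hG, hG'.symm⟩

end MPa7fa83.Cs
end

section

/-!
# G10: the covariance with `∑ 1/hook²`

`Tm r = ∑_{h ≥ 1} hk h r / h²` (`Tm_hk`).  For `f = mon · e`, by `rim`,
`coeff n (qs (Tm f)) = ∑_{h d ≤ n} h⁻² ∑_{r ∈ dg (n - d h)} Yh h (β ↦ f (ck r + d Dl)) r`.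
Write `f (x + d Dl) = f x + F d h β x`, `F ∈ VV (wt e)` (`shift_mem`).
The part `f x`: `Yh` of a constant is `h f` (`Yh_const`), giving `(∑ h⁻¹ q^{hd}) * qs f`; for `e = 0`
this says `qs Tm = (∑ h⁻¹ q^{hd}) qs 1`; so this part times `qs 1` is `qs Tm * qs f`.
The part `F` is `gen_part`.
-/

set_option autoImplicit false

namespace MPa7fa83.Cs

open Finset PowerSeries MPa7fa83.Ok

/-- `∑ h⁻¹ q^{hd}` -/
private noncomputable def AA : ℚ⟦X⟧ :=
  PowerSeries.mk fun n => ∑ h ∈ Icc 1 n, ∑ _d ∈ (Icc 1 n).filter (fun d => d * h = n),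
    ((h : ℚ) ^ 2)⁻¹ * h

private lemma conv_aux (n : ℕ) (a g : ℕ → ℚ) :
    ∑ h ∈ Icc 1 n, ∑ d ∈ (Icc 1 n).filter (fun d => d * h ≤ n), a h * g (n - d * h) =
      ∑ p ∈ Finset.HasAntidiagonal.antidiagonal n,
        (∑ h ∈ Icc 1 p.1, ∑ d ∈ (Icc 1 p.1).filter (fun d => d * h = p.1), a h) * g p.2 := by
  have h1 : ∀ p ∈ Finset.HasAntidiagonal.antidiagonal n,
      (∑ h ∈ Icc 1 p.1, ∑ d ∈ (Icc 1 p.1).filter (fun d => d * h = p.1), a h) * g p.2 =
      ∑ h ∈ Icc 1 n, ∑ d ∈ Icc 1 n, if d * h = p.1 then a h * g p.2 else 0 := by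
    intro p hp
    rw [Finset.HasAntidiagonal.mem_antidiagonal] at hp
    rw [Finset.sum_mul]
    have h2 : Icc 1 p.1 ⊆ Icc 1 n := Finset.Icc_subset_Icc le_rfl (by omega)
    rw [← Finset.sum_subset h2]
    · refine Finset.sum_congr rfl fun h hh => ?_
      rw [← Finset.sum_subset h2]
      · rw [Finset.sum_mul, Finset.sum_filter]
      · intro d hd hd'
        rw [if_neg]
        intro h3
        apply hd'
        rw [Finset.mem_Icc] at hd hh ⊢
        refine ⟨hd.1, ?_⟩
        calc d = d * 1 := (mul_one d).symm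
          _ ≤ d * h := Nat.mul_le_mul_left d hh.1
          _ = p.1 := h3
    · intro h hh hh'
      refine Finset.sum_eq_zero fun d hd => ?_
      rw [if_neg]
      intro h3
      apply hh'
      rw [Finset.mem_Icc] at hd hh ⊢
      refine ⟨hh.1, ?_⟩
      calc h = 1 * h := (one_mul h).symm
        _ ≤ d * h := Nat.mul_le_mul_right h hd.1
        _ = p.1 := h3
  rw [Finset.sum_congr rfl h1, Finset.sum_comm]
  refine Finset.sum_congr rfl fun h hh => ?_
  rw [Finset.sum_comm, Finset.sum_filter]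
  refine Finset.sum_congr rfl fun d hd => ?_
  by_cases hdn : d * h ≤ n
  · rw [if_pos hdn, Finset.sum_eq_single (d * h, n - d * h)]
    · simp
    · intro p hp hp'
      rw [Finset.HasAntidiagonal.mem_antidiagonal] at hp
      rw [if_neg]
      intro h3
      apply hp'
      ext
      · exact h3.symm
      · simp only
        omega
    · intro h3
      exfalso
      apply h3
      rw [Finset.HasAntidiagonal.mem_antidiagonal]
      simp only
      omega
  · rw [if_neg hdn]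
    symm
    refine Finset.sum_eq_zero fun p hp => ?_
    rw [Finset.HasAntidiagonal.mem_antidiagonal] at hp
    rw [if_neg]
    intro h3
    omega

private lemma Tm_part (f : (ℕ → ℚ) → ℚ) (F : Fn)
    (hF : ∀ (d h : ℕ) (β : ℚ) (x : ℕ → ℚ), f (fun k => x k + (d : ℚ) * Dl h k β) =
      f x + F d h β x) :
    qs (fun r => Tm r * f (fun k => ck k r)) = AA * qs (fun r => f (fun k => ck k r)) +
      PowerSeries.mk fun n => ∑ h ∈ Icc 1 n, ∑ d ∈ (Icc 1 n).filter (fun d => d * h ≤ n),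
        ((h : ℚ) ^ 2)⁻¹ * ∑ r ∈ dg (n - d * h), Yh h (fun β => F d h β (fun k => ck k r)) r := by
  ext n
  rw [map_add, PowerSeries.coeff_mul, coeff_mk]
  have h1 : coeff n (qs (fun r => Tm r * f (fun k => ck k r))) =
      ∑ h ∈ Icc 1 n, ∑ d ∈ (Icc 1 n).filter (fun d => d * h ≤ n),
        ((h : ℚ) ^ 2)⁻¹ * ∑ r ∈ dg (n - d * h),
          ((h : ℚ) * f (fun k => ck k r) + Yh h (fun β => F d h β (fun k => ck k r)) r) := by
    rw [qs, coeff_mk]
    have h2 : ∀ r ∈ dg n, Tm r * f (fun k => ck k r) =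
        ∑ h ∈ Icc 1 n, ((h : ℚ) ^ 2)⁻¹ * (hk h r * f (fun k => ck k r)) := by
      intro r hr
      rw [Tm_hk hr, Finset.sum_mul]
      refine Finset.sum_congr rfl fun h _ => ?_
      ring
    rw [Finset.sum_congr rfl h2, Finset.sum_comm]
    refine Finset.sum_congr rfl fun h hh => ?_
    rw [← Finset.mul_sum, rim n h (Finset.mem_Icc.1 hh).1 f, Finset.mul_sum]
    refine Finset.sum_congr rfl fun d _ => ?_
    congr 1
    refine Finset.sum_congr rfl fun r _ => ?_
    simp only [hF]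
    rw [Yh_add, Yh_const]
  rw [h1]
  have h3 : ∀ h ∈ Icc 1 n, ∑ d ∈ (Icc 1 n).filter (fun d => d * h ≤ n),
      ((h : ℚ) ^ 2)⁻¹ * ∑ r ∈ dg (n - d * h),
        ((h : ℚ) * f (fun k => ck k r) + Yh h (fun β => F d h β (fun k => ck k r)) r) =
      ∑ d ∈ (Icc 1 n).filter (fun d => d * h ≤ n),
        (((h : ℚ) ^ 2)⁻¹ * h) * (∑ r ∈ dg (n - d * h), f (fun k => ck k r)) +
      ∑ d ∈ (Icc 1 n).filter (fun d => d * h ≤ n),
        ((h : ℚ) ^ 2)⁻¹ * ∑ r ∈ dg (n - d * h), Yh h (fun β => F d h β (fun k => ck k r)) r := by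
    intro h _
    rw [← Finset.sum_add_distrib]
    refine Finset.sum_congr rfl fun d _ => ?_
    rw [Finset.sum_add_distrib, ← Finset.mul_sum]
    ring
  rw [Finset.sum_congr rfl h3, Finset.sum_add_distrib]
  congr 1
  rw [conv_aux n (fun h => ((h : ℚ) ^ 2)⁻¹ * h) (fun m => ∑ r ∈ dg m, f (fun k => ck k r))]
  refine Finset.sum_congr rfl fun p _ => ?_
  rw [AA, qs, coeff_mk, coeff_mk]

theorem cov (e : ℕ →₀ ℕ) : ∃ G ∈ qM ℚ (okb true) (wt e),
    qs (fun r => Tm r * mon (fun k => ck k r) e) * qs (fun _ => (1 : ℚ)) =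
      qs Tm * qs (fun r => mon (fun k => ck k r) e) + qs (fun _ => (1 : ℚ)) ^ 2 * G := by
  obtain ⟨G, hG, hG'⟩ := gen_part (shift_mem e)
  refine ⟨G, hG, ?_⟩
  have h1 := Tm_part (fun x => mon x e)
    (fun (d h : ℕ) (β : ℚ) (x : ℕ → ℚ) => mon (fun k => x k + (d : ℚ) * Dl h k β) e - mon x e)
    (fun d h β x => by simp)
  have h2 := Tm_part (fun _ => (1 : ℚ)) (fun _ _ _ _ => 0) (fun d h β x => by simp)
  have h3 : (PowerSeries.mk fun n => ∑ h ∈ Icc 1 n, ∑ d ∈ (Icc 1 n).filter (fun d => d * h ≤ n),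
        ((h : ℚ) ^ 2)⁻¹ * ∑ r ∈ dg (n - d * h), Yh h (fun _ => (0 : ℚ)) r) = 0 := by
    ext n
    rw [coeff_mk, map_zero]
    refine Finset.sum_eq_zero fun h _ => Finset.sum_eq_zero fun d _ => ?_
    rw [Finset.sum_eq_zero (fun r _ => by rw [Yh_const, mul_zero]), mul_zero]
  rw [h3, add_zero] at h2
  simp only [mul_one] at h2
  rw [h1, hG']
  have h4 : qs Tm = AA * qs (fun _ => (1 : ℚ)) := h2
  rw [h4]
  ring

end MPa7fa83.Cs
end

section

/-!
# H3: the covariance over `K`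

`chs l (-m) m k r = ∑_{j ≤ k} l^{k-j}/(k-j)! m^j ck j r` (only `j = k` if `l = 0`); expand the
products and use `cov`, which is linear.  `algebraMap ℚ K` maps `qM ℚ` to `qM K`.
-/

set_option autoImplicit false

namespace MPa7fa83.Cs

open Finset PowerSeries MPa7fa83.Ok

section

variable {K : Type*} [Field K] [CharZero K]

/-- the span of the monomials in the `ck` of allowed weight -/
private def SK (K : Type*) [Field K] [CharZero K] (p : Bool) (w : ℕ) :
    Submodule K (Finset (ℕ × ℕ) → K) :=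
  Submodule.span K {φ | ∃ e : ℕ →₀ ℕ, okb p (wt e) w ∧
    φ = fun r => algebraMap ℚ K (mon (fun k => ck k r) e)}

private lemma SK_one (p : Bool) : (1 : Finset (ℕ × ℕ) → K) ∈ SK K p 0 := by
  refine Submodule.subset_span ⟨0, ?_, ?_⟩
  · rw [wt_zero']
    exact (okb_rel p).zero
  · funext r
    rw [mon_zero, map_one]
    rfl

private lemma SK_mul {p : Bool} {a b : ℕ} {φ ψ : Finset (ℕ × ℕ) → K} (hφ : φ ∈ SK K p a)
    (hψ : ψ ∈ SK K p b) : φ * ψ ∈ SK K p (a + b) := by
  unfold SK at hφ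
  induction hφ using Submodule.span_induction with
  | mem x hx =>
    obtain ⟨e, he, rfl⟩ := hx
    unfold SK at hψ
    induction hψ using Submodule.span_induction with
    | mem y hy =>
      obtain ⟨e', he', rfl⟩ := hy
      refine Submodule.subset_span ⟨e + e', ?_, ?_⟩
      · rw [wt_add]
        exact (okb_rel p).add he he'
      · funext r
        rw [mon_add, map_mul]
        rfl
    | zero => rw [mul_zero]; exact zero_mem _
    | add x y _ _ hx hy => rw [mul_add]; exact add_mem hx hy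
    | smul c x _ hx => rw [mul_smul_comm]; exact Submodule.smul_mem _ _ hx
  | zero => rw [zero_mul]; exact zero_mem _
  | add x y _ _ hx hy => rw [add_mul]; exact add_mem hx hy
  | smul c x _ hx => rw [smul_mul_assoc]; exact Submodule.smul_mem _ _ hx

private lemma SK_pow {p : Bool} {a : ℕ} {φ : Finset (ℕ × ℕ) → K} (hφ : φ ∈ SK K p a) (n : ℕ) :
    φ ^ n ∈ SK K p (n * a) := by
  induction n with
  | zero => simpa using SK_one (K := K) p
  | succ n ih =>
    rw [pow_succ, Nat.succ_mul]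
    exact SK_mul ih hφ

private lemma SK_ck {p : Bool} {j w : ℕ} (h : okb p (j + 2) w) :
    (fun r => algebraMap ℚ K (ck j r)) ∈ SK K p w := by
  refine Submodule.subset_span ⟨Finsupp.single j 1, ?_, ?_⟩
  · rw [wt_single, one_mul]
    exact h
  · funext r
    rw [mon_single, pow_one]

private lemma chs_expand (l m : K) (k : ℕ) (r : Finset (ℕ × ℕ)) :
    chs l (-m) m k r = ∑ j ∈ range (k + 1),
      (m ^ j * (l ^ (k - j) * algebraMap ℚ K (((k - j).factorial : ℚ)⁻¹))) *
        algebraMap ℚ K (ck j r) := by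
  have h1 : ∀ e : ℕ × ℕ, cn (-m) m e = m * algebraMap ℚ K (ct e) := by
    intro e
    unfold cn ct
    rw [map_sub, map_natCast, map_natCast]
    ring
  unfold chs ck
  simp only [map_sum, Finset.mul_sum]
  rw [Finset.sum_comm]
  refine Finset.sum_congr rfl fun e _ => ?_
  rw [h1, add_comm l, add_pow, Finset.mul_sum]
  refine Finset.sum_congr rfl fun j hj => ?_
  have hj' : j ≤ k := Nat.lt_succ_iff.mp (Finset.mem_range.mp hj)
  have h2 : (algebraMap ℚ K ((k.factorial : ℚ)⁻¹)) * (k.choose j : K) =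
      algebraMap ℚ K (((k - j).factorial : ℚ)⁻¹) * algebraMap ℚ K ((j.factorial : ℚ)⁻¹) := by
    rw [← map_natCast (algebraMap ℚ K) (k.choose j), ← map_mul, ← map_mul]
    congr 1
    have h3 : (k.choose j : ℚ) * j.factorial * (k - j).factorial = k.factorial := by
      exact_mod_cast Nat.choose_mul_factorial_mul_factorial hj'
    have h4 : (k.factorial : ℚ) ≠ 0 := by exact_mod_cast k.factorial_ne_zero
    have h5 : (j.factorial : ℚ) ≠ 0 := by exact_mod_cast j.factorial_ne_zero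
    have h6 : ((k - j).factorial : ℚ) ≠ 0 := by exact_mod_cast (k - j).factorial_ne_zero
    field_simp
    linarith
  rw [map_mul, map_pow, mul_pow]
  calc algebraMap ℚ K ((k.factorial : ℚ)⁻¹) *
        (m ^ j * (algebraMap ℚ K (ct e)) ^ j * l ^ (k - j) * (k.choose j : K))
      = (algebraMap ℚ K ((k.factorial : ℚ)⁻¹) * (k.choose j : K)) *
        (m ^ j * (algebraMap ℚ K (ct e)) ^ j * l ^ (k - j)) := by ring
    _ = _ := by rw [h2]; ring

private lemma SK_chs {p : Bool} (l m : K) (hp : p = true → l = 0) (k : ℕ) :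
    (fun r => chs l (-m) m k r) ∈ SK K p (k + 2) := by
  have h1 : (fun r => chs l (-m) m k r) = ∑ j ∈ range (k + 1),
      (m ^ j * (l ^ (k - j) * algebraMap ℚ K (((k - j).factorial : ℚ)⁻¹))) •
        (fun r => algebraMap ℚ K (ck j r)) := by
    funext r
    rw [chs_expand, Finset.sum_apply]
    rfl
  rw [h1]
  refine Submodule.sum_mem _ fun j hj => ?_
  have hj' : j ≤ k := Nat.lt_succ_iff.mp (Finset.mem_range.mp hj)
  cases p with
  | false =>
    refine Submodule.smul_mem _ _ (SK_ck ?_)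
    show j + 2 ≤ k + 2
    omega
  | true =>
    rcases Nat.lt_or_ge j k with h | h
    · have h2 : l ^ (k - j) = 0 := by
        rw [hp rfl]
        exact zero_pow (by omega)
      rw [h2, zero_mul, mul_zero, zero_smul]
      exact zero_mem _
    · have h3 : j = k := le_antisymm hj' h
      subst h3
      exact Submodule.smul_mem _ _ (SK_ck (okb_refl true _))

private lemma SK_mon {p : Bool} (l m : K) (hp : p = true → l = 0) (d : ℕ →₀ ℕ) :
    (fun r => mon (fun k => chs l (-m) m k r) d) ∈ SK K p (wt d) := by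
  induction d using Finsupp.induction_linear with
  | zero =>
    rw [wt_zero']
    simp only [mon_zero]
    exact SK_one p
  | add d e hd he =>
    rw [wt_add]
    simp only [mon_add]
    exact SK_mul hd he
  | single k n =>
    rw [wt_single]
    simp only [mon_single]
    exact SK_pow (SK_chs l m hp k) n

private lemma map_qM {p : Bool} {a w : ℕ} (h : okb p a w) {g : ℚ⟦X⟧} (hg : g ∈ qM ℚ (okb true) a) :
    PowerSeries.map (algebraMap ℚ K) g ∈ qM K (okb p) w := by
  unfold qM at hg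
  induction hg using Submodule.span_induction with
  | mem x hx =>
    obtain ⟨l, hl, ⟨k, hk⟩, rfl⟩ := hx
    refine Submodule.subset_span ⟨l, hl, (okb_rel p).down (k := k) (by rwa [hk]), ?_⟩
    have : algebraMap ℚ ℚ = RingHom.id ℚ := rfl
    rw [this, PowerSeries.map_id]
    rfl
  | zero => rw [map_zero]; exact zero_mem _
  | add x y _ _ hx hy => rw [map_add]; exact add_mem hx hy
  | smul c x _ hx =>
    rw [PowerSeries.smul_eq_C_mul, map_mul, PowerSeries.map_C, ← PowerSeries.smul_eq_C_mul]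
    exact Submodule.smul_mem _ _ hx

private lemma map_qs (φ : Finset (ℕ × ℕ) → ℚ) :
    PowerSeries.map (algebraMap ℚ K) (qs φ) = qs (fun r => algebraMap ℚ K (φ r)) := by
  ext n
  rw [PowerSeries.coeff_map]
  unfold qs
  rw [PowerSeries.coeff_mk, PowerSeries.coeff_mk, map_sum]

private lemma cov_SK {p : Bool} {w : ℕ} {φ : Finset (ℕ × ℕ) → K} (hφ : φ ∈ SK K p w) :
    ∃ G ∈ qM K (okb p) w,
      qs (fun r => algebraMap ℚ K (Tm r) * φ r) * qs (fun _ => (1 : K)) =
      qs (fun r => algebraMap ℚ K (Tm r)) * qs φ + qs (fun _ => (1 : K)) ^ 2 * G := by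
  unfold SK at hφ
  induction hφ using Submodule.span_induction with
  | mem x hx =>
    obtain ⟨e, he, rfl⟩ := hx
    obtain ⟨G, hG, hG'⟩ := cov e
    refine ⟨PowerSeries.map (algebraMap ℚ K) G, map_qM he hG, ?_⟩
    have h := congrArg (PowerSeries.map (algebraMap ℚ K)) hG'
    simp only [map_mul, map_add, map_pow, map_qs, map_one] at h
    exact h
  | zero =>
    refine ⟨0, zero_mem _, ?_⟩
    have h1 : qs (fun r => algebraMap ℚ K (Tm r) * (0 : Finset (ℕ × ℕ) → K) r) = 0 := by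
      ext n
      simp [qs]
    have h2 : qs (0 : Finset (ℕ × ℕ) → K) = 0 := by
      ext n
      simp [qs]
    rw [h1, h2]
    simp
  | add x y _ _ hx hy =>
    obtain ⟨G, hG, hG'⟩ := hx
    obtain ⟨G2, hG2, hG2'⟩ := hy
    refine ⟨G + G2, add_mem hG hG2, ?_⟩
    have h1 : qs (fun r => algebraMap ℚ K (Tm r) * (x + y) r) =
        qs (fun r => algebraMap ℚ K (Tm r) * x r) + qs (fun r => algebraMap ℚ K (Tm r) * y r) := by
      rw [← qs_add]
      congr 1
      funext r
      rw [Pi.add_apply, mul_add]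
    have h2 : qs (x + y) = qs x + qs y := qs_add x y
    rw [h1, h2, add_mul, hG', hG2']
    ring
  | smul c x _ hx =>
    obtain ⟨G, hG, hG'⟩ := hx
    refine ⟨c • G, Submodule.smul_mem _ _ hG, ?_⟩
    have h1 : qs (fun r => algebraMap ℚ K (Tm r) * (c • x) r) =
        C c * qs (fun r => algebraMap ℚ K (Tm r) * x r) := by
      rw [← qs_smul]
      congr 1
      funext r
      rw [Pi.smul_apply, smul_eq_mul]
      ring
    have h2 : qs (c • x) = C c * qs x := qs_smul c x
    rw [h1, h2, PowerSeries.smul_eq_C_mul, mul_assoc, hG']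
    ring

end

theorem covK {K : Type*} [Field K] [CharZero K] (p : Bool) (l m : K) (hp : p = true → l = 0)
    (d : ℕ →₀ ℕ) : ∃ G ∈ qM K (okb p) (wt d),
    qs (fun r => algebraMap ℚ K (Tm r) * mon (fun k => chs l (-m) m k r) d) *
      qs (fun _ => (1 : K)) =
      qs (fun r => algebraMap ℚ K (Tm r)) * qs (fun r => mon (fun k => chs l (-m) m k r) d) +
        qs (fun _ => (1 : K)) ^ 2 * G :=
  cov_SK (SK_mon l m hp d)

end MPa7fa83.Cs
end

section

/-!
# H4: the plane 34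

`t1 = - A z`, `t2 = - B z`, `t3 = - m - M z`, `t4 = m + (A + B + M) z`.  Each factor of
`wg t3 t4 t1 r` is `(t1 + W1)(t1 + W2)/(W1 W2) = 1 - t1 t2/(W1 W2)` and `W1 W2 = - m² h² + O(z)`,
`h = arm + leg + 1`; so `wg t3 t4 t1 r = 1 + (A B/m²) Tm r z² + O(z³)` (`wg_exp`).
Let `f r = mon (chs ..) d` (regular in `z`; its value at `z = 0` is `f₀ r = mon (chs l (-m) m) d`), and
`qs f = qs 1 * Gu` (`uni_FA`).  With `θ = A B/m²`, `G` with `qs (wg f) = qs wg * G` satisfies
`cz 0 G = cz 0 Gu`, `cz 1 G = cz 1 Gu`, `cz 2 G = cz 2 Gu + θ Cov`, `Cov` from `covK`.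
(First `G` is regular: `G` is `qs (wg f)` times the inverse of `qs wg`, which has constant
coefficient `1` and regular coefficients.)
-/

set_option autoImplicit false

namespace MPa7fa83.Cs

open Finset PowerSeries MPa7fa83.Ok

private lemma chs_map' {A B : Type*} [CommRing A] [Algebra ℚ A] [CommRing B] [Algebra ℚ B]
    (φ : A →+* B) (l a b : A) (k : ℕ) (s : Finset (ℕ × ℕ)) :
    φ (chs l a b k s) = chs (φ l) (φ a) (φ b) k s := by
  unfold chs cn
  rw [map_sum]
  refine Finset.sum_congr rfl fun e _ => ?_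
  rw [map_mul, map_pow, map_add, map_add, map_mul, map_mul, map_natCast, map_natCast,
    RingHom.map_rat_algebraMap]

private lemma mon_map' {A B : Type*} [CommRing A] [CommRing B] (φ : A →+* B) (x : ℕ → A)
    (d : ℕ →₀ ℕ) : φ (mon x d) = mon (fun k => φ (x k)) d := by
  unfold mon
  rw [Finsupp.prod, Finsupp.prod, map_prod]
  refine Finset.prod_congr rfl fun k _ => ?_
  rw [map_pow]

section

variable {K : Type*} [Field K]

/-- regular Laurent series -/
private def R0 (x : LaurentSeries K) : Prop := ∀ i < 0, x.coeff i = 0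

private lemma coeff_cz (i : ℤ) (f : (LaurentSeries K)⟦X⟧) (n : ℕ) :
    coeff n (cz i f) = (coeff n f).coeff i := by
  rw [cz, coeff_mk]

private lemma Reg_iff (f : (LaurentSeries K)⟦X⟧) : Reg f ↔ ∀ n, R0 (coeff n f) := by
  constructor
  · intro h n i hi
    have := congrArg (coeff n) (h i hi)
    rw [coeff_cz, map_zero] at this
    exact this
  · intro h i hi
    ext n
    rw [coeff_cz, map_zero]
    exact h n i hi

private lemma Reg_C {x : LaurentSeries K} (hx : R0 x) : Reg (C x) := by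
  rw [Reg_iff]
  intro n i hi
  rw [coeff_C]
  split_ifs
  · exact hx i hi
  · exact HahnSeries.coeff_zero

private lemma R0_mul {x y : LaurentSeries K} (hx : R0 x) (hy : R0 y) : R0 (x * y) := by
  have h := Reg_mul (Reg_C hx) (Reg_C hy)
  rw [← map_mul, Reg_iff] at h
  have h0 := h 0
  rw [coeff_C, if_pos rfl] at h0
  exact h0

private lemma coeff0_mul {x y : LaurentSeries K} (hx : R0 x) (hy : R0 y) :
    (x * y).coeff 0 = x.coeff 0 * y.coeff 0 := by
  have h := congrArg (coeff 0) (cz0_mul (Reg_C hx) (Reg_C hy))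
  rw [← map_mul, coeff_cz, coeff_C, if_pos rfl] at h
  rw [h, coeff_zero_eq_constantCoeff, map_mul, ← coeff_zero_eq_constantCoeff_apply,
    ← coeff_zero_eq_constantCoeff_apply, coeff_cz, coeff_cz, coeff_C, if_pos rfl, coeff_C,
    if_pos rfl]

private lemma coeff1_mul {x y : LaurentSeries K} (hx : R0 x) (hy : R0 y) :
    (x * y).coeff 1 = x.coeff 0 * y.coeff 1 + x.coeff 1 * y.coeff 0 := by
  have h := congrArg (coeff 0) (cz1_mul (Reg_C hx) (Reg_C hy))
  rw [← map_mul, coeff_cz, coeff_C, if_pos rfl] at h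
  rw [h, coeff_zero_eq_constantCoeff, map_add, map_mul, map_mul]
  simp only [← coeff_zero_eq_constantCoeff_apply, coeff_cz, coeff_C, if_true]

private lemma coeff2_mul {x y : LaurentSeries K} (hx : R0 x) (hy : R0 y) :
    (x * y).coeff 2 = x.coeff 0 * y.coeff 2 + x.coeff 1 * y.coeff 1 + x.coeff 2 * y.coeff 0 := by
  have h := congrArg (coeff 0) (cz2_mul (Reg_C hx) (Reg_C hy))
  rw [← map_mul, coeff_cz, coeff_C, if_pos rfl] at h
  rw [h, coeff_zero_eq_constantCoeff, map_add, map_add, map_mul, map_mul, map_mul]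
  simp only [← coeff_zero_eq_constantCoeff_apply, coeff_cz, coeff_C, if_true]

private lemma cz_qs (i : ℤ) (φ : Finset (ℕ × ℕ) → LaurentSeries K) :
    cz i (qs φ) = qs (fun r => (φ r).coeff i) := by
  ext n
  rw [coeff_cz, qs, coeff_mk, qs, coeff_mk, HahnSeries.coeff_sum]

private lemma qs_congr' {F : Type*} [CommRing F] {φ ψ : Finset (ℕ × ℕ) → F}
    (h : ∀ r, φ r = ψ r) : qs φ = qs ψ := by
  have : φ = ψ := funext h
  rw [this]

private lemma qs_zero' {F : Type*} [CommRing F] : qs (fun _ => (0 : F)) = 0 := by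
  ext n
  rw [qs, coeff_mk, map_zero]
  exact Finset.sum_const_zero

private lemma Reg_qs {φ : Finset (ℕ × ℕ) → LaurentSeries K} (h : ∀ r, R0 (φ r)) :
    Reg (qs φ) := by
  intro i hi
  rw [cz_qs, qs_congr' (fun r => h r i hi), qs_zero']

private lemma Reg_inv' {f g : (LaurentSeries K)⟦X⟧} (hf : Reg f) (h0 : constantCoeff f = 1)
    (h : f * g = 1) : Reg g := by
  rw [Reg_iff] at hf ⊢
  intro n
  induction n using Nat.strong_induction_on with
  | _ n ih =>
    have h1 := congrArg (coeff n) h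
    rw [coeff_mul] at h1
    have hmem : (0, n) ∈ Finset.HasAntidiagonal.antidiagonal n := by
      rw [Finset.HasAntidiagonal.mem_antidiagonal]
      exact zero_add n
    rw [← Finset.add_sum_erase _ _ hmem, coeff_zero_eq_constantCoeff_apply, h0, one_mul] at h1
    have h2 : coeff n g = coeff n (1 : (LaurentSeries K)⟦X⟧) -
        ∑ x ∈ (Finset.HasAntidiagonal.antidiagonal n).erase (0, n),
          coeff x.1 f * coeff x.2 g := by
      rw [← h1]
      ring
    intro i hi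
    rw [h2, HahnSeries.coeff_sub, HahnSeries.coeff_sum]
    have h3 : (coeff n (1 : (LaurentSeries K)⟦X⟧)).coeff i = 0 := by
      rw [coeff_one]
      split_ifs
      · rw [HahnSeries.coeff_one, if_neg hi.ne]
      · exact HahnSeries.coeff_zero
    rw [h3, zero_sub, neg_eq_zero]
    refine Finset.sum_eq_zero fun x hx => ?_
    rw [Finset.mem_erase, Finset.HasAntidiagonal.mem_antidiagonal] at hx
    apply R0_mul (hf x.1) (ih x.2 _) i hi
    have hx1 : x.1 ≠ 0 := by
      intro h4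
      apply hx.1
      rw [Prod.ext_iff]
      exact ⟨h4, by omega⟩
    omega

/-- the power series whose Laurent series is `a + b z` -/
private noncomputable def plin (a b : K) : K⟦X⟧ := C a + C b * X

private lemma coe_plin (a b : K) : HahnSeries.ofPowerSeries ℤ K (plin a b) = lin a b := by
  rw [plin, lin, map_add, map_mul, HahnSeries.ofPowerSeries_C, HahnSeries.ofPowerSeries_C,
    HahnSeries.ofPowerSeries_X, HahnSeries.C_apply, HahnSeries.C_apply, HahnSeries.single_mul_single,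
    zero_add, mul_one]

private lemma cc_plin (a b : K) : constantCoeff (plin a b) = a := by
  rw [plin, map_add, map_mul, constantCoeff_C, constantCoeff_X, mul_zero, add_zero]

private lemma R0_coe (P : K⟦X⟧) : R0 (HahnSeries.ofPowerSeries ℤ K P) := by
  intro i hi
  have h := PowerSeries.coeff_coe P i
  rw [if_pos hi] at h
  exact h

private lemma coeff0_coe (P : K⟦X⟧) :
    (HahnSeries.ofPowerSeries ℤ K P).coeff 0 = constantCoeff P := by
  have h := PowerSeries.coeff_coe P 0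
  rw [if_neg (lt_irrefl _)] at h
  rw [← coeff_zero_eq_constantCoeff_apply]
  exact h

private lemma mon_lin [CharZero K] (l L a a' b b' : K) (d : ℕ →₀ ℕ) (r : Finset (ℕ × ℕ)) :
    R0 (mon (fun k => chs (lin l L) (lin a a') (lin b b') k r) d) ∧
    (mon (fun k => chs (lin l L) (lin a a') (lin b b') k r) d).coeff 0 =
      mon (fun k => chs l a b k r) d := by
  have h1 : mon (fun k => chs (lin l L) (lin a a') (lin b b') k r) d =
      HahnSeries.ofPowerSeries ℤ K
        (mon (fun k => chs (plin l L) (plin a a') (plin b b') k r) d) := by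
    rw [mon_map']
    simp only [chs_map', coe_plin]
  rw [h1]
  refine ⟨R0_coe _, ?_⟩
  rw [coeff0_coe, mon_map']
  simp only [chs_map', cc_plin]

private lemma cz_mul_one (G : (LaurentSeries K)⟦X⟧) (hG : Reg G) :
    cz 0 (qs (fun _ => (1 : LaurentSeries K)) * G) = qs (fun _ => (1 : K)) * cz 0 G ∧
    cz 1 (qs (fun _ => (1 : LaurentSeries K)) * G) = qs (fun _ => (1 : K)) * cz 1 G ∧
    cz 2 (qs (fun _ => (1 : LaurentSeries K)) * G) = qs (fun _ => (1 : K)) * cz 2 G := by
  have h1 : Reg (qs (fun _ => (1 : LaurentSeries K))) := by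
    apply Reg_qs
    intro r i hi
    rw [HahnSeries.coeff_one, if_neg hi.ne]
  have e0 : cz 0 (qs (fun _ => (1 : LaurentSeries K))) = qs (fun _ => (1 : K)) := by
    rw [cz_qs]
    apply qs_congr'
    intro r
    rw [HahnSeries.coeff_one, if_pos rfl]
  have e1 : cz 1 (qs (fun _ => (1 : LaurentSeries K))) = 0 := by
    rw [cz_qs, ← qs_zero']
    apply qs_congr'
    intro r
    rw [HahnSeries.coeff_one, if_neg (by decide)]
  have e2 : cz 2 (qs (fun _ => (1 : LaurentSeries K))) = 0 := by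
    rw [cz_qs, ← qs_zero']
    apply qs_congr'
    intro r
    rw [HahnSeries.coeff_one, if_neg (by decide)]
  refine ⟨?_, ?_, ?_⟩
  · rw [cz0_mul h1 hG, e0]
  · rw [cz1_mul h1 hG, e0, e1, zero_mul, add_zero]
  · rw [cz2_mul h1 hG, e0, e1, e2, zero_mul, zero_mul, add_zero, add_zero]

/-- one fixed point -/
private lemma one_pt [CharZero K] (θ l a b : K) (d : ℕ →₀ ℕ)
    (w f : Finset (ℕ × ℕ) → LaurentSeries K) (hw : ∀ r, R0 (w r)) (hf : ∀ r, R0 (f r))
    (hw0 : ∀ r, (w r).coeff 0 = 1) (hw1 : ∀ r, (w r).coeff 1 = 0)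
    (hw2 : ∀ r, (w r).coeff 2 = θ * algebraMap ℚ K (Tm r))
    (hf0 : ∀ r, (f r).coeff 0 = mon (fun k => chs l a b k r) d)
    (Gu : (LaurentSeries K)⟦X⟧) (hGu : Reg Gu)
    (hfG : qs f = qs (fun _ => (1 : LaurentSeries K)) * Gu) (Cov : K⟦X⟧)
    (hC : qs (fun r => algebraMap ℚ K (Tm r) * mon (fun k => chs l a b k r) d) *
      qs (fun _ => (1 : K)) =
      qs (fun r => algebraMap ℚ K (Tm r)) * qs (fun r => mon (fun k => chs l a b k r) d) +
        qs (fun _ => (1 : K)) ^ 2 * Cov) (hempty : w ∅ = 1) :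
    ∃ G : (LaurentSeries K)⟦X⟧, Reg G ∧ qs (fun r => w r * f r) = qs w * G ∧
      cz 0 G = cz 0 Gu ∧ cz 1 G = cz 1 Gu ∧ cz 2 G = cz 2 Gu + C θ * Cov := by
  set U : K⟦X⟧ := qs (fun _ => (1 : K)) with hU
  have hU0 : U ≠ 0 := by
    intro h
    have h1 := constantCoeff_qs (fun _ => (1 : K))
    rw [← hU, h, map_zero] at h1
    exact zero_ne_one h1
  have hWc : constantCoeff (qs w) = 1 := by rw [constantCoeff_qs, hempty]
  obtain ⟨Wi, hWi, _⟩ := exists_inv hWc
  have rW : Reg (qs w) := Reg_qs hw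
  have rWi : Reg Wi := Reg_inv' rW hWc hWi
  have rwf : ∀ r, R0 (w r * f r) := fun r => R0_mul (hw r) (hf r)
  have rWF : Reg (qs (fun r => w r * f r)) := Reg_qs rwf
  set G : (LaurentSeries K)⟦X⟧ := qs (fun r => w r * f r) * Wi with hG
  have rG : Reg G := Reg_mul rWF rWi
  have hWG : qs (fun r => w r * f r) = qs w * G := by
    rw [hG, mul_left_comm, hWi, mul_one]
  obtain ⟨u0, u1, u2⟩ := cz_mul_one Gu hGu
  rw [← hfG, ← hU] at u0 u1 u2
  have f0 : cz 0 (qs f) = qs (fun r => mon (fun k => chs l a b k r) d) := by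
    rw [cz_qs]
    exact qs_congr' hf0
  have w0 : cz 0 (qs w) = U := by
    rw [cz_qs]
    exact qs_congr' hw0
  have w1 : cz 1 (qs w) = 0 := by
    rw [cz_qs, qs_congr' hw1, qs_zero']
  have w2 : cz 2 (qs w) = C θ * qs (fun r => algebraMap ℚ K (Tm r)) := by
    rw [cz_qs, qs_congr' hw2, qs_smul]
  have p0 : cz 0 (qs (fun r => w r * f r)) = cz 0 (qs f) := by
    rw [cz_qs, cz_qs]
    apply qs_congr'
    intro r
    rw [coeff0_mul (hw r) (hf r), hw0, one_mul]
  have p1 : cz 1 (qs (fun r => w r * f r)) = cz 1 (qs f) := by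
    rw [cz_qs, cz_qs]
    apply qs_congr'
    intro r
    rw [coeff1_mul (hw r) (hf r), hw0, hw1, one_mul, zero_mul, add_zero]
  have p2 : cz 2 (qs (fun r => w r * f r)) = cz 2 (qs f) +
      C θ * qs (fun r => algebraMap ℚ K (Tm r) * mon (fun k => chs l a b k r) d) := by
    rw [cz_qs, cz_qs, ← qs_smul, ← qs_add]
    apply qs_congr'
    intro r
    rw [coeff2_mul (hw r) (hf r), hw0, hw1, hw2, hf0, one_mul, zero_mul, add_zero, mul_assoc]
  rw [hWG] at p0 p1 p2
  rw [cz0_mul rW rG, w0, u0] at p0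
  have g0 : cz 0 G = cz 0 Gu := mul_left_cancel₀ hU0 p0
  rw [cz1_mul rW rG, w0, w1, zero_mul, add_zero, u1] at p1
  have g1 : cz 1 G = cz 1 Gu := mul_left_cancel₀ hU0 p1
  rw [cz2_mul rW rG, w0, w1, w2, zero_mul, add_zero, u2, g0] at p2
  rw [← f0, u0] at hC
  have g2 : cz 2 G = cz 2 Gu + C θ * Cov := by
    apply mul_left_cancel₀ hU0
    apply mul_left_cancel₀ hU0
    linear_combination U * p2 + C θ * hC
  exact ⟨G, rG, hWG, g0, g1, g2⟩

end

theorem e34 {K : Type*} [Field K] [CharZero K] {ι : Type*} [Fintype ι] {ρ : ι → K} (p : Bool)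
    (A B M L : ι → K) (m l : K) (hm : m ≠ 0) (h1 : ∑ c, ρ c * (A c + B c) = 0)
    (hM : ∑ c, ρ c * M c = 0) (hL : ∑ c, ρ c * L c = 0)
    (hp : p = true → l = 0 ∧ ∀ c, 2 * L c = -(A c + B c)) (d : ℕ →₀ ℕ) :
    ∃ G : ι → (LaurentSeries K)⟦X⟧, FAp ρ p (wt d) G ∧ ∀ c,
      qs (fun r => wg (lin (-m) (-M c)) (lin m (A c + B c + M c)) (lin 0 (-A c)) r *
        mon (fun k => chs (lin l (L c + A c + B c)) (lin (-m) (-M c)) (lin m (A c + B c + M c)) k r)
          d) =
        qs (fun r => wg (lin (-m) (-M c)) (lin m (A c + B c + M c)) (lin 0 (-A c)) r) * G c := by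
  have hρAB : ∑ c, ρ c * (L c + A c + B c) = 0 := by
    have : ∑ c, ρ c * (L c + A c + B c) = ∑ c, ρ c * L c + ∑ c, ρ c * (A c + B c) := by
      rw [← Finset.sum_add_distrib]
      exact Finset.sum_congr rfl fun c _ => by ring
    rw [this, hL, h1, add_zero]
  have hρM : ∑ c, ρ c * (-M c) = 0 := by
    have : ∑ c, ρ c * (-M c) = -∑ c, ρ c * M c := by
      rw [← Finset.sum_neg_distrib]
      exact Finset.sum_congr rfl fun c _ => by ring
    rw [this, hM, neg_zero]
  have hρABM : ∑ c, ρ c * (A c + B c + M c) = 0 := by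
    have : ∑ c, ρ c * (A c + B c + M c) = ∑ c, ρ c * (A c + B c) + ∑ c, ρ c * M c := by
      rw [← Finset.sum_add_distrib]
      exact Finset.sum_congr rfl fun c _ => by ring
    rw [this, hM, h1, add_zero]
  have hlin : ∀ a a' b b' : K, lin a a' + lin b b' = lin (a + b) (a' + b') := by
    intro a a' b b'
    rw [← coe_plin, ← coe_plin, ← coe_plin, ← map_add]
    congr 1
    unfold plin
    rw [map_add, map_add]
    ring
  obtain ⟨Gu, hFA, hGu⟩ := uni_FA (ρ := ρ) p (l := fun c => lin l (L c + A c + B c))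
    (a := fun c => lin (-m) (-M c)) (b := fun c => lin m (A c + B c + M c))
    (Bf_lin l hρAB) (Bf_lin (-m) hρM) (Bf_lin m hρABM) (by
      intro hpt c
      obtain ⟨hl0, hLc⟩ := hp hpt
      rw [two_mul, hlin, hlin]
      congr 1
      · rw [hl0]
        ring
      · have := hLc c
        linear_combination this) d
  obtain ⟨Cov, hCm, hC⟩ := covK p l m (fun h => (hp h).1) d
  obtain ⟨rGu, ⟨g, hg, hg0⟩, ⟨hz1, hz1'⟩, hz2⟩ := hFA
  have hpt : ∀ c, ∃ G : (LaurentSeries K)⟦X⟧, Reg G ∧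
      qs (fun r => wg (lin (-m) (-M c)) (lin m (A c + B c + M c)) (lin 0 (-A c)) r *
        mon (fun k => chs (lin l (L c + A c + B c)) (lin (-m) (-M c))
          (lin m (A c + B c + M c)) k r) d) =
        qs (fun r => wg (lin (-m) (-M c)) (lin m (A c + B c + M c)) (lin 0 (-A c)) r) * G ∧
      cz 0 G = cz 0 (Gu c) ∧ cz 1 G = cz 1 (Gu c) ∧
      cz 2 G = cz 2 (Gu c) + C (A c * B c / m ^ 2) * Cov := by
    intro c
    exact one_pt (A c * B c / m ^ 2) l (-m) m d _ _
      (fun r => (wg_exp (A c) (B c) (M c) m hm r).1)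
      (fun r => (mon_lin l (L c + A c + B c) (-m) (-M c) m (A c + B c + M c) d r).1)
      (fun r => (wg_exp (A c) (B c) (M c) m hm r).2.1)
      (fun r => (wg_exp (A c) (B c) (M c) m hm r).2.2.1)
      (fun r => (wg_exp (A c) (B c) (M c) m hm r).2.2.2)
      (fun r => (mon_lin l (L c + A c + B c) (-m) (-M c) m (A c + B c + M c) d r).2)
      (Gu c) (rGu c) (hGu c) Cov hC (wg_empty _ _ _)
  choose G hG using hpt
  refine ⟨G, ⟨fun c => (hG c).1, ⟨g, hg, fun c => by rw [(hG c).2.2.1, hg0 c]⟩,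
    ⟨fun c => by rw [(hG c).2.2.2.1]; exact hz1 c, ?_⟩, fun c => ?_⟩, fun c => (hG c).2.1⟩
  · rw [← hz1']
    exact Finset.sum_congr rfl fun c _ => by rw [(hG c).2.2.2.1]
  · rw [(hG c).2.2.2.2]
    refine add_mem (hz2 c) ?_
    rw [← PowerSeries.smul_eq_C_mul]
    exact Submodule.smul_mem _ _ hCm

end MPa7fa83.Cs
end
end
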