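import Pool.Agent.Lib.MP_a7fa83_ag.Cs.H4
import Pool.Agent.Lib.MP_a7fa83_ag.Cs.J1
import Pool.Agent.Lib.MP_a7fa83_ag.Cs.F1

/-!
# L1: the series of the plane 34 are in the filtration

The coefficient of `τ^I y^n` of `Z34 b` is a rational combination of the sums
`qs (wg * mon (chs ..) (b + e))` with `wt e = n + 2 num I`: expand `∏_k (bb k)^{I_k}`
by `bb_expand`.  By `e34` it is `qs wg` times an element of
`FA ρ p (wt b + n + 2 num I)`, so `Z34 b = C (C (qs wg)) * D_b` with `Wf (FA ρ p) (wt b) D_b`, and the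
coefficient of `τ^0` of `D_0` is `1`; then `Z34 b * Wi = D_b * D_0⁻¹`; use `Wf_inv`, `Wf_mul`.
-/

set_option autoImplicit false

namespace MPa7fa83.Cs

open Finset PowerSeries MPa7fa83.Ok

section

variable {K : Type*} [Field K] [CharZero K] {ι : Type*} [Fintype ι]

/-- the four families of the compact case -/
noncomputable def c1 (A : ι → K) : ι → LaurentSeries K := fun c => lin 0 (-A c)

/-- third weight -/
noncomputable def c3 (m : K) (M : ι → K) : ι → LaurentSeries K := fun c => lin (-m) (-M c)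

/-- twist -/
noncomputable def c4 (l : K) (L : ι → K) : ι → LaurentSeries K := fun c => lin l (L c)

private lemma lin_sub (a b a' b' : K) : lin a b - lin a' b' = lin (a - a') (b - b') := by
  unfold lin
  rw [map_sub, HahnSeries.single_sub]
  ring

private lemma lin_neg (a b : K) : -lin a b = lin (-a) (-b) := by
  unfold lin
  rw [map_neg, HahnSeries.single_neg]
  ring

/-- the weight -/
private noncomputable def qw (A B M : ι → K) (m : K) : ι → (LaurentSeries K)⟦X⟧ := fun c =>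
  qs (fun r => wg (lin (-m) (-M c)) (lin m (A c + B c + M c)) (lin 0 (-A c)) r)

private lemma Z34_coeff (A B M L : ι → K) (m l : K) (b I : ℕ →₀ ℕ) (n : ℕ) (c : ι) :
    coeff n (MvPowerSeries.coeff I (Z34 (c1 A) (c1 B) (c3 m M) (c4 l L) b)) c =
      qs (fun r => wg (lin (-m) (-M c)) (lin m (A c + B c + M c)) (lin 0 (-A c)) r *
        (mon (fun k => chs (lin l (L c + A c + B c)) (lin (-m) (-M c))
          (lin m (A c + B c + M c)) k r) b *
        (algebraMap ℚ (LaurentSeries K) ((dfac I : ℚ)⁻¹) * coeff n (I.prod fun k i =>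
          (bb (lin l (L c + A c + B c)) (lin (-m) (-M c))
            (lin m (A c + B c + M c)) r k) ^ i)))) := by
  have e1 : c4 l L c - c1 A c - c1 B c = lin l (L c + A c + B c) := by
    unfold c4 c1
    rw [lin_sub, lin_sub]
    congr 1 <;> ring
  have e2 : -c1 A c - c1 B c - c3 m M c = lin m (A c + B c + M c) := by
    unfold c3 c1
    rw [lin_neg, lin_sub, lin_sub]
    congr 1 <;> ring
  have e3 : c3 m M c = lin (-m) (-M c) := rfl
  have e4 : c1 A c = lin 0 (-A c) := rfl
  have : coeff n (MvPowerSeries.coeff I (Z34 (c1 A) (c1 B) (c3 m M) (c4 l L) b)) c =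
      qs (fun r => wg (c3 m M c) (-c1 A c - c1 B c - c3 m M c) (c1 A c) r *
        (mon (fun k => chs (c4 l L c - c1 A c - c1 B c) (c3 m M c)
          (-c1 A c - c1 B c - c3 m M c) k r) b *
        (algebraMap ℚ (LaurentSeries K) ((dfac I : ℚ)⁻¹) * coeff n (I.prod fun k i =>
          (bb (c4 l L c - c1 A c - c1 B c) (c3 m M c)
            (-c1 A c - c1 B c - c3 m M c) r k) ^ i)))) := by
    rw [MvPowerSeries.coeff_apply]
    unfold Z34
    rw [PowerSeries.coeff_mk]
  rw [this, e1, e2, e3, e4]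

private lemma Z34_key {ρ : ι → K} (p : Bool)
    (A B M L : ι → K) (m l : K) (hm : m ≠ 0) (h1 : ∑ c, ρ c * (A c + B c) = 0)
    (hM : ∑ c, ρ c * M c = 0) (hL : ∑ c, ρ c * L c = 0)
    (hp : p = true → l = 0 ∧ ∀ c, 2 * L c = -(A c + B c)) (b I : ℕ →₀ ℕ) (n : ℕ) :
    ∃ G : ι → (LaurentSeries K)⟦X⟧, FAp ρ p (wt b + n + 2 * num I) G ∧
      coeff n (MvPowerSeries.coeff I (Z34 (c1 A) (c1 B) (c3 m M) (c4 l L) b)) =
        qw A B M m * G := by
  obtain ⟨T, q, hT, hq⟩ := bb_expand (Λ := LaurentSeries K) I n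
  have hG := fun e => e34 (ρ := ρ) p A B M L m l hm h1 hM hL hp (b + e)
  choose G hG1 hG2 using hG
  refine ⟨∑ e ∈ T, algebraMap ℚ (ι → (LaurentSeries K)⟦X⟧) ((dfac I : ℚ)⁻¹ * q e) * G e, ?_, ?_⟩
  · rw [← mem_FA]
    apply AddSubgroup.sum_mem
    intro e he
    rw [mem_FA]
    apply FAp_rat
    have := hG1 e
    rw [wt_add, hT e he] at this
    rw [add_assoc]
    exact this
  · funext c
    rw [Z34_coeff]
    have hbb : ∀ r, coeff n (I.prod fun k i => (bb (lin l (L c + A c + B c)) (lin (-m) (-M c))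
            (lin m (A c + B c + M c)) r k) ^ i) = ∑ e ∈ T, algebraMap ℚ (LaurentSeries K) (q e) *
            mon (fun k => chs (lin l (L c + A c + B c)) (lin (-m) (-M c))
              (lin m (A c + B c + M c)) k r) e := fun r => by
      rw [← hq]
      rfl
    have e1 : (fun r => wg (lin (-m) (-M c)) (lin m (A c + B c + M c)) (lin 0 (-A c)) r *
        (mon (fun k => chs (lin l (L c + A c + B c)) (lin (-m) (-M c))
          (lin m (A c + B c + M c)) k r) b *
        (algebraMap ℚ (LaurentSeries K) ((dfac I : ℚ)⁻¹) * coeff n (I.prod fun k i =>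
          (bb (lin l (L c + A c + B c)) (lin (-m) (-M c))
            (lin m (A c + B c + M c)) r k) ^ i)))) =
        fun r => ∑ e ∈ T, algebraMap ℚ (LaurentSeries K) ((dfac I : ℚ)⁻¹ * q e) *
          (wg (lin (-m) (-M c)) (lin m (A c + B c + M c)) (lin 0 (-A c)) r *
            mon (fun k => chs (lin l (L c + A c + B c)) (lin (-m) (-M c))
              (lin m (A c + B c + M c)) k r) (b + e)) := by
      funext r
      rw [hbb, Finset.mul_sum, Finset.mul_sum, Finset.mul_sum]
      apply Finset.sum_congr rfl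
      intro e _
      rw [mon_add, map_mul]
      ring
    rw [e1, qs_sum, Pi.mul_apply, Finset.sum_apply, Finset.mul_sum]
    apply Finset.sum_congr rfl
    intro e _
    rw [qs_smul, hG2 e c]
    have e2 : (algebraMap ℚ (ι → (LaurentSeries K)⟦X⟧) ((dfac I : ℚ)⁻¹ * q e) * G e) c =
        C (algebraMap ℚ (LaurentSeries K) ((dfac I : ℚ)⁻¹ * q e)) * G e c := by
      rw [Pi.mul_apply, Pi.algebraMap_apply, PowerSeries.algebraMap_apply]
    rw [e2]
    unfold qw
    ring

private lemma abs_step {R : Type*} [CommRing R] [Algebra ℚ R] {ok : ℕ → ℕ → Prop}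
    {A : ℕ → AddSubgroup R} (hF : Fil ok A) (Z : (ℕ →₀ ℕ) → MvPowerSeries ℕ R⟦X⟧) (w u : R)
    (hu : u * w = 1) (hZ : ∀ b I n, ∃ G, G ∈ A (wt b + n + 2 * num I) ∧
      coeff n (MvPowerSeries.coeff I (Z b)) = w * G)
    (h0 : MvPowerSeries.coeff 0 (Z 0) = C w) {Wi : MvPowerSeries ℕ R⟦X⟧} (hW : Z 0 * Wi = 1)
    (b : ℕ →₀ ℕ) : Wf A (wt b) (Z b * Wi) := by
  choose G hG1 hG2 using hZ
  let D : (ℕ →₀ ℕ) → MvPowerSeries ℕ R⟦X⟧ := fun b I => PowerSeries.mk fun n => G b I n
  have hDc : ∀ b I n, coeff n (MvPowerSeries.coeff I (D b)) = G b I n := by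
    intro b I n
    have : MvPowerSeries.coeff I (D b) = PowerSeries.mk fun n => G b I n := rfl
    rw [this, PowerSeries.coeff_mk]
  have hZ : ∀ b, Z b = MvPowerSeries.C (C w) * D b := by
    intro b
    apply MvPowerSeries.ext
    intro I
    apply PowerSeries.ext
    intro n
    rw [hG2, MvPowerSeries.coeff_C_mul, PowerSeries.coeff_C_mul, hDc]
  have hDW : ∀ b, Wf A (wt b) (D b) := by
    intro b I n
    rw [hDc]
    exact hG1 b I n
  have hD0 : MvPowerSeries.coeff 0 (D 0) = 1 := by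
    rw [hZ 0, MvPowerSeries.coeff_C_mul] at h0
    have h3 : C u * (C w * MvPowerSeries.coeff 0 (D 0)) = C u * C w := by rw [h0]
    rw [← mul_assoc, ← map_mul, hu, map_one, one_mul] at h3
    exact h3
  have hg : D 0 * (MvPowerSeries.C (C w) * Wi) = 1 := by
    rw [← hW, hZ 0]; ring
  have hDi : Wf A 0 (MvPowerSeries.C (C w) * Wi) := by
    apply Wf_inv hF _ hD0 hg
    have := hDW 0
    rw [wt_zero'] at this
    exact this
  have e : Z b * Wi = D b * (MvPowerSeries.C (C w) * Wi) := by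
    rw [hZ b]; ring
  rw [e]
  exact Wf_mul hF (hDW b) hDi

private lemma qw_unit (A B M : ι → K) (m : K) :
    ∃ u : ι → (LaurentSeries K)⟦X⟧, u * qw A B M m = 1 := by
  have h : ∀ c, ∃ g : (LaurentSeries K)⟦X⟧, qw A B M m c * g = 1 ∧ constantCoeff g = 1 := by
    intro c
    apply exists_inv
    unfold qw
    rw [constantCoeff_qs, wg_empty]
  choose u hu1 hu2 using h
  refine ⟨u, ?_⟩
  funext c
  rw [Pi.mul_apply, mul_comm, hu1]
  rfl

private lemma Z34_coeff_zero (A B M L : ι → K) (m l : K) :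
    MvPowerSeries.coeff 0 (Z34 (c1 A) (c1 B) (c3 m M) (c4 l L) 0) = C (qw A B M m) := by
  apply PowerSeries.ext
  intro n
  funext c
  rw [Z34_coeff, PowerSeries.coeff_C]
  have e0 : dfac 0 = 1 := by unfold dfac; exact Finsupp.prod_zero_index
  simp only [Finsupp.prod_zero_index, mon_zero, e0, Nat.cast_one, inv_one, map_one, one_mul,
    PowerSeries.coeff_one]
  by_cases hn : n = 0
  · simp only [hn, if_true, mul_one]
    rfl
  · simp only [hn, if_false, mul_zero]
    have := qs_smul (0 : LaurentSeries K) (fun _ => (0 : LaurentSeries K))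
    simp only [mul_zero, map_zero, zero_mul] at this
    rw [this]
    rfl

theorem Z34_mem {ρ : ι → K} (p : Bool)
    (A B M L : ι → K) (m l : K) (hm : m ≠ 0) (h1 : ∑ c, ρ c * (A c + B c) = 0)
    (hM : ∑ c, ρ c * M c = 0) (hL : ∑ c, ρ c * L c = 0)
    (hp : p = true → l = 0 ∧ ∀ c, 2 * L c = -(A c + B c))
    {Wi : MvPowerSeries ℕ (ι → (LaurentSeries K)⟦X⟧)⟦X⟧}
    (hW : Z34 (c1 A) (c1 B) (c3 m M) (c4 l L) 0 * Wi = 1) (b : ℕ →₀ ℕ) :
    Wf (FA ρ p) (wt b) (Z34 (c1 A) (c1 B) (c3 m M) (c4 l L) b * Wi) := by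
  obtain ⟨u, hu⟩ := qw_unit A B M m
  exact abs_step (Fil_FA ρ p) (Z34 (c1 A) (c1 B) (c3 m M) (c4 l L)) (qw A B M m) u hu
    (fun b I n => Z34_key (ρ := ρ) p A B M L m l hm h1 hM hL hp b I n)
    (Z34_coeff_zero A B M L m l) hW b

end

end MPa7fa83.Cs
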