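import Pool.Agent.Lib.MP_a7fa83_ag.Cs.GenDefs
import Pool.Agent.Lib.MP_a7fa83_ag.Cs.A4
import Pool.Agent.Lib.MP_a7fa83_ag.Cs.L3
import Pool.Agent.Lib.MP_a7fa83_ag.Cs.F1
import Pool.Agent.Lib.MP_a7fa83_ag.Cs.B0

/-!
# L4: sums over tuples of partitions

For weights `φ c` and statistics `x c k` of diagrams, the sum over the tuples of partitions of
`∏_k (∑_c x c k (cel (p c)))^{d_k} ∏_c φ c (cel (p c))` is `d!` times the coefficient of `τ^d` in
`∏_c Zg (φ c) (x c)`, `Zg φ x = ∑_s φ(s) q^{|s|} exp(∑ τ_k x_k(s))` (multinomial theorem: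
`∏_k (∑_c x_k)^{d_k} / d! = ∑_{∑ I_c = d} ∏_c x_c^{I_c}/I_c!`; the coefficients of a product over `ι`:
`MvPowerSeries.coeff_prod` / `PowerSeries.coeff_prod` with `finsuppAntidiag`; see `avT_prod`).
-/

set_option autoImplicit false

namespace MPa7fa83.Cs

open Finset PowerSeries MPa7fa83.Ok

section

variable {F : Type*} [Field F] [Algebra ℚ F]

/-- the exponential generating series of the moments -/
noncomputable def Zg (φ : Finset (ℕ × ℕ) → F) (x : ℕ → Finset (ℕ × ℕ) → F) :
    MvPowerSeries ℕ F⟦X⟧ :=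
  fun I => qs (fun s => φ s * src (fun k => x k s) I)

/-- the series `exp (∑ τ_k y_k)` -/
private noncomputable def Ey (y : ℕ → F) : MvPowerSeries ℕ F := fun I => src y I

private lemma coeff_Ey (y : ℕ → F) (I : ℕ →₀ ℕ) : MvPowerSeries.coeff I (Ey y) = src y I := rfl

private lemma pderiv_Ey (y : ℕ → F) (k : ℕ) :
    MvPowerSeries.pderiv F k (Ey y) = MvPowerSeries.C (y k) * Ey y := by
  ext I
  rw [MvPowerSeries.coeff_pderiv, MvPowerSeries.coeff_C_mul, coeff_Ey, coeff_Ey]
  exact src_succ y I k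

private lemma src_zero (y : ℕ → F) : src y 0 = 1 := by
  unfold src
  rw [mon_zero, mul_one]
  unfold dfac
  rw [Finsupp.prod_zero_index]
  simp

private lemma ode_unique (c : ℕ → F) (f g : MvPowerSeries ℕ F)
    (h0 : MvPowerSeries.coeff 0 f = MvPowerSeries.coeff 0 g)
    (hf : ∀ k, MvPowerSeries.pderiv F k f = MvPowerSeries.C (c k) * f)
    (hg : ∀ k, MvPowerSeries.pderiv F k g = MvPowerSeries.C (c k) * g) : f = g := by
  have : CharZero F := algebraRat.charZero F
  have key : ∀ n : ℕ, ∀ I : ℕ →₀ ℕ, I.degree = n →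
      MvPowerSeries.coeff I f = MvPowerSeries.coeff I g := by
    intro n
    induction n with
    | zero =>
      intro I hI
      have : I = 0 := (Finsupp.degree_eq_zero_iff I).1 hI
      rw [this]
      exact h0
    | succ n ih =>
      intro I hI
      have hne : I ≠ 0 := by
        intro h
        rw [h] at hI
        simp at hI
      obtain ⟨k, hk⟩ := Finsupp.ne_iff.1 hne
      have hk1 : 1 ≤ I k := Nat.one_le_iff_ne_zero.2 hk
      have hsplit : (I - Finsupp.single k 1) + Finsupp.single k 1 = I := by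
        apply tsub_add_cancel_of_le
        rw [Finsupp.single_le_iff]
        exact hk1
      have hdeg : (I - Finsupp.single k 1).degree = n := by
        have h1 := congrArg Finsupp.degree hsplit
        rw [map_add, hI, Finsupp.degree_single] at h1
        omega
      have h1 := congrArg (MvPowerSeries.coeff (I - Finsupp.single k 1)) (hf k)
      have h2 := congrArg (MvPowerSeries.coeff (I - Finsupp.single k 1)) (hg k)
      rw [MvPowerSeries.coeff_pderiv, MvPowerSeries.coeff_C_mul, hsplit] at h1 h2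
      rw [ih _ hdeg, ← h2] at h1
      refine mul_right_cancel₀ ?_ h1
      exact Nat.cast_add_one_ne_zero _
  ext I
  exact key _ I rfl

private lemma Ey_zero : Ey (fun _ => 0 : ℕ → F) = 1 := by
  apply ode_unique (fun _ => 0)
  · rw [coeff_Ey, src_zero, MvPowerSeries.coeff_zero_one]
  · intro k
    exact pderiv_Ey _ k
  · intro k
    rw [MvPowerSeries.pderiv_one, map_zero, zero_mul]

private lemma Ey_add (y z : ℕ → F) : Ey (fun k => y k + z k) = Ey y * Ey z := by
  apply ode_unique (fun k => y k + z k)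
  · have h1 : MvPowerSeries.coeff 0 (Ey y * Ey z) =
        MvPowerSeries.coeff 0 (Ey y) * MvPowerSeries.coeff 0 (Ey z) := by
      rw [MvPowerSeries.coeff_zero_eq_constantCoeff_apply,
        MvPowerSeries.coeff_zero_eq_constantCoeff_apply,
        MvPowerSeries.coeff_zero_eq_constantCoeff_apply, map_mul]
    rw [h1, coeff_Ey, src_zero, coeff_Ey, coeff_Ey, src_zero, src_zero, one_mul]
  · intro k
    exact pderiv_Ey _ k
  · intro k
    rw [Derivation.leibniz, pderiv_Ey, pderiv_Ey, smul_eq_mul, smul_eq_mul, map_add]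
    ring

private lemma Ey_sum {ι : Type*} [DecidableEq ι] (s : Finset ι) (y : ι → ℕ → F) :
    Ey (fun k => ∑ c ∈ s, y c k) = ∏ c ∈ s, Ey (y c) := by
  induction s using Finset.induction_on with
  | empty =>
    simp only [Finset.sum_empty, Finset.prod_empty]
    exact Ey_zero
  | insert a s ha ih =>
    rw [Finset.prod_insert ha, ← ih, ← Ey_add]
    congr 1
    funext k
    rw [Finset.sum_insert ha]

private lemma mon_eq (y : ℕ → F) (d : ℕ →₀ ℕ) : mon y d = (dfac d : F) * src y d := by
  unfold src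
  have h : (dfac d : ℚ) ≠ 0 := by
    unfold dfac
    rw [Nat.cast_ne_zero]
    exact Finset.prod_ne_zero_iff.2 fun k _ => Nat.factorial_ne_zero _
  have h1 : (dfac d : F) = algebraMap ℚ F (dfac d : ℚ) := by simp
  rw [h1, ← mul_assoc, ← map_mul, mul_inv_cancel₀ h, map_one, one_mul]

theorem av_mon {ι : Type*} [Fintype ι] [DecidableEq ι] (φ : ι → Finset (ℕ × ℕ) → F)
    (x : ι → ℕ → Finset (ℕ × ℕ) → F) (d : ℕ →₀ ℕ) :
    (PowerSeries.mk fun n => ∑ ν ∈ Finset.finsuppAntidiag (Finset.univ : Finset ι) n,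
      ∑ q : (∀ c, (ν c).Partition),
        (d.prod fun k m => (∑ c, x c k (cel (q c))) ^ m) * ∏ c, φ c (cel (q c))) =
    C (dfac d : F) * MvPowerSeries.coeff d (∏ c, Zg (φ c) (x c)) := by
  ext n
  rw [PowerSeries.coeff_mk, PowerSeries.coeff_C_mul, MvPowerSeries.coeff_prod, map_sum]
  -- the left-hand side
  have h1 : ∀ (ν : ι →₀ ℕ) (q : ∀ c, (ν c).Partition),
      (d.prod fun k m => (∑ c, x c k (cel (q c))) ^ m) * ∏ c, φ c (cel (q c)) =
      (dfac d : F) * ∑ l ∈ Finset.finsuppAntidiag (Finset.univ : Finset ι) d,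
        ∏ c, (φ c (cel (q c)) * src (fun k => x c k (cel (q c))) (l c)) := by
    intro ν q
    have h2 : (d.prod fun k m => (∑ c, x c k (cel (q c))) ^ m) =
        mon (fun k => ∑ c, x c k (cel (q c))) d := rfl
    rw [h2, mon_eq, ← coeff_Ey, Ey_sum Finset.univ (fun c k => x c k (cel (q c))),
      MvPowerSeries.coeff_prod, mul_assoc, Finset.sum_mul]
    congr 1
    apply Finset.sum_congr rfl
    intro l _
    rw [Finset.prod_mul_distrib, mul_comm]
    rfl
  have h3 : ∀ ν : ι →₀ ℕ, ∑ q : (∀ c, (ν c).Partition),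
        (d.prod fun k m => (∑ c, x c k (cel (q c))) ^ m) * ∏ c, φ c (cel (q c)) =
      (dfac d : F) * ∑ l ∈ Finset.finsuppAntidiag (Finset.univ : Finset ι) d,
        ∏ c, coeff (ν c) (MvPowerSeries.coeff (l c) (Zg (φ c) (x c))) := by
    intro ν
    rw [Finset.sum_congr rfl fun q _ => h1 ν q, ← Finset.mul_sum, Finset.sum_comm]
    congr 1
    apply Finset.sum_congr rfl
    intro l _
    have h4 := Finset.prod_univ_sum (fun c : ι => (Finset.univ : Finset (ν c).Partition))
      (fun c p => φ c (cel p) * src (fun k => x c k (cel p)) (l c))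
    rw [Fintype.piFinset_univ] at h4
    rw [← h4]
    apply Finset.prod_congr rfl
    intro c _
    rw [sum_cel (ν c) (fun s => φ c s * src (fun k => x c k s) (l c))]
    have h5 : MvPowerSeries.coeff (l c) (Zg (φ c) (x c)) =
      qs (fun s => φ c s * src (fun k => x c k s) (l c)) := rfl
    rw [h5]
    unfold qs
    rw [PowerSeries.coeff_mk]
  rw [Finset.sum_congr rfl fun ν _ => h3 ν, ← Finset.mul_sum, Finset.sum_comm]
  congr 1
  apply Finset.sum_congr rfl
  intro l _
  rw [PowerSeries.coeff_prod]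

end

end MPa7fa83.Cs
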