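import Pool.Agent.Lib.MP_a7fa83_ag.Cs.B0
import Pool.Agent.Lib.MP_a7fa83_ag.Cs.PolDefs
import Pool.Agent.Lib.MP_a7fa83_ag.Cs.A3
import Pool.Agent.Lib.MP_a7fa83_ag.Cs.D3
import Pool.Agent.Lib.MP_a7fa83_ag.Cs.H4
import Pool.Agent.Lib.MP_a7fa83_ag.Cs.GenDefs
import Pool.Agent.Lib.MP_a7fa83_ag.Cs.L3
import Pool.Agent.Lib.MP_a7fa83_ag.Cs.L1

section

section

/-!
# E1: the main induction

Claim: `coeff I (N (single a 1)) ∈ A (a + 2 + deg I + 2 num I)` for all `a`, `I`; strong induction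
on `n₀ = a + deg I`.

Step 1.  If it holds for all `(a', I')` with `a' + deg I' < n₀`, then
`coeff I' (N d) ∈ A (wt d + deg I' + 2 num I')` for all `d, I'` with `deg d + deg I' < n₀`
(induction on `num d`, by `hN`, `coeff_pderiv`, `coeff_mul`: if `d = d' + single k 1`, the index
`I' + single k 1` has degree `deg I' + k`).
Step 2.  Let `j₀ = a + 2`, `n = deg I + j₀` in the relation `hrel`.  The coefficient is the sum
over `j ≤ n`, `d ∈ (P j).support`, `I = I₁ + I₂` of
`(P j).coeff d * coeff I₁ (N (dl d)) * coeff (n - j - deg I₁) (coeff I₂ (M (dr d)))`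
(zero unless `deg I₁ ≤ n - j`).  Here `wt (dl d) + wt (dr d) ≤ j`.  If `dl d = 0`, the term is in
the span by `hM` and `hN0`.  If `s = num (dl d) ≥ 1`, put `e = n - j - deg I₁`; then
`deg (dl d) + deg I₁ ≤ j - 2 s - wt (dr d) + deg I₁ = n₀ + 2 - 2 s - e - wt (dr d)`, which is
`< n₀` (then Step 1 applies) except for `s = 1`, `e = 0`, `dr d = 0`; in that case
`M (dr d) = 1`, so `I₂ = 0`, `I₁ = I`, `j = j₀` and `dl d = single a' 1` with `a' + 2 ≤ j₀`; either
`a' < a` (Step 1 again) or `a' = a`, and this last term is `(a+1)! * coeff I (N (single a 1))`.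
All other terms are in `A (n + 2 num I)`: the weights add up to at most
`wtt d + (deg I₁ + 2 num I₁) + (e + 2 num I₂)`, `ok (wtt d) j` and `j + deg I₁ + e = n`.
So `(a+1)! * coeff I (N (single a 1)) ∈ A (n + 2 num I)`; divide by `(a+1)!`.
-/

set_option autoImplicit false

namespace MPa7fa83.Cs

open Finset PowerSeries MPa7fa83.Ok

section aux

variable {R : Type*} [CommRing R] [Algebra ℚ R] {ok : ℕ → ℕ → Prop} {A : ℕ → AddSubgroup R}

private lemma mem_eq {m n : ℕ} {x : R} (hx : x ∈ A m) (h : m = n) : x ∈ A n := h ▸ hx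

private lemma nat_mem (hF : Fil ok A) (k : ℕ) {m : ℕ} {x : R} (hx : x ∈ A m) :
    (k : R) * x ∈ A m := by
  have h := hF.rat (k : ℚ) hx
  rwa [map_natCast] at h

private lemma zero_of_num {d : ℕ →₀ ℕ} (h : num d = 0) : d = 0 := by
  unfold num Finsupp.sum at h
  rw [Finset.sum_eq_zero_iff] at h
  ext i
  by_contra hne
  exact hne (h i (Finsupp.mem_support_iff.2 hne))

private lemma split_of_num {d : ℕ →₀ ℕ} (h : num d ≠ 0) :
    ∃ (k : ℕ) (d' : ℕ →₀ ℕ), d = d' + Finsupp.single k 1 := by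
  have hd : d ≠ 0 := by
    rintro rfl
    exact h num_zero'
  obtain ⟨k, hk⟩ := Finsupp.ne_iff.1 hd
  refine ⟨k, d - Finsupp.single k 1, (tsub_add_cancel_of_le ?_).symm⟩
  rw [Finsupp.single_le_iff]
  exact Nat.one_le_iff_ne_zero.2 (by simpa using hk)

private lemma one_mem_A (hF : Fil ok A) (I : ℕ →₀ ℕ) :
    MvPowerSeries.coeff I (1 : MvPowerSeries ℕ R) ∈ A (deg I + 2 * num I) := by
  classical
  rw [MvPowerSeries.coeff_one]
  split_ifs with h
  · subst h
    rw [deg_zero', num_zero']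
    exact hF.one
  · exact zero_mem _

private lemma step1 (hF : Fil ok A) {κ : R} (hκ : κ ∈ A 0)
    {N : (ℕ →₀ ℕ) → MvPowerSeries ℕ R} (hN0 : N 0 = 1)
    (hN : ∀ d k, N (d + Finsupp.single k 1) =
      MvPowerSeries.C κ * MvPowerSeries.pderiv R k (N d) + N (Finsupp.single k 1) * N d)
    {n₀ : ℕ} (H : ∀ (a : ℕ) (I : ℕ →₀ ℕ), a + deg I < n₀ →
      MvPowerSeries.coeff I (N (Finsupp.single a 1)) ∈ A (a + 2 + deg I + 2 * num I))
    (m : ℕ) : ∀ (d I : ℕ →₀ ℕ), num d = m → deg d + deg I < n₀ →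
      MvPowerSeries.coeff I (N d) ∈ A (wt d + deg I + 2 * num I) := by
  induction m with
  | zero =>
    intro d I hd _
    obtain rfl := zero_of_num hd
    rw [hN0, wt_zero']
    exact mem_eq (one_mem_A hF I) (by omega)
  | succ m ih =>
    intro d I hd hdI
    obtain ⟨k, d', rfl⟩ := split_of_num (d := d) (by omega)
    rw [num_add, num_single] at hd
    rw [deg_add, deg_single] at hdI
    rw [hN, map_add, MvPowerSeries.coeff_C_mul, MvPowerSeries.coeff_pderiv,
      MvPowerSeries.coeff_mul]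
    refine add_mem ?_ (sum_mem fun x hx => ?_)
    · have h1 := ih d' (I + Finsupp.single k 1) (by omega) (by rw [deg_add, deg_single]; omega)
      have h2 := hF.mul hκ (nat_mem hF (I k + 1) h1)
      have h3 : κ * (MvPowerSeries.coeff (I + Finsupp.single k 1) (N d') * ((I k : R) + 1)) =
          κ * (((I k + 1 : ℕ) : R) * MvPowerSeries.coeff (I + Finsupp.single k 1) (N d')) := by
        push_cast
        ring
      rw [h3]
      refine mem_eq h2 ?_
      rw [wt_add, wt_single, deg_add, num_add, deg_single, num_single]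
      omega
    · rw [Finset.HasAntidiagonal.mem_antidiagonal] at hx
      subst hx
      rw [deg_add] at hdI
      have h1 := H k x.1 (by omega)
      have h2 := ih d' x.2 (by omega) (by omega)
      refine mem_eq (hF.mul h1 h2) ?_
      rw [wt_add, wt_single, deg_add, num_add]
      omega

private lemma coeff_tw1 (f : MvPowerSeries ℕ R) (I : ℕ →₀ ℕ) :
    MvPowerSeries.coeff I (tw f) = C (MvPowerSeries.coeff I f) * X ^ deg I := rfl

private lemma coeff_term (p c : R) (e m : ℕ) (g : R⟦X⟧) :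
    coeff m (C p * ((C c * X ^ e) * g)) =
      p * (c * (if e ≤ m then coeff (m - e) g else 0)) := by
  rw [PowerSeries.coeff_C_mul, mul_assoc, PowerSeries.coeff_C_mul, PowerSeries.coeff_X_pow_mul']

private lemma coeff_jt (N : (ℕ →₀ ℕ) → MvPowerSeries ℕ R) (M : (ℕ →₀ ℕ) → MvPowerSeries ℕ R⟦X⟧)
    (p : MvPolynomial (ℕ ⊕ ℕ) R) (m : ℕ) (I : ℕ →₀ ℕ) :
    coeff m (MvPowerSeries.coeff I (jt N M p)) =
      ∑ d ∈ p.support, ∑ x ∈ Finset.HasAntidiagonal.antidiagonal I,
        p.coeff d * (MvPowerSeries.coeff x.1 (N (dl d)) *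
          (if deg x.1 ≤ m then coeff (m - deg x.1) (MvPowerSeries.coeff x.2 (M (dr d))) else 0)) := by
  unfold jt
  rw [map_sum, map_sum]
  refine sum_congr rfl fun d _ => ?_
  rw [MvPowerSeries.coeff_C_mul, MvPowerSeries.coeff_mul, mul_sum, map_sum]
  refine sum_congr rfl fun x _ => ?_
  rw [coeff_tw1, coeff_term]

private lemma ext_lr {d e : ℕ ⊕ ℕ →₀ ℕ} (h1 : dl d = dl e) (h2 : dr d = dr e) : d = e := by
  ext i
  rcases i with i | i
  · have := DFunLike.congr_fun h1 i
    simpa [dl] using this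
  · have := DFunLike.congr_fun h2 i
    simpa [dr] using this

private lemma dl_spec (a : ℕ) :
    dl (Finsupp.single (Sum.inl a) 1) = Finsupp.single a 1 := by
  ext i
  unfold dl
  rw [Finsupp.comapDomain_apply]
  simp only [Finsupp.single_apply, Sum.inl.injEq]

private lemma dr_spec (a : ℕ) :
    dr (Finsupp.single (Sum.inl a) 1) = 0 := by
  ext i
  unfold dr
  rw [Finsupp.comapDomain_apply]
  simp [Finsupp.single_apply]

private lemma sum_split {α : Type*} (B : AddSubgroup R) (s : Finset α) (f : α → R) (x₀ : α)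
    (hx : x₀ ∈ s) (h : ∑ x ∈ s, f x ∈ B) (h' : ∀ x ∈ s, x ≠ x₀ → f x ∈ B) : f x₀ ∈ B := by
  classical
  have h1 : ∑ x ∈ s.erase x₀, f x ∈ B :=
    sum_mem fun x hx => h' x (mem_of_mem_erase hx) (ne_of_mem_erase hx)
  have h2 := sub_mem h h1
  rwa [← Finset.sum_erase_add s f hx, add_sub_cancel_left] at h2

end aux

theorem core {R : Type*} [CommRing R] [Algebra ℚ R] {ok : ℕ → ℕ → Prop} (hok : OkRel ok)
    (hr : ∀ n, ok n n) (hle : ∀ a n, ok a n → a ≤ n) {A : ℕ → AddSubgroup R} (hF : Fil ok A) (κ : R) (hκ : κ ∈ A 0)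
    (P : ℕ → MvPolynomial (ℕ ⊕ ℕ) R)
    (hP : ∀ j, ∀ d ∈ (P j).support, ok (wt (dl d) + wt (dr d)) j ∧ (P j).coeff d ∈ A 0)
    (hP1 : ∀ a : ℕ, (P (a + 2)).coeff (Finsupp.single (Sum.inl a) 1) = ((a + 1).factorial : R))
    (N : (ℕ →₀ ℕ) → MvPowerSeries ℕ R) (hN0 : N 0 = 1)
    (hN : ∀ d k, N (d + Finsupp.single k 1) =
      MvPowerSeries.C κ * MvPowerSeries.pderiv R k (N d) + N (Finsupp.single k 1) * N d)
    (M : (ℕ →₀ ℕ) → MvPowerSeries ℕ R⟦X⟧) (hM0 : M 0 = 1)
    (hM : ∀ b I n, coeff n (MvPowerSeries.coeff I (M b)) ∈ A (wt b + n + 2 * num I))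
    (hrel : Rel (fun j => jt N M (P j))) (a : ℕ) (I : ℕ →₀ ℕ) :
    MvPowerSeries.coeff I (N (Finsupp.single a 1)) ∈ A (a + 2 + deg I + 2 * num I) := by
  have main : ∀ (n₀ a : ℕ) (I : ℕ →₀ ℕ), a + deg I = n₀ →
      MvPowerSeries.coeff I (N (Finsupp.single a 1)) ∈ A (a + 2 + deg I + 2 * num I) := by
    intro n₀
    induction n₀ using Nat.strong_induction_on with
    | _ n₀ IH =>
    intro a I haI
    have H1 := step1 hF hκ hN0 hN (n₀ := n₀) (fun a' I' h => IH (a' + deg I') h a' I' rfl)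
    have hgen : ∀ (j : ℕ) (d : ℕ ⊕ ℕ →₀ ℕ) (x : (ℕ →₀ ℕ) × (ℕ →₀ ℕ)), j ≤ deg I + (a + 2) →
        d ∈ (P j).support → x.1 + x.2 = I →
        ¬ (j = a + 2 ∧ d = Finsupp.single (Sum.inl a) 1 ∧ x.2 = 0) →
        (P j).coeff d * (MvPowerSeries.coeff x.1 (N (dl d)) *
          (if deg x.1 ≤ deg I + (a + 2) - j then
            coeff (deg I + (a + 2) - j - deg x.1) (MvPowerSeries.coeff x.2 (M (dr d))) else 0)) ∈
        A (a + 2 + deg I + 2 * num I) := by
      intro j d x hj hd hx hne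
      obtain ⟨hok1, hcA⟩ := hP j d hd
      split_ifs with hdeg
      · obtain ⟨e, he⟩ : ∃ e : ℕ, e = deg I + (a + 2) - j - deg x.1 := ⟨_, rfl⟩
        rw [← he]
        have hdI : deg x.1 + deg x.2 = deg I := by rw [← deg_add, hx]
        have hnI : num x.1 + num x.2 = num I := by rw [← num_add, hx]
        have hsuff : MvPowerSeries.coeff x.1 (N (dl d)) ∈
            A (wt (dl d) + deg x.1 + 2 * num x.1) →
            (P j).coeff d * (MvPowerSeries.coeff x.1 (N (dl d)) *
              coeff e (MvPowerSeries.coeff x.2 (M (dr d)))) ∈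
            A (a + 2 + deg I + 2 * num I) := by
          intro h1
          have h2 := hF.mul hcA (hF.mul h1 (hM (dr d) x.2 e))
          refine hF.mono ?_ h2
          have h3 := hok.add hok1 (hr (deg x.1 + 2 * num x.1 + (e + 2 * num x.2)))
          have e1 : 0 + (wt (dl d) + deg x.1 + 2 * num x.1 + (wt (dr d) + e + 2 * num x.2)) =
              wt (dl d) + wt (dr d) + (deg x.1 + 2 * num x.1 + (e + 2 * num x.2)) := by ring
          have e2 : a + 2 + deg I + 2 * num I =
              j + (deg x.1 + 2 * num x.1 + (e + 2 * num x.2)) := by omega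
          rw [e1, e2]
          exact h3
        by_cases h0 : num (dl d) = 0
        · apply hsuff
          rw [zero_of_num h0, hN0, wt_zero']
          exact mem_eq (one_mem_A hF x.1) (by omega)
        by_cases hlt : deg (dl d) + deg x.1 < n₀
        · exact hsuff (H1 _ (dl d) x.1 rfl hlt)
        have hw := hle _ _ hok1
        have hw1 := wt_eq (dl d)
        have hw2 := wt_eq (dr d)
        have hnum : num (dl d) = 1 := by omega
        have hnr : num (dr d) = 0 := by omega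
        have hr0 := zero_of_num hnr
        rw [hr0, hM0]
        by_cases hx2 : x.2 = 0
        · exfalso
          apply hne
          obtain ⟨k, d', hk⟩ := split_of_num h0
          rw [hk, num_add, num_single] at hnum
          have hd' := zero_of_num (d := d') (by omega)
          rw [hd', zero_add] at hk
          have hx1 : x.1 = I := by rw [← hx, hx2, add_zero]
          rw [hx1, hk, deg_single] at hlt
          rw [hk, wt_single] at hw
          rw [hx1] at he hdeg
          have hka : k = a := by omega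
          rw [hka] at hk
          refine ⟨by omega, ext_lr ?_ ?_, hx2⟩
          · rw [hk, dl_spec]
          · rw [hr0, dr_spec]
        · classical
          rw [MvPowerSeries.coeff_one, if_neg hx2, map_zero, mul_zero, mul_zero]
          exact zero_mem _
      · rw [mul_zero, mul_zero]
        exact zero_mem _
    have hr0 := hrel I (deg I + (a + 2)) (by omega)
    simp only [coeff_jt] at hr0
    have h1 := sum_split (A (a + 2 + deg I + 2 * num I)) (range (deg I + (a + 2) + 1)) _ (a + 2)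
      (mem_range.2 (by omega)) (by rw [hr0]; exact zero_mem _)
      (fun j hj hne => sum_mem fun d hd => sum_mem fun x hx =>
        hgen j d x (by rw [mem_range] at hj; omega) hd
          (Finset.HasAntidiagonal.mem_antidiagonal.1 hx) (fun h => hne h.1))
    have hfac : ((a + 1).factorial : R) * MvPowerSeries.coeff I (N (Finsupp.single a 1)) ∈
        A (a + 2 + deg I + 2 * num I) := by
      by_cases hs : Finsupp.single (Sum.inl a) 1 ∈ (P (a + 2)).support
      · have h2 := sum_split (A (a + 2 + deg I + 2 * num I)) _ _ (Finsupp.single (Sum.inl a) 1)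
          hs h1 (fun d hd hne => sum_mem fun x hx =>
            hgen (a + 2) d x (by omega) hd
              (Finset.HasAntidiagonal.mem_antidiagonal.1 hx) (fun h => hne h.2.1))
        have h3 := sum_split (A (a + 2 + deg I + 2 * num I)) _ _ (I, 0)
          (Finset.HasAntidiagonal.mem_antidiagonal.2 (add_zero I)) h2
          (fun x hx hne => hgen (a + 2) _ x (by omega) hs
            (Finset.HasAntidiagonal.mem_antidiagonal.1 hx) (fun h => hne (by
              have hx' := Finset.HasAntidiagonal.mem_antidiagonal.1 hx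
              rw [h.2.2, add_zero] at hx'
              exact Prod.ext hx' h.2.2)))
        have e1 : deg I + (a + 2) - (a + 2) = deg I := by omega
        simp only [e1, le_refl, if_true, tsub_self] at h3
        rw [dl_spec, dr_spec, hM0, hP1] at h3
        rw [MvPowerSeries.coeff_zero_one] at h3
        simpa using h3
      · have h2 : (P (a + 2)).coeff (Finsupp.single (Sum.inl a) 1) = 0 := by
          simpa using hs
        rw [hP1] at h2
        rw [h2, zero_mul]
        exact zero_mem _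
    have h4 := hF.rat (((a + 1).factorial : ℚ)⁻¹) hfac
    have h5 : algebraMap ℚ R (((a + 1).factorial : ℚ)⁻¹) * (((a + 1).factorial : R) *
        MvPowerSeries.coeff I (N (Finsupp.single a 1))) =
        MvPowerSeries.coeff I (N (Finsupp.single a 1)) := by
      rw [← mul_assoc, ← map_natCast (algebraMap ℚ R) ((a + 1).factorial), ← map_mul,
        inv_mul_cancel₀ (by exact_mod_cast (Nat.factorial_ne_zero _)), map_one, one_mul]
    rwa [h5] at h4
  exact main _ a I rfl

end MPa7fa83.Cs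
end

section

/-!
# P2: the leading coefficient

For `i ≥ 1` the polynomial `ppp α β i` has no constant term, hence `PP α β k` has none for `k ≥ 1`.
So the coefficient of the monomial `x_a` in `PP α β (a+2) = 1/(a+2) ∑_{i} (-1)^i p_{i+1} e_{a+1-i}`
comes only from `i = a + 1`, and in `p_{a+2}` it is `(a+2)! * (- (-1)^a α_0)`; total
`(-1)^{a+1} (-1)^{a+1} (a+2)! / (a+2) = (a+1)!`.
-/

set_option autoImplicit false

namespace MPa7fa83.Cs

open Finset PowerSeries MPa7fa83.Ok

private lemma cs_mul {R : Type*} [CommRing R] (s : ℕ ⊕ ℕ) (f g : MvPolynomial (ℕ ⊕ ℕ) R) :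
    (f * g).coeff (Finsupp.single s 1) =
      f.coeff 0 * g.coeff (Finsupp.single s 1) + f.coeff (Finsupp.single s 1) * g.coeff 0 := by
  classical
  rw [MvPolynomial.coeff_mul, Finsupp.antidiagonal_single, Finset.sum_map]
  have : (Finset.HasAntidiagonal.antidiagonal 1 : Finset (ℕ × ℕ)) = {(0, 1), (1, 0)} := by decide
  rw [this, Finset.sum_pair (by decide)]
  simp

private lemma c0_mul {R : Type*} [CommRing R] (f g : MvPolynomial (ℕ ⊕ ℕ) R) :
    (f * g).coeff 0 = f.coeff 0 * g.coeff 0 := by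
  have := map_mul (MvPolynomial.constantCoeff (σ := ℕ ⊕ ℕ) (R := R)) f g
  simpa [MvPolynomial.constantCoeff_eq] using this

private lemma hxs_c0 {R : Type*} [CommRing R] (α : ℕ → R) (i : ℕ) :
    (coeff i (hxs α)).coeff 0 = if i = 0 then 1 else 0 := by
  have h : PowerSeries.map (MvPolynomial.constantCoeff (σ := ℕ ⊕ ℕ) (R := R)) (hxs α) = 1 := by
    rw [hxs, map_sub, map_mul, map_mul]
    have : PowerSeries.map (MvPolynomial.constantCoeff (σ := ℕ ⊕ ℕ) (R := R))
        (PowerSeries.mk (fun a => (-1) ^ a * MvPolynomial.X (Sum.inl a))) = 0 := by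
      ext n
      simp
    rw [this]
    simp
  have h2 := congrArg (coeff i) h
  rw [PowerSeries.coeff_map, PowerSeries.coeff_one] at h2
  simpa [MvPolynomial.constantCoeff_eq] using h2

private lemma hys_c0 {R : Type*} [CommRing R] (β : ℕ → R) (i : ℕ) :
    (coeff i (hys β)).coeff 0 = if i = 0 then 1 else 0 := by
  have h : PowerSeries.map (MvPolynomial.constantCoeff (σ := ℕ ⊕ ℕ) (R := R)) (hys β) = 1 := by
    rw [hys, map_sub, map_mul, map_mul]
    have : PowerSeries.map (MvPolynomial.constantCoeff (σ := ℕ ⊕ ℕ) (R := R))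
        (PowerSeries.mk (fun b => MvPolynomial.X (Sum.inr b))) = 0 := by
      ext n
      simp
    rw [this]
    simp
  have h2 := congrArg (coeff i) h
  rw [PowerSeries.coeff_map, PowerSeries.coeff_one] at h2
  simpa [MvPolynomial.constantCoeff_eq] using h2

private lemma hys_cs {R : Type*} [CommRing R] (β : ℕ → R) (a i : ℕ) :
    (coeff i (hys β)).coeff (Finsupp.single (Sum.inl a) 1) = 0 := by
  rw [hys, map_sub, MvPolynomial.coeff_sub, mul_assoc, PowerSeries.coeff_one,
    PowerSeries.coeff_X_pow_mul']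
  have e1 : ((if i = 0 then (1 : MvPolynomial (ℕ ⊕ ℕ) R) else 0)).coeff
      (Finsupp.single (Sum.inl a) 1) = 0 := by
    split_ifs with h
    · rw [MvPolynomial.coeff_one, if_neg]
      intro h'
      exact (Finsupp.single_ne_zero.mpr one_ne_zero) h'.symm
    · simp
  rw [e1]
  split_ifs with h
  · rw [PowerSeries.coeff_mul, MvPolynomial.coeff_sum, zero_sub, neg_eq_zero]
    refine Finset.sum_eq_zero fun p _ => ?_
    rw [PowerSeries.coeff_mk, PowerSeries.coeff_mk, MvPolynomial.coeff_C_mul,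
      MvPolynomial.coeff_X, if_neg, mul_zero]
    intro h'
    have := Finsupp.single_left_injective (one_ne_zero) h'
    simp at this
  · simp

private lemma hxs_cs {R : Type*} [CommRing R] {α : ℕ → R} (hα : α 0 = 1) (a : ℕ) :
    (coeff (a + 2) (hxs α)).coeff (Finsupp.single (Sum.inl a) 1) = - (-1) ^ a := by
  rw [hxs, map_sub, MvPolynomial.coeff_sub, mul_assoc, PowerSeries.coeff_one,
    PowerSeries.coeff_X_pow_mul', if_neg (by omega), if_pos (by omega), Nat.add_sub_cancel,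
    PowerSeries.coeff_mul, MvPolynomial.coeff_sum]
  rw [Finset.sum_eq_single (0, a)]
  · rw [PowerSeries.coeff_mk, PowerSeries.coeff_mk, MvPolynomial.coeff_C_mul, hα, one_mul]
    have : ((-1 : MvPolynomial (ℕ ⊕ ℕ) R)) ^ a = MvPolynomial.C ((-1) ^ a) := by simp
    rw [this, MvPolynomial.coeff_C_mul, MvPolynomial.coeff_X]
    simp
  · rintro ⟨e, b⟩ hb hne
    have hb' : e + b = a := Finset.HasAntidiagonal.mem_antidiagonal.mp hb
    rw [PowerSeries.coeff_mk, PowerSeries.coeff_mk, MvPolynomial.coeff_C_mul]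
    have : ((-1 : MvPolynomial (ℕ ⊕ ℕ) R)) ^ b = MvPolynomial.C ((-1) ^ b) := by simp
    simp only
    rw [this, MvPolynomial.coeff_C_mul, MvPolynomial.coeff_X, if_neg, mul_zero, mul_zero]
    intro h'
    have h2 := Finsupp.single_left_injective (one_ne_zero) h'
    have h3 : b = a := by simpa using h2
    apply hne
    rw [h3] at hb'
    have : e = 0 := by omega
    rw [this, h3]
  · intro h
    exact absurd (Finset.HasAntidiagonal.mem_antidiagonal.mpr (by simp)) h

private lemma ppp_c0 {R : Type*} [CommRing R] [Algebra ℚ R] (α β : ℕ → R) (i : ℕ) (hi : i ≠ 0) :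
    (ppp α β i).coeff 0 = 0 := by
  rw [ppp, c0_mul, PowerSeries.coeff_mul, MvPolynomial.coeff_sum]
  rw [Finset.sum_eq_zero, mul_zero]
  rintro ⟨u, v⟩ huv
  have : u + v = i := Finset.HasAntidiagonal.mem_antidiagonal.mp huv
  simp only
  rw [c0_mul, hys_c0, hxs_c0]
  by_cases hu : u = 0
  · rw [if_neg (show ¬ v = 0 by omega), mul_zero]
  · rw [if_neg hu, zero_mul]

private lemma ppp_cs {R : Type*} [CommRing R] [Algebra ℚ R] {α β : ℕ → R} (hα : α 0 = 1) (a : ℕ) :
    (ppp α β (a + 2)).coeff (Finsupp.single (Sum.inl a) 1) =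
      ((a + 2).factorial : R) * (- (-1) ^ a) := by
  rw [ppp]
  have hc : (((a + 2).factorial : MvPolynomial (ℕ ⊕ ℕ) R)) =
      MvPolynomial.C (((a + 2).factorial : R)) := by simp
  rw [hc, MvPolynomial.coeff_C_mul, PowerSeries.coeff_mul, MvPolynomial.coeff_sum,
    Finset.sum_eq_single (0, a + 2)]
  · simp only
    rw [cs_mul, hys_c0, if_pos rfl, one_mul, hys_cs, zero_mul, add_zero, hxs_cs hα]
  · rintro ⟨u, v⟩ huv hne
    have : u + v = a + 2 := Finset.HasAntidiagonal.mem_antidiagonal.mp huv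
    simp only
    rw [cs_mul, hys_cs, zero_mul, add_zero, hys_c0, if_neg, zero_mul]
    rintro rfl
    exact hne (by rw [← this, zero_add])
  · intro h
    exact absurd (Finset.HasAntidiagonal.mem_antidiagonal.mpr (by simp)) h

private lemma algQ {R : Type*} [CommRing R] [Algebra ℚ R] (q : ℚ) :
    algebraMap ℚ (MvPolynomial (ℕ ⊕ ℕ) R) q = MvPolynomial.C (algebraMap ℚ R q) := by
  rw [IsScalarTower.algebraMap_apply ℚ R (MvPolynomial (ℕ ⊕ ℕ) R)]
  rfl

private lemma PP_c0 {R : Type*} [CommRing R] [Algebra ℚ R] (α β : ℕ → R) (k : ℕ) (hk : k ≠ 0) :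
    (PP α β k).coeff 0 = 0 := by
  obtain ⟨j, rfl⟩ := Nat.exists_eq_succ_of_ne_zero hk
  rw [PP, ee_succ, algQ, MvPolynomial.coeff_C_mul, MvPolynomial.coeff_sum,
    Finset.sum_eq_zero, mul_zero]
  intro i _
  rw [c0_mul, c0_mul, ppp_c0 α β (i + 1) (by omega), mul_zero, zero_mul]

theorem PP_top {R : Type*} [CommRing R] [Algebra ℚ R] {α β : ℕ → R} (hα : α 0 = 1) (a : ℕ) :
    (PP α β (a + 2)).coeff (Finsupp.single (Sum.inl a) 1) = ((a + 1).factorial : R) := by
  have h1 : (PP α β (a + 2)) = PP α β ((a + 1) + 1) := rfl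
  rw [h1, PP, ee_succ, algQ, MvPolynomial.coeff_C_mul, MvPolynomial.coeff_sum,
    Finset.sum_eq_single (a + 1)]
  · have hn : ((-1 : MvPolynomial (ℕ ⊕ ℕ) R)) ^ (a + 1) = MvPolynomial.C ((-1) ^ (a + 1)) := by
      simp
    rw [cs_mul, c0_mul, ppp_c0 α β (a + 1 + 1) (by omega), mul_zero, zero_mul, zero_add,
      hn, MvPolynomial.coeff_C_mul, show a + 1 + 1 = a + 2 from rfl, ppp_cs hα,
      show a + 1 - (a + 1) = 0 by omega]
    have he : (ee (ppp α β) 0).coeff 0 = (1 : R) := by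
      rw [ee]; simp
    rw [he, mul_one, Nat.factorial_succ (a + 1)]
    have hq : algebraMap ℚ R (1 / (((a + 1 : ℕ) : ℚ) + 1)) * (((a + 1 + 1 : ℕ)) : R) = 1 := by
      have : (((a + 1 + 1 : ℕ)) : R) = algebraMap ℚ R (((a + 1 : ℕ) : ℚ) + 1) := by
        push_cast
        simp
      rw [this, ← map_mul, one_div, inv_mul_cancel₀ (by positivity), map_one]
    have hs : ((-1 : R)) ^ (a + 1) * (-(-1) ^ a) = 1 := by
      rw [pow_succ]
      have : ((-1 : R) ^ a) * ((-1 : R) ^ a) = 1 := by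
        rw [← mul_pow]; simp
      linear_combination this
    push_cast at hq ⊢
    linear_combination ((-1 : R) ^ (a + 1) * (-(-1) ^ a)) * ((a + 1).factorial : R) * hq +
      ((a + 1).factorial : R) * hs
  · intro i hi hne
    have hi' : i < a + 1 + 1 := Finset.mem_range.mp hi
    rw [cs_mul, c0_mul, ppp_c0 α β (i + 1) (by omega), mul_zero, zero_mul, zero_add]
    have : (ee (ppp α β) (a + 1 - i)).coeff 0 = (0 : R) := PP_c0 α β (a + 1 - i) (by omega)
    rw [this, mul_zero]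
  · intro h
    exact absurd (Finset.mem_range.mpr (by omega)) h

end MPa7fa83.Cs
end
end

section

section

/-!
# P1: weights of the universal polynomials

Let `Sp j` be the set of polynomials all of whose monomials `d` satisfy
`ok (wt (dl d) + wt (dr d)) j` and have coefficients in `A 0`.  It is closed under sums and rational multiples,
`Sp i * Sp j ⊆ Sp (i + j)`.  The coefficient `i` of `hys β * hxs α` is in `Sp i`: the coefficient
of `X^{a+2+e}` in `X² α ∑ (-X)^a x_a` contains `α_e x_a`, of weight `a + 2`, and `α_e = 0` or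
`ok 0 e`.  Then induction with `ee_succ`.
-/

set_option autoImplicit false

namespace MPa7fa83.Cs

open Finset PowerSeries MPa7fa83.Ok

section

variable {R : Type*} [CommRing R] [Algebra ℚ R]

private noncomputable def P1_w (d : ℕ ⊕ ℕ →₀ ℕ) : ℕ := wt (dl d) + wt (dr d)

private lemma P1_w_add (d e : ℕ ⊕ ℕ →₀ ℕ) : P1_w (d + e) = P1_w d + P1_w e := by
  unfold P1_w
  rw [dl_add, dr_add, wt_add, wt_add]
  ring

private lemma P1_w_zero : P1_w 0 = 0 := by
  have h := P1_w_add 0 0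
  rw [add_zero] at h
  omega

private lemma P1_w_inl (a : ℕ) : P1_w (Finsupp.single (Sum.inl a) 1) = a + 2 := by
  have h1 : dl (Finsupp.single (Sum.inl a) 1) = Finsupp.single a 1 := by
    unfold dl
    ext x
    rw [Finsupp.comapDomain_apply]
    by_cases h : x = a
    · subst h; simp
    · rw [Finsupp.single_eq_of_ne (by simpa using h), Finsupp.single_eq_of_ne h]
  have h2 : dr (Finsupp.single (Sum.inl a) 1) = 0 := by
    unfold dr
    ext x
    rw [Finsupp.comapDomain_apply, Finsupp.single_eq_of_ne (by simp)]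
    rfl
  unfold P1_w
  rw [h1, h2, wt_single, wt_zero']
  ring

private lemma P1_w_inr (a : ℕ) : P1_w (Finsupp.single (Sum.inr a) 1) = a + 2 := by
  have h1 : dr (Finsupp.single (Sum.inr a) 1) = Finsupp.single a 1 := by
    unfold dr
    ext x
    rw [Finsupp.comapDomain_apply]
    by_cases h : x = a
    · subst h; simp
    · rw [Finsupp.single_eq_of_ne (by simpa using h), Finsupp.single_eq_of_ne h]
  have h2 : dl (Finsupp.single (Sum.inr a) 1) = 0 := by
    unfold dl
    ext x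
    rw [Finsupp.comapDomain_apply, Finsupp.single_eq_of_ne (by simp)]
    rfl
  unfold P1_w
  rw [h1, h2, wt_single, wt_zero']
  ring

/-- polynomials with allowed weights -/
private def P1_Sp (ok : ℕ → ℕ → Prop) (A : ℕ → AddSubgroup R) (j : ℕ) :
    AddSubgroup (MvPolynomial (ℕ ⊕ ℕ) R) where
  carrier := {p | ∀ d, p.coeff d ∈ A 0 ∧ (p.coeff d ≠ 0 → ok (P1_w d) j)}
  zero_mem' := by
    intro d
    rw [MvPolynomial.coeff_zero]
    exact ⟨zero_mem _, fun h => absurd rfl h⟩
  add_mem' := by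
    intro p q hp hq d
    rw [MvPolynomial.coeff_add]
    refine ⟨add_mem (hp d).1 (hq d).1, fun h => ?_⟩
    by_cases h1 : p.coeff d = 0
    · by_cases h2 : q.coeff d = 0
      · rw [h1, h2, add_zero] at h
        exact absurd rfl h
      · exact (hq d).2 h2
    · exact (hp d).2 h1
  neg_mem' := by
    intro p hp d
    rw [MvPolynomial.coeff_neg]
    exact ⟨neg_mem (hp d).1, fun h => (hp d).2 (fun h' => h (by rw [h', neg_zero]))⟩

variable {ok : ℕ → ℕ → Prop} {A : ℕ → AddSubgroup R}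

private lemma P1_mem {j : ℕ} {p : MvPolynomial (ℕ ⊕ ℕ) R} :
    p ∈ P1_Sp ok A j ↔ ∀ d, p.coeff d ∈ A 0 ∧ (p.coeff d ≠ 0 → ok (P1_w d) j) := Iff.rfl

private lemma P1_one (hok : OkRel ok) (hF : Fil ok A) :
    (1 : MvPolynomial (ℕ ⊕ ℕ) R) ∈ P1_Sp ok A 0 := by
  classical
  rw [P1_mem]
  intro d
  rw [MvPolynomial.coeff_one]
  by_cases h : 0 = d
  · rw [if_pos h, ← h, P1_w_zero]
    exact ⟨hF.one, fun _ => hok.zero⟩
  · rw [if_neg h]
    exact ⟨zero_mem _, fun h => absurd rfl h⟩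

private lemma P1_mul (hok : OkRel ok) (hF : Fil ok A) {i j : ℕ}
    {p q : MvPolynomial (ℕ ⊕ ℕ) R} (hp : p ∈ P1_Sp ok A i) (hq : q ∈ P1_Sp ok A j) :
    p * q ∈ P1_Sp ok A (i + j) := by
  classical
  rw [P1_mem] at hp hq ⊢
  intro d
  rw [MvPolynomial.coeff_mul]
  refine ⟨sum_mem fun x _ => ?_, fun h => ?_⟩
  · exact hF.mul (hp x.1).1 (hq x.2).1
  · obtain ⟨x, hx, hne⟩ := Finset.exists_ne_zero_of_sum_ne_zero h
    have hd : x.1 + x.2 = d := by simpa using hx
    have h1 : p.coeff x.1 ≠ 0 := fun h' => hne (by rw [h', zero_mul])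
    have h2 : q.coeff x.2 ≠ 0 := fun h' => hne (by rw [h', mul_zero])
    rw [← hd, P1_w_add]
    exact hok.add ((hp x.1).2 h1) ((hq x.2).2 h2)

private lemma P1_rat (hF : Fil ok A) (c : ℚ) {i : ℕ}
    {p : MvPolynomial (ℕ ⊕ ℕ) R} (hp : p ∈ P1_Sp ok A i) :
    algebraMap ℚ (MvPolynomial (ℕ ⊕ ℕ) R) c * p ∈ P1_Sp ok A i := by
  rw [P1_mem] at hp ⊢
  intro d
  rw [MvPolynomial.algebraMap_apply, MvPolynomial.coeff_C_mul]
  exact ⟨hF.rat c (hp d).1, fun h => (hp d).2 (fun h' => h (by rw [h', mul_zero]))⟩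

private lemma P1_negpow (hok : OkRel ok) (hF : Fil ok A) (i : ℕ) :
    ((-1 : MvPolynomial (ℕ ⊕ ℕ) R)) ^ i ∈ P1_Sp ok A 0 := by
  rcases neg_one_pow_eq_or (MvPolynomial (ℕ ⊕ ℕ) R) i with h | h
  · rw [h]; exact P1_one hok hF
  · rw [h]; exact neg_mem (P1_one hok hF)

/-- power series with allowed weights -/
private def P1_PS (ok : ℕ → ℕ → Prop) (A : ℕ → AddSubgroup R)
    (f : (MvPolynomial (ℕ ⊕ ℕ) R)⟦X⟧) : Prop := ∀ i, coeff i f ∈ P1_Sp ok A i

private lemma P1_PS_mul (hok : OkRel ok) (hF : Fil ok A) {f g : (MvPolynomial (ℕ ⊕ ℕ) R)⟦X⟧}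
    (hf : P1_PS ok A f) (hg : P1_PS ok A g) : P1_PS ok A (f * g) := by
  intro i
  rw [PowerSeries.coeff_mul]
  refine sum_mem fun x hx => ?_
  have hx' : x.1 + x.2 = i := by simpa using hx
  rw [← hx']
  exact P1_mul hok hF (hf x.1) (hg x.2)

private lemma P1_PS_one (hok : OkRel ok) (hF : Fil ok A) :
    P1_PS ok A (1 : (MvPolynomial (ℕ ⊕ ℕ) R)⟦X⟧) := by
  intro i
  rw [PowerSeries.coeff_one]
  by_cases h : i = 0
  · rw [if_pos h, h]; exact P1_one hok hF
  · rw [if_neg h]; exact zero_mem _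

private lemma P1_PS_sub {f g : (MvPolynomial (ℕ ⊕ ℕ) R)⟦X⟧}
    (hf : P1_PS ok A f) (hg : P1_PS ok A g) : P1_PS ok A (f - g) := by
  intro i
  rw [map_sub]
  exact sub_mem (hf i) (hg i)

private lemma P1_PS_C {α : ℕ → R} (hα : ∀ e, α e ∈ A 0 ∧ (α e = 0 ∨ ok 0 e)) :
    P1_PS ok A (PowerSeries.mk (fun e => (MvPolynomial.C (α e) : MvPolynomial (ℕ ⊕ ℕ) R))) := by
  classical
  intro i
  rw [PowerSeries.coeff_mk, P1_mem]
  intro d
  rw [MvPolynomial.coeff_C]
  by_cases h : 0 = d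
  · rw [if_pos h, ← h, P1_w_zero]
    refine ⟨(hα i).1, fun hne => ?_⟩
    rcases (hα i).2 with h' | h'
    · exact absurd h' hne
    · exact h'
  · rw [if_neg h]
    exact ⟨zero_mem _, fun h => absurd rfl h⟩

private lemma P1_X (hF : Fil ok A) (hr : ∀ n, ok n n) (v : ℕ ⊕ ℕ) (a : ℕ)
    (hv : P1_w (Finsupp.single v 1) = a + 2) :
    (MvPolynomial.X v : MvPolynomial (ℕ ⊕ ℕ) R) ∈ P1_Sp ok A (a + 2) := by
  classical
  rw [P1_mem]
  intro d
  rw [MvPolynomial.coeff_X]
  by_cases h : Finsupp.single v 1 = d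
  · rw [if_pos h, ← h, hv]
    exact ⟨hF.one, fun _ => hr _⟩
  · rw [if_neg h]
    exact ⟨zero_mem _, fun h => absurd rfl h⟩

private lemma P1_PS_X2 (f : ℕ → MvPolynomial (ℕ ⊕ ℕ) R)
    (hf : ∀ a, f a ∈ P1_Sp ok A (a + 2)) :
    P1_PS ok A (X ^ 2 * PowerSeries.mk f) := by
  intro i
  rw [PowerSeries.coeff_X_pow_mul']
  by_cases h : 2 ≤ i
  · rw [if_pos h, PowerSeries.coeff_mk]
    have := hf (i - 2)
    rwa [Nat.sub_add_cancel h] at this
  · rw [if_neg h]; exact zero_mem _

private lemma P1_hxs (hok : OkRel ok) (hr : ∀ n, ok n n) (hF : Fil ok A) {α : ℕ → R}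
    (hα : ∀ e, α e ∈ A 0 ∧ (α e = 0 ∨ ok 0 e)) : P1_PS ok A (hxs α) := by
  unfold hxs
  refine P1_PS_sub (P1_PS_one hok hF) ?_
  have e : (X ^ 2 * PowerSeries.mk (fun e => (MvPolynomial.C (α e) : MvPolynomial (ℕ ⊕ ℕ) R)) *
      PowerSeries.mk (fun a => (-1) ^ a * MvPolynomial.X (Sum.inl a))) =
      PowerSeries.mk (fun e => (MvPolynomial.C (α e) : MvPolynomial (ℕ ⊕ ℕ) R)) *
      (X ^ 2 * PowerSeries.mk (fun a => (-1) ^ a * MvPolynomial.X (Sum.inl a))) := by ring
  rw [e]
  refine P1_PS_mul hok hF (P1_PS_C hα) (P1_PS_X2 _ fun a => ?_)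
  have h := P1_mul hok hF (P1_negpow (R := R) hok hF a) (P1_X (R := R) hF hr (Sum.inl a) a (P1_w_inl a))
  rwa [zero_add] at h

private lemma P1_hys (hok : OkRel ok) (hr : ∀ n, ok n n) (hF : Fil ok A) {β : ℕ → R}
    (hβ : ∀ e, β e ∈ A 0 ∧ (β e = 0 ∨ ok 0 e)) : P1_PS ok A (hys β) := by
  unfold hys
  refine P1_PS_sub (P1_PS_one hok hF) ?_
  have e : (X ^ 2 * PowerSeries.mk (fun e => (MvPolynomial.C (β e) : MvPolynomial (ℕ ⊕ ℕ) R)) *
      PowerSeries.mk (fun b => MvPolynomial.X (Sum.inr b))) =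
      PowerSeries.mk (fun e => (MvPolynomial.C (β e) : MvPolynomial (ℕ ⊕ ℕ) R)) *
      (X ^ 2 * PowerSeries.mk (fun b => MvPolynomial.X (Sum.inr b))) := by ring
  rw [e]
  exact P1_PS_mul hok hF (P1_PS_C hβ)
    (P1_PS_X2 _ fun a => P1_X hF hr (Sum.inr a) a (P1_w_inr a))

private lemma P1_ppp (hok : OkRel ok) (hr : ∀ n, ok n n) (hF : Fil ok A) {α β : ℕ → R}
    (hα : ∀ e, α e ∈ A 0 ∧ (α e = 0 ∨ ok 0 e)) (hβ : ∀ e, β e ∈ A 0 ∧ (β e = 0 ∨ ok 0 e))
    (i : ℕ) : ppp α β i ∈ P1_Sp ok A i := by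
  unfold ppp
  rw [← nsmul_eq_mul]
  exact nsmul_mem (P1_PS_mul hok hF (P1_hys hok hr hF hβ) (P1_hxs hok hr hF hα) i) _

end

theorem PP_supp {R : Type*} [CommRing R] [Algebra ℚ R] {ok : ℕ → ℕ → Prop} (hok : OkRel ok)
    (hr : ∀ n, ok n n) {A : ℕ → AddSubgroup R} (hF : Fil ok A) {α β : ℕ → R}
    (hα : ∀ e, α e ∈ A 0 ∧ (α e = 0 ∨ ok 0 e)) (hβ : ∀ e, β e ∈ A 0 ∧ (β e = 0 ∨ ok 0 e))
    (j : ℕ) : ∀ d ∈ (PP α β j).support,
      ok (wt (dl d) + wt (dr d)) j ∧ (PP α β j).coeff d ∈ A 0 := by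
  have key : ∀ j, PP α β j ∈ P1_Sp ok A j := by
    intro j
    unfold PP
    induction j using Nat.strong_induction_on with
    | _ j ih =>
      cases j with
      | zero =>
        have e : ee (ppp α β) 0 = 1 := by rw [ee]
        rw [e]
        exact P1_one hok hF
      | succ j =>
        rw [ee_succ]
        refine P1_rat hF _ (sum_mem fun i hi => ?_)
        have hi' : i < j + 1 := Finset.mem_range.1 hi
        have h1 := P1_mul hok hF (P1_mul hok hF (P1_negpow (R := R) hok hF i)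
          (P1_ppp hok hr hF hα hβ (i + 1))) (ih (j - i) (by omega))
        have e : 0 + (i + 1) + (j - i) = j + 1 := by omega
        rwa [e] at h1
  intro d hd
  have h := (P1_mem.1 (key j)) d
  rw [MvPolynomial.mem_support_iff] at hd
  exact ⟨h.2 hd, h.1⟩

end MPa7fa83.Cs
end

section

/-!
# P4: parity of the coefficients

`rs a * ex (-a/2)` is the image under `X ↦ a X` of the even series
`(exp X - 1)/X * exp (-X/2) = 2 sinh (X/2) / X`.  If `2 l = t1 + t2` then
`rs (-t1) * rs (-t2) * ex l = [rs (-t1) ex (t1/2)] [rs (-t2) ex (t2/2)]`, and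
`rs t3 * rs t4 * ex (t1 + t2 - l) = [rs t3 ex (-t3/2)] [rs t4 ex (-t4/2)]` as
`t1 + t2 - l = (t1 + t2)/2 = -(t3 + t4)/2`.
-/

set_option autoImplicit false

namespace MPa7fa83.Cs

open Finset PowerSeries MPa7fa83.Ok

section

variable {Λ : Type*} [CommRing Λ] [Algebra ℚ Λ]

/-- odd coefficients vanish -/
private def Ev (f : Λ⟦X⟧) : Prop := ∀ n : ℕ, n % 2 = 1 → coeff n f = 0

omit [Algebra ℚ Λ] in
private lemma Ev_mul {f g : Λ⟦X⟧} (hf : Ev f) (hg : Ev g) : Ev (f * g) := by
  intro n hn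
  rw [PowerSeries.coeff_mul]
  apply Finset.sum_eq_zero
  rintro ⟨i, j⟩ hij
  have h1 : i + j = n := Finset.HasAntidiagonal.mem_antidiagonal.mp hij
  show coeff i f * coeff j g = 0
  rcases Nat.mod_two_eq_zero_or_one i with hi | hi
  · rw [hg j (by omega), mul_zero]
  · rw [hf i hi, zero_mul]

private lemma coeff_rs (a : Λ) (n : ℕ) :
    coeff n (rs a) = algebraMap ℚ Λ (((n + 1).factorial : ℚ)⁻¹) * a ^ n := by
  unfold rs
  rw [PowerSeries.coeff_mk]

private lemma X_mul_rs : (X : Λ⟦X⟧) * rs (1 : Λ) = ex (1 : Λ) - 1 := by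
  ext n
  rcases n with _ | n
  · rw [PowerSeries.coeff_zero_X_mul, map_sub, coeff_ex]
    simp
  · rw [PowerSeries.coeff_succ_X_mul, map_sub, coeff_ex, coeff_rs, PowerSeries.coeff_one,
      if_neg (Nat.succ_ne_zero n)]
    simp

private lemma half_ev : Ev (rs (1 : Λ) * ex (-(algebraMap ℚ Λ (1 / 2)))) := by
  intro n hn
  have h1 : (X : Λ⟦X⟧) * (rs (1 : Λ) * ex (-(algebraMap ℚ Λ (1 / 2)))) =
      ex (algebraMap ℚ Λ (1 / 2)) - ex (-(algebraMap ℚ Λ (1 / 2))) := by
    rw [← mul_assoc, X_mul_rs, sub_mul, one_mul, ← ex_add]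
    congr 2
    rw [← map_one (algebraMap ℚ Λ), ← map_neg, ← map_add]
    congr 1
    norm_num
  have h2 := congrArg (coeff (n + 1)) h1
  rw [PowerSeries.coeff_succ_X_mul] at h2
  rw [h2, map_sub, coeff_ex, coeff_ex]
  have h3 : Even (n + 1) := by
    rw [Nat.even_iff]
    omega
  rw [h3.neg_pow, sub_self]

omit [Algebra ℚ Λ] in
private lemma ev_rescale {f : Λ⟦X⟧} (hf : Ev f) (a : Λ) : Ev (rescale a f) := by
  intro n hn
  rw [PowerSeries.coeff_rescale, hf n hn, mul_zero]

private lemma rs_ev (a : Λ) : Ev (rs a * ex (-(algebraMap ℚ Λ (1 / 2) * a))) := by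
  have h := ev_rescale (half_ev (Λ := Λ)) a
  rw [map_mul] at h
  have h1 : rescale a (rs (1 : Λ)) = rs a := by
    ext n
    rw [PowerSeries.coeff_rescale, coeff_rs, coeff_rs, one_pow, mul_one, mul_comm]
  have h2 : rescale a (ex (-(algebraMap ℚ Λ (1 / 2)))) =
      ex (-(algebraMap ℚ Λ (1 / 2) * a)) := by
    ext n
    rw [PowerSeries.coeff_rescale, coeff_ex, coeff_ex, ← neg_mul, mul_pow]
    ring
  rw [h1, h2] at h
  exact h

private lemma half_eq {t1 t2 l : Λ} (h : 2 * l = t1 + t2) :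
    l = algebraMap ℚ Λ (1 / 2) * t1 + algebraMap ℚ Λ (1 / 2) * t2 := by
  rw [← mul_add, ← h, ← mul_assoc]
  have : algebraMap ℚ Λ (1 / 2) * 2 = 1 := by
    have h2 : (2 : Λ) = algebraMap ℚ Λ 2 := (map_ofNat (algebraMap ℚ Λ) 2).symm
    rw [h2, ← map_mul]
    norm_num
  rw [this, one_mul]

theorem al_zero (t1 t2 l : Λ) : al t1 t2 l 0 = 1 := by
  unfold al
  have h1 : ∀ a : Λ, coeff 0 (rs a) = 1 := by
    intro a
    rw [coeff_rs]
    simp
  have h2 : coeff 0 (ex l) = 1 := by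
    rw [coeff_ex]
    simp
  rw [PowerSeries.coeff_mul, Finset.Nat.antidiagonal_zero, Finset.sum_singleton,
    PowerSeries.coeff_mul, Finset.Nat.antidiagonal_zero, Finset.sum_singleton]
  simp only [h1, h2, mul_one]

theorem al_odd {t1 t2 l : Λ} (h : 2 * l = t1 + t2) {e : ℕ} (he : e % 2 = 1) :
    al t1 t2 l e = 0 := by
  unfold al
  have h1 : rs (-t1) * rs (-t2) * ex l =
      (rs (-t1) * ex (-(algebraMap ℚ Λ (1 / 2) * (-t1)))) *
      (rs (-t2) * ex (-(algebraMap ℚ Λ (1 / 2) * (-t2)))) := by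
    have h2 : ex l = ex (-(algebraMap ℚ Λ (1 / 2) * (-t1))) *
        ex (-(algebraMap ℚ Λ (1 / 2) * (-t2))) := by
      rw [← ex_add]
      congr 1
      rw [half_eq h]
      ring
    rw [h2]
    ring
  rw [h1]
  exact Ev_mul (rs_ev _) (rs_ev _) e he

theorem be_odd {t1 t2 t3 l : Λ} (h : 2 * l = t1 + t2) {e : ℕ} (he : e % 2 = 1) :
    be t1 t2 t3 l e = 0 := by
  unfold be
  have h1 : rs t3 * rs (-t1 - t2 - t3) * ex (t1 + t2 - l) =
      (rs t3 * ex (-(algebraMap ℚ Λ (1 / 2) * t3))) *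
      (rs (-t1 - t2 - t3) * ex (-(algebraMap ℚ Λ (1 / 2) * (-t1 - t2 - t3)))) := by
    have h2 : ex (t1 + t2 - l) = ex (-(algebraMap ℚ Λ (1 / 2) * t3)) *
        ex (-(algebraMap ℚ Λ (1 / 2) * (-t1 - t2 - t3))) := by
      rw [← ex_add]
      congr 1
      have h3 : t1 + t2 - l = l := by
        rw [← h]
        ring
      rw [h3, half_eq h]
      ring
    rw [h2]
    ring
  rw [h1, Ev_mul (rs_ev _) (rs_ev _) e he, mul_zero]

end

end MPa7fa83.Cs
end

section

/-!
# P3: evaluation of the universal polynomials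

`1 - ex a = - a X rs a` and `∑_e ex (cn e) = ex (-L) * ∑_k chs L a b k s X^k`, so
`Hse a b s = 1 - X² * rs a * rs b * ex (-L) * mk (fun k => a * b * chs L a b k s)`.
For `Hse (-t1) (-t2) s` take `L = - l`: `chs (-l) (-t1) (-t2) k s = (-1)^k chs l t1 t2 k s`.
-/

set_option autoImplicit false

namespace MPa7fa83.Cs

open Finset PowerSeries MPa7fa83.Ok

section

variable {Λ : Type*} [CommRing Λ] [Algebra ℚ Λ]

private lemma P3_ex (a : Λ) : ex a = 1 + C a * (X * rs a) := by
  ext i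
  rw [coeff_ex]
  rcases i with _ | i
  · simp
  · rw [map_add, coeff_C_mul, coeff_succ_X_mul, coeff_one, if_neg (Nat.succ_ne_zero i), zero_add]
    unfold rs
    rw [coeff_mk, pow_succ]
    ring

private lemma P3_sum (a b L : Λ) (s : Finset (ℕ × ℕ)) :
    ∑ e ∈ s, ex (cn a b e) = ex (-L) * PowerSeries.mk (fun k => chs L a b k s) := by
  have h1 : PowerSeries.mk (fun k => chs L a b k s) = ∑ e ∈ s, ex (L + cn a b e) := by
    ext k
    rw [coeff_mk, map_sum]
    unfold chs
    exact sum_congr rfl fun e _ => (coeff_ex _ _).symm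
  rw [h1, mul_sum]
  refine sum_congr rfl fun e _ => ?_
  rw [← ex_add]
  congr 1
  ring

private lemma P3_mk (c : Λ) (f : ℕ → Λ) :
    PowerSeries.mk (fun k => c * f k) = C c * PowerSeries.mk f := by
  ext k
  rw [coeff_mk, coeff_C_mul, coeff_mk]

lemma Hse_eq (a b L : Λ) (s : Finset (ℕ × ℕ)) :
    Hse a b s = 1 - X ^ 2 * (rs a * rs b * ex (-L)) *
      PowerSeries.mk (fun k => a * b * chs L a b k s) := by
  unfold Hse
  rw [P3_sum a b L s, P3_ex a, P3_ex b, P3_mk (a * b) (fun k => chs L a b k s), map_mul]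
  ring

/-- the values of the variables -/
noncomputable def vv (t1 t2 t3 l : Λ) (s r : Finset (ℕ × ℕ)) : ℕ ⊕ ℕ → Λ
  | Sum.inl a => t1 * t2 * chs l t1 t2 a s
  | Sum.inr b => chs (l - t1 - t2) t3 (-t1 - t2 - t3) b r

theorem PP_eval (t1 t2 t3 l : Λ) (s r : Finset (ℕ × ℕ)) (j : ℕ) :
    MvPolynomial.eval (vv t1 t2 t3 l s r) (PP (al t1 t2 l) (be t1 t2 t3 l) j) =
      ee (pwr t1 t2 t3 s r) j := by
  unfold PP
  rw [ee_map]
  congr 1
  funext i
  unfold ppp pwr
  rw [map_mul, map_natCast, ← PowerSeries.coeff_map, map_mul]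
  congr 3
  · rw [Hse_eq t3 (-t1 - t2 - t3) (l - t1 - t2) r]
    unfold hys
    rw [map_sub, map_one, map_mul, map_mul, map_pow, PowerSeries.map_X]
    congr 1
    have h1 : PowerSeries.map (MvPolynomial.eval (vv t1 t2 t3 l s r))
        (PowerSeries.mk (fun e => MvPolynomial.C (be t1 t2 t3 l e))) =
        C (t3 * (-t1 - t2 - t3)) * (rs t3 * rs (-t1 - t2 - t3) * ex (-(l - t1 - t2))) := by
      ext k
      rw [PowerSeries.coeff_map, coeff_mk, MvPolynomial.eval_C, coeff_C_mul]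
      unfold be
      have e : t1 + t2 - l = -(l - t1 - t2) := by ring
      rw [e]
    have h2 : PowerSeries.map (MvPolynomial.eval (vv t1 t2 t3 l s r))
        (PowerSeries.mk (fun b => MvPolynomial.X (Sum.inr b))) =
        PowerSeries.mk (fun b => chs (l - t1 - t2) t3 (-t1 - t2 - t3) b r) := by
      ext k
      rw [PowerSeries.coeff_map, coeff_mk, MvPolynomial.eval_X, coeff_mk]
      rfl
    rw [h1, h2, P3_mk]
    ring
  · rw [Hse_eq (-t1) (-t2) (-l) s]
    unfold hxs
    rw [map_sub, map_one, map_mul, map_mul, map_pow, PowerSeries.map_X]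
    congr 1
    have h1 : PowerSeries.map (MvPolynomial.eval (vv t1 t2 t3 l s r))
        (PowerSeries.mk (fun e => MvPolynomial.C (al t1 t2 l e))) =
        rs (-t1) * rs (-t2) * ex (- -l) := by
      ext k
      rw [PowerSeries.coeff_map, coeff_mk, MvPolynomial.eval_C, neg_neg]
      rfl
    have h2 : PowerSeries.map (MvPolynomial.eval (vv t1 t2 t3 l s r))
        (PowerSeries.mk (fun a => (-1) ^ a * MvPolynomial.X (Sum.inl a))) =
        PowerSeries.mk (fun k => -t1 * -t2 * chs (-l) (-t1) (-t2) k s) := by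
      ext k
      rw [PowerSeries.coeff_map, coeff_mk, coeff_mk, map_mul, map_pow, map_neg, map_one,
        MvPolynomial.eval_X]
      have e : chs (-l) (-t1) (-t2) k s = (-1) ^ k * chs l t1 t2 k s := by
        unfold chs
        rw [mul_sum]
        refine sum_congr rfl fun e _ => ?_
        have e1 : -l + cn (-t1) (-t2) e = -1 * (l + cn t1 t2 e) := by
          unfold cn
          ring
        rw [e1, mul_pow]
        ring
      rw [e]
      unfold vv
      ring
    rw [h1, h2]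

end

end MPa7fa83.Cs
end

section

/-!
# J3: the coefficients `α_e`, `β_e` are in `Bf ρ`

`al t1 t2 l e` is the coefficient `e` of `rs (-t1) * rs (-t2) * ex l`.  The coefficient `i` of
`rs (-t1) * rs (-t2)` is `1` for `i = 0`, `-(t1 + t2)/2` for `i = 1`, and of order `≥ 2` in `z` for
`i ≥ 2` if `t1`, `t2` have order `≥ 1`.  The coefficients of `ex l` are `l^j / j!`.  For `be`
everything is a polynomial in `t3`, `t4 = - t1 - t2 - t3` and `t1 + t2 - l`.
-/

set_option autoImplicit false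

namespace MPa7fa83.Cs

open Finset PowerSeries MPa7fa83.Ok

section

variable {K : Type*} [Field K] [CharZero K] {ι : Type*} [Fintype ι] {ρ : ι → K}

private lemma Bf_pow_smul {x : ι → LaurentSeries K} (hx : Bf ρ x) (q : ℚ) (j : ℕ) :
    Bf ρ (fun c => algebraMap ℚ (LaurentSeries K) q * x c ^ j) := by
  have h1 : x ∈ Bsub ρ := hx
  have h2 : algebraMap ℚ (ι → LaurentSeries K) q * x ^ j ∈ Bsub ρ :=
    (Bsub ρ).mul_mem ((Bsub ρ).algebraMap_mem q) ((Bsub ρ).pow_mem h1 j)
  exact h2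

private lemma Bf_ex {x : ι → LaurentSeries K} (hx : Bf ρ x) (j : ℕ) :
    Bf ρ (fun c => coeff j (ex (x c))) := by
  have h := Bf_pow_smul hx ((j.factorial : ℚ)⁻¹) j
  have e : (fun c => coeff j (ex (x c))) =
      fun c => algebraMap ℚ (LaurentSeries K) ((j.factorial : ℚ)⁻¹) * x c ^ j := by
    funext c
    exact coeff_ex (x c) j
  rw [e]
  exact h

private lemma Bf_rs {x : ι → LaurentSeries K} (hx : Bf ρ x) (j : ℕ) :
    Bf ρ (fun c => coeff j (rs (x c))) := by
  have h := Bf_pow_smul hx (((j + 1).factorial : ℚ)⁻¹) j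
  have e : (fun c => coeff j (rs (x c))) =
      fun c => algebraMap ℚ (LaurentSeries K) (((j + 1).factorial : ℚ)⁻¹) * x c ^ j := by
    funext c
    simp only [rs, coeff_mk]
  rw [e]
  exact h

private lemma Bf_conv {f g : ι → (LaurentSeries K)⟦X⟧} (hf : ∀ j, Bf ρ (fun c => coeff j (f c)))
    (hg : ∀ j, Bf ρ (fun c => coeff j (g c))) (e : ℕ) :
    Bf ρ (fun c => coeff e (f c * g c)) := by
  have e1 : (fun c => coeff e (f c * g c)) =
      ∑ p ∈ Finset.HasAntidiagonal.antidiagonal e,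
        (fun c => coeff p.1 (f c)) * (fun c => coeff p.2 (g c)) := by
    funext c
    rw [PowerSeries.coeff_mul, Finset.sum_apply]
    rfl
  rw [e1]
  have h2 : (∑ p ∈ Finset.HasAntidiagonal.antidiagonal e,
        (fun c => coeff p.1 (f c)) * (fun c => coeff p.2 (g c))) ∈ Bsub ρ :=
    (Bsub ρ).sum_mem fun p _ => (Bsub ρ).mul_mem (hf p.1) (hg p.2)
  exact h2

omit [CharZero K] in
private lemma lin0 (a : K) : lin 0 a = HahnSeries.single 1 a := by
  simp [lin]

private lemma Bf_rr {A B : ι → K} (h1 : ∑ c, ρ c * (A c + B c) = 0) (j : ℕ) :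
    Bf ρ (fun c => coeff j (rs (-(lin 0 (A c))) * rs (-(lin 0 (B c))))) := by
  have hco : ∀ c, coeff j (rs (-(lin 0 (A c))) * rs (-(lin 0 (B c)))) =
      ∑ p ∈ Finset.HasAntidiagonal.antidiagonal j,
        HahnSeries.single (j : ℤ) (algebraMap ℚ K (((p.1 + 1).factorial : ℚ)⁻¹) * (-(A c)) ^ p.1 *
          (algebraMap ℚ K (((p.2 + 1).factorial : ℚ)⁻¹) * (-(B c)) ^ p.2)) := by
    intro c
    rw [PowerSeries.coeff_mul]
    refine Finset.sum_congr rfl fun p hp => ?_
    rw [Finset.HasAntidiagonal.mem_antidiagonal] at hp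
    have hq : ∀ (q : ℚ) (x : K) (i : ℕ), algebraMap ℚ (LaurentSeries K) q *
        (-(lin 0 x)) ^ i = HahnSeries.single (i : ℤ) (algebraMap ℚ K q * (-x) ^ i) := by
      intro q x i
      have e1 : algebraMap ℚ (LaurentSeries K) q = HahnSeries.single 0 (algebraMap ℚ K q) :=
        RingHom.congr_fun (Subsingleton.elim (algebraMap ℚ (LaurentSeries K))
          ((HahnSeries.C : K →+* HahnSeries ℤ K).comp (algebraMap ℚ K))) q
      rw [e1, lin0, ← HahnSeries.single_neg, HahnSeries.single_pow, HahnSeries.single_mul_single]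
      simp
    simp only [rs, coeff_mk]
    rw [hq, hq, HahnSeries.single_mul_single]
    congr 1
    push_cast [← hp]
    rfl
  rcases Nat.lt_or_ge j 2 with hj | hj
  · interval_cases j
    · have e1 : (fun c => coeff 0 (rs (-(lin 0 (A c))) * rs (-(lin 0 (B c))))) =
          (1 : ι → LaurentSeries K) := by
        funext c
        rw [hco c]
        simp
      rw [e1]
      exact Bf_one
    · have e1 : (fun c => coeff 1 (rs (-(lin 0 (A c))) * rs (-(lin 0 (B c))))) =
          (fun c => lin 0 (-(1 / 2 : K) * (A c + B c))) := by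
        funext c
        rw [hco c]
        have e2 : Finset.HasAntidiagonal.antidiagonal 1 = {((0 : ℕ), 1), (1, 0)} := rfl
        rw [e2, Finset.sum_insert (by simp), Finset.sum_singleton, lin0, ← HahnSeries.single_add]
        congr 1
        simp [Nat.factorial]
        ring
      rw [e1]
      refine Bf_lin 0 ?_
      have e3 : ∀ c, ρ c * (-(1 / 2 : K) * (A c + B c)) = -(1 / 2 : K) * (ρ c * (A c + B c)) := by
        intro c
        ring
      simp_rw [e3]
      rw [← Finset.mul_sum, h1, mul_zero]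
  · refine Bf_ord fun c i hi => ?_
    rw [hco c, HahnSeries.coeff_sum]
    refine Finset.sum_eq_zero fun p _ => ?_
    refine HahnSeries.coeff_single_of_ne ?_
    omega

theorem al_Bf {A B : ι → K} {l : ι → LaurentSeries K} (h1 : ∑ c, ρ c * (A c + B c) = 0)
    (hl : Bf ρ l) (e : ℕ) : Bf ρ (fun c => al (lin 0 (A c)) (lin 0 (B c)) (l c) e) := by
  unfold al
  exact Bf_conv (fun j => Bf_rr h1 j) (fun j => Bf_ex hl j) e

theorem be_Bf {A B : ι → K} {t3 l : ι → LaurentSeries K} (h1 : ∑ c, ρ c * (A c + B c) = 0)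
    (h3 : Bf ρ t3) (hl : Bf ρ l) (e : ℕ) :
    Bf ρ (fun c => be (lin 0 (A c)) (lin 0 (B c)) (t3 c) (l c) e) := by
  have h12 : Bf ρ (fun c => lin 0 (A c) + lin 0 (B c)) := by
    have h := Bf_lin (ρ := ρ) 0 h1
    have e1 : (fun c => lin 0 (A c) + lin 0 (B c)) = fun c => lin 0 (A c + B c) := by
      funext c
      simp [lin]
    rw [e1]
    exact h
  have h4 : Bf ρ (fun c => -lin 0 (A c) - lin 0 (B c) - t3 c) := by
    have h5 : (-(fun c => lin 0 (A c) + lin 0 (B c)) - t3 : ι → LaurentSeries K) ∈ Bsub ρ :=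
      (Bsub ρ).sub_mem ((Bsub ρ).neg_mem h12) h3
    have e1 : (fun c => -lin 0 (A c) - lin 0 (B c) - t3 c) =
        (-(fun c => lin 0 (A c) + lin 0 (B c)) - t3 : ι → LaurentSeries K) := by
      funext c
      simp only [Pi.sub_apply, Pi.neg_apply]
      ring
    rw [e1]
    exact h5
  have h6 : Bf ρ (fun c => lin 0 (A c) + lin 0 (B c) - l c) := by
    have h5 : ((fun c => lin 0 (A c) + lin 0 (B c)) - l : ι → LaurentSeries K) ∈ Bsub ρ :=
      (Bsub ρ).sub_mem h12 hl
    exact h5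
  unfold be
  have h7 := Bf_conv (fun j => Bf_conv (fun j => Bf_rs h3 j) (fun j => Bf_rs h4 j) j)
    (fun j => Bf_ex h6 j) e
  exact Bf_mul (Bf_mul h3 h4) h7

end

end MPa7fa83.Cs
end

section

/-!
# F2a: binomial expansion of the source factor

`(1/I!) ∏_k (C x_k X^k + B_k)^{I_k} = ∑_{J₁ + J₂ = I} (∏ x^{J₁}/J₁!) X^{deg J₁} (∏ B^{J₂}/J₂!)`.
Induction on `I` (add `single k n` with `k` not in the support: binomial theorem
`add_pow` / `Commute.add_pow'`, antidiagonal of a sum with disjoint supports), or expand by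
`Finset.prod_add`-type lemmas.  Another way: both sides are the coefficients of `τ^I` of
`exp(∑ τ_k (C x_k X^k + B_k)) = exp(..) exp(..)`; or induction on `num I` through the recursion
`(I_k + 1) E (I + single k 1) = (..)_k E I` which both sides satisfy.
-/

set_option autoImplicit false

namespace MPa7fa83.Cs

open Finset PowerSeries MPa7fa83.Ok

/-- one factor of the source -/
private noncomputable def srcE {R : Type*} [CommRing R] [Algebra ℚ R] (w : ℕ → R)
    (I : ℕ →₀ ℕ) : R :=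
  algebraMap ℚ R ((dfac I : ℚ)⁻¹) * I.prod fun k m => w k ^ m

private lemma srcE_zero {R : Type*} [CommRing R] [Algebra ℚ R] (w : ℕ → R) :
    srcE w 0 = 1 := by
  simp [srcE, dfac]

private lemma srcE_add {R : Type*} [CommRing R] [Algebra ℚ R] (w : ℕ → R)
    (k n : ℕ) (f : ℕ →₀ ℕ) (hk : f k = 0) :
    srcE w (Finsupp.single k n + f) =
      (algebraMap ℚ R ((n.factorial : ℚ)⁻¹) * w k ^ n) * srcE w f := by
  have hd : Disjoint (Finsupp.single k n).support f.support := by
    refine Finset.disjoint_of_subset_left Finsupp.support_single_subset ?_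
    simp [hk]
  unfold srcE dfac
  rw [Finsupp.prod_add_index_of_disjoint hd, Finsupp.prod_add_index_of_disjoint hd,
    Finsupp.prod_single_index (by simp), Finsupp.prod_single_index (by simp)]
  push_cast
  rw [mul_inv, map_mul]
  ring

private lemma binom_div {R : Type*} [CommRing R] [Algebra ℚ R] (a b : R) (n : ℕ) :
    algebraMap ℚ R ((n.factorial : ℚ)⁻¹) * (a + b) ^ n =
      ∑ p ∈ Finset.HasAntidiagonal.antidiagonal n,
        (algebraMap ℚ R ((p.1.factorial : ℚ)⁻¹) * a ^ p.1) *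
        (algebraMap ℚ R ((p.2.factorial : ℚ)⁻¹) * b ^ p.2) := by
  rw [(Commute.all a b).add_pow', Finset.mul_sum]
  refine Finset.sum_congr rfl fun p hp => ?_
  rw [Finset.HasAntidiagonal.mem_antidiagonal] at hp
  subst hp
  have h1 : ((p.1 + p.2).factorial : ℚ)⁻¹ * ((p.1 + p.2).choose p.1 : ℚ) =
      (p.1.factorial : ℚ)⁻¹ * (p.2.factorial : ℚ)⁻¹ := by
    have h := Nat.choose_mul_factorial_mul_factorial (Nat.le_add_right p.1 p.2)
    rw [Nat.add_sub_cancel_left] at h
    have h' : ((p.1 + p.2).choose p.1 : ℚ) * p.1.factorial * p.2.factorial =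
        (p.1 + p.2).factorial := by exact_mod_cast h
    have e1 : (p.1.factorial : ℚ) ≠ 0 := by positivity
    have e2 : (p.2.factorial : ℚ) ≠ 0 := by positivity
    have e3 : ((p.1 + p.2).factorial : ℚ) ≠ 0 := by positivity
    field_simp
    linarith
  rw [nsmul_eq_mul]
  have h2 : algebraMap ℚ R (((p.1 + p.2).factorial : ℚ)⁻¹) *
      (((p.1 + p.2).choose p.1 : ℕ) : R) =
      algebraMap ℚ R ((p.1.factorial : ℚ)⁻¹) * algebraMap ℚ R ((p.2.factorial : ℚ)⁻¹) := by
    rw [← map_mul, ← h1, map_mul, map_natCast]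
  calc algebraMap ℚ R (((p.1 + p.2).factorial : ℚ)⁻¹) *
        ((((p.1 + p.2).choose p.1 : ℕ) : R) * (a ^ p.1 * b ^ p.2))
      = (algebraMap ℚ R (((p.1 + p.2).factorial : ℚ)⁻¹) *
        (((p.1 + p.2).choose p.1 : ℕ) : R)) * (a ^ p.1 * b ^ p.2) := by ring
    _ = _ := by rw [h2]; ring

private lemma srcE_sum {R : Type*} [CommRing R] [Algebra ℚ R] (u v : ℕ → R)
    (I : ℕ →₀ ℕ) :
    srcE (fun k => u k + v k) I =
      ∑ J ∈ Finset.HasAntidiagonal.antidiagonal I, srcE u J.1 * srcE v J.2 := by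
  classical
  induction I using Finsupp.induction with
  | zero => simp [srcE_zero]
  | single_add k n f hk hn ih =>
    have hk0 : f k = 0 := by simpa using hk
    rw [srcE_add _ _ _ _ hk0, binom_div, ih, Finset.sum_mul_sum, ← Finset.sum_product']
    refine Finset.sum_nbij'
      (i := fun pq => (Finsupp.single k pq.1.1 + pq.2.1, Finsupp.single k pq.1.2 + pq.2.2))
      (j := fun J => ((J.1 k, J.2 k), (J.1.erase k, J.2.erase k))) ?_ ?_ ?_ ?_ ?_
    · rintro ⟨p, q⟩ h
      rw [Finset.mem_product, Finset.HasAntidiagonal.mem_antidiagonal, Finset.HasAntidiagonal.mem_antidiagonal] at h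
      obtain ⟨h1, h2⟩ := h
      dsimp only at h1 h2 ⊢
      rw [Finset.HasAntidiagonal.mem_antidiagonal]
      rw [← h1, ← h2, Finsupp.single_add]
      exact add_add_add_comm _ _ _ _
    · rintro ⟨J1, J2⟩ h
      rw [Finset.HasAntidiagonal.mem_antidiagonal] at h
      dsimp only at h
      rw [Finset.mem_product, Finset.HasAntidiagonal.mem_antidiagonal, Finset.HasAntidiagonal.mem_antidiagonal]
      dsimp only
      constructor
      · have := DFunLike.congr_fun h k
        simpa [hk0] using this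
      · ext j
        have := DFunLike.congr_fun h j
        by_cases hj : j = k
        · subst hj
          simp [hk0]
        · simp [Finsupp.erase_ne hj, hj] at this ⊢
          exact this
    · rintro ⟨p, q⟩ h
      rw [Finset.mem_product, Finset.HasAntidiagonal.mem_antidiagonal, Finset.HasAntidiagonal.mem_antidiagonal] at h
      obtain ⟨h1, h2⟩ := h
      dsimp only at h1 h2 ⊢
      have h3 := DFunLike.congr_fun h2 k
      simp only [Finsupp.add_apply, hk0] at h3
      have q1 : q.1 k = 0 := by omega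
      have q2 : q.2 k = 0 := by omega
      refine Prod.ext (Prod.ext ?_ ?_) (Prod.ext ?_ ?_)
      · simp [q1]
      · simp [q2]
      · ext j
        by_cases hj : j = k
        · subst hj; simp [q1]
        · simp [Finsupp.erase_ne hj, hj]
      · ext j
        by_cases hj : j = k
        · subst hj; simp [q2]
        · simp [Finsupp.erase_ne hj, hj]
    · rintro ⟨J1, J2⟩ h
      dsimp only
      rw [Finsupp.single_add_erase, Finsupp.single_add_erase]
    · rintro ⟨p, q⟩ h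
      rw [Finset.mem_product, Finset.HasAntidiagonal.mem_antidiagonal, Finset.HasAntidiagonal.mem_antidiagonal] at h
      obtain ⟨h1, h2⟩ := h
      dsimp only at h1 h2 ⊢
      have h3 := DFunLike.congr_fun h2 k
      simp only [Finsupp.add_apply, hk0] at h3
      have q1 : q.1 k = 0 := by omega
      have q2 : q.2 k = 0 := by omega
      rw [srcE_add _ _ _ _ q1, srcE_add _ _ _ _ q2]
      ring

/-- binomial expansion of the source factor -/
theorem src_expand {Λ : Type*} [CommRing Λ] [Algebra ℚ Λ] (x : ℕ → Λ) (B : ℕ → Λ⟦X⟧)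
    (I : ℕ →₀ ℕ) :
    C (algebraMap ℚ Λ ((dfac I : ℚ)⁻¹)) * (I.prod fun k m => (C (x k) * X ^ k + B k) ^ m) =
      ∑ J ∈ Finset.HasAntidiagonal.antidiagonal I,
        (C (algebraMap ℚ Λ ((dfac J.1 : ℚ)⁻¹) * mon x J.1) * X ^ deg J.1) *
        (C (algebraMap ℚ Λ ((dfac J.2 : ℚ)⁻¹)) * J.2.prod fun k m => B k ^ m) := by
  have hC : ∀ r : ℚ, (C (algebraMap ℚ Λ r) : Λ⟦X⟧) = algebraMap ℚ Λ⟦X⟧ r := fun r => by
    rw [PowerSeries.algebraMap_apply]
  have h := srcE_sum (R := Λ⟦X⟧) (fun k => C (x k) * X ^ k) B I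
  unfold srcE at h
  rw [hC]
  refine h.trans (Finset.sum_congr rfl fun J _ => ?_)
  rw [map_mul, hC, hC]
  have h1 : (J.1.prod fun k m => (C (x k) * X ^ k : Λ⟦X⟧) ^ m) = C (mon x J.1) * X ^ deg J.1 := by
    unfold mon deg
    rw [Finsupp.sum, ← Finset.prod_pow_eq_pow_sum, Finsupp.prod, Finsupp.prod, map_prod,
      ← Finset.prod_mul_distrib]
    refine Finset.prod_congr rfl fun k _ => ?_
    rw [mul_pow, map_pow, ← pow_mul, mul_comm k]
  rw [h1]
  ring

end MPa7fa83.Cs
end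

section

/-!
# F2b: the coefficients of the diagonal series as polynomials

`PP (alf ..) (bef ..) j` has coefficients in `ι → F⟦X⟧`; apply the evaluation at `c`
(a ring homomorphism `(ι → F⟦X⟧) → F⟦X⟧`): it maps `alf ..` to `C (al ..)`, hence (as in
`ee_map`, with `MvPolynomial.map` and `PowerSeries.map`) the polynomial to the one for `C (al ..)`,
`C (be ..)`, which is the image of `PP (al ..) (be ..) j` under `C : F → F⟦X⟧`.  Then expand
`MvPolynomial.eval` of `PP_eval` as a sum over the support (`MvPolynomial.eval_eq`, or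
`eval₂_eq`), and write the product over the support of `d` as `mon (..) (dl d) * mon (..) (dr d)`.
-/

set_option autoImplicit false

namespace MPa7fa83.Cs

open Finset PowerSeries MPa7fa83.Ok

section

variable {ι F : Type*} [Field F] [Algebra ℚ F]

private lemma F2b_map_mk {Λ Λ' : Type*} [CommRing Λ] [CommRing Λ'] (φ : Λ →+* Λ') (f : ℕ → Λ) :
    PowerSeries.map φ (PowerSeries.mk f) = PowerSeries.mk (fun k => φ (f k)) := by
  ext k
  rw [PowerSeries.coeff_map, coeff_mk, coeff_mk]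

private lemma F2b_hxs {R R' : Type*} [CommRing R] [Algebra ℚ R] [CommRing R'] [Algebra ℚ R']
    (φ : R →+* R') (α : ℕ → R) :
    PowerSeries.map (MvPolynomial.map φ) (hxs α) = hxs (fun e => φ (α e)) := by
  unfold hxs
  rw [map_sub, map_one, map_mul, map_mul, map_pow, PowerSeries.map_X, F2b_map_mk, F2b_map_mk]
  simp only [MvPolynomial.map_C, map_mul, map_pow, map_neg, map_one, MvPolynomial.map_X]

private lemma F2b_hys {R R' : Type*} [CommRing R] [Algebra ℚ R] [CommRing R'] [Algebra ℚ R']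
    (φ : R →+* R') (β : ℕ → R) :
    PowerSeries.map (MvPolynomial.map φ) (hys β) = hys (fun e => φ (β e)) := by
  unfold hys
  rw [map_sub, map_one, map_mul, map_mul, map_pow, PowerSeries.map_X, F2b_map_mk, F2b_map_mk]
  simp only [MvPolynomial.map_C, MvPolynomial.map_X]

private lemma F2b_PP {R R' : Type*} [CommRing R] [Algebra ℚ R] [CommRing R'] [Algebra ℚ R']
    (φ : R →+* R') (α β : ℕ → R) (j : ℕ) :
    MvPolynomial.map φ (PP α β j) = PP (fun e => φ (α e)) (fun e => φ (β e)) j := by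
  unfold PP
  rw [ee_map]
  congr 1
  funext i
  unfold ppp
  rw [map_mul, map_natCast, ← PowerSeries.coeff_map, map_mul, F2b_hxs, F2b_hys]

private lemma F2b_prod (v : ℕ ⊕ ℕ → F) (d : ℕ ⊕ ℕ →₀ ℕ) :
    ∏ i ∈ d.support, v i ^ d i =
      mon (fun a => v (Sum.inl a)) (dl d) * mon (fun b => v (Sum.inr b)) (dr d) := by
  rw [Finset.prod_sum_eq_prod_toLeft_mul_prod_toRight]
  unfold mon Finsupp.prod
  have h1 : (dl d).support = d.support.toLeft := by
    ext a
    simp [dl]
  have h2 : (dr d).support = d.support.toRight := by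
    ext a
    simp [dr]
  rw [h1, h2]
  rfl

/-- a polynomial as a sum over its support, at the values of the variables -/
theorem PP_eval' (t1 t2 t3 l : ι → F) (c : ι) (s r : Finset (ℕ × ℕ)) (j : ℕ) :
    (C (ee (pwr (t1 c) (t2 c) (t3 c) s r) j) : F⟦X⟧) =
      ∑ d ∈ (PP (alf t1 t2 l) (bef t1 t2 t3 l) j).support,
        ((PP (alf t1 t2 l) (bef t1 t2 t3 l) j).coeff d) c *
        C (mon (fun a => t1 c * t2 c * chs (l c) (t1 c) (t2 c) a s) (dl d) *
          mon (fun b => chs (l c - t1 c - t2 c) (t3 c) (-t1 c - t2 c - t3 c) b r) (dr d)) := by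
  set q := PP (alf t1 t2 l) (bef t1 t2 t3 l) j with hq
  set v := vv (t1 c) (t2 c) (t3 c) (l c) s r with hv
  let φ : (ι → F⟦X⟧) →+* F⟦X⟧ := Pi.evalRingHom (fun _ : ι => F⟦X⟧) c
  have h1 : MvPolynomial.map φ q =
      MvPolynomial.map (C : F →+* F⟦X⟧)
        (PP (al (t1 c) (t2 c) (l c)) (be (t1 c) (t2 c) (t3 c) (l c)) j) := by
    rw [hq, F2b_PP, F2b_PP]
    rfl
  have h2 : (C (ee (pwr (t1 c) (t2 c) (t3 c) s r) j) : F⟦X⟧) =
      MvPolynomial.eval₂ φ (fun i => C (v i)) q := by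
    rw [← PP_eval, ← hv, MvPolynomial.eval₂_comp, ← MvPolynomial.eval_map, ← h1,
      MvPolynomial.eval_map]
    rfl
  rw [h2, MvPolynomial.eval₂_eq]
  refine sum_congr rfl fun d _ => ?_
  congr 1
  have h3 := F2b_prod v d
  have h4 : ∏ i ∈ d.support, (C (v i) : F⟦X⟧) ^ d i = C (∏ i ∈ d.support, v i ^ d i) := by
    rw [map_prod]
    refine prod_congr rfl fun i _ => ?_
    rw [map_pow]
  rw [h4, h3]
  rfl

end

end MPa7fa83.Cs
end

section

/-!
# F2: the relation for the generating series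

For fixed `c`, `I`, `n ≥ deg I + 2` and `N`, apply `cross` to the list of the sources `I`
(`I_k` times `k`), times `1/I!`.  For fixed `s`, `r`, with `x_k = chs l t1 t2 k s`:
`(1/I!) ∏_k (C x_k X^k + bb k)^{I_k} = ∑_{I₁ + I₂ = I} (∏ x^{I₁}/I₁!) X^{deg I₁} (∏ bb^{I₂}/I₂!)`
(binomial theorem), and `ee (pwr t1 t2 t3 s r) j = ∑_d (P j)_d mon (t1 t2 x) (dl d) mon y (dr d)`
by `PP_eval` (the coefficients of `PP (alf ..) (bef ..) j` at `c` are those of
`PP (al ..) (be ..) j`, by `ee_map`-type arguments).  Take the coefficient of `X^n` and sum.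
-/

set_option autoImplicit false

namespace MPa7fa83.Cs

open Finset PowerSeries MPa7fa83.Ok

/-- the list of the sources -/
private lemma f2_list {A : Type*} [CommMonoid A] (I : ℕ →₀ ℕ) : ∃ ks : List ℕ, ks.sum = deg I ∧
    ∀ g : ℕ → A, (ks.map g).prod = I.prod fun k m => g k ^ m := by
  induction I using Finsupp.induction_linear with
  | zero => exact ⟨[], by rw [deg_zero']; rfl, fun g => by simp⟩
  | add f g hf hg =>
    obtain ⟨k1, h1, h2⟩ := hf
    obtain ⟨k2, h3, h4⟩ := hg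
    refine ⟨k1 ++ k2, by rw [List.sum_append, h1, h3, deg_add], fun φ => ?_⟩
    rw [List.map_append, List.prod_append, h2, h4,
      Finsupp.prod_add_index' (fun _ => pow_zero _) (fun _ _ _ => pow_add _ _ _)]
  | single a n =>
    refine ⟨List.replicate n a, by simp [deg_single], fun φ => ?_⟩
    rw [List.map_replicate, List.prod_replicate]
    exact (Finsupp.prod_single_index (h := fun k m => φ k ^ m) (pow_zero _)).symm

/-- coefficients of `jt` -/
private lemma f2_coeff_jt {R : Type*} [CommRing R] (N : (ℕ →₀ ℕ) → MvPowerSeries ℕ R)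
    (M : (ℕ →₀ ℕ) → MvPowerSeries ℕ R⟦X⟧) (p : MvPolynomial (ℕ ⊕ ℕ) R) (I : ℕ →₀ ℕ) (m : ℕ) :
    coeff m (MvPowerSeries.coeff I (jt N M p)) =
      ∑ d ∈ p.support, p.coeff d * ∑ x ∈ Finset.HasAntidiagonal.antidiagonal I,
        (if deg x.1 ≤ m then MvPowerSeries.coeff x.1 (N (dl d)) *
          coeff (m - deg x.1) (MvPowerSeries.coeff x.2 (M (dr d))) else 0) := by
  unfold jt
  rw [map_sum, map_sum]
  refine sum_congr rfl (fun d _ => ?_)
  rw [MvPowerSeries.coeff_C_mul, PowerSeries.coeff_C_mul, MvPowerSeries.coeff_mul, map_sum]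
  congr 1
  refine sum_congr rfl (fun x _ => ?_)
  have h : MvPowerSeries.coeff x.1 (tw (N (dl d))) =
      C (MvPowerSeries.coeff x.1 (N (dl d))) * X ^ deg x.1 := rfl
  rw [h, mul_assoc, PowerSeries.coeff_C_mul, PowerSeries.coeff_X_pow_mul']
  split_ifs
  · rfl
  · rw [mul_zero]

/-- pairs of diagrams with `n` boxes in total -/
private noncomputable def f2T (n : ℕ) :
    Finset (Σ _ : ℕ × ℕ, Finset (ℕ × ℕ) × Finset (ℕ × ℕ)) :=
  (Finset.HasAntidiagonal.antidiagonal n).sigma (fun a => dg a.1 ×ˢ dg a.2)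

private lemma f2_sum_T {M : Type*} [AddCommMonoid M] (n : ℕ)
    (Θ : Finset (ℕ × ℕ) → Finset (ℕ × ℕ) → M) :
    ∑ z ∈ f2T n, Θ z.2.1 z.2.2 =
      ∑ a ∈ Finset.HasAntidiagonal.antidiagonal n, ∑ s ∈ dg a.1, ∑ r ∈ dg a.2, Θ s r := by
  unfold f2T
  rw [sum_sigma]
  refine sum_congr rfl (fun a _ => ?_)
  rw [sum_product]

section

variable {ι F : Type*} [Field F] [Algebra ℚ F]

/-- the source factor at `c` -/
private noncomputable def f2G (t1 t2 t3 l : ι → F) (c : ι) (I : ℕ →₀ ℕ)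
    (s r : Finset (ℕ × ℕ)) : F⟦X⟧ :=
  C (algebraMap ℚ F ((dfac I : ℚ)⁻¹)) * (I.prod fun k m =>
    (C (chs (l c) (t1 c) (t2 c) k s) * X ^ k +
      bb (l c - t1 c - t2 c) (t3 c) (-t1 c - t2 c - t3 c) r k) ^ m)

/-- the product of the weights at `c` -/
private noncomputable def f2W (t1 t2 t3 : ι → F) (c : ι) (s r : Finset (ℕ × ℕ)) : F :=
  wg (t1 c) (t2 c) (t3 c) s * wg (t3 c) (-t1 c - t2 c - t3 c) (t1 c) r

/-- the monomials at `c` -/
private noncomputable def f2m (t1 t2 t3 l : ι → F) (c : ι) (s r : Finset (ℕ × ℕ))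
    (d : ℕ ⊕ ℕ →₀ ℕ) : F :=
  mon (fun a => t1 c * t2 c * chs (l c) (t1 c) (t2 c) a s) (dl d) *
    mon (fun b => chs (l c - t1 c - t2 c) (t3 c) (-t1 c - t2 c - t3 c) b r) (dr d)

private lemma f2_inner (t1 t2 t3 l : ι → F) (c : ι) (I : ℕ →₀ ℕ) (d : ℕ ⊕ ℕ →₀ ℕ) (m n : ℕ) :
    coeff n (∑ x ∈ Finset.HasAntidiagonal.antidiagonal I,
        (if deg x.1 ≤ m then (MvPowerSeries.coeff x.1 (Z12 t1 t2 t3 l (dl d))) c *
          (coeff (m - deg x.1) (MvPowerSeries.coeff x.2 (Z34 t1 t2 t3 l (dr d)))) c else 0)) =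
      ∑ z ∈ f2T n, f2W t1 t2 t3 c z.2.1 z.2.2 * f2m t1 t2 t3 l c z.2.1 z.2.2 d *
        coeff m (f2G t1 t2 t3 l c I z.2.1 z.2.2) := by
  rw [map_sum]
  have hG : ∀ s r : Finset (ℕ × ℕ), coeff m (f2G t1 t2 t3 l c I s r) =
      ∑ x ∈ Finset.HasAntidiagonal.antidiagonal I, (if deg x.1 ≤ m then
        src (fun k => chs (l c) (t1 c) (t2 c) k s) x.1 *
        (algebraMap ℚ F ((dfac x.2 : ℚ)⁻¹) * coeff (m - deg x.1) (x.2.prod fun k m =>
        (bb (l c - t1 c - t2 c) (t3 c) (-t1 c - t2 c - t3 c) r k) ^ m)) else 0) := by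
    intro s r
    unfold f2G
    rw [src_expand, map_sum]
    refine sum_congr rfl (fun x _ => ?_)
    rw [mul_assoc, PowerSeries.coeff_C_mul, PowerSeries.coeff_X_pow_mul']
    split_ifs
    · rw [PowerSeries.coeff_C_mul]
      rfl
    · rw [mul_zero]
  simp_rw [hG, mul_sum]
  rw [sum_comm]
  refine sum_congr rfl (fun x _ => ?_)
  by_cases hx : deg x.1 ≤ m
  · simp only [if_pos hx]
    have h1 : (MvPowerSeries.coeff x.1 (Z12 t1 t2 t3 l (dl d))) c =
        qs (fun s => wg (t1 c) (t2 c) (t3 c) s *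
          (mon (fun a => t1 c * t2 c * chs (l c) (t1 c) (t2 c) a s) (dl d) *
            src (fun k => chs (l c) (t1 c) (t2 c) k s) x.1)) := rfl
    have h2 : (coeff (m - deg x.1) (MvPowerSeries.coeff x.2 (Z34 t1 t2 t3 l (dr d)))) c =
        qs (fun r => wg (t3 c) (-t1 c - t2 c - t3 c) (t1 c) r *
          (mon (fun a => chs (l c - t1 c - t2 c) (t3 c) (-t1 c - t2 c - t3 c) a r) (dr d) *
            (algebraMap ℚ F ((dfac x.2 : ℚ)⁻¹) * coeff (m - deg x.1) (x.2.prod fun k m =>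
              (bb (l c - t1 c - t2 c) (t3 c) (-t1 c - t2 c - t3 c) r k) ^ m)))) := by
      have h3 : MvPowerSeries.coeff x.2 (Z34 t1 t2 t3 l (dr d)) =
        PowerSeries.mk fun n c => qs (fun r =>
          wg (t3 c) (-t1 c - t2 c - t3 c) (t1 c) r *
          (mon (fun a => chs (l c - t1 c - t2 c) (t3 c) (-t1 c - t2 c - t3 c) a r) (dr d) *
            (algebraMap ℚ F ((dfac x.2 : ℚ)⁻¹) * coeff n (x.2.prod fun k m =>
              (bb (l c - t1 c - t2 c) (t3 c) (-t1 c - t2 c - t3 c) r k) ^ m)))) := rfl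
      rw [h3, coeff_mk]
    rw [h1, h2, coeff_qs_mul]
    refine (f2_sum_T n (fun s r => wg (t1 c) (t2 c) (t3 c) s *
          (mon (fun a => t1 c * t2 c * chs (l c) (t1 c) (t2 c) a s) (dl d) *
            src (fun k => chs (l c) (t1 c) (t2 c) k s) x.1) *
          (wg (t3 c) (-t1 c - t2 c - t3 c) (t1 c) r *
          (mon (fun a => chs (l c - t1 c - t2 c) (t3 c) (-t1 c - t2 c - t3 c) a r) (dr d) *
            (algebraMap ℚ F ((dfac x.2 : ℚ)⁻¹) * coeff (m - deg x.1) (x.2.prod fun k m =>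
              (bb (l c - t1 c - t2 c) (t3 c) (-t1 c - t2 c - t3 c) r k) ^ m)))))).symm.trans ?_
    refine sum_congr rfl (fun z _ => ?_)
    unfold f2W f2m
    ring
  · simp only [if_neg hx, map_zero, mul_zero, sum_const_zero]

private lemma f2_coeff (t1 t2 t3 l : ι → F) (c : ι) (I : ℕ →₀ ℕ) (j m N : ℕ) :
    coeff N ((coeff m (MvPowerSeries.coeff I (jt (Z12 t1 t2 t3 l) (Z34 t1 t2 t3 l)
      (PP (alf t1 t2 l) (bef t1 t2 t3 l) j)))) c) =
    ∑ y ∈ Finset.HasAntidiagonal.antidiagonal N, ∑ z ∈ f2T y.2,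
      f2W t1 t2 t3 c z.2.1 z.2.2 * coeff m (f2G t1 t2 t3 l c I z.2.1 z.2.2) *
        coeff y.1 (C (ee (pwr (t1 c) (t2 c) (t3 c) z.2.1 z.2.2) j) : F⟦X⟧) := by
  rw [f2_coeff_jt, Finset.sum_apply, map_sum]
  have h1 : ∀ d ∈ (PP (alf t1 t2 l) (bef t1 t2 t3 l) j).support,
      coeff N (((PP (alf t1 t2 l) (bef t1 t2 t3 l) j).coeff d *
        ∑ x ∈ Finset.HasAntidiagonal.antidiagonal I,
        (if deg x.1 ≤ m then MvPowerSeries.coeff x.1 (Z12 t1 t2 t3 l (dl d)) *
          coeff (m - deg x.1) (MvPowerSeries.coeff x.2 (Z34 t1 t2 t3 l (dr d))) else 0)) c) =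
      ∑ y ∈ Finset.HasAntidiagonal.antidiagonal N, ∑ z ∈ f2T y.2,
        f2W t1 t2 t3 c z.2.1 z.2.2 * coeff m (f2G t1 t2 t3 l c I z.2.1 z.2.2) *
          (coeff y.1 (((PP (alf t1 t2 l) (bef t1 t2 t3 l) j).coeff d) c) *
            f2m t1 t2 t3 l c z.2.1 z.2.2 d) := by
    intro d _
    rw [Pi.mul_apply, PowerSeries.coeff_mul]
    refine sum_congr rfl (fun y _ => ?_)
    have h2 : (∑ x ∈ Finset.HasAntidiagonal.antidiagonal I,
        (if deg x.1 ≤ m then MvPowerSeries.coeff x.1 (Z12 t1 t2 t3 l (dl d)) *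
          coeff (m - deg x.1) (MvPowerSeries.coeff x.2 (Z34 t1 t2 t3 l (dr d))) else 0)) c =
        ∑ x ∈ Finset.HasAntidiagonal.antidiagonal I,
        (if deg x.1 ≤ m then (MvPowerSeries.coeff x.1 (Z12 t1 t2 t3 l (dl d))) c *
          (coeff (m - deg x.1) (MvPowerSeries.coeff x.2 (Z34 t1 t2 t3 l (dr d)))) c else 0) := by
      rw [Finset.sum_apply]
      refine sum_congr rfl (fun x _ => ?_)
      split_ifs
      · rfl
      · rfl
    rw [h2, f2_inner, mul_sum]
    refine sum_congr rfl (fun z _ => ?_)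
    ring
  rw [sum_congr rfl h1, sum_comm]
  refine sum_congr rfl (fun y _ => ?_)
  rw [sum_comm]
  refine sum_congr rfl (fun z _ => ?_)
  rw [← mul_sum]
  congr 1
  rw [PP_eval' t1 t2 t3 l c z.2.1 z.2.2 j, map_sum]
  refine sum_congr rfl (fun d _ => ?_)
  rw [PowerSeries.coeff_mul_C]
  rfl

theorem rel12 (t1 t2 t3 l : ι → F) (hg : ∀ c, Gen (t1 c) (t2 c) (t3 c)) :
    Rel (fun j => jt (Z12 t1 t2 t3 l) (Z34 t1 t2 t3 l) (PP (alf t1 t2 l) (bef t1 t2 t3 l) j)) := by
  intro I n hn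
  obtain ⟨ks, hks1, hks2⟩ := f2_list (A := F⟦X⟧) I
  funext c
  rw [Finset.sum_apply, Pi.zero_apply]
  ext N
  rw [map_sum, map_zero]
  simp_rw [f2_coeff]
  rw [sum_comm]
  refine sum_eq_zero (fun y _ => ?_)
  rw [sum_comm]
  have key : ∀ z : Σ _ : ℕ × ℕ, Finset (ℕ × ℕ) × Finset (ℕ × ℕ),
      ∑ j ∈ range (n + 1), f2W t1 t2 t3 c z.2.1 z.2.2 *
        coeff (n - j) (f2G t1 t2 t3 l c I z.2.1 z.2.2) *
        coeff y.1 (C (ee (pwr (t1 c) (t2 c) (t3 c) z.2.1 z.2.2) j) : F⟦X⟧) =
      (if y.1 = 0 then algebraMap ℚ F ((dfac I : ℚ)⁻¹) else 0) *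
        (wg (t1 c) (t2 c) (t3 c) z.2.1 * wg (t3 c) (-t1 c - t2 c - t3 c) (t1 c) z.2.2 *
          coeff n (Gks (l c) (t1 c) (t2 c) (t3 c) ks z.2.1 z.2.2 *
            PowerSeries.mk (ee (pwr (t1 c) (t2 c) (t3 c) z.2.1 z.2.2)))) := by
    intro z
    by_cases hy : y.1 = 0
    · rw [if_pos hy, hy]
      have hG : f2G t1 t2 t3 l c I z.2.1 z.2.2 = C (algebraMap ℚ F ((dfac I : ℚ)⁻¹)) *
          Gks (l c) (t1 c) (t2 c) (t3 c) ks z.2.1 z.2.2 := by
        unfold f2G Gks
        rw [hks2]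
      simp_rw [hG, PowerSeries.coeff_C_mul, PowerSeries.coeff_zero_C]
      rw [mul_comm (Gks _ _ _ _ _ _ _), PowerSeries.coeff_mul,
        Finset.Nat.sum_antidiagonal_eq_sum_range_succ_mk, mul_sum, mul_sum]
      refine sum_congr rfl (fun j _ => ?_)
      rw [coeff_mk]
      unfold f2W
      ring
    · rw [if_neg hy, zero_mul]
      refine sum_eq_zero (fun j _ => ?_)
      rw [PowerSeries.coeff_C, if_neg hy, mul_zero]
  rw [sum_congr rfl (fun z _ => key z), ← mul_sum]
  have hc := cross (hg c) (l c) ks y.2 n (by rw [hks1]; exact hn)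
  rw [← f2_sum_T y.2 (fun s r => wg (t1 c) (t2 c) (t3 c) s *
    wg (t3 c) (-t1 c - t2 c - t3 c) (t1 c) r *
        coeff n (Gks (l c) (t1 c) (t2 c) (t3 c) ks s r *
          PowerSeries.mk (ee (pwr (t1 c) (t2 c) (t3 c) s r))))] at hc
  rw [hc, mul_zero]

end

end MPa7fa83.Cs
end

section

/-!
# L5: the main induction applied to the generating series

`gen_main`: apply `core` with `R = ι → (LaurentSeries K)⟦X⟧`, `A = FA ρ p`,
`κ = fc (t1 t2)`, `P = PP (alf ..) (bef ..)`, `N d = Z12 d * Zi`, `M b = Z34 b * Wi`, using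
`rel12`, `Rel_norm`, `norm_succ`, `Z12_succ`, `Z34_mem`, `PP_supp`, `PP_top`, `al_Bf`, `be_Bf`,
`al_odd`, `be_odd`, `al_zero`.  The condition `Gen` holds by `hAB` and `m ≠ 0`.
-/

set_option autoImplicit false

namespace MPa7fa83.Cs

open Finset PowerSeries MPa7fa83.Ok

section

variable {K : Type*} [Field K] [CharZero K] {ι : Type*} [Fintype ι]

omit [CharZero K] in
private lemma l5_lin_coeff_zero (a b : K) : (lin a b).coeff 0 = a := by
  unfold lin
  rw [HahnSeries.coeff_add, HahnSeries.coeff_single_of_ne (by norm_num : (0 : ℤ) ≠ 1)]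
  simp

omit [CharZero K] in
private lemma l5_lin_coeff_one (a b : K) : (lin a b).coeff 1 = b := by
  unfold lin
  rw [HahnSeries.coeff_add, HahnSeries.coeff_single_same]
  simp [HahnSeries.C_apply]

omit [CharZero K] in
private lemma l5_int_coeff (n : ℤ) (x : LaurentSeries K) (i : ℤ) :
    ((n : LaurentSeries K) * x).coeff i = (n : K) * x.coeff i := by
  have h1 : (n : LaurentSeries K) * x = n • x := (zsmul_eq_mul x n).symm
  have h2 : (n • x : LaurentSeries K).coeff i = n • (x.coeff i) := by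
    clear h1
    induction n with
    | zero => rw [zero_smul, zero_smul]; rfl
    | succ n ih => rw [add_smul, add_smul, HahnSeries.coeff_add, ih, one_smul, one_smul]
    | pred n ih => rw [sub_smul, sub_smul, HahnSeries.coeff_sub, ih, one_smul, one_smul]
  rw [h1, h2]
  exact zsmul_eq_mul _ _

theorem gen_c {A B M : K} {m : K} (hm : m ≠ 0)
    (hAB : ∀ a b : ℤ, (a : K) * A + b * B = 0 → a = 0 ∧ b = 0) :
    Gen (lin 0 (-A)) (lin 0 (-B)) (lin (-m) (-M)) := by
  rintro ⟨i, j, k⟩ h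
  have h' : ((i : LaurentSeries K) * lin 0 (-A) + (j : LaurentSeries K) * lin 0 (-B)) +
      (k : LaurentSeries K) * lin (-m) (-M) = 0 := h
  have e0 := congrArg (fun x : LaurentSeries K => x.coeff 0) h'
  have e1 := congrArg (fun x : LaurentSeries K => x.coeff 1) h'
  simp only [HahnSeries.coeff_add, l5_int_coeff, l5_lin_coeff_zero, l5_lin_coeff_one,
    HahnSeries.coeff_zero] at e0 e1
  have hk : k = 0 := by
    have : (k : K) * m = 0 := by linear_combination -e0
    rcases mul_eq_zero.1 this with hk | hk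
    · exact_mod_cast hk
    · exact absurd hk hm
  subst hk
  obtain ⟨hi, hj⟩ := hAB i j (by
    have := e1
    push_cast at this
    linear_combination -this)
  subst hi hj
  rfl

theorem gen_main {ρ : ι → K} (p : Bool) (A B M L : ι → K) (m l : K) (hm : m ≠ 0)
    (hAB : ∀ c, ∀ a b : ℤ, (a : K) * A c + b * B c = 0 → a = 0 ∧ b = 0)
    (h1 : ∑ c, ρ c * (A c + B c) = 0) (hM : ∑ c, ρ c * M c = 0) (hL : ∑ c, ρ c * L c = 0)
    (hp : p = true → l = 0 ∧ ∀ c, 2 * L c = -(A c + B c))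
    {Zi : MvPowerSeries ℕ (ι → (LaurentSeries K)⟦X⟧)}
    (hZ : Z12 (c1 A) (c1 B) (c3 m M) (c4 l L) 0 * Zi = 1) (a : ℕ) (I : ℕ →₀ ℕ) :
    FAp ρ p (a + 2 + deg I + 2 * num I) (MvPowerSeries.coeff I
      (Z12 (c1 A) (c1 B) (c3 m M) (c4 l L) (Finsupp.single a 1) * Zi)) := by
  have hg : ∀ c, Gen (c1 A c) (c1 B c) (c3 m M c) := fun c => gen_c hm (hAB c)
  obtain ⟨Wi, hW⟩ := Z34_inv (c1 A) (c1 B) (c3 m M) (c4 l L)
  have h1' : ∑ c, ρ c * (-A c + -B c) = 0 := by
    have : ∑ c, ρ c * (-A c + -B c) = -∑ c, ρ c * (A c + B c) := by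
      rw [← Finset.sum_neg_distrib]
      exact Finset.sum_congr rfl fun c _ => by ring
    rw [this, h1, neg_zero]
  have hl : Bf ρ (c4 l L) := Bf_lin l hL
  have h3 : Bf ρ (c3 m M) := Bf_lin (-m) (by
    have : ∑ c, ρ c * (-M c) = -∑ c, ρ c * M c := by
      rw [← Finset.sum_neg_distrib]
      exact Finset.sum_congr rfl fun c _ => by ring
    rw [this, hM, neg_zero])
  -- parity
  have hpar : p = true → ∀ c, 2 * c4 l L c = c1 A c + c1 B c := by
    intro hpt c
    obtain ⟨hl0, h2⟩ := hp hpt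
    subst hl0
    have h2c := h2 c
    have e : (2 : LaurentSeries K) * lin 0 (L c) = lin 0 (2 * L c) := by
      unfold lin
      rw [map_zero, zero_add, zero_add, two_mul, two_mul, ← HahnSeries.single_add]
    have e' : lin 0 (-A c) + lin 0 (-B c) = lin 0 (-(A c + B c)) := by
      unfold lin
      rw [map_zero, zero_add, zero_add, zero_add, ← HahnSeries.single_add, neg_add]
    change (2 : LaurentSeries K) * lin 0 (L c) = lin 0 (-A c) + lin 0 (-B c)
    rw [e, e', h2c]
  have hα : ∀ e, alf (c1 A) (c1 B) (c4 l L) e ∈ FA ρ p 0 ∧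
      (alf (c1 A) (c1 B) (c4 l L) e = 0 ∨ okb p 0 e) := by
    intro e
    refine ⟨FAp_C (al_Bf h1' hl e), ?_⟩
    cases p
    · exact Or.inr (Nat.zero_le e)
    · rcases Nat.mod_two_eq_zero_or_one e with he | he
      · exact Or.inr ⟨e / 2, by omega⟩
      · left
        funext c
        change C (al (c1 A c) (c1 B c) (c4 l L c) e) = 0
        rw [al_odd (hpar rfl c) he, map_zero]
  have hβ : ∀ e, bef (c1 A) (c1 B) (c3 m M) (c4 l L) e ∈ FA ρ p 0 ∧
      (bef (c1 A) (c1 B) (c3 m M) (c4 l L) e = 0 ∨ okb p 0 e) := by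
    intro e
    refine ⟨FAp_C (be_Bf h1' h3 hl e), ?_⟩
    cases p
    · exact Or.inr (Nat.zero_le e)
    · rcases Nat.mod_two_eq_zero_or_one e with he | he
      · exact Or.inr ⟨e / 2, by omega⟩
      · left
        funext c
        change C (be (c1 A c) (c1 B c) (c3 m M c) (c4 l L c) e) = 0
        rw [be_odd (hpar rfl c) he, map_zero]
  have hκ : fc (fun c => c1 A c * c1 B c) ∈ FA ρ p 0 := by
    refine FAp_C (Bf_ord fun c i hi => ?_)
    have e : c1 A c * c1 B c = HahnSeries.single (1 + 1) (-A c * -B c) := by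
      change lin 0 (-A c) * lin 0 (-B c) = _
      unfold lin
      rw [map_zero, zero_add, zero_add, HahnSeries.single_mul_single]
    rw [e]
    exact HahnSeries.coeff_single_of_ne (by omega)
  have hα0 : alf (c1 A) (c1 B) (c4 l L) 0 = 1 := by
    funext c
    change C (al (c1 A c) (c1 B c) (c4 l L c) 0) = 1
    rw [al_zero, map_one]
  exact core (okb_rel p) (okb_refl p) (fun _ _ h => okb_le h) (Fil_FA ρ p)
    (fc (fun c => c1 A c * c1 B c)) hκ
    (PP (alf (c1 A) (c1 B) (c4 l L)) (bef (c1 A) (c1 B) (c3 m M) (c4 l L)))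
    (PP_supp (okb_rel p) (okb_refl p) (Fil_FA ρ p) hα hβ) (PP_top hα0)
    (fun d => Z12 (c1 A) (c1 B) (c3 m M) (c4 l L) d * Zi) hZ
    (fun d k => norm_succ _ _ (Z12_succ (c1 A) (c1 B) (c3 m M) (c4 l L)) hZ d k)
    (fun b => Z34 (c1 A) (c1 B) (c3 m M) (c4 l L) b * Wi) hW
    (fun b I n => Z34_mem p A B M L m l hm h1 hM hL hp hW b I n)
    (Rel_norm _ _ _ (rel12 (c1 A) (c1 B) (c3 m M) (c4 l L) hg) hZ hW
      (Z34_P0 (c1 A) (c1 B) (c3 m M) (c4 l L))) a I

end

end MPa7fa83.Cs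
end
end
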