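import Pool.Agent.Lib.MP_a7fa83_ag.Cs.L5
import Pool.Agent.Lib.MP_a7fa83_ag.Cs.L3
import Pool.Agent.Lib.MP_a7fa83_ag.Cs.L4

/-!
# L6: assembly

`main`: pass to each `c` (evaluation at `c` is a ring homomorphism
`(ι → F⟦X⟧) → F⟦X⟧`, and `Zc c` is the image of `Z12 0`); by `gen_main`, with `κ c = A c B c z²`,
`κ c (∂_k Zc c) (Zc c)⁻¹` is the value at `c` of `Z12 (single k 1) * Zi` (`Z12_succ`); divide by
`κ c` and sum: `loc_sum`, `log_prod`, `moments`; regularity of the coefficient of `τ^0`: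
`reg_of_log` with `k = 0` (`chs l a b 0 s` is the number of boxes, so the coefficient of `τ^0` of
`∂_0 Z` is the `q`-derivative of the one of `Z`).
-/

set_option autoImplicit false

namespace MPa7fa83.Cs

open Finset PowerSeries MPa7fa83.Ok

section

variable {K : Type*} [Field K] [CharZero K] {ι : Type*} [Fintype ι]

/-- the generating series of the plane 12 at the point `c` -/
noncomputable def Zc (A B M L : ι → K) (m l : K) (c : ι) :
    MvPowerSeries ℕ (LaurentSeries K)⟦X⟧ :=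
  Zg (wg (c1 A c) (c1 B c) (c3 m M c)) (fun k => chs (c4 l L c) (c1 A c) (c1 B c) k)

omit [CharZero K] [Fintype ι] in
private lemma map_pderiv_aux {R S : Type*} [CommRing R] [CommRing S] (φ : R →+* S) (k : ℕ)
    (f : MvPowerSeries ℕ R) :
    MvPowerSeries.map φ (MvPowerSeries.pderiv R k f) =
      MvPowerSeries.pderiv S k (MvPowerSeries.map φ f) := by
  ext n
  rw [MvPowerSeries.coeff_map, MvPowerSeries.coeff_pderiv, MvPowerSeries.coeff_pderiv,
    MvPowerSeries.coeff_map, map_mul, map_add, map_natCast, map_one]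

private lemma dfac_zero_aux : dfac 0 = 1 := by
  simp [dfac]

private lemma dfac_single_aux (k : ℕ) : dfac (Finsupp.single k 1) = 1 := by
  unfold dfac
  rw [Finsupp.prod_single_index (by simp)]
  simp

private lemma src_zero_aux {F : Type*} [Field F] [Algebra ℚ F] (x : ℕ → F) : src x 0 = 1 := by
  unfold src
  rw [dfac_zero_aux, mon_zero]
  simp

private lemma src_single_aux {F : Type*} [Field F] [Algebra ℚ F] (x : ℕ → F) (k : ℕ) :
    src x (0 + Finsupp.single k 1) = x k := by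
  unfold src
  rw [zero_add, dfac_single_aux, mon_single]
  simp

omit [Fintype ι] in
private lemma Zc_eq_map (A B M L : ι → K) (m l : K) (c : ι) :
    Zc A B M L m l c = MvPowerSeries.map (Pi.evalRingHom (fun _ => (LaurentSeries K)⟦X⟧) c)
      (Z12 (c1 A) (c1 B) (c3 m M) (c4 l L) 0) := by
  ext1 I
  rw [MvPowerSeries.coeff_map]
  show qs _ = qs _
  congr 1
  funext s
  rw [mon_zero, one_mul]

/-- the coefficient of `τ^0` of `∂_0 Z` is the logarithmic `q`-derivative -/
private def PD (Z : MvPowerSeries ℕ (LaurentSeries K)⟦X⟧) : Prop :=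
  MvPowerSeries.constantCoeff (MvPowerSeries.pderiv (LaurentSeries K)⟦X⟧ 0 Z) =
    X * PowerSeries.derivative (LaurentSeries K) (MvPowerSeries.constantCoeff Z)

omit [CharZero K] in
private lemma PD_one : PD (1 : MvPowerSeries ℕ (LaurentSeries K)⟦X⟧) := by
  unfold PD
  rw [MvPowerSeries.pderiv_one, map_zero, map_one]
  rw [Derivation.map_one_eq_zero, mul_zero]

omit [CharZero K] in
private lemma PD_mul {Z Z' : MvPowerSeries ℕ (LaurentSeries K)⟦X⟧} (h : PD Z) (h' : PD Z') :
    PD (Z * Z') := by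
  unfold PD at *
  rw [Derivation.leibniz, map_add, smul_eq_mul, smul_eq_mul, map_mul, map_mul, h, h', map_mul,
    Derivation.leibniz, smul_eq_mul, smul_eq_mul]
  ring

omit [CharZero K] in
private lemma coeff_Xd (f : (LaurentSeries K)⟦X⟧) (n : ℕ) :
    coeff n (X * PowerSeries.derivative (LaurentSeries K) f) = (n : LaurentSeries K) * coeff n f := by
  cases n with
  | zero => simp
  | succ n =>
    rw [coeff_succ_X_mul, PowerSeries.coeff_derivative]
    push_cast
    ring

private lemma chs_zero_aux {F : Type*} [Field F] [Algebra ℚ F] (l a b : F)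
    (s : Finset (ℕ × ℕ)) : chs l a b 0 s = (s.card : F) := by
  simp [chs]

omit [Fintype ι] in
private lemma PD_Zc (A B M L : ι → K) (m l : K) (c : ι) : PD (Zc A B M L m l c) := by
  unfold PD
  rw [← MvPowerSeries.coeff_zero_eq_constantCoeff_apply,
    ← MvPowerSeries.coeff_zero_eq_constantCoeff_apply, MvPowerSeries.coeff_pderiv]
  ext1 n
  rw [coeff_Xd]
  have e1 : MvPowerSeries.coeff (0 + Finsupp.single 0 1) (Zc A B M L m l c) =
      qs (fun s => wg (c1 A c) (c1 B c) (c3 m M c) s *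
        src (fun k => chs (c4 l L c) (c1 A c) (c1 B c) k s) (0 + Finsupp.single 0 1)) := rfl
  have e2 : MvPowerSeries.coeff 0 (Zc A B M L m l c) =
      qs (fun s => wg (c1 A c) (c1 B c) (c3 m M c) s *
        src (fun k => chs (c4 l L c) (c1 A c) (c1 B c) k s) 0) := rfl
  rw [e1, e2]
  have e3 : ((0 : ℕ →₀ ℕ) 0 : (LaurentSeries K)⟦X⟧) + 1 = 1 := by simp
  rw [e3, mul_one]
  unfold qs
  rw [PowerSeries.coeff_mk, PowerSeries.coeff_mk, Finset.mul_sum]
  refine Finset.sum_congr rfl (fun s hs => ?_)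
  have hcard : s.card = n := (mem_dg.1 hs).2
  beta_reduce
  rw [src_single_aux, src_zero_aux, chs_zero_aux, hcard, mul_one]
  exact mul_comm _ _

theorem main [DecidableEq ι] (p : Bool) (A B M L : ι → K) (m l : K) (hm : m ≠ 0)
    (hAB : ∀ c, ∀ a b : ℤ, (a : K) * A c + b * B c = 0 → a = 0 ∧ b = 0)
    (h0 : ∑ c, (A c * B c)⁻¹ = 0)
    (h1 : ∑ c, (A c * B c)⁻¹ * (A c + B c) = 0) (hM : ∑ c, (A c * B c)⁻¹ * M c = 0)
    (hL : ∑ c, (A c * B c)⁻¹ * L c = 0)
    (hp : p = true → l = 0 ∧ ∀ c, 2 * L c = -(A c + B c)) :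
    Reg (MvPowerSeries.coeff 0 (∏ c, Zc A B M L m l c)) ∧
    ∀ I : ℕ →₀ ℕ, ∃ G : (LaurentSeries K)⟦X⟧, Gp p (wt I) G ∧
      MvPowerSeries.coeff I (∏ c, Zc A B M L m l c) =
        MvPowerSeries.coeff 0 (∏ c, Zc A B M L m l c) * G := by
  obtain ⟨Zi, hZi⟩ := Z12_inv (c1 A) (c1 B) (c3 m M) (c4 l L)
  set ev' : ∀ c : ι, (ι → (LaurentSeries K)⟦X⟧) →+* (LaurentSeries K)⟦X⟧ :=
    fun c => Pi.evalRingHom (fun _ => (LaurentSeries K)⟦X⟧) c with hev
  set Y : ι → MvPowerSeries ℕ (LaurentSeries K)⟦X⟧ := fun c => MvPowerSeries.map (ev' c) Zi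
    with hY
  have hZY : ∀ c, Zc A B M L m l c * Y c = 1 := by
    intro c
    rw [Zc_eq_map, hY]
    show MvPowerSeries.map (ev' c) _ * MvPowerSeries.map (ev' c) _ = 1
    rw [← map_mul, hZi, map_one]
  have hA0 : ∀ c, A c ≠ 0 := by
    intro c h
    have := (hAB c 1 0 (by simp [h])).1
    omega
  have hB0 : ∀ c, B c ≠ 0 := by
    intro c h
    have := (hAB c 0 1 (by simp [h])).2
    omega
  have hkap : ∀ c, (HahnSeries.single (-2 : ℤ) ((A c * B c)⁻¹) : LaurentSeries K) *
      (c1 A c * c1 B c) = 1 := by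
    intro c
    unfold c1 lin
    rw [map_zero, zero_add, zero_add, HahnSeries.single_mul_single,
      HahnSeries.single_mul_single]
    have e : (A c * B c)⁻¹ * (-A c * -B c) = 1 := by
      rw [neg_mul_neg]
      exact inv_mul_cancel₀ (mul_ne_zero (hA0 c) (hB0 c))
    rw [e]
    have e2 : (-2 : ℤ) + (1 + 1) = 0 := by norm_num
    rw [e2]
    rfl
  have hlog : ∀ (k : ℕ) (J : ℕ →₀ ℕ), Gp p (k + 2 + deg J + 2 * num J)
      (MvPowerSeries.coeff J (MvPowerSeries.pderiv (LaurentSeries K)⟦X⟧ k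
        (∏ c, Zc A B M L m l c) * ∏ c, Y c)) := by
    intro k J
    have hF := gen_main (ρ := fun c => (A c * B c)⁻¹) p A B M L m l hm hAB h1 hM hL hp hZi k J
    have hG := loc_sum h0 hF
    have hval : ∀ c, MvPowerSeries.coeff J
        (Z12 (c1 A) (c1 B) (c3 m M) (c4 l L) (Finsupp.single k 1) * Zi) c =
        C (c1 A c * c1 B c) * MvPowerSeries.coeff J
          (MvPowerSeries.pderiv (LaurentSeries K)⟦X⟧ k (Zc A B M L m l c) * Y c) := by
      intro c
      have e1 := Z12_succ (c1 A) (c1 B) (c3 m M) (c4 l L) 0 k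
      rw [zero_add] at e1
      have e2 : MvPowerSeries.coeff J
          (Z12 (c1 A) (c1 B) (c3 m M) (c4 l L) (Finsupp.single k 1) * Zi) c =
          MvPowerSeries.coeff J (MvPowerSeries.map (ev' c)
            (Z12 (c1 A) (c1 B) (c3 m M) (c4 l L) (Finsupp.single k 1) * Zi)) := by
        rw [MvPowerSeries.coeff_map]
        rfl
      rw [e2, e1, map_mul (MvPowerSeries.map (ev' c)), map_mul (MvPowerSeries.map (ev' c)),
        map_pderiv_aux, MvPowerSeries.map_C, mul_assoc, MvPowerSeries.coeff_C_mul, Zc_eq_map]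
      rfl
    have hsum : (∑ c, C (HahnSeries.single (-2 : ℤ) ((A c * B c)⁻¹) : LaurentSeries K) *
        MvPowerSeries.coeff J
          (Z12 (c1 A) (c1 B) (c3 m M) (c4 l L) (Finsupp.single k 1) * Zi) c) =
        MvPowerSeries.coeff J (MvPowerSeries.pderiv (LaurentSeries K)⟦X⟧ k
        (∏ c, Zc A B M L m l c) * ∏ c, Y c) := by
      rw [log_prod _ _ hZY, map_sum]
      refine Finset.sum_congr rfl (fun c _ => ?_)
      rw [hval c, ← mul_assoc, ← map_mul, hkap c, map_one, one_mul]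
    rw [← hsum]
    exact hG
  have hprod : (∏ c, Zc A B M L m l c) * ∏ c, Y c = 1 := by
    rw [← Finset.prod_mul_distrib]
    exact Finset.prod_eq_one (fun c _ => hZY c)
  refine ⟨?_, moments hprod hlog⟩
  have hPD : PD (∏ c, Zc A B M L m l c) :=
    Finset.prod_induction _ PD (fun _ _ => PD_mul) PD_one (fun c _ => PD_Zc A B M L m l c)
  have hg := (hlog 0 0).1
  have hgf : MvPowerSeries.coeff 0 (MvPowerSeries.pderiv (LaurentSeries K)⟦X⟧ 0
      (∏ c, Zc A B M L m l c) * ∏ c, Y c) * MvPowerSeries.coeff 0 (∏ c, Zc A B M L m l c) =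
      X * PowerSeries.derivative (LaurentSeries K) (MvPowerSeries.coeff 0 (∏ c, Zc A B M L m l c)) := by
    rw [MvPowerSeries.coeff_zero_eq_constantCoeff_apply,
      MvPowerSeries.coeff_zero_eq_constantCoeff_apply, ← hPD, ← map_mul, mul_assoc,
      mul_comm (∏ c, Y c), hprod, mul_one]
  have hone : ∀ c, coeff 0 (MvPowerSeries.constantCoeff (Zc A B M L m l c)) = 1 := by
    intro c
    rw [← MvPowerSeries.coeff_zero_eq_constantCoeff_apply, coeff_zero_eq_constantCoeff_apply]
    have e2 : MvPowerSeries.coeff 0 (Zc A B M L m l c) =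
      qs (fun s => wg (c1 A c) (c1 B c) (c3 m M c) s *
        src (fun k => chs (c4 l L c) (c1 A c) (c1 B c) k s) 0) := rfl
    rw [e2, constantCoeff_qs, wg_empty, src_zero_aux, mul_one]
  have hf1 : coeff 0 (MvPowerSeries.coeff 0 (∏ c, Zc A B M L m l c)) = 1 := by
    rw [MvPowerSeries.coeff_zero_eq_constantCoeff_apply, coeff_zero_eq_constantCoeff_apply,
      map_prod, map_prod]
    refine Finset.prod_eq_one (fun c _ => ?_)
    rw [← coeff_zero_eq_constantCoeff_apply]
    exact hone c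
  refine reg_of_log hg (fun n => ?_) ?_ hf1
  · rw [hgf, coeff_Xd]
  · have h := congrArg (coeff 0) hgf
    rw [coeff_Xd, Nat.cast_zero, zero_mul, coeff_zero_eq_constantCoeff_apply, map_mul,
      ← coeff_zero_eq_constantCoeff_apply, ← coeff_zero_eq_constantCoeff_apply, hf1, mul_one] at h
    exact h

end

end MPa7fa83.Cs
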