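import Pool.Agent.Lib.MP_a7fa83_ag.Cs.L6

/-!
# L7: assembly with exponents

The same as `main` of L6 for a product `∏_c Zc^{ε c}` with integer exponents; here
`ρ c = ε c / (A c B c)`.
-/

set_option autoImplicit false

namespace MPa7fa83.Cs

open Finset PowerSeries MPa7fa83.Ok

section

variable {R S : Type*} [CommRing R] [CommRing S] [Algebra R S]

/-- logarithmic derivative of a product of units -/
lemma logD_mul (D : Derivation R S S) (u v : Sˣ) :
    D ((u * v : Sˣ) : S) * ((u * v)⁻¹ : Sˣ) = D (u : S) * (u⁻¹ : Sˣ) + D (v : S) * (v⁻¹ : Sˣ) := by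
  rw [mul_inv, Units.val_mul, Units.val_mul, Derivation.leibniz, smul_eq_mul, smul_eq_mul]
  have h1 := u.mul_inv
  have h2 := v.mul_inv
  linear_combination (D (v : S) * (v⁻¹ : Sˣ)) * h1 + (D (u : S) * (u⁻¹ : Sˣ)) * h2

/-- as a homomorphism -/
noncomputable def logH (D : Derivation R S S) : Sˣ →* Multiplicative S where
  toFun u := Multiplicative.ofAdd (D (u : S) * (u⁻¹ : Sˣ))
  map_one' := by
    rw [Units.val_one, Derivation.map_one_eq_zero, zero_mul, ofAdd_zero]
  map_mul' := by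
    intro u v
    rw [logD_mul, ofAdd_add]

lemma logD_prod {ι : Type*} [Fintype ι] (D : Derivation R S S) (u : ι → Sˣ) (ε : ι → ℤ) :
    D ((∏ c, u c ^ ε c : Sˣ) : S) * ((∏ c, u c ^ ε c)⁻¹ : Sˣ) =
      ∑ c, (ε c : S) * (D (u c : S) * ((u c)⁻¹ : Sˣ)) := by
  have h : logH D (∏ c, u c ^ ε c) = ∏ c, logH D (u c) ^ ε c := by
    rw [map_prod]
    simp only [map_zpow]
  have h2 := congrArg Multiplicative.toAdd h
  rw [toAdd_prod] at h2
  simp only [toAdd_zpow] at h2
  have h3 : ∀ u : Sˣ, Multiplicative.toAdd (logH D u) = D (u : S) * (u⁻¹ : Sˣ) := fun u => rfl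
  rw [h3] at h2
  rw [h2]
  apply Finset.sum_congr rfl
  intro c _
  rw [h3, zsmul_eq_mul]

end

section

variable {K : Type*} [Field K] {ι : Type*}

/-- derivatives commute with maps of coefficients -/
lemma pderiv_map' {R S : Type*} [CommRing R] [CommRing S] (φ : R →+* S) (k : ℕ)
    (f : MvPowerSeries ℕ R) : MvPowerSeries.pderiv S k (MvPowerSeries.map φ f) =
      MvPowerSeries.map φ (MvPowerSeries.pderiv R k f) := by
  ext I
  rw [MvPowerSeries.coeff_pderiv, MvPowerSeries.coeff_map, MvPowerSeries.coeff_map,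
    MvPowerSeries.coeff_pderiv, map_mul, map_add, map_natCast, map_one]

/-- the value at `c` of the generating series -/
lemma map_Z12 [CharZero K] (A B M L : ι → K) (m l : K) (c : ι) :
    MvPowerSeries.map (Pi.evalRingHom (fun _ : ι => (LaurentSeries K)⟦X⟧) c)
      (Z12 (c1 A) (c1 B) (c3 m M) (c4 l L) 0) = Zc A B M L m l c := by
  ext1 I
  rw [MvPowerSeries.coeff_map]
  show qs _ = qs _
  congr 1
  funext s
  rw [mon_zero, one_mul]

/-- the weight `t1 t2` as a Laurent series -/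
lemma kap (A B : ι → K) (c : ι) : c1 A c * c1 B c = HahnSeries.single (2 : ℤ) (A c * B c) := by
  unfold c1 lin
  rw [map_zero, zero_add, zero_add, HahnSeries.single_mul_single]
  norm_num

lemma kap_inv {A B : ι → K} {c : ι} (h : A c * B c ≠ 0) :
    (C (HahnSeries.single (-2 : ℤ) ((A c * B c)⁻¹) : LaurentSeries K) : (LaurentSeries K)⟦X⟧) *
      C (c1 A c * c1 B c) = 1 := by
  rw [kap, ← map_mul, HahnSeries.single_mul_single, inv_mul_cancel₀ h]
  norm_num

/-- the logarithmic derivatives at `c` -/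
lemma log_c [CharZero K] (A B M L : ι → K) (m l : K) {c : ι} (h : A c * B c ≠ 0)
    (Zi : MvPowerSeries ℕ (ι → (LaurentSeries K)⟦X⟧)) (k : ℕ) (J : ℕ →₀ ℕ) :
    MvPowerSeries.coeff J (MvPowerSeries.pderiv (LaurentSeries K)⟦X⟧ k (Zc A B M L m l c) *
      MvPowerSeries.map (Pi.evalRingHom (fun _ : ι => (LaurentSeries K)⟦X⟧) c) Zi) =
    C (HahnSeries.single (-2 : ℤ) ((A c * B c)⁻¹) : LaurentSeries K) *
      (MvPowerSeries.coeff J
        (Z12 (c1 A) (c1 B) (c3 m M) (c4 l L) (Finsupp.single k 1) * Zi)) c := by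
  have e1 : (MvPowerSeries.coeff J
      (Z12 (c1 A) (c1 B) (c3 m M) (c4 l L) (Finsupp.single k 1) * Zi)) c =
      MvPowerSeries.coeff J (MvPowerSeries.map
        (Pi.evalRingHom (fun _ : ι => (LaurentSeries K)⟦X⟧) c)
        (Z12 (c1 A) (c1 B) (c3 m M) (c4 l L) (Finsupp.single k 1) * Zi)) := by
    rw [MvPowerSeries.coeff_map]
    rfl
  have e2 := Z12_succ (c1 A) (c1 B) (c3 m M) (c4 l L) 0 k
  rw [zero_add] at e2
  rw [e1, e2, RingHom.map_mul, RingHom.map_mul, MvPowerSeries.map_C, ← pderiv_map', map_Z12,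
    mul_assoc, MvPowerSeries.coeff_C_mul, ← mul_assoc]
  have e3 : (Pi.evalRingHom (fun _ : ι => (LaurentSeries K)⟦X⟧) c)
      (fc (fun c => c1 A c * c1 B c)) = C (c1 A c * c1 B c) := rfl
  rw [e3, kap_inv h, one_mul]

lemma Zc_mul [CharZero K] (A B M L : ι → K) (m l : K) (c : ι)
    {Zi : MvPowerSeries ℕ (ι → (LaurentSeries K)⟦X⟧)}
    (hZ : Z12 (c1 A) (c1 B) (c3 m M) (c4 l L) 0 * Zi = 1) :
    Zc A B M L m l c *
      MvPowerSeries.map (Pi.evalRingHom (fun _ : ι => (LaurentSeries K)⟦X⟧) c) Zi = 1 := by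
  rw [← map_Z12, ← map_mul, hZ, map_one]

lemma single_int (a : ℤ) (x : K) : (HahnSeries.single (-2 : ℤ) ((a : K) * x) : LaurentSeries K) =
    (a : LaurentSeries K) * HahnSeries.single (-2 : ℤ) x := by
  have e : (a : LaurentSeries K) = HahnSeries.C (a : K) := (map_intCast HahnSeries.C a).symm
  rw [e, HahnSeries.C_apply, HahnSeries.single_mul_single, zero_add]

/-- the `q`-derivative -/
noncomputable def qd (F : Type*) [Field F] : Derivation F F⟦X⟧ F⟦X⟧ := (X : F⟦X⟧) • derivative F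

lemma coeff_qd {F : Type*} [Field F] (f : F⟦X⟧) (n : ℕ) : coeff n (qd F f) = n * coeff n f := by
  unfold qd
  rw [Derivation.smul_apply, smul_eq_mul]
  cases n with
  | zero => rw [coeff_zero_X_mul, Nat.cast_zero, zero_mul]
  | succ n =>
    rw [coeff_succ_X_mul, coeff_derivative]
    push_cast
    ring

/-- the coefficient of `τ^0` of the derivative in `τ_0` is the `q`-derivative -/
lemma coeff_pderiv_Zc [CharZero K] (A B M L : ι → K) (m l : K) (c : ι) :
    MvPowerSeries.constantCoeff (MvPowerSeries.pderiv (LaurentSeries K)⟦X⟧ 0 (Zc A B M L m l c)) =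
      qd (LaurentSeries K) (MvPowerSeries.constantCoeff (Zc A B M L m l c)) := by
  rw [← MvPowerSeries.coeff_zero_eq_constantCoeff_apply, MvPowerSeries.coeff_pderiv,
    ← MvPowerSeries.coeff_zero_eq_constantCoeff_apply]
  rw [Finsupp.coe_zero, Pi.zero_apply, Nat.cast_zero, zero_add, zero_add, mul_one]
  ext1 n
  rw [coeff_qd]
  show coeff n (qs _) = _ * coeff n (qs _)
  unfold qs
  rw [coeff_mk, coeff_mk, Finset.mul_sum]
  apply Finset.sum_congr rfl
  intro s hs
  have hs2 := (mem_dg.1 hs).2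
  have e1 : src (fun k => chs (c4 l L c) (c1 A c) (c1 B c) k s) (Finsupp.single 0 1) = (n : LaurentSeries K) := by
    unfold src
    rw [mon_single]
    unfold dfac chs
    simp [hs2]
  have e2 : src (fun k => chs (c4 l L c) (c1 A c) (c1 B c) k s) 0 = 1 := by
    unfold src
    rw [mon_zero]
    unfold dfac
    simp
  show wg (c1 A c) (c1 B c) (c3 m M c) s *
      src (fun k => chs (c4 l L c) (c1 A c) (c1 B c) k s) (Finsupp.single 0 1) =
    n * (wg (c1 A c) (c1 B c) (c3 m M c) s *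
      src (fun k => chs (c4 l L c) (c1 A c) (c1 B c) k s) 0)
  rw [e1, e2]
  ring

end

section

variable {K : Type*} [Field K] [CharZero K] {ι : Type*} [Fintype ι]

/-- the main theorem, with exponents -/
theorem main_gen (p : Bool) (A B M L : ι → K) (m l : K) (ε : ι → ℤ) (hm : m ≠ 0)
    (hAB : ∀ c, ∀ a b : ℤ, (a : K) * A c + b * B c = 0 → a = 0 ∧ b = 0)
    (h0 : ∑ c, ε c * (A c * B c)⁻¹ = 0)
    (h1 : ∑ c, ε c * (A c * B c)⁻¹ * (A c + B c) = 0)
    (hM : ∑ c, ε c * (A c * B c)⁻¹ * M c = 0) (hL : ∑ c, ε c * (A c * B c)⁻¹ * L c = 0)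
    (hp : p = true → l = 0 ∧ ∀ c, 2 * L c = -(A c + B c))
    (U : ι → (MvPowerSeries ℕ (LaurentSeries K)⟦X⟧)ˣ)
    (hU : ∀ c, (U c : MvPowerSeries ℕ (LaurentSeries K)⟦X⟧) = Zc A B M L m l c) :
    Reg (MvPowerSeries.coeff 0 ((∏ c, U c ^ ε c : (MvPowerSeries ℕ (LaurentSeries K)⟦X⟧)ˣ) :
      MvPowerSeries ℕ (LaurentSeries K)⟦X⟧)) ∧
    ∀ I : ℕ →₀ ℕ, ∃ G : (LaurentSeries K)⟦X⟧, Gp p (wt I) G ∧
      MvPowerSeries.coeff I ((∏ c, U c ^ ε c : (MvPowerSeries ℕ (LaurentSeries K)⟦X⟧)ˣ) :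
        MvPowerSeries ℕ (LaurentSeries K)⟦X⟧) =
      MvPowerSeries.coeff 0 ((∏ c, U c ^ ε c : (MvPowerSeries ℕ (LaurentSeries K)⟦X⟧)ˣ) :
        MvPowerSeries ℕ (LaurentSeries K)⟦X⟧) * G := by
  obtain ⟨Zi, hZ⟩ := Z12_inv (c1 A) (c1 B) (c3 m M) (c4 l L)
  have hne : ∀ c, A c * B c ≠ 0 := by
    intro c h
    rcases mul_eq_zero.1 h with h' | h'
    · have := (hAB c 1 0 (by rw [h']; simp)).1
      norm_num at this
    · have := (hAB c 0 1 (by rw [h']; simp)).2
      norm_num at this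
  have hY : ∀ c, (((U c)⁻¹ : (MvPowerSeries ℕ (LaurentSeries K)⟦X⟧)ˣ) :
      MvPowerSeries ℕ (LaurentSeries K)⟦X⟧) =
      MvPowerSeries.map (Pi.evalRingHom (fun _ : ι => (LaurentSeries K)⟦X⟧) c) Zi := by
    intro c
    have e := Zc_mul A B M L m l c hZ
    rw [← hU c] at e
    exact Units.inv_eq_of_mul_eq_one_right e
  set V : (MvPowerSeries ℕ (LaurentSeries K)⟦X⟧)ˣ := ∏ c, U c ^ ε c with hV
  have hlog : ∀ (k : ℕ) (J : ℕ →₀ ℕ), Gp p (k + 2 + deg J + 2 * num J)
      (MvPowerSeries.coeff J (MvPowerSeries.pderiv (LaurentSeries K)⟦X⟧ k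
        (V : MvPowerSeries ℕ (LaurentSeries K)⟦X⟧) *
        ((V⁻¹ : (MvPowerSeries ℕ (LaurentSeries K)⟦X⟧)ˣ) :
          MvPowerSeries ℕ (LaurentSeries K)⟦X⟧))) := by
    intro k J
    have e := loc_sum (ρ := fun c => (ε c : K) * (A c * B c)⁻¹) (p := p) h0
      (gen_main (ρ := fun c => (ε c : K) * (A c * B c)⁻¹) p A B M L m l hm hAB h1 hM hL hp hZ k J)
    have e2 : MvPowerSeries.coeff J (MvPowerSeries.pderiv (LaurentSeries K)⟦X⟧ k
        (V : MvPowerSeries ℕ (LaurentSeries K)⟦X⟧) *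
        ((V⁻¹ : (MvPowerSeries ℕ (LaurentSeries K)⟦X⟧)ˣ) :
          MvPowerSeries ℕ (LaurentSeries K)⟦X⟧)) =
        ∑ c, C (HahnSeries.single (-2 : ℤ) ((ε c : K) * (A c * B c)⁻¹) : LaurentSeries K) *
          (MvPowerSeries.coeff J
            (Z12 (c1 A) (c1 B) (c3 m M) (c4 l L) (Finsupp.single k 1) * Zi)) c := by
      rw [hV, logD_prod (MvPowerSeries.pderiv (LaurentSeries K)⟦X⟧ k) U ε, map_sum]
      apply Finset.sum_congr rfl
      intro c _
      rw [hY, hU, ← zsmul_eq_mul, map_zsmul, log_c A B M L m l (hne c), zsmul_eq_mul,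
        single_int, RingHom.map_mul, map_intCast, mul_assoc]
    rw [e2]
    exact e
  refine ⟨?_, moments V.mul_inv hlog⟩
  have hlq : qd (LaurentSeries K)
      (MvPowerSeries.constantCoeff (V : MvPowerSeries ℕ (LaurentSeries K)⟦X⟧)) *
      MvPowerSeries.constantCoeff ((V⁻¹ : (MvPowerSeries ℕ (LaurentSeries K)⟦X⟧)ˣ) :
          MvPowerSeries ℕ (LaurentSeries K)⟦X⟧) =
      MvPowerSeries.constantCoeff (MvPowerSeries.pderiv (LaurentSeries K)⟦X⟧ 0
        (V : MvPowerSeries ℕ (LaurentSeries K)⟦X⟧) *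
        ((V⁻¹ : (MvPowerSeries ℕ (LaurentSeries K)⟦X⟧)ˣ) :
          MvPowerSeries ℕ (LaurentSeries K)⟦X⟧)) := by
    have e3 := logD_prod (qd (LaurentSeries K)) (fun c => Units.map
      (MvPowerSeries.constantCoeff (σ := ℕ) (R := (LaurentSeries K)⟦X⟧)).toMonoidHom (U c)) ε
    have e4 : (∏ c, (Units.map (MvPowerSeries.constantCoeff (σ := ℕ)
        (R := (LaurentSeries K)⟦X⟧)).toMonoidHom (U c)) ^ ε c) =
        Units.map (MvPowerSeries.constantCoeff (σ := ℕ)
          (R := (LaurentSeries K)⟦X⟧)).toMonoidHom V := by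
      rw [hV, map_prod]
      simp only [map_zpow]
    rw [e4] at e3
    rw [hV, logD_prod (MvPowerSeries.pderiv (LaurentSeries K)⟦X⟧ 0) U ε, map_sum, ← hV]
    refine Eq.trans e3 ?_
    apply Finset.sum_congr rfl
    intro c _
    rw [RingHom.map_mul, RingHom.map_mul, map_intCast, hU c, coeff_pderiv_Zc, ← hU c]
    rfl
  have hcc : ∀ f : MvPowerSeries ℕ (LaurentSeries K)⟦X⟧,
      MvPowerSeries.coeff 0 f = MvPowerSeries.constantCoeff f := fun f => rfl
  refine reg_of_log (hlog 0 0).1 ?_ ?_ ?_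
  · intro n
    rw [hcc, hcc, ← coeff_qd, ← hlq, mul_assoc, ← RingHom.map_mul, V.inv_mul, map_one, mul_one]
  · have e1 := coeff_qd (MvPowerSeries.constantCoeff
      (V : MvPowerSeries ℕ (LaurentSeries K)⟦X⟧)) 0
    rw [Nat.cast_zero, zero_mul, coeff_zero_eq_constantCoeff_apply] at e1
    rw [hcc, ← hlq, coeff_zero_eq_constantCoeff_apply, RingHom.map_mul, e1, zero_mul]
  · have e1 : coeff 0 (MvPowerSeries.coeff 0 (V : MvPowerSeries ℕ (LaurentSeries K)⟦X⟧)) =
        ((Units.map (((PowerSeries.constantCoeff (R := LaurentSeries K)).comp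
          (MvPowerSeries.constantCoeff (σ := ℕ) (R := (LaurentSeries K)⟦X⟧))).toMonoidHom) V :
            (LaurentSeries K)ˣ) : LaurentSeries K) := by
      rw [coeff_zero_eq_constantCoeff_apply]
      rfl
    have e2 : ∀ c, Units.map (((PowerSeries.constantCoeff (R := LaurentSeries K)).comp
          (MvPowerSeries.constantCoeff (σ := ℕ) (R := (LaurentSeries K)⟦X⟧))).toMonoidHom) (U c) =
          1 := by
      intro c
      ext1
      show PowerSeries.constantCoeff (MvPowerSeries.constantCoeff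
        (U c : MvPowerSeries ℕ (LaurentSeries K)⟦X⟧)) = 1
      rw [hU c]
      show PowerSeries.constantCoeff (qs _) = 1
      rw [constantCoeff_qs, wg_empty, one_mul]
      unfold src
      rw [mon_zero]
      unfold dfac
      simp
    rw [e1, hV, map_prod]
    simp only [map_zpow, e2, one_zpow, Finset.prod_const_one, Units.val_one]

end

end MPa7fa83.Cs
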